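import Pool.Agent.H68.SC.Jl

/-!
# Module JPos (about 130 lines): positivity and bounds near zero

PROOF. `jl_crude`: by two-step induction `|jl l t| ≤ C_l t^(-l)` on `(0, 1]`, i.e. `|t^l jl l t| ≤ C`:
`l = 0`: `|sin t / t| ≤ 1`; `l = 1`: `|t jl 1 t| ≤ |sin t / t| + |cos t| ≤ 2`; recursion.
`jl_pos_succ`: `G t = t^(l+2) jl (l+1) t` has derivative `t^(l+2) jl l t > 0` on `(0, T)` (`jl_up`), and
`G t → 0` as `t → 0+` (`|G t| ≤ C t` by `jl_crude`), so `G > 0` on `(0, T]` (strictly monotone on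
`(0, T]`: `G t > G (t/2) ≥ lim = 0`).
`jl_pos_small`: `jl 0 t = sin t / t > 0` on `(0, 1]`, induction with `jl_pos_succ`.
`jl_le_one`: induction; `l = 0`: `sin t ≤ t`. Step: `t^(l+2) jl (l+1) t - t^(l+3) / (l+3)` has
derivative `t^(l+2) (jl l t - 1) ≤ 0` and limit `0` at `0`, so `jl (l+1) t ≤ t / (l+3) ≤ 1`.
`djl_bound`: upper: `t djl l t = l jl l t - t jl (l+1) t ≤ l jl l t`. Lower: for `l ≥ 1`
`t djl l t = t jl (l-1) t - (l+1) jl l t ≥ - (l+1) jl l t` (`djl_succ`); for `l = 0`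
`t djl 0 t = cos t - sin t / t ≥ - jl 0 t` on `(0, 1]`.
`jl_pos_sq`: let `T = √(l (l+1))`, `0 < t ≤ T`. If `jl l` has a zero in `(0, T]` let `z` be the first one
(`> 1` by `jl_pos_small`; the zero set in `[1, T]` is compact), `jl l > 0` on `(0, z)`. `t² djl l t` has
derivative `≥ 0` on `(0, z)` (`jl_ode`) and tends to `0` at `0` (`djl_bound`, `jl_le_one`), so
`djl l ≥ 0` there and `jl l` is nondecreasing: `jl l z ≥ jl l 1 > 0`.
-/

set_option autoImplicit false

namespace Pool.Agent.H68.SC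

open Filter Topology MeasureTheory Metric
open scoped ContDiff

private theorem JPos_slope {G G' : ℝ → ℝ} {T : ℝ}
    (hG : ∀ t, 0 < t → t ≤ T → HasDerivAt G (G' t) t) {a b : ℝ} (ha : 0 < a) (hab : a < b)
    (hb : b ≤ T) : ∃ c, 0 < c ∧ a < c ∧ c < b ∧ G b - G a = G' c * (b - a) := by
  obtain ⟨c, hc, hc2⟩ := exists_hasDerivAt_eq_slope G G' hab
    (fun x hx => (hG x (ha.trans_le hx.1) (hx.2.trans hb)).continuousAt.continuousWithinAt)
    (fun x hx => hG x (ha.trans hx.1) (hx.2.le.trans hb))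
  have h2 : 0 < b - a := sub_pos.2 hab
  refine ⟨c, ha.trans hc.1, hc.1, hc.2, ?_⟩
  rw [hc2, div_mul_cancel₀ _ h2.ne']

private theorem JPos_mono {G G' : ℝ → ℝ} {T : ℝ}
    (hG : ∀ t, 0 < t → t ≤ T → HasDerivAt G (G' t) t) (h0 : ∀ t, 0 < t → t ≤ T → 0 ≤ G' t)
    {a b : ℝ} (ha : 0 < a) (hab : a ≤ b) (hb : b ≤ T) : G a ≤ G b := by
  rcases hab.eq_or_lt with h | h
  · rw [h]
  · obtain ⟨c, hc0, -, hcb, hc⟩ := JPos_slope hG ha h hb
    have h1 := mul_nonneg (h0 c hc0 (hcb.le.trans hb)) (sub_pos.2 h).le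
    linarith

private theorem JPos_nonneg {G G' : ℝ → ℝ} {T C : ℝ}
    (hG : ∀ t, 0 < t → t ≤ T → HasDerivAt G (G' t) t) (h0 : ∀ t, 0 < t → t ≤ T → 0 ≤ G' t)
    (hC : ∀ t, 0 < t → t ≤ 1 → |G t| ≤ C * t) {t : ℝ} (ht : 0 < t) (htT : t ≤ T) : 0 ≤ G t := by
  by_contra h
  push Not at h
  have hC0 : 0 ≤ C := by
    have h1 := (abs_nonneg _).trans (hC 1 one_pos le_rfl)
    simpa using h1
  have hq : 0 < -G t / (2 * (C + 1)) := by
    apply div_pos <;> linarith
  set s := min (min t 1) (-G t / (2 * (C + 1))) with hs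
  have hs0 : 0 < s := lt_min (lt_min ht one_pos) hq
  have hst : s ≤ t := (min_le_left _ _).trans (min_le_left _ _)
  have hs1 : s ≤ 1 := (min_le_left _ _).trans (min_le_right _ _)
  have hsq : s ≤ -G t / (2 * (C + 1)) := min_le_right _ _
  have h1 := JPos_mono hG h0 hs0 hst htT
  have h2 := (abs_le.1 (hC s hs0 hs1)).1
  rw [le_div_iff₀ (by linarith)] at hsq
  nlinarith

private theorem JPos_pos {G G' : ℝ → ℝ} {T C : ℝ}
    (hG : ∀ t, 0 < t → t ≤ T → HasDerivAt G (G' t) t) (h0 : ∀ t, 0 < t → t ≤ T → 0 < G' t)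
    (hC : ∀ t, 0 < t → t ≤ 1 → |G t| ≤ C * t) {t : ℝ} (ht : 0 < t) (htT : t ≤ T) : 0 < G t := by
  have h1 := JPos_nonneg hG (fun t h h' => (h0 t h h').le) hC (t := t / 2) (by linarith)
    (by linarith)
  obtain ⟨c, hc0, -, hcb, hc⟩ := JPos_slope hG (a := t / 2) (b := t) (by linarith) (by linarith)
    htT
  have h2 := mul_pos (h0 c hc0 (hcb.le.trans htT)) (show (0 : ℝ) < t - t / 2 by linarith)
  linarith

private theorem JPos_sin {t : ℝ} (h0 : 0 < t) (h1 : t ≤ 1) :
    0 < Real.sin t / t ∧ Real.sin t / t ≤ 1 := by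
  constructor
  · exact div_pos (Real.sin_pos_of_pos_of_le_one h0 h1) h0
  · rw [div_le_one h0]
    exact Real.sin_le h0.le

private theorem JPos_jl0 (t : ℝ) : jl 0 t = Real.sin t / t := by rw [jl]

private theorem JPos_jl1 (t : ℝ) : jl 1 t = Real.sin t / t ^ 2 - Real.cos t / t := by rw [jl]

private theorem JPos_crude (l : ℕ) : ∃ C : ℝ, ∀ t, 0 < t → t ≤ 1 → |t ^ l * jl l t| ≤ C := by
  induction l using Nat.twoStepInduction with
  | zero =>
    refine ⟨1, fun t h0 h1 => ?_⟩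
    have h2 := JPos_sin h0 h1
    rw [pow_zero, one_mul, JPos_jl0, abs_of_pos h2.1]
    exact h2.2
  | one =>
    refine ⟨2, fun t h0 h1 => ?_⟩
    have h2 := JPos_sin h0 h1
    have h3 : t ^ 1 * jl 1 t = Real.sin t / t - Real.cos t := by
      rw [JPos_jl1]
      field_simp
    have h4 := Real.neg_one_le_cos t
    have h5 := Real.cos_le_one t
    rw [h3, abs_le]
    constructor <;> linarith
  | more l ih0 ih1 =>
    obtain ⟨C0, hC0⟩ := ih0
    obtain ⟨C1, hC1⟩ := ih1
    refine ⟨(2 * (l : ℝ) + 3) * C1 + C0, fun t h0 h1 => ?_⟩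
    have h2 : t ^ (l + 2) * jl (l + 2) t =
        (2 * (l : ℝ) + 3) * (t ^ (l + 1) * jl (l + 1) t) - t ^ 2 * (t ^ l * jl l t) := by
      rw [jl_rec, pow_add, pow_add]
      field_simp
    rw [h2]
    have h3 := hC0 t h0 h1
    have h4 := hC1 t h0 h1
    have h5 : |(2 * (l : ℝ) + 3) * (t ^ (l + 1) * jl (l + 1) t)| ≤ (2 * (l : ℝ) + 3) * C1 := by
      rw [abs_mul, abs_of_pos (show (0 : ℝ) < 2 * (l : ℝ) + 3 by positivity)]
      exact mul_le_mul_of_nonneg_left h4 (by positivity)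
    have h6 : |t ^ 2 * (t ^ l * jl l t)| ≤ C0 := by
      rw [abs_mul, abs_of_pos (show (0 : ℝ) < t ^ 2 by positivity)]
      have h7 : t ^ 2 ≤ 1 := pow_le_one₀ h0.le h1
      exact (mul_le_of_le_one_left (abs_nonneg _) h7).trans h3
    exact (abs_sub _ _).trans (add_le_add h5 h6)

private theorem JPos_small (l : ℕ) : ∃ C : ℝ, ∀ t, 0 < t → t ≤ 1 →
    |t ^ (l + 2) * jl (l + 1) t| ≤ C * t := by
  obtain ⟨C, hC⟩ := JPos_crude (l + 1)
  refine ⟨C, fun t h0 h1 => ?_⟩
  have h2 : t ^ (l + 2) * jl (l + 1) t = (t ^ (l + 1) * jl (l + 1) t) * t := by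
    rw [pow_succ t (l + 1)]
    ring
  rw [h2, abs_mul, abs_of_pos h0]
  exact mul_le_mul_of_nonneg_right (hC t h0 h1) h0.le

theorem jl_pos_succ (l : ℕ) {T : ℝ} (h : ∀ t, 0 < t → t ≤ T → 0 < jl l t) :
    ∀ t, 0 < t → t ≤ T → 0 < jl (l + 1) t := by
  intro t ht htT
  obtain ⟨C, hC⟩ := JPos_small l
  have h1 := JPos_pos (G := fun t => t ^ (l + 2) * jl (l + 1) t) (G' := fun t => t ^ (l + 2) * jl l t)
    (T := T) (fun t h0 _ => jl_up l h0) (fun t h0 h1 => mul_pos (pow_pos h0 _) (h t h0 h1)) hC ht htT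
  exact (pos_iff_pos_of_mul_pos h1).1 (pow_pos ht _)

theorem jl_pos_small (l : ℕ) {t : ℝ} (h0 : 0 < t) (h1 : t ≤ 1) : 0 < jl l t := by
  induction l generalizing t with
  | zero =>
    rw [JPos_jl0]
    exact (JPos_sin h0 h1).1
  | succ l ih => exact jl_pos_succ l (T := 1) (fun t h h' => ih h h') t h0 h1

theorem jl_le_one (l : ℕ) {t : ℝ} (h0 : 0 < t) (h1 : t ≤ 1) : jl l t ≤ 1 := by
  induction l generalizing t with
  | zero =>
    rw [JPos_jl0]
    exact (JPos_sin h0 h1).2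
  | succ l ih =>
    obtain ⟨C, hC⟩ := JPos_small l
    have hl : (0 : ℝ) < (l : ℝ) + 3 := by positivity
    have h2 := JPos_nonneg (G := fun t => t ^ (l + 3) / ((l : ℝ) + 3) - t ^ (l + 2) * jl (l + 1) t)
      (G' := fun t => t ^ (l + 2) - t ^ (l + 2) * jl l t) (T := 1) (C := 1 + C)
      (fun t ht _ => by
        have h3 : HasDerivAt (fun t : ℝ => t ^ (l + 3) / ((l : ℝ) + 3)) (t ^ (l + 2)) t := by
          have h4 := (hasDerivAt_pow (l + 3) t).div_const ((l : ℝ) + 3)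
          refine h4.congr_deriv ?_
          have h5 : l + 3 - 1 = l + 2 := by omega
          rw [h5]
          push_cast
          field_simp
        exact h3.sub (jl_up l ht))
      (fun t ht ht1 => by
        have h3 := ih ht ht1
        have h4 : 0 < t ^ (l + 2) := pow_pos ht _
        nlinarith)
      (fun t ht ht1 => by
        have h3 := hC t ht ht1
        have h4 : |t ^ (l + 3) / ((l : ℝ) + 3)| ≤ 1 * t := by
          rw [abs_of_pos (by positivity), one_mul, div_le_iff₀ hl, pow_succ]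
          have h5 : t ^ (l + 2) ≤ 1 := pow_le_one₀ ht.le ht1
          have h6 : (0 : ℝ) ≤ l := Nat.cast_nonneg l
          nlinarith [mul_nonneg ht.le h6]
        calc |t ^ (l + 3) / ((l : ℝ) + 3) - t ^ (l + 2) * jl (l + 1) t|
            ≤ |t ^ (l + 3) / ((l : ℝ) + 3)| + |t ^ (l + 2) * jl (l + 1) t| := abs_sub _ _
          _ ≤ (1 + C) * t := by linarith)
      h0 h1
    have h3 : 0 < t ^ (l + 2) := pow_pos h0 _
    have h4 : t ^ (l + 3) / ((l : ℝ) + 3) = t ^ (l + 2) * (t / ((l : ℝ) + 3)) := by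
      rw [pow_succ t (l + 2)]
      ring
    rw [h4, ← mul_sub] at h2
    have h5 : 0 ≤ t / ((l : ℝ) + 3) - jl (l + 1) t := by
      by_contra h6
      push Not at h6
      exact absurd (mul_neg_of_pos_of_neg h3 h6) (not_lt.2 h2)
    have h6 : t / ((l : ℝ) + 3) ≤ 1 := by
      rw [div_le_one hl]
      have h7 : (0 : ℝ) ≤ l := Nat.cast_nonneg l
      linarith
    linarith

theorem djl_bound (l : ℕ) {t : ℝ} (h0 : 0 < t) (h1 : t ≤ 1) :
    |t * djl l t| ≤ ((l : ℝ) + 1) * jl l t := by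
  have hp := jl_pos_small l h0 h1
  have hp1 := jl_pos_small (l + 1) h0 h1
  have hu : t * djl l t = l * jl l t - t * jl (l + 1) t := by
    unfold djl
    field_simp
  rw [abs_le]
  constructor
  · cases l with
    | zero =>
      rw [hu]
      have h2 : t * jl 1 t = Real.sin t / t - Real.cos t := by
        rw [JPos_jl1]
        field_simp
      have h3 : 0 ≤ Real.cos t := (Real.cos_pos_of_le_one (by rw [abs_of_pos h0]; exact h1)).le
      rw [JPos_jl0, zero_add, h2]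
      push_cast
      linarith
    | succ m =>
      rw [djl_succ m h0]
      have h2 : t * (jl m t - ((m : ℝ) + 2) / t * jl (m + 1) t) =
          t * jl m t - ((m : ℝ) + 2) * jl (m + 1) t := by
        field_simp
      rw [h2]
      have h3 := mul_pos h0 (jl_pos_small m h0 h1)
      push_cast
      linarith
  · rw [hu]
    have h2 := mul_pos h0 hp1
    linarith

theorem jl_pos_sq (l : ℕ) {t : ℝ} (h0 : 0 < t) (h1 : t ^ 2 ≤ (l : ℝ) * (l + 1)) :
    0 < jl l t := by
  by_contra hneg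
  push Not at hneg
  have ht1 : 1 < t := by
    by_contra h
    exact absurd (jl_pos_small l h0 (not_lt.1 h)) (not_lt.2 hneg)
  have hcont : ContinuousOn (jl l) (Set.Icc 1 t) := fun x hx =>
    (jl_deriv l (one_pos.trans_le hx.1)).continuousAt.continuousWithinAt
  set S : Set ℝ := {x | x ∈ Set.Icc 1 t ∧ jl l x ≤ 0} with hS
  have hScl : IsClosed S := by
    have h2 := hcont.preimage_isClosed_of_isClosed isClosed_Icc (isClosed_Iic (a := (0 : ℝ)))
    exact h2
  have htS : t ∈ S := ⟨⟨ht1.le, le_rfl⟩, hneg⟩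
  have hSb : BddBelow S := ⟨1, fun x hx => hx.1.1⟩
  set z := sInf S with hz
  have hzS : z ∈ S := hScl.csInf_mem ⟨t, htS⟩ hSb
  have hz1 : 1 < z := by
    rcases hzS.1.1.eq_or_lt with h | h
    · exfalso
      have h2 := hzS.2
      rw [← h] at h2
      exact absurd (jl_pos_small l one_pos le_rfl) (not_lt.2 h2)
    · exact h
  have hpos : ∀ x, 0 < x → x < z → 0 < jl l x := by
    intro x hx hxz
    rcases le_or_gt x 1 with h | h
    · exact jl_pos_small l hx h
    · by_contra h2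
      have h3 : x ∈ S := ⟨⟨h.le, hxz.le.trans hzS.1.2⟩, not_lt.1 h2⟩
      exact absurd (csInf_le hSb h3) (not_le.2 hxz)
  have hd : ∀ x, 0 < x → x < z → 0 ≤ djl l x := by
    intro x hx hxz
    have h2 := JPos_nonneg (G := fun t => t ^ 2 * djl l t)
      (G' := fun t => ((l : ℝ) * (l + 1) - t ^ 2) * jl l t) (T := x) (C := (l : ℝ) + 1)
      (fun t ht _ => jl_ode l ht)
      (fun y hy hyx => by
        have h3 : y < z := hyx.trans_lt hxz
        have h4 : y ≤ t := h3.le.trans hzS.1.2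
        have h5 : y ^ 2 ≤ t ^ 2 := pow_le_pow_left₀ hy.le h4 2
        exact mul_nonneg (by linarith) (hpos y hy h3).le)
      (fun y hy hy1 => by
        have h3 := djl_bound l hy hy1
        have h4 := jl_le_one l hy hy1
        have h5 : y ^ 2 * djl l y = y * (y * djl l y) := by ring
        have h6 : (0 : ℝ) ≤ l := Nat.cast_nonneg l
        rw [h5, abs_mul, abs_of_pos hy]
        have h7 : |y * djl l y| ≤ (l : ℝ) + 1 := by
          refine h3.trans ?_
          nlinarith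
        nlinarith)
      hx le_rfl
    have h3 : 0 < x ^ 2 := by positivity
    by_contra h4
    push Not at h4
    exact absurd (mul_neg_of_pos_of_neg h3 h4) (not_lt.2 h2)
  obtain ⟨c, hc0, -, hcz, hc⟩ := JPos_slope (G := jl l) (G' := djl l) (T := z)
    (fun t ht _ => jl_deriv l ht) one_pos hz1 le_rfl
  have h2 := mul_nonneg (hd c hc0 hcz) (sub_pos.2 hz1).le
  have h3 := jl_pos_small l one_pos le_rfl
  linarith [hzS.2]

end Pool.Agent.H68.SC
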