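import Pool.Agent.H68.SC.Defs

/-!
# Module Jl (about 110 lines): spherical Bessel functions, derivatives and recurrences

PROOF. `jl_deriv`: two-step induction (`Nat.twoStepInduction` or strong induction proving the
statement for `l` and `l + 1` together). `l = 0`: `(sin t / t)' = cos t / t - sin t / t² = - jl 1 t`.
`l = 1`: `(sin t / t² - cos t / t)' = 2 cos t / t² - 2 sin t / t³ + sin t / t = 1/t jl 1 t - jl 2 t`. Step: from
`jl (l+2) = (2l+3)/t jl (l+1) - jl l`, the two previous derivatives and the recursions for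
`jl (l+2)`, `jl (l+3)` (field_simp; ring).
`djl_succ`: `djl (l+1) t = (l+1)/t jl (l+1) t - jl (l+2) t` and the recursion.
`jl_ode`: `t² djl l t = l t jl l t - t² jl (l+1) t`, differentiate with `jl_deriv` for `l` and
`l + 1`, `djl_succ`: the derivative is
`l jl l + l t (l/t jl l - jl (l+1)) - 2 t jl (l+1) - t² (jl l - (l+2)/t jl (l+1)) = (l (l+1) - t²) jl l`.
`jl_up`: the derivative of `t^(l+2) jl (l+1) t` is `t^(l+2) jl l t` (`djl_succ`).
`jl_smooth`: induction on the definition.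
-/

set_option autoImplicit false

namespace Pool.Agent.H68.SC

open Filter Topology MeasureTheory Metric
open scoped ContDiff

/-- the derivative of `jl l` -/
noncomputable def djl (l : ℕ) (t : ℝ) : ℝ := (l : ℝ) / t * jl l t - jl (l + 1) t

theorem jl_rec (l : ℕ) (t : ℝ) :
    jl (l + 2) t = (2 * (l : ℝ) + 3) / t * jl (l + 1) t - jl l t := by
  rw [jl]

theorem djl_succ (l : ℕ) {t : ℝ} (ht : 0 < t) :
    djl (l + 1) t = jl l t - ((l : ℝ) + 2) / t * jl (l + 1) t := by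
  unfold djl
  rw [show l + 1 + 1 = l + 2 from rfl, jl_rec]
  push_cast
  ring

private theorem jl_hda0 {t : ℝ} (ht : 0 < t) : HasDerivAt (jl 0) (djl 0 t) t := by
  have hne : t ≠ 0 := ht.ne'
  have h := (Real.hasDerivAt_sin t).div (hasDerivAt_id t) hne
  have he : jl 0 = fun y : ℝ => Real.sin y / id y := by
    funext y
    rw [jl]
    rfl
  rw [he]
  have hv : djl 0 t = (Real.cos t * id t - Real.sin t * 1) / (id t) ^ 2 := by
    unfold djl
    rw [show (0 : ℕ) + 1 = 1 from rfl, jl, jl]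
    simp only [Nat.cast_zero, id]
    field_simp
    ring
  rw [hv]
  exact h

private theorem jl_hda1 {t : ℝ} (ht : 0 < t) : HasDerivAt (jl 1) (djl 1 t) t := by
  have hne : t ≠ 0 := ht.ne'
  have h1 := (Real.hasDerivAt_sin t).div (hasDerivAt_pow 2 t) (pow_ne_zero 2 hne)
  have h2 := (Real.hasDerivAt_cos t).div (hasDerivAt_id t) hne
  have h := h1.sub h2
  have he : jl 1 = fun y : ℝ => Real.sin y / y ^ 2 - Real.cos y / id y := by
    funext y
    rw [jl]
    rfl
  rw [he]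
  have hv : djl 1 t = (Real.cos t * t ^ 2 - Real.sin t * ((2 : ℕ) * t ^ (2 - 1))) / (t ^ 2) ^ 2 -
      (-Real.sin t * id t - Real.cos t * 1) / (id t) ^ 2 := by
    unfold djl
    rw [show (1 : ℕ) + 1 = 0 + 2 from rfl, jl_rec, show (0 : ℕ) + 1 = 1 from rfl, jl, jl]
    simp only [Nat.cast_zero, id, Nat.cast_one, Nat.cast_ofNat]
    field_simp
    ring
  rw [hv]
  exact h

private theorem jl_hda2 (l : ℕ) {t : ℝ} (ht : 0 < t) (h0 : HasDerivAt (jl l) (djl l t) t)
    (h1 : HasDerivAt (jl (l + 1)) (djl (l + 1) t) t) :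
    HasDerivAt (jl (l + 2)) (djl (l + 2) t) t := by
  have hne : t ≠ 0 := ht.ne'
  have hq : HasDerivAt (fun y : ℝ => (2 * (l : ℝ) + 3) / y) (-(2 * (l : ℝ) + 3) / t ^ 2) t := by
    have h := (hasDerivAt_const t (2 * (l : ℝ) + 3)).div (hasDerivAt_id t) hne
    have hv : -(2 * (l : ℝ) + 3) / t ^ 2 = (0 * id t - (2 * (l : ℝ) + 3) * 1) / (id t) ^ 2 := by
      simp only [id]; ring
    rw [hv]
    exact h
  have h := (hq.mul h1).sub h0
  have he : jl (l + 2) = fun y : ℝ => (2 * (l : ℝ) + 3) / y * jl (l + 1) y - jl l y := by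
    funext y
    exact jl_rec l y
  rw [he]
  have hv : djl (l + 2) t = -(2 * (l : ℝ) + 3) / t ^ 2 * jl (l + 1) t +
      (2 * (l : ℝ) + 3) / t * djl (l + 1) t - djl l t := by
    rw [show l + 2 = (l + 1) + 1 from rfl, djl_succ (l + 1) ht, djl_succ l ht,
      show l + 1 + 1 = l + 2 from rfl, jl_rec]
    unfold djl
    push_cast
    field_simp
    ring
  rw [hv]
  exact h

private theorem jl_hda (l : ℕ) {t : ℝ} (ht : 0 < t) :
    HasDerivAt (jl l) (djl l t) t ∧ HasDerivAt (jl (l + 1)) (djl (l + 1) t) t := by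
  induction l with
  | zero => exact ⟨jl_hda0 ht, jl_hda1 ht⟩
  | succ l ih => exact ⟨ih.2, jl_hda2 l ht ih.1 ih.2⟩

theorem jl_deriv (l : ℕ) {t : ℝ} (ht : 0 < t) : HasDerivAt (jl l) (djl l t) t :=
  (jl_hda l ht).1

theorem jl_ode (l : ℕ) {t : ℝ} (ht : 0 < t) :
    HasDerivAt (fun t => t ^ 2 * djl l t) (((l : ℝ) * (l + 1) - t ^ 2) * jl l t) t := by
  have hne : t ≠ 0 := ht.ne'
  have h1 := ((hasDerivAt_id t).const_mul (l : ℝ)).mul (jl_deriv l ht)
  have h2 := (hasDerivAt_pow 2 t).mul (jl_deriv (l + 1) ht)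
  have h := h1.sub h2
  have hv : ((l : ℝ) * (l + 1) - t ^ 2) * jl l t =
      ((l : ℝ) * 1 * jl l t + (l : ℝ) * id t * djl l t) -
      ((2 : ℕ) * t ^ (2 - 1) * jl (l + 1) t + t ^ 2 * djl (l + 1) t) := by
    rw [djl_succ l ht]
    unfold djl
    simp only [id, Nat.cast_ofNat]
    field_simp
    ring
  rw [hv]
  refine h.congr_of_eventuallyEq ?_
  filter_upwards [lt_mem_nhds ht] with y hy
  have hyne : y ≠ 0 := ne_of_gt hy
  simp only [Pi.sub_apply, Pi.mul_apply, id]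
  unfold djl
  field_simp

theorem jl_up (l : ℕ) {t : ℝ} (ht : 0 < t) :
    HasDerivAt (fun t => t ^ (l + 2) * jl (l + 1) t) (t ^ (l + 2) * jl l t) t := by
  have hne : t ≠ 0 := ht.ne'
  have h := (hasDerivAt_pow (l + 2) t).mul (jl_deriv (l + 1) ht)
  have hv : t ^ (l + 2) * jl l t = ((l + 2 : ℕ) : ℝ) * t ^ (l + 2 - 1) * jl (l + 1) t +
      t ^ (l + 2) * djl (l + 1) t := by
    rw [djl_succ l ht, show l + 2 - 1 = l + 1 from rfl]
    push_cast
    field_simp
    ring
  rw [hv]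
  exact h

private theorem jl_cd0 : ContDiffOn ℝ ∞ (jl 0) (Set.Ioi 0) := by
  have he : jl 0 = fun y : ℝ => Real.sin y / y := by
    funext y
    rw [jl]
  rw [he]
  exact Real.contDiff_sin.contDiffOn.div contDiffOn_id fun x hx => (Set.mem_Ioi.1 hx).ne'

private theorem jl_cd1 : ContDiffOn ℝ ∞ (jl 1) (Set.Ioi 0) := by
  have he : jl 1 = fun y : ℝ => Real.sin y / y ^ 2 - Real.cos y / y := by
    funext y
    rw [jl]
  rw [he]
  refine ContDiffOn.sub ?_ ?_
  · exact Real.contDiff_sin.contDiffOn.div (contDiffOn_id.pow 2)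
      fun x hx => pow_ne_zero 2 (Set.mem_Ioi.1 hx).ne'
  · exact Real.contDiff_cos.contDiffOn.div contDiffOn_id fun x hx => (Set.mem_Ioi.1 hx).ne'

private theorem jl_cd (l : ℕ) : ContDiffOn ℝ ∞ (jl l) (Set.Ioi 0) ∧
    ContDiffOn ℝ ∞ (jl (l + 1)) (Set.Ioi 0) := by
  induction l with
  | zero => exact ⟨jl_cd0, jl_cd1⟩
  | succ l ih =>
    refine ⟨ih.2, ?_⟩
    have he : jl (l + 1 + 1) = fun y : ℝ => (2 * (l : ℝ) + 3) / y * jl (l + 1) y - jl l y := by
      funext y
      exact jl_rec l y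
    rw [he]
    exact ((contDiffOn_const.div contDiffOn_id
      fun x hx => (Set.mem_Ioi.1 hx).ne').mul ih.2).sub ih.1

theorem jl_smooth (l : ℕ) : ContDiffOn ℝ ∞ (jl l) (Set.Ioi 0) := (jl_cd l).1

theorem djl_smooth (l : ℕ) : ContDiffOn ℝ ∞ (djl l) (Set.Ioi 0) := by
  have he : djl l = fun y : ℝ => (l : ℝ) / y * jl l y - jl (l + 1) y := rfl
  rw [he]
  exact ((contDiffOn_const.div contDiffOn_id
    fun x hx => (Set.mem_Ioi.1 hx).ne').mul (jl_smooth l)).sub (jl_smooth (l + 1))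

end Pool.Agent.H68.SC
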