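import Pool.Agent.H68.SC.JPos

/-!
# Spherical Bessel functions: logarithmic derivative in the elliptic range, second solution

For `0 < s`, `s ^ 2 ≤ l (l + 1)`: `0 < jl l s`, `0 ≤ s * djl l s ≤ l * jl l s`, and
`(l / 2) * jl l s ≤ s * djl l s` if `2 * s ^ 2 ≤ l (l + 1)`. Second solution `yl`, `dyl`, with the
Wronskian `t ^ 2 * (jl l t * dyl l t - djl l t * yl l t) = 1`.
-/

set_option autoImplicit false

namespace Pool.Agent.H68.SC

open Filter Topology MeasureTheory Metric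
open scoped ContDiff

/-- monotone from a zero limit at `0` -/
theorem JH_nonneg {G G' : ℝ → ℝ} {T C : ℝ}
    (hG : ∀ t, 0 < t → t ≤ T → HasDerivAt G (G' t) t) (h0 : ∀ t, 0 < t → t ≤ T → 0 ≤ G' t)
    (hC : ∀ t, 0 < t → t ≤ 1 → |G t| ≤ C * t) {t : ℝ} (ht : 0 < t) (htT : t ≤ T) : 0 ≤ G t := by
  have hmono : MonotoneOn G (Set.Ioc 0 T) := by
    apply monotoneOn_of_deriv_nonneg (convex_Ioc 0 T)
    · intro x hx
      exact (hG x hx.1 hx.2).continuousAt.continuousWithinAt
    · intro x hx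
      rw [interior_Ioc] at hx
      exact (hG x hx.1 hx.2.le).differentiableAt.differentiableWithinAt
    · intro x hx
      rw [interior_Ioc] at hx
      rw [(hG x hx.1 hx.2.le).deriv]
      exact h0 x hx.1 hx.2.le
  by_contra h
  push Not at h
  have hC0 : 0 ≤ C := by
    have h1 := (abs_nonneg _).trans (hC 1 one_pos le_rfl)
    simpa using h1
  have hq : 0 < -G t / (2 * (C + 1)) := by
    apply div_pos <;> linarith
  set s := min (min t 1) (-G t / (2 * (C + 1))) with hs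
  have hs0 : 0 < s := lt_min (lt_min ht one_pos) hq
  have hst : s ≤ t := (min_le_left _ _).trans (min_le_left _ _)
  have hs1 : s ≤ 1 := (min_le_left _ _).trans (min_le_right _ _)
  have hsq : s ≤ -G t / (2 * (C + 1)) := min_le_right _ _
  have h2 : G s ≤ G t := hmono ⟨hs0, hst.trans htT⟩ ⟨ht, htT⟩ hst
  have h3 := (abs_le.1 (hC s hs0 hs1)).1
  have h4 : C * s ≤ -G t / 2 := by
    have h5 : C * s ≤ C * (-G t / (2 * (C + 1))) := mul_le_mul_of_nonneg_left hsq hC0
    have h6 : C * (-G t / (2 * (C + 1))) ≤ -G t / 2 := by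
      rw [← mul_div_assoc, div_le_div_iff₀ (by linarith) (by norm_num)]
      nlinarith
    linarith
  linarith

theorem djl_nonneg (l : ℕ) {t : ℝ} (h0 : 0 < t) (h1 : t ^ 2 ≤ (l : ℝ) * (l + 1)) :
    0 ≤ djl l t := by
  have hl : (0 : ℝ) ≤ (l : ℝ) := Nat.cast_nonneg l
  have hsq : ∀ s : ℝ, 0 < s → s ≤ t → s ^ 2 ≤ (l : ℝ) * (l + 1) := by
    intro s hs hst
    have h2 : s ^ 2 ≤ t ^ 2 := pow_le_pow_left₀ hs.le hst 2
    linarith
  have h2 := JH_nonneg (G := fun t => t ^ 2 * djl l t)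
    (G' := fun t => ((l : ℝ) * (l + 1) - t ^ 2) * jl l t) (T := t) (C := (l : ℝ) + 1)
    (fun s hs _ => jl_ode l hs)
    (fun s hs hst => mul_nonneg (sub_nonneg.2 (hsq s hs hst)) (jl_pos_sq l hs (hsq s hs hst)).le)
    (fun s hs hs1 => by
      have h3 := djl_bound l hs hs1
      have h4 := jl_le_one l hs hs1
      have h5 : |s * djl l s| ≤ (l : ℝ) + 1 := by nlinarith
      have h6 : s ^ 2 * djl l s = (s * djl l s) * s := by ring
      rw [h6, abs_mul, abs_of_pos hs]
      exact mul_le_mul_of_nonneg_right h5 hs.le)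
    h0 le_rfl
  have h3 : 0 < t ^ 2 := pow_pos h0 2
  by_contra h4
  push Not at h4
  exact absurd (mul_neg_of_pos_of_neg h3 h4) (not_lt.2 h2)

theorem djl_le (l : ℕ) {t : ℝ} (h0 : 0 < t) (h1 : t ^ 2 ≤ ((l : ℝ) + 1) * (l + 2)) :
    t * djl l t ≤ l * jl l t := by
  have h2 : 0 < jl (l + 1) t := jl_pos_sq (l + 1) h0 (by push_cast; linarith)
  have hu : t * djl l t = l * jl l t - t * jl (l + 1) t := by
    unfold djl
    field_simp
  rw [hu]
  have := mul_pos h0 h2
  linarith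

/-- `s * j' / j` is at most `l` in the elliptic range -/
theorem djl_le' (l : ℕ) {t : ℝ} (h0 : 0 < t) (h1 : t ^ 2 ≤ (l : ℝ) * (l + 1)) :
    t * djl l t ≤ l * jl l t := by
  apply djl_le l h0
  have hl : (0 : ℝ) ≤ (l : ℝ) := Nat.cast_nonneg l
  nlinarith

/-- `s * j' / j` is at least `l / 2` if `2 s ^ 2 ≤ l (l + 1)` -/
theorem le_djl (l : ℕ) {t : ℝ} (h0 : 0 < t) (h1 : 2 * t ^ 2 ≤ (l : ℝ) * (l + 1)) :
    (l : ℝ) / 2 * jl l t ≤ t * djl l t := by
  have hl : (0 : ℝ) ≤ (l : ℝ) := Nat.cast_nonneg l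
  have hsq : ∀ s : ℝ, 0 < s → s ≤ t → 2 * s ^ 2 ≤ (l : ℝ) * (l + 1) := by
    intro s hs hst
    have h2 : s ^ 2 ≤ t ^ 2 := pow_le_pow_left₀ hs.le hst 2
    linarith
  set a : ℝ := 1 + (l : ℝ) / 2 with ha
  have ha1 : 1 ≤ a := by rw [ha]; linarith
  have h2 := JH_nonneg (G := fun s => s ^ a * (s * djl l s - (l : ℝ) / 2 * jl l s))
    (G' := fun s => s ^ (a - 1) * (((l : ℝ) * (l + 1) - s ^ 2 - a * (l / 2)) * jl l s))
    (T := t) (C := (l : ℝ) + 1 + l / 2)
    (fun s hs _ => by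
      have hne : s ≠ 0 := hs.ne'
      have hd1 : HasDerivAt (fun s : ℝ => s ^ a) (a * s ^ (a - 1)) s := by
        have := (hasDerivAt_id s).rpow_const (p := a) (Or.inl hne)
        simpa using this
      -- derivative of s * djl
      have hd2 : HasDerivAt (fun s => s * djl l s)
          (((l : ℝ) * (l + 1) - s ^ 2) / s * jl l s - djl l s) s := by
        have h3 := (jl_ode l hs).div (hasDerivAt_id s) hne
        have hv : ((l : ℝ) * (l + 1) - s ^ 2) / s * jl l s - djl l s =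
            (((l : ℝ) * (l + 1) - s ^ 2) * jl l s * id s - s ^ 2 * djl l s * 1) / (id s) ^ 2 := by
          simp only [id]
          field_simp
        rw [hv]
        refine h3.congr_of_eventuallyEq ?_
        filter_upwards [lt_mem_nhds hs] with y hy
        have hyne : y ≠ 0 := ne_of_gt hy
        simp only [id, Pi.div_apply]
        field_simp
      have hd3 := (hd2.sub ((jl_deriv l hs).const_mul ((l : ℝ) / 2)))
      have hd := hd1.mul hd3
      refine hd.congr_deriv ?_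
      have hpow : s ^ a = s ^ (a - 1) * s := by
        rw [← Real.rpow_add_one hne]
        congr 1
        ring
      simp only [Pi.sub_apply]
      rw [hpow]
      field_simp
      rw [ha]
      ring)
    (fun s hs hst => by
      have h3 := hsq s hs hst
      have hj : 0 < jl l s := jl_pos_sq l hs (by nlinarith)
      apply mul_nonneg (Real.rpow_nonneg hs.le _)
      apply mul_nonneg _ hj.le
      rw [ha]
      nlinarith [mul_nonneg hl hl])
    (fun s hs hs1 => by
      have h3 := djl_bound l hs hs1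
      have h4 := jl_le_one l hs hs1
      have h4' := (jl_pos_small l hs hs1).le
      have h5 : |s * djl l s| ≤ (l : ℝ) + 1 := by nlinarith
      have h6 : |s * djl l s - (l : ℝ) / 2 * jl l s| ≤ (l : ℝ) + 1 + l / 2 := by
        have h7 : |(l : ℝ) / 2 * jl l s| ≤ (l : ℝ) / 2 := by
          rw [abs_of_nonneg (by positivity)]
          nlinarith
        calc |s * djl l s - (l : ℝ) / 2 * jl l s|
            ≤ |s * djl l s| + |(l : ℝ) / 2 * jl l s| := abs_sub _ _
          _ ≤ _ := by linarith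
      have h8 : s ^ a ≤ s := by
        have := Real.rpow_le_rpow_of_exponent_ge hs hs1 ha1
        simpa using this
      rw [abs_mul, abs_of_nonneg (Real.rpow_nonneg hs.le a), mul_comm]
      apply mul_le_mul h6 h8 (Real.rpow_nonneg hs.le a)
      positivity)
    h0 le_rfl
  have h3 : 0 < t ^ a := Real.rpow_pos_of_pos h0 a
  by_contra h4
  push Not at h4
  exact absurd (mul_neg_of_pos_of_neg h3 (sub_neg.2 h4)) (not_lt.2 h2)

theorem jl_monotoneOn (l : ℕ) {T : ℝ} (hT : T ^ 2 ≤ (l : ℝ) * (l + 1)) :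
    MonotoneOn (jl l) (Set.Ioc 0 T) := by
  apply monotoneOn_of_deriv_nonneg (convex_Ioc 0 T)
  · intro x hx
    exact (jl_deriv l hx.1).continuousAt.continuousWithinAt
  · intro x hx
    rw [interior_Ioc] at hx
    exact (jl_deriv l hx.1).differentiableAt.differentiableWithinAt
  · intro x hx
    rw [interior_Ioc] at hx
    rw [(jl_deriv l hx.1).deriv]
    apply djl_nonneg l hx.1
    have h2 : x ^ 2 ≤ T ^ 2 := pow_le_pow_left₀ hx.1.le hx.2.le 2
    linarith

/-! ### second solution -/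

/-- spherical Bessel functions of the second kind (for `t > 0`) -/
noncomputable def yl : ℕ → ℝ → ℝ
  | 0, t => -Real.cos t / t
  | 1, t => -Real.cos t / t ^ 2 - Real.sin t / t
  | (l + 2), t => (2 * (l : ℝ) + 3) / t * yl (l + 1) t - yl l t

/-- the derivative of `yl l` -/
noncomputable def dyl (l : ℕ) (t : ℝ) : ℝ := (l : ℝ) / t * yl l t - yl (l + 1) t

theorem yl_rec (l : ℕ) (t : ℝ) :
    yl (l + 2) t = (2 * (l : ℝ) + 3) / t * yl (l + 1) t - yl l t := by
  rw [yl]

theorem dyl_succ (l : ℕ) {t : ℝ} (_ht : 0 < t) :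
    dyl (l + 1) t = yl l t - ((l : ℝ) + 2) / t * yl (l + 1) t := by
  unfold dyl
  rw [show l + 1 + 1 = l + 2 from rfl, yl_rec]
  push_cast
  ring

private theorem yl_hda0 {t : ℝ} (ht : 0 < t) : HasDerivAt (yl 0) (dyl 0 t) t := by
  have hne : t ≠ 0 := ht.ne'
  have h := ((Real.hasDerivAt_cos t).neg).div (hasDerivAt_id t) hne
  have he : yl 0 = fun y : ℝ => -Real.cos y / id y := by
    funext y
    rw [yl]
    rfl
  rw [he]
  have hv : dyl 0 t = (-(-Real.sin t) * id t - -Real.cos t * 1) / (id t) ^ 2 := by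
    unfold dyl
    rw [show (0 : ℕ) + 1 = 1 from rfl, yl, yl]
    simp only [Nat.cast_zero, id]
    field_simp
    ring
  rw [hv]
  exact h

private theorem yl_hda1 {t : ℝ} (ht : 0 < t) : HasDerivAt (yl 1) (dyl 1 t) t := by
  have hne : t ≠ 0 := ht.ne'
  have h1 := ((Real.hasDerivAt_cos t).neg).div (hasDerivAt_pow 2 t) (pow_ne_zero 2 hne)
  have h2 := (Real.hasDerivAt_sin t).div (hasDerivAt_id t) hne
  have h := h1.sub h2
  have he : yl 1 = fun y : ℝ => -Real.cos y / y ^ 2 - Real.sin y / id y := by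
    funext y
    rw [yl]
    rfl
  rw [he]
  have hv : dyl 1 t = (-(-Real.sin t) * t ^ 2 - -Real.cos t * ((2 : ℕ) * t ^ (2 - 1))) / (t ^ 2) ^ 2 -
      (Real.cos t * id t - Real.sin t * 1) / (id t) ^ 2 := by
    unfold dyl
    rw [show (1 : ℕ) + 1 = 0 + 2 from rfl, yl_rec, show (0 : ℕ) + 1 = 1 from rfl, yl, yl]
    simp only [Nat.cast_zero, id, Nat.cast_one, Nat.cast_ofNat]
    field_simp
    ring
  rw [hv]
  exact h

private theorem yl_hda2 (l : ℕ) {t : ℝ} (ht : 0 < t) (h0 : HasDerivAt (yl l) (dyl l t) t)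
    (h1 : HasDerivAt (yl (l + 1)) (dyl (l + 1) t) t) :
    HasDerivAt (yl (l + 2)) (dyl (l + 2) t) t := by
  have hne : t ≠ 0 := ht.ne'
  have hq : HasDerivAt (fun y : ℝ => (2 * (l : ℝ) + 3) / y) (-(2 * (l : ℝ) + 3) / t ^ 2) t := by
    have h := (hasDerivAt_const t (2 * (l : ℝ) + 3)).div (hasDerivAt_id t) hne
    have hv : -(2 * (l : ℝ) + 3) / t ^ 2 = (0 * id t - (2 * (l : ℝ) + 3) * 1) / (id t) ^ 2 := by
      simp only [id]; ring
    rw [hv]
    exact h
  have h := (hq.mul h1).sub h0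
  have he : yl (l + 2) = fun y : ℝ => (2 * (l : ℝ) + 3) / y * yl (l + 1) y - yl l y := by
    funext y
    exact yl_rec l y
  rw [he]
  have hv : dyl (l + 2) t = -(2 * (l : ℝ) + 3) / t ^ 2 * yl (l + 1) t +
      (2 * (l : ℝ) + 3) / t * dyl (l + 1) t - dyl l t := by
    rw [show l + 2 = (l + 1) + 1 from rfl, dyl_succ (l + 1) ht, dyl_succ l ht,
      show l + 1 + 1 = l + 2 from rfl, yl_rec]
    unfold dyl
    push_cast
    field_simp
    ring
  rw [hv]
  exact h

private theorem yl_hda (l : ℕ) {t : ℝ} (ht : 0 < t) :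
    HasDerivAt (yl l) (dyl l t) t ∧ HasDerivAt (yl (l + 1)) (dyl (l + 1) t) t := by
  induction l with
  | zero => exact ⟨yl_hda0 ht, yl_hda1 ht⟩
  | succ l ih => exact ⟨ih.2, yl_hda2 l ht ih.1 ih.2⟩

theorem yl_deriv (l : ℕ) {t : ℝ} (ht : 0 < t) : HasDerivAt (yl l) (dyl l t) t :=
  (yl_hda l ht).1

theorem yl_ode (l : ℕ) {t : ℝ} (ht : 0 < t) :
    HasDerivAt (fun t => t ^ 2 * dyl l t) (((l : ℝ) * (l + 1) - t ^ 2) * yl l t) t := by
  have hne : t ≠ 0 := ht.ne'
  have h1 := ((hasDerivAt_id t).const_mul (l : ℝ)).mul (yl_deriv l ht)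
  have h2 := (hasDerivAt_pow 2 t).mul (yl_deriv (l + 1) ht)
  have h := h1.sub h2
  have hv : ((l : ℝ) * (l + 1) - t ^ 2) * yl l t =
      ((l : ℝ) * 1 * yl l t + (l : ℝ) * id t * dyl l t) -
      ((2 : ℕ) * t ^ (2 - 1) * yl (l + 1) t + t ^ 2 * dyl (l + 1) t) := by
    rw [dyl_succ l ht]
    unfold dyl
    simp only [id, Nat.cast_ofNat]
    field_simp
    ring
  rw [hv]
  refine h.congr_of_eventuallyEq ?_
  filter_upwards [lt_mem_nhds ht] with y hy
  have hyne : y ≠ 0 := ne_of_gt hy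
  simp only [Pi.sub_apply, Pi.mul_apply, id]
  unfold dyl
  field_simp

private theorem wr_aux (l : ℕ) {t : ℝ} (ht : 0 < t) :
    jl l t * yl (l + 1) t - jl (l + 1) t * yl l t = -1 / t ^ 2 := by
  have hne : t ≠ 0 := ht.ne'
  induction l with
  | zero =>
    rw [show (0 : ℕ) + 1 = 1 from rfl, jl, jl, yl, yl]
    have h := Real.sin_sq_add_cos_sq t
    field_simp
    linear_combination (-t : ℝ) * h
  | succ l ih =>
    rw [show l + 1 + 1 = l + 2 from rfl, jl_rec, yl_rec, ← ih]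
    ring

/-- the Wronskian -/
theorem wronskian (l : ℕ) {t : ℝ} (ht : 0 < t) :
    t ^ 2 * (jl l t * dyl l t - djl l t * yl l t) = 1 := by
  have hne : t ≠ 0 := ht.ne'
  have h := wr_aux l ht
  unfold dyl djl
  have h2 : jl l t * ((l : ℝ) / t * yl l t - yl (l + 1) t) -
      ((l : ℝ) / t * jl l t - jl (l + 1) t) * yl l t =
      -(jl l t * yl (l + 1) t - jl (l + 1) t * yl l t) := by ring
  rw [h2, h]
  field_simp

private theorem yl_cd0 : ContDiffOn ℝ ∞ (yl 0) (Set.Ioi 0) := by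
  have he : yl 0 = fun y : ℝ => -Real.cos y / y := by
    funext y
    rw [yl]
  rw [he]
  exact Real.contDiff_cos.neg.contDiffOn.div contDiffOn_id fun x hx => (Set.mem_Ioi.1 hx).ne'

private theorem yl_cd1 : ContDiffOn ℝ ∞ (yl 1) (Set.Ioi 0) := by
  have he : yl 1 = fun y : ℝ => -Real.cos y / y ^ 2 - Real.sin y / y := by
    funext y
    rw [yl]
  rw [he]
  refine ContDiffOn.sub ?_ ?_
  · exact Real.contDiff_cos.neg.contDiffOn.div (contDiffOn_id.pow 2)
      fun x hx => pow_ne_zero 2 (Set.mem_Ioi.1 hx).ne'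
  · exact Real.contDiff_sin.contDiffOn.div contDiffOn_id fun x hx => (Set.mem_Ioi.1 hx).ne'

private theorem yl_cd (l : ℕ) : ContDiffOn ℝ ∞ (yl l) (Set.Ioi 0) ∧
    ContDiffOn ℝ ∞ (yl (l + 1)) (Set.Ioi 0) := by
  induction l with
  | zero => exact ⟨yl_cd0, yl_cd1⟩
  | succ l ih =>
    refine ⟨ih.2, ?_⟩
    have he : yl (l + 1 + 1) = fun y : ℝ => (2 * (l : ℝ) + 3) / y * yl (l + 1) y - yl l y := by
      funext y
      exact yl_rec l y
    rw [he]
    exact ((contDiffOn_const.div contDiffOn_id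
      fun x hx => (Set.mem_Ioi.1 hx).ne').mul ih.2).sub ih.1

theorem yl_smooth (l : ℕ) : ContDiffOn ℝ ∞ (yl l) (Set.Ioi 0) := (yl_cd l).1

theorem dyl_smooth (l : ℕ) : ContDiffOn ℝ ∞ (dyl l) (Set.Ioi 0) := by
  have he : dyl l = fun y : ℝ => (l : ℝ) / y * yl l y - yl (l + 1) y := rfl
  rw [he]
  exact ((contDiffOn_const.div contDiffOn_id
    fun x hx => (Set.mem_Ioi.1 hx).ne').mul (yl_smooth l)).sub (yl_smooth (l + 1))

end Pool.Agent.H68.SC
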