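import Pool.Agent.H68.SC.Defs

/-!
# Basic facts (MP_f4af34_an, helper68; proved)
-/

set_option autoImplicit false

namespace Pool.Agent.H68.SC

open Filter Topology MeasureTheory Metric
open scoped ContDiff

noncomputable section

/-! ### coordinates -/

theorem fderiv_sum (f : E → ℝ) (x v : E) : fderiv ℝ f x v = ∑ i, v i * pd f i x := by
  have h : v = ∑ i, v i • ee i := by
    ext j
    simp [Finset.sum_apply, Pi.single_apply]
  conv_lhs => rw [h]
  rw [map_sum]
  refine Finset.sum_congr rfl fun i _ => ?_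
  rw [map_smul, smul_eq_mul]
  rfl

theorem norm_fderiv_sq (f : E → ℝ) (x : E) : ‖fderiv ℝ f x‖ ^ 2 = gg f f x := by
  set v : E := (InnerProductSpace.toDual ℝ E).symm (fderiv ℝ f x) with hv
  have h1 : ‖fderiv ℝ f x‖ = ‖v‖ := by rw [hv, LinearIsometryEquiv.norm_map]
  have h2 : ∀ i, v i = pd f i x := by
    intro i
    have h3 : inner ℝ v (ee i) = fderiv ℝ f x (ee i) := by
      rw [hv, InnerProductSpace.toDual_symm_apply]
    rw [EuclideanSpace.inner_single_right] at h3
    unfold pd
    simpa using h3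
  rw [h1, EuclideanSpace.norm_sq_eq]
  unfold gg
  refine Finset.sum_congr rfl fun i _ => ?_
  rw [Real.norm_eq_abs, sq_abs, h2 i, sq]

theorem gg_comm (f g : E → ℝ) (x : E) : gg f g x = gg g f x :=
  Finset.sum_congr rfl fun _ _ => mul_comm _ _

theorem gg_nonneg (f : E → ℝ) (x : E) : 0 ≤ gg f f x :=
  Finset.sum_nonneg fun _ _ => mul_self_nonneg _

/-- Cauchy-Schwarz -/
theorem gg_sq_le (f g : E → ℝ) (x : E) : gg f g x ^ 2 ≤ gg f f x * gg g g x := by
  have h := Finset.sum_mul_sq_le_sq_mul_sq Finset.univ (fun i => pd f i x) (fun i => pd g i x)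
  simpa [gg, sq] using h

theorem pd_add {f g : E → ℝ} {x : E} (hf : DifferentiableAt ℝ f x) (hg : DifferentiableAt ℝ g x)
    (i : Fin 3) : pd (fun y => f y + g y) i x = pd f i x + pd g i x := by
  unfold pd
  rw [fderiv_fun_add hf hg]; rfl

theorem pd_sub {f g : E → ℝ} {x : E} (hf : DifferentiableAt ℝ f x) (hg : DifferentiableAt ℝ g x)
    (i : Fin 3) : pd (fun y => f y - g y) i x = pd f i x - pd g i x := by
  unfold pd
  rw [fderiv_fun_sub hf hg]; rfl

theorem pd_mul {f g : E → ℝ} {x : E} (hf : DifferentiableAt ℝ f x) (hg : DifferentiableAt ℝ g x)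
    (i : Fin 3) : pd (fun y => f y * g y) i x = f x * pd g i x + g x * pd f i x := by
  unfold pd
  rw [fderiv_fun_mul hf hg]; rfl

theorem pd_const_mul {f : E → ℝ} {x : E} (a : ℝ) (hf : DifferentiableAt ℝ f x) (i : Fin 3) :
    pd (fun y => a * f y) i x = a * pd f i x := by
  unfold pd
  rw [fderiv_const_mul hf]; rfl

theorem pd_congr {f g : E → ℝ} {x : E} (h : f =ᶠ[𝓝 x] g) (i : Fin 3) : pd f i x = pd g i x := by
  unfold pd
  rw [h.fderiv_eq]

theorem pd_zero_of {f : E → ℝ} {x : E} (h : x ∉ tsupport f) (i : Fin 3) : pd f i x = 0 := by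
  have h1 : f =ᶠ[𝓝 x] 0 := notMem_tsupport_iff_eventuallyEq.1 h
  unfold pd
  rw [h1.fderiv_eq]
  simp

theorem continuous_pd {f : E → ℝ} (hf : ContDiff ℝ 1 f) (i : Fin 3) : Continuous (pd f i) :=
  (hf.continuous_fderiv one_ne_zero).clm_apply continuous_const

theorem continuous_gg {f g : E → ℝ} (hf : ContDiff ℝ 1 f) (hg : ContDiff ℝ 1 g) :
    Continuous (gg f g) :=
  continuous_finsetSum _ fun i _ => (continuous_pd hf i).mul (continuous_pd hg i)

theorem hasCompactSupport_pd {f : E → ℝ} (hf : HasCompactSupport f) (i : Fin 3) :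
    HasCompactSupport (pd f i) := by
  refine HasCompactSupport.intro hf fun x hx => ?_
  exact pd_zero_of hx i

theorem hasCompactSupport_gg {f : E → ℝ} (hf : HasCompactSupport f) (g : E → ℝ) :
    HasCompactSupport (gg f g) := by
  refine HasCompactSupport.intro hf fun x hx => ?_
  exact Finset.sum_eq_zero fun i _ => by rw [pd_zero_of hx i, zero_mul]

/-! ### functions of class `C¹` with compact support -/

theorem C1c.contDiff {Ω : Set E} {f : E → ℝ} (h : f ∈ C1c Ω) : ContDiff ℝ 1 f := h.1

theorem C1c.compact {Ω : Set E} {f : E → ℝ} (h : f ∈ C1c Ω) : HasCompactSupport f := h.2.1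

theorem C1c.sub {Ω : Set E} {f : E → ℝ} (h : f ∈ C1c Ω) : tsupport f ⊆ Ω := h.2.2

theorem C1c.cont {Ω : Set E} {f : E → ℝ} (h : f ∈ C1c Ω) : Continuous f := h.1.continuous

theorem C1c.diff {Ω : Set E} {f : E → ℝ} (h : f ∈ C1c Ω) : Differentiable ℝ f :=
  h.1.differentiable one_ne_zero

theorem C1c_mono {Ω Ω' : Set E} (h : Ω ⊆ Ω') : C1c Ω ≤ C1c Ω' := fun _ hf =>
  ⟨hf.1, hf.2.1, hf.2.2.trans h⟩

theorem integrable_cc {f : E → ℝ} (h1 : Continuous f) (h2 : HasCompactSupport f) :
    Integrable f := h1.integrable_of_hasCompactSupport h2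

theorem C1c.int_mul {Ω : Set E} {f g : E → ℝ} (hf : f ∈ C1c Ω) (hg : g ∈ C1c Ω) :
    Integrable (fun x => f x * g x) :=
  integrable_cc ((C1c.cont hf).mul (C1c.cont hg)) (HasCompactSupport.mul_right (C1c.compact hf))

theorem C1c.int_gg {Ω : Set E} {f g : E → ℝ} (hf : f ∈ C1c Ω) (hg : g ∈ C1c Ω) :
    Integrable (gg f g) :=
  integrable_cc (continuous_gg (C1c.contDiff hf) (C1c.contDiff hg)) (hasCompactSupport_gg (C1c.compact hf) g)

theorem BB_eq {Ω : Set E} {f g : E → ℝ} (hf : f ∈ C1c Ω) (hg : g ∈ C1c Ω) (K : ℝ) :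
    BB K f g = (∫ x, gg f g x) - K * ∫ x, f x * g x := by
  unfold BB
  rw [integral_sub (C1c.int_gg hf hg) (((C1c.int_mul hf hg)).const_mul K), integral_const_mul]

theorem BB_self {Ω : Set E} {f : E → ℝ} (hf : f ∈ C1c Ω) (K : ℝ) :
    BB K f f = (∫ x, ‖fderiv ℝ f x‖ ^ 2) - K * ∫ x, f x ^ 2 := by
  rw [BB_eq hf hf]
  congr 1
  · exact integral_congr_ae (Eventually.of_forall fun x => (norm_fderiv_sq f x).symm)
  · congr 1
    exact integral_congr_ae (Eventually.of_forall fun x => (sq (f x)).symm)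

theorem BB_comm (K : ℝ) (f g : E → ℝ) : BB K f g = BB K g f := by
  unfold BB
  refine integral_congr_ae (Eventually.of_forall fun x => ?_)
  simp only
  rw [gg_comm, mul_comm (f x)]

theorem gg_add_left {f g h : E → ℝ} {x : E} (hf : DifferentiableAt ℝ f x)
    (hg : DifferentiableAt ℝ g x) : gg (f + g) h x = gg f h x + gg g h x := by
  unfold gg
  rw [← Finset.sum_add_distrib]
  refine Finset.sum_congr rfl fun i _ => ?_
  have : pd (f + g) i x = pd f i x + pd g i x := pd_add hf hg i
  rw [this]; ring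

theorem gg_smul_left {f h : E → ℝ} {x : E} (a : ℝ) (hf : DifferentiableAt ℝ f x) :
    gg (a • f) h x = a * gg f h x := by
  unfold gg
  rw [Finset.mul_sum]
  refine Finset.sum_congr rfl fun i _ => ?_
  have : pd (a • f) i x = a * pd f i x := pd_const_mul a hf i
  rw [this]; ring

theorem BB_add_left {Ω : Set E} {f g h : E → ℝ} (hf : f ∈ C1c Ω) (hg : g ∈ C1c Ω)
    (hh : h ∈ C1c Ω) (K : ℝ) : BB K (f + g) h = BB K f h + BB K g h := by
  unfold BB
  rw [← integral_add]
  · refine integral_congr_ae (Eventually.of_forall fun x => ?_)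
    simp only
    rw [gg_add_left (C1c.diff hf x) (C1c.diff hg x)]
    simp only [Pi.add_apply]; ring
  · exact ((C1c.int_gg hf hh)).sub (((C1c.int_mul hf hh)).const_mul K)
  · exact ((C1c.int_gg hg hh)).sub (((C1c.int_mul hg hh)).const_mul K)

theorem BB_smul_left {Ω : Set E} {f h : E → ℝ} (a : ℝ) (hf : f ∈ C1c Ω) (K : ℝ) :
    BB K (a • f) h = a * BB K f h := by
  unfold BB
  rw [← integral_const_mul]
  refine integral_congr_ae (Eventually.of_forall fun x => ?_)
  simp only
  rw [gg_smul_left a (C1c.diff hf x)]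
  simp only [Pi.smul_apply, smul_eq_mul]; ring

theorem BB_add_self {Ω : Set E} {f g : E → ℝ} (hf : f ∈ C1c Ω) (hg : g ∈ C1c Ω) (K : ℝ) :
    BB K (f + g) (f + g) = BB K f f + 2 * BB K f g + BB K g g := by
  rw [BB_add_left hf hg (add_mem hf hg), BB_comm K f, BB_comm K g, BB_add_left hf hg hf,
    BB_add_left hf hg hg, BB_comm K g f]
  ring

/-- a nonzero continuous function with compact support has positive square integral -/
theorem int_sq_pos {f : E → ℝ} (h1 : Continuous f) (h2 : HasCompactSupport f) (h3 : f ≠ 0) :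
    0 < ∫ x, f x ^ 2 := by
  obtain ⟨x, hx⟩ := Function.ne_iff.1 h3
  refine Continuous.integral_pos_of_hasCompactSupport_nonneg_nonzero (x := x) (by fun_prop) ?_
    (fun y => sq_nonneg _) (pow_ne_zero 2 hx)
  have : (fun y => f y ^ 2) = fun y => f y * f y := by funext y; ring
  rw [this]
  exact HasCompactSupport.mul_right h2

/-- the integral of a partial derivative vanishes -/
theorem integral_pd {F : E → ℝ} (h1 : ContDiff ℝ 1 F) (h2 : HasCompactSupport F) (i : Fin 3) :
    ∫ x, pd F i x = 0 := by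
  have hc := continuous_pd h1 i
  have hs := hasCompactSupport_pd h2 i
  have hi : Integrable (fun x => fderiv ℝ F x (ee i)) := integrable_cc hc hs
  have h := integral_mul_fderiv_eq_neg_fderiv_mul_of_integrable (μ := (volume : Measure E))
    (f := F) (g := fun _ => (1 : ℝ)) (v := ee i)
    (by simpa only [mul_one] using hi) (by simp)
    (by simpa only [mul_one] using integrable_cc h1.continuous h2)
    (fun x _ => (h1.differentiable one_ne_zero) x) (fun x _ => differentiableAt_const _)
  simp only [fderiv_fun_const, Pi.zero_apply, zero_apply, mul_zero,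
    integral_zero, mul_one] at h
  have : (0 : ℝ) = -∫ x, pd F i x := h
  linarith

/-- integration by parts, the first function being differentiable on the support of the second -/
theorem ibp {f g : E → ℝ} {D : Set E} (hD : IsOpen D) (hf : ContDiffOn ℝ 1 f D)
    (hg : ContDiff ℝ 1 g) (hc : HasCompactSupport g) (hs : tsupport g ⊆ D) (i : Fin 3) :
    ∫ x, f x * pd g i x = -∫ x, pd f i x * g x := by
  have hfd : ∀ x ∈ tsupport g, DifferentiableAt ℝ f x := fun x hx =>
    ((hf x (hs hx)).contDiffAt (hD.mem_nhds (hs hx))).differentiableAt one_ne_zero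
  have hfc : ContinuousOn f D := hf.continuousOn
  have hpc : ContinuousOn (pd f i) D :=
    (hf.continuousOn_fderiv_of_isOpen hD le_rfl).clm_apply continuousOn_const
  have key : ∀ (A B : E → ℝ), ContinuousOn A D → Continuous B → tsupport B ⊆ tsupport g →
      Integrable (fun x => A x * B x) := by
    intro A B hA hB hBs
    have hBc : HasCompactSupport B := hc.mono' (subset_tsupport B |>.trans hBs)
    refine integrable_cc ?_ (HasCompactSupport.mul_left hBc)
    rw [continuous_iff_continuousAt]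
    intro x
    by_cases hx : x ∈ tsupport g
    · exact (hA.continuousAt (hD.mem_nhds (hs hx))).mul hB.continuousAt
    · have h0 : (fun y => A y * B y) =ᶠ[𝓝 x] fun _ => 0 := by
        have : (tsupport g)ᶜ ∈ 𝓝 x := (isClosed_tsupport g).isOpen_compl.mem_nhds hx
        filter_upwards [this] with y hy
        have : B y = 0 := by
          by_contra hne
          exact hy (hBs (subset_tsupport B hne))
        rw [this, mul_zero]
      rw [continuousAt_congr h0]
      exact continuousAt_const
  have hpds : tsupport (pd g i) ⊆ tsupport g := by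
    refine closure_minimal ?_ (isClosed_tsupport g)
    intro x hx
    by_contra hne
    exact hx (pd_zero_of hne i)
  exact integral_mul_fderiv_eq_neg_fderiv_mul_of_integrable
    (key _ _ hpc hg.continuous le_rfl) (key _ _ hfc (continuous_pd hg i) hpds)
    (key _ _ hfc hg.continuous le_rfl) hfd
    (fun x _ => (hg.differentiable one_ne_zero) x)

/-! ### the cross product -/

theorem crs_apply0 (b x : E) : crs b x 0 = b 1 * x 2 - b 2 * x 1 := by simp [crs]
theorem crs_apply1 (b x : E) : crs b x 1 = b 2 * x 0 - b 0 * x 2 := by simp [crs]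
theorem crs_apply2 (b x : E) : crs b x 2 = b 0 * x 1 - b 1 * x 0 := by simp [crs]

theorem crs_add_left (b b' x : E) : crs (b + b') x = crs b x + crs b' x := by
  ext i
  fin_cases i
  · simp only [Fin.zero_eta, PiLp.add_apply, crs_apply0]; ring
  · simp only [Fin.mk_one, PiLp.add_apply, crs_apply1]; ring
  · simp only [Fin.reduceFinMk, PiLp.add_apply, crs_apply2]; ring

theorem crs_add_right (b x x' : E) : crs b (x + x') = crs b x + crs b x' := by
  ext i
  fin_cases i
  · simp only [Fin.zero_eta, PiLp.add_apply, crs_apply0]; ring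
  · simp only [Fin.mk_one, PiLp.add_apply, crs_apply1]; ring
  · simp only [Fin.reduceFinMk, PiLp.add_apply, crs_apply2]; ring

theorem crs_smul_left (a : ℝ) (b x : E) : crs (a • b) x = a • crs b x := by
  ext i
  fin_cases i
  · simp only [Fin.zero_eta, PiLp.smul_apply, smul_eq_mul, crs_apply0]; ring
  · simp only [Fin.mk_one, PiLp.smul_apply, smul_eq_mul, crs_apply1]; ring
  · simp only [Fin.reduceFinMk, PiLp.smul_apply, smul_eq_mul, crs_apply2]; ring

theorem crs_smul_right (a : ℝ) (b x : E) : crs b (a • x) = a • crs b x := by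
  ext i
  fin_cases i
  · simp only [Fin.zero_eta, PiLp.smul_apply, smul_eq_mul, crs_apply0]; ring
  · simp only [Fin.mk_one, PiLp.smul_apply, smul_eq_mul, crs_apply1]; ring
  · simp only [Fin.reduceFinMk, PiLp.smul_apply, smul_eq_mul, crs_apply2]; ring

theorem inner_eq (x y : E) : inner ℝ x y = x 0 * y 0 + x 1 * y 1 + x 2 * y 2 := by
  simp [PiLp.inner_apply, Fin.sum_univ_three, mul_comm]

theorem norm_sq (x : E) : ‖x‖ ^ 2 = x 0 ^ 2 + x 1 ^ 2 + x 2 ^ 2 := by
  rw [← real_inner_self_eq_norm_sq, inner_eq]; ring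

theorem inner_crs (b x : E) : inner ℝ x (crs b x) = 0 := by
  rw [inner_eq, crs_apply0, crs_apply1, crs_apply2]; ring

theorem contDiff_crs (b : E) : ContDiff ℝ ∞ (fun x : E => crs b x) := by
  have : ∀ i : Fin 3, ContDiff ℝ ∞ (fun x : E => x i) := fun i => by fun_prop
  rw [contDiff_piLp]
  intro i
  fin_cases i
  · simp only [Fin.zero_eta, crs_apply0]; fun_prop
  · simp only [Fin.mk_one, crs_apply1]; fun_prop
  · simp only [Fin.reduceFinMk, crs_apply2]; fun_prop

theorem ee_apply (i j : Fin 3) : (ee i : E) j = if j = i then 1 else 0 := by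
  simp [ee]

theorem LL_zero (f : E → ℝ) (x : E) : LL 0 f x = x 1 * pd f 2 x - x 2 * pd f 1 x := by
  unfold LL
  rw [fderiv_sum, Fin.sum_univ_three, crs_apply0, crs_apply1, crs_apply2]
  simp; ring

theorem LL_one (f : E → ℝ) (x : E) : LL 1 f x = x 2 * pd f 0 x - x 0 * pd f 2 x := by
  unfold LL
  rw [fderiv_sum, Fin.sum_univ_three, crs_apply0, crs_apply1, crs_apply2]
  simp; ring

theorem LL_two (f : E → ℝ) (x : E) : LL 2 f x = x 0 * pd f 1 x - x 1 * pd f 0 x := by
  unfold LL
  rw [fderiv_sum, Fin.sum_univ_three, crs_apply0, crs_apply1, crs_apply2]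
  simp; ring

/-- Lagrange's identity: radial and rotational derivatives -/
theorem lagrange (f g : E → ℝ) (x : E) :
    ‖x‖ ^ 2 * gg f g x = fderiv ℝ f x x * fderiv ℝ g x x + ∑ a, LL a f x * LL a g x := by
  rw [fderiv_sum, fderiv_sum, norm_sq, Fin.sum_univ_three, Fin.sum_univ_three,
    Fin.sum_univ_three, LL_zero, LL_zero, LL_one, LL_one, LL_two, LL_two]
  simp only [gg, Fin.sum_univ_three]
  ring

end

end Pool.Agent.H68.SC
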