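import Mathlib

/-!
# The setting of MP_f4af34_an, in named pieces (as in the frozen statement S06715)
-/

set_option autoImplicit false

namespace Pool.Agent.H68.SC

open Filter Topology

/-- `D = {φ < 0}` is a bounded connected domain of class `C²` in three-space whose boundary is
homeomorphic to a sphere. -/
def IsDomain (D : Set (EuclideanSpace ℝ (Fin 3))) (φ : EuclideanSpace ℝ (Fin 3) → ℝ) : Prop :=
  Bornology.IsBounded D ∧ IsConnected D ∧ ContDiff ℝ 2 φ ∧ D = {x | φ x < 0} ∧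
    (∀ x, φ x = 0 → fderiv ℝ φ x ≠ 0) ∧
    Nonempty (frontier D ≃ₜ Metric.sphere (0 : EuclideanSpace ℝ (Fin 3)) 1)

/-- `Δ u + k² u = 0` in `D`. -/
def Helmholtz (D : Set (EuclideanSpace ℝ (Fin 3))) (k : ℝ)
    (u : EuclideanSpace ℝ (Fin 3) → ℝ) : Prop :=
  ∀ x ∈ D, (∑ i : Fin 3, fderiv ℝ (fderiv ℝ u) x (EuclideanSpace.single i (1 : ℝ))
    (EuclideanSpace.single i (1 : ℝ))) + k ^ 2 * u x = 0

/-- `u` is a solution of class `C²` of the overdetermined problem: `Δ u + k² u = 0` in `D`, and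
`u → c`, `∇ u → 0` at the boundary of `D`. -/
def IsSolution (D : Set (EuclideanSpace ℝ (Fin 3))) (k c : ℝ)
    (u : EuclideanSpace ℝ (Fin 3) → ℝ) : Prop :=
  ContDiffOn ℝ 2 u D ∧ Helmholtz D k u ∧
    ∀ x ∈ frontier D, Tendsto u (𝓝[D] x) (𝓝 c) ∧ Tendsto (fderiv ℝ u) (𝓝[D] x) (𝓝 0)

end Pool.Agent.H68.SC
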