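import Pool.Agent.H68.SC.Count
import Pool.Agent.H68.SC.Stmt

/-!
# Final forms (proved from the modules)
-/

set_option autoImplicit false

namespace Pool.Agent.H68.SC

open Filter Topology MeasureTheory Metric
open scoped ContDiff

theorem Sy_one : Sy 1 = ⊤ := by
  rw [eq_top_iff]
  intro f _ x
  rw [one_smul]

theorem toSol {D : Set E} {φ : E → ℝ} (h : IsDomain D φ) {k c : ℝ} {u : E → ℝ} (hk : 0 < k)
    (hc : c ≠ 0) (hu : IsSolution D k c u) : Sol D φ k c u :=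
  ⟨h.1, h.2.1, h.2.2.1, h.2.2.2.1, h.2.2.2.2.1, h.2.2.2.2.2, hk, hc, hu.1, hu.2.1, hu.2.2⟩

/-- the window theorem, general and centrally symmetric case together -/
theorem window {D : Set E} {φ : E → ℝ} {k c : ℝ} {u : E → ℝ} (h : Sol D φ k c u) {x₀ : E}
    {r R s : ℝ} (h1 : ball x₀ r ⊆ D) (h2 : D ⊆ ball x₀ R)
    (hs : s = 1 ∨ s = -1 ∧ ∀ x ∈ D, (2 : ℝ) • x₀ - x ∈ D)
    (hw : k * R ≤ 5.76 ∨ (∀ l : ℕ, 2 ≤ l → s ^ l = 1 → NoZero l k r R) ∧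
      ∀ l < 2, s ^ l = 1 → OneZero l k r R) : ∃ (z : E) (ρ : ℝ), D = ball z ρ := by
  rcases hw with hw | ⟨hw1, hw2⟩
  · exact finB h h2 hw
  · rcases hs with rfl | ⟨rfl, hs⟩
    · exact finA h h1 h2 (fun l hl => hw1 l hl (one_pow l)) (fun l hl => hw2 l hl (one_pow l))
    · exact finS h hs h1 h2 (fun l hl he => hw1 l hl he.neg_one_pow)
        (hw2 0 (by norm_num) (by norm_num))

/-- the comparison theorem -/
theorem compare {D : Set E} {φ : E → ℝ} {k c : ℝ} {u : E → ℝ} (h : Sol D φ k c u)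
    (hD : ¬∃ (z : E) (ρ : ℝ), D = ball z ρ) {Ω₁ Ω₂ : Set E} (h1 : Ω₁ ⊆ D) (h2 : D ⊆ Ω₂)
    {m M : ℕ} (hl : AtLeast ⊤ Ω₁ (k ^ 2) m) (hu : AtMost ⊤ Ω₂ (k ^ 2) M) : max m 1 + 5 ≤ M := by
  by_contra hc
  rw [← Sy_one] at hl hu
  exact hD (mainA h h1 h2 hl (hu.le (by omega)))

end Pool.Agent.H68.SC
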