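import Pool.Agent.H68.SC.CoreA

/-!
# Core: `n` independent eigenfunctions raise the count by `n` (proved from the modules)
-/

set_option autoImplicit false

namespace Pool.Agent.H68.SC

open Filter Topology MeasureTheory Metric
open scoped ContDiff

theorem core {D : Set E} (hD : IsOpen D) (hb : Bornology.IsBounded D) {K : ℝ} (hK : 0 < K)
    {s : ℝ} (hs : s = 1 ∨ s = -1) (hDs : ∀ x ∈ D, s • x ∈ D) {n : ℕ}
    (w : Fin n → E → ℝ) (hw : ∀ i, Eigf D K (w i)) (hws : ∀ i, w i ∈ Sy s)
    (hli : LinearIndependent ℝ w) {m M : ℕ}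
    (h1 : AtLeast (Sy s) D K m) (h2 : AtMost (Sy s) D K M) : m + n ≤ M := by
  obtain ⟨F, hF, hfin, hm, hneg⟩ := h1
  obtain ⟨ε, hε, hM⟩ := h2
  have hneg' : ∀ f ∈ F, f ≠ 0 → BB K f f < 0 := by
    intro f hf h0
    rw [BB_self (hF hf).1]
    have := hneg f hf h0
    linarith
  obtain ⟨χ, hχ⟩ := coreA hD hb hK hs hDs w hw hws hli F hF hfin hneg' hε
  let T : (F × (Fin n → ℝ)) →ₗ[ℝ] (E → ℝ) :=
    { toFun := fun p => fun x => (p.1 : E → ℝ) x + χ x * ∑ i, p.2 i * w i x
      map_add' := by
        intro p q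
        funext x
        simp only [Prod.fst_add, Submodule.coe_add, Pi.add_apply, Prod.snd_add, add_mul,
          Finset.sum_add_distrib]
        ring
      map_smul' := by
        intro a p
        funext x
        simp only [Prod.smul_fst, Submodule.coe_smul, Pi.smul_apply, smul_eq_mul, Prod.smul_snd,
          RingHom.id_apply]
        have : ∑ i, a * p.2 i * w i x = a * ∑ i, p.2 i * w i x := by
          rw [Finset.mul_sum]
          exact Finset.sum_congr rfl fun i _ => by ring
        rw [this]; ring }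
  have hinj : Function.Injective T := by
    rw [← LinearMap.ker_eq_bot, LinearMap.ker_eq_bot']
    intro p hp
    obtain ⟨h3, h4⟩ := (hχ p.1 p.1.2 p.2).2.2 hp
    ext1
    · exact Subtype.ext h3
    · exact h4
  have hr : Module.finrank ℝ (LinearMap.range T) = Module.finrank ℝ F + n := by
    rw [LinearMap.finrank_range_of_inj hinj, Module.finrank_prod, Module.finrank_fin_fun]
  have h5 := hM (LinearMap.range T) ?_ ?_ ?_
  · omega
  · rintro _ ⟨p, rfl⟩
    exact (hχ p.1 p.1.2 p.2).1
  · infer_instance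
  · rintro _ ⟨p, rfl⟩
    obtain ⟨h6, h7, -⟩ := hχ p.1 p.1.2 p.2
    have h8 := BB_self h6.1 K
    have h9 : T p = fun x => (p.1 : E → ℝ) x + χ x * ∑ i, p.2 i * w i x := rfl
    rw [h9]
    rw [h8] at h7
    linarith

end Pool.Agent.H68.SC
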