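import Pool.Agent.H68.SC.Cut

/-!
# Module CutS (about 110 lines): symmetric cutoff functions

PROOF. For `s = 1` take `cut`. For `s = -1` apply `cut` to `K₀ ∪ (-K₀)` (contained in `D`, as `D = -D`) and
put `χ' x = (χ x + χ (-x)) / 2`. It is in `C1c D`, `0 ≤ χ' ≤ 1`, equal to `1` near `K₀`, even.
`gg χ' χ' x ≤ (gg χ χ x + gg χ χ (-x)) / 2` (the gradient of `x ↦ χ (-x)` at `x` is minus the
gradient of `χ` at `-x`; convexity of the square), and `∑ w i x ^ 2` is even, so
`∫ (∑ w²) gg χ' χ' ≤ ∫ (∑ w²) gg χ χ` (`integral_neg_eq_self`, `x ↦ -x`), and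
`(1 - χ' x)² G ≤ ((1 - χ x)² G + (1 - χ (-x))² G) / 2 ≤ ε`.
-/

set_option autoImplicit false

namespace Pool.Agent.H68.SC

open Filter Topology MeasureTheory Metric
open scoped ContDiff

private theorem CutS_pd {χ : E → ℝ} (hχ : Differentiable ℝ χ) (i : Fin 3) (x : E) :
    pd (fun y => χ (-y)) i x = -pd χ i (-x) := by
  unfold pd
  have h1 : HasFDerivAt (fun y : E => -y) (-ContinuousLinearMap.id ℝ E) x := (hasFDerivAt_id x).neg
  have h2 : HasFDerivAt (fun y : E => χ (-y))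
      ((fderiv ℝ χ (-x)).comp (-ContinuousLinearMap.id ℝ E)) x :=
    HasFDerivAt.comp x (hχ (-x)).hasFDerivAt h1
  rw [h2.fderiv]
  simp

private theorem CutS_mem {D : Set E} (hD : ∀ x ∈ D, -x ∈ D) {χ : E → ℝ} (hχ : χ ∈ C1c D) :
    (fun y => χ (-y)) ∈ C1c D := by
  have h0 : (fun y => χ (-y)) = χ ∘ (Homeomorph.neg E) := rfl
  refine ⟨(C1c.contDiff hχ).comp contDiff_neg, ?_, ?_⟩
  · rw [h0]
    exact (C1c.compact hχ).comp_homeomorph _
  · rw [h0, tsupport_comp_eq_preimage]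
    intro x hx
    have h1 : -x ∈ tsupport χ := hx
    have h2 := hD _ (C1c.sub hχ h1)
    rwa [neg_neg] at h2

theorem cutS {D : Set E} (hD : IsOpen D) (hb : Bornology.IsBounded D) {K : ℝ} (hK : 0 < K)
    {s : ℝ} (hs : s = 1 ∨ s = -1) (hDs : ∀ x ∈ D, s • x ∈ D) {n : ℕ}
    (w : Fin n → E → ℝ) (hw : ∀ i, Eigf D K (w i)) (hws : ∀ i, w i ∈ Sy s)
    {K₀ : Set E} (h0 : IsCompact K₀) (h1 : K₀ ⊆ D) {ε : ℝ} (hε : 0 < ε) :
    ∃ χ ∈ C1c D ⊓ Sy s, (∀ x, 0 ≤ χ x ∧ χ x ≤ 1) ∧ (∀ x ∈ K₀, ∀ᶠ y in 𝓝 x, χ y = 1) ∧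
      ∫ x, (∑ i, w i x ^ 2) * gg χ χ x ≤ ε ∧ ∀ x, (1 - χ x) ^ 2 * ∑ i, w i x ^ 2 ≤ ε := by
  rcases hs with rfl | rfl
  · obtain ⟨χ, h2, h3, h4, h5, h6⟩ := cut hD hb hK w hw h0 h1 hε
    refine ⟨χ, ⟨h2, fun x => ?_⟩, h3, h4, h5, h6⟩
    rw [one_smul]
  · have hDn : ∀ x ∈ D, -x ∈ D := fun x hx => by
      have := hDs x hx
      rwa [neg_smul, one_smul] at this
    have hwn : ∀ i x, w i (-x) = w i x := fun i x => by
      have := hws i x
      rwa [neg_smul, one_smul] at this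
    have hc1 : IsCompact (K₀ ∪ (fun x => -x) '' K₀) := h0.union (h0.image continuous_neg)
    have hc2 : K₀ ∪ (fun x => -x) '' K₀ ⊆ D := by
      rintro x (hx | ⟨y, hy, rfl⟩)
      · exact h1 hx
      · exact hDn y (h1 hy)
    obtain ⟨χ, h2, h3, h4, h5, h6⟩ := cut hD hb hK w hw hc1 hc2 hε
    have h2n := CutS_mem hDn h2
    have hd := C1c.diff h2
    have hdn : Differentiable ℝ (fun y => χ (-y)) := C1c.diff h2n
    set χ' : E → ℝ := fun x => (χ x + χ (-x)) / 2 with hχ'
    have hχ'e : χ' = (1 / 2 : ℝ) • (χ + fun y => χ (-y)) := by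
      funext x
      simp only [hχ', Pi.smul_apply, Pi.add_apply, smul_eq_mul]
      ring
    have hmem : χ' ∈ C1c D := by
      rw [hχ'e]
      exact Submodule.smul_mem _ _ (Submodule.add_mem _ h2 h2n)
    have hpd : ∀ i x, pd χ' i x = 1 / 2 * (pd χ i x - pd χ i (-x)) := by
      intro i x
      have e1 : χ' = fun x => (1 / 2 : ℝ) * (χ x + χ (-x)) := by
        funext x; simp only [hχ']; ring
      have e2 : DifferentiableAt ℝ (fun y => χ y + χ (-y)) x := (hd x).add (hdn x)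
      rw [e1, pd_const_mul (1 / 2) e2 i, pd_add (hd x) (hdn x), CutS_pd hd]
      ring
    have hgg : ∀ x, gg χ' χ' x ≤ (gg χ χ x + gg χ χ (-x)) / 2 := by
      intro x
      unfold gg
      rw [← Finset.sum_add_distrib, Finset.sum_div]
      refine Finset.sum_le_sum fun i _ => ?_
      rw [hpd]
      nlinarith [sq_nonneg (pd χ i x + pd χ i (-x))]
    set G : E → ℝ := fun x => ∑ i, w i x ^ 2 with hG
    have hG0 : ∀ x, 0 ≤ G x := fun x => Finset.sum_nonneg fun i _ => sq_nonneg _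
    have hGn : ∀ x, G (-x) = G x := fun x => by
      simp only [hG]
      exact Finset.sum_congr rfl fun i _ => by rw [hwn]
    have hGc : Continuous G :=
      continuous_finsetSum _ fun i _ => ((hw i).cont).pow 2
    have hi0 : ∀ f ∈ C1c D, Integrable (fun x => G x * gg f f x) := fun f hf =>
      integrable_cc (hGc.mul (continuous_gg (C1c.contDiff hf) (C1c.contDiff hf)))
        (HasCompactSupport.mul_left (hasCompactSupport_gg (C1c.compact hf) f))
    have hneg : ∫ x, G x * gg χ χ (-x) = ∫ x, G x * gg χ χ x := by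
      rw [← integral_neg_eq_self (fun x => G x * gg χ χ x) volume]
      refine integral_congr_ae (Eventually.of_forall fun x => ?_)
      simp only
      rw [hGn]
    have hi1 : Integrable (fun x => G x * gg χ χ (-x)) := by
      have := (hi0 χ h2).comp_neg
      refine this.congr (Eventually.of_forall fun x => ?_)
      simp only
      rw [hGn]
    refine ⟨χ', ⟨hmem, fun x => ?_⟩, fun x => ?_, fun x hx => ?_, ?_, fun x => ?_⟩
    · simp only [hχ', neg_smul, one_smul, neg_neg]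
      ring
    · have e1 := h3 x
      have e2 := h3 (-x)
      simp only [hχ']
      constructor
      · linarith [e1.1, e2.1]
      · linarith [e1.2, e2.2]
    · have e1 := h4 x (Or.inl hx)
      have e2 := h4 (-x) (Or.inr ⟨x, hx, rfl⟩)
      have e3 : ∀ᶠ y in 𝓝 x, χ (-y) = 1 := (continuous_neg.tendsto x).eventually e2
      filter_upwards [e1, e3] with y hy1 hy2
      simp only [hχ', hy1, hy2]
      norm_num
    · calc ∫ x, G x * gg χ' χ' x ≤ ∫ x, (1 / 2 * (G x * gg χ χ x) + 1 / 2 * (G x * gg χ χ (-x))) := by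
            refine integral_mono (hi0 χ' hmem) (((hi0 χ h2).const_mul _).add (hi1.const_mul _))
              fun x => ?_
            simp only
            nlinarith [mul_le_mul_of_nonneg_left (hgg x) (hG0 x)]
        _ = ∫ x, G x * gg χ χ x := by
            rw [integral_add ((hi0 χ h2).const_mul _) (hi1.const_mul _), integral_const_mul,
              integral_const_mul, hneg]
            ring
        _ ≤ ε := h5
    · have e1 := h6 x
      have e2 := h6 (-x)
      change (1 - χ x) ^ 2 * G x ≤ ε at e1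
      change (1 - χ (-x)) ^ 2 * G (-x) ≤ ε at e2
      rw [hGn] at e2
      change (1 - χ' x) ^ 2 * G x ≤ ε
      have e3 : (1 - χ' x) ^ 2 ≤ ((1 - χ x) ^ 2 + (1 - χ (-x)) ^ 2) / 2 := by
        simp only [hχ']
        nlinarith [sq_nonneg (χ x - χ (-x))]
      nlinarith [mul_le_mul_of_nonneg_right e3 (hG0 x)]

end Pool.Agent.H68.SC
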