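import Pool.Agent.H68.SC.Basic

/-!
# Module Quad (about 150 lines): cutting off an eigenfunction

PROOF.
* `mul_mem`: `χ w` is `C¹` on `D` and vanishes near every point outside `tsupport χ`, so it is `C¹` on `E`;
  its support is in `tsupport χ`.
* `quad`: `ψ = χ² w ∈ C1c D` (`mul_mem` twice or directly). `weak` for `ψ`:
  `∫ (gg w ψ - K w ψ) = 0`. Pointwise (on `D`; both sides vanish outside `tsupport χ`):
  `gg (χ w) (χ w) = χ² gg w w + 2 χ w gg χ w + w² gg χ χ` and
  `gg w (χ² w) = χ² gg w w + 2 χ w gg χ w`, so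
  `gg (χ w) (χ w) - K (χ w)² = (gg w ψ - K w ψ) + w² gg χ χ`.
* `cross`: `χ w = w` near every point of `tsupport f`, so `gg f (χ w) = gg w f` everywhere and
  `f χ w = w f`; use `weak` for `f`.
* `Eigf.add`, `Eigf.smul`, `Eigf.zero`: linearity of the weak equation; `gg w ψ` is continuous with compact support for
  `ψ ∈ C1c D` (`pd w i` is continuous on `D`), and `w + w'` is differentiable on `D`.
-/

set_option autoImplicit false

namespace Pool.Agent.H68.SC

open Filter Topology MeasureTheory Metric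
open scoped ContDiff

variable {D : Set E} {K : ℝ}

theorem mul_memA (hD : IsOpen D) {w χ : E → ℝ} (h : ContDiffOn ℝ 1 w D) (hχ : χ ∈ C1c D) :
    (fun x => χ x * w x) ∈ C1c D := by
  refine ⟨?_, HasCompactSupport.mul_right (C1c.compact hχ), ?_⟩
  · rw [contDiff_iff_contDiffAt]
    intro x
    by_cases hx : x ∈ tsupport χ
    · have hxD := C1c.sub hχ hx
      exact ((C1c.contDiff hχ).contDiffAt).mul ((h x hxD).contDiffAt (hD.mem_nhds hxD))
    · have h0 : (fun y => χ y * w y) =ᶠ[𝓝 x] fun _ => 0 := by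
        have : χ =ᶠ[𝓝 x] 0 := notMem_tsupport_iff_eventuallyEq.1 hx
        filter_upwards [this] with y hy
        rw [hy, Pi.zero_apply, zero_mul]
      exact contDiffAt_const.congr_of_eventuallyEq h0
  · exact (tsupport_mul_subset_left).trans (C1c.sub hχ)

theorem mul_mem (hD : IsOpen D) {w χ : E → ℝ} (h : Eigf D K w) (hχ : χ ∈ C1c D) :
    (fun x => χ x * w x) ∈ C1c D := mul_memA hD h.C1 hχ

theorem diffAt_of (hD : IsOpen D) {w : E → ℝ} (h : ContDiffOn ℝ 1 w D) {x : E} (hx : x ∈ D) :
    DifferentiableAt ℝ w x :=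
  ((h x hx).contDiffAt (hD.mem_nhds hx)).differentiableAt one_ne_zero

theorem zero_of {f : E → ℝ} {x : E} (h : x ∉ tsupport f) : f x = 0 := by
  by_contra hne
  exact h (subset_tsupport f hne)

theorem quad (hD : IsOpen D) {w χ : E → ℝ} (h : Eigf D K w) (hχ : χ ∈ C1c D) :
    BB K (fun x => χ x * w x) (fun x => χ x * w x) = ∫ x, w x ^ 2 * gg χ χ x := by
  set f : E → ℝ := fun x => χ x * w x with hf
  have hfm : f ∈ C1c D := mul_mem hD h hχ
  set ψ : E → ℝ := fun x => χ x * f x with hψ
  have hψm : ψ ∈ C1c D := mul_memA hD (C1c.contDiff hfm).contDiffOn hχ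
  have key : ∀ x, gg w ψ x - K * (w x * ψ x) =
      (gg f f x - K * (f x * f x)) - w x ^ 2 * gg χ χ x := by
    intro x
    by_cases hx : x ∈ tsupport χ
    · have hxD := C1c.sub hχ hx
      have hw := diffAt_of hD h.C1 hxD
      have hc := C1c.diff hχ x
      have h1 : ∀ i, pd f i x = χ x * pd w i x + w x * pd χ i x := fun i => pd_mul hc hw i
      have h2 : ∀ i, pd ψ i x = χ x * pd f i x + f x * pd χ i x := fun i =>
        pd_mul hc (C1c.diff hfm x) i
      simp only [gg, Fin.sum_univ_three, h2, h1]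
      simp only [hψ, hf]
      ring
    · have h1 : ∀ i, pd χ i x = 0 := fun i => pd_zero_of hx i
      have hxf : x ∉ tsupport f := fun hh => hx (tsupport_mul_subset_left hh)
      have hxψ : x ∉ tsupport ψ := fun hh => hx (tsupport_mul_subset_left hh)
      have h2 : ∀ i, pd f i x = 0 := fun i => pd_zero_of hxf i
      have h3 : ∀ i, pd ψ i x = 0 := fun i => pd_zero_of hxψ i
      have h4 : f x = 0 := zero_of hxf
      have h5 : ψ x = 0 := zero_of hxψ
      simp only [gg, h1, h2, h3, h4, h5]
      simp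
  have hw := h.weak ψ hψm
  rw [integral_congr_ae (Eventually.of_forall key), integral_sub] at hw
  · unfold BB
    linarith
  · exact (C1c.int_gg hfm hfm).sub ((C1c.int_mul hfm hfm).const_mul K)
  · refine integrable_cc ((h.cont.pow 2).mul (continuous_gg (C1c.contDiff hχ) (C1c.contDiff hχ))) ?_
    exact HasCompactSupport.mul_left (hasCompactSupport_gg (C1c.compact hχ) χ)

theorem cross (hD : IsOpen D) {w χ f : E → ℝ} (h : Eigf D K w) (hχ : χ ∈ C1c D) (hf : f ∈ C1c D)
    (h1 : ∀ x ∈ tsupport f, ∀ᶠ y in 𝓝 x, χ y = 1) : BB K f (fun x => χ x * w x) = 0 := by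
  rw [← h.weak f hf]
  unfold BB
  refine integral_congr_ae (Eventually.of_forall fun x => ?_)
  simp only
  by_cases hx : x ∈ tsupport f
  · have h2 : (fun y => χ y * w y) =ᶠ[𝓝 x] w := by
      filter_upwards [h1 x hx] with y hy
      rw [hy, one_mul]
    have h3 : ∀ i, pd (fun y => χ y * w y) i x = pd w i x := fun i => pd_congr h2 i
    have h4 : χ x * w x = w x := h2.eq_of_nhds
    rw [h4, mul_comm (f x)]
    congr 1
    unfold gg
    refine Finset.sum_congr rfl fun i _ => ?_
    rw [h3 i, mul_comm]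
  · have h2 : ∀ i, pd f i x = 0 := fun i => pd_zero_of hx i
    have h3 : f x = 0 := zero_of hx
    simp only [gg, h2, h3]
    simp

theorem Eigf.zero' : Eigf D K (0 : E → ℝ) := by
  refine ⟨continuous_const, fun _ _ => rfl, contDiffOn_const, fun ψ _ => ?_⟩
  have h1 : ∀ x, gg (0 : E → ℝ) ψ x - K * ((0 : E → ℝ) x * ψ x) = 0 := by
    intro x
    have h2 : ∀ i, pd (0 : E → ℝ) i x = 0 := by
      intro i
      unfold pd
      rw [show fderiv ℝ (0 : E → ℝ) x = 0 from fderiv_const_apply (0 : ℝ)]
      rfl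
    simp only [gg, h2]
    simp
  rw [integral_congr_ae (Eventually.of_forall h1)]
  simp

theorem int_weak (hD : IsOpen D) {w ψ : E → ℝ} (h : Eigf D K w) (hψ : ψ ∈ C1c D) :
    Integrable (fun x => gg w ψ x - K * (w x * ψ x)) := by
  refine Integrable.sub ?_ (Integrable.const_mul (integrable_cc
    (h.cont.mul (C1c.cont hψ)) (HasCompactSupport.mul_left (C1c.compact hψ))) K)
  have hpc : ∀ i, ContinuousOn (pd w i) D := fun i =>
    (h.C1.continuousOn_fderiv_of_isOpen hD le_rfl).clm_apply continuousOn_const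
  refine integrable_cc ?_ ?_
  · rw [continuous_iff_continuousAt]
    intro x
    by_cases hx : x ∈ tsupport ψ
    · have hxD := C1c.sub hψ hx
      have h1 : ∀ i, ContinuousAt (fun y => pd w i y * pd ψ i y) x := fun i =>
        ((hpc i).continuousAt (hD.mem_nhds hxD)).mul
          (continuous_pd (C1c.contDiff hψ) i).continuousAt
      unfold gg
      simp only [Fin.sum_univ_three]
      exact ((h1 0).add (h1 1)).add (h1 2)
    · have h0 : gg w ψ =ᶠ[𝓝 x] fun _ => 0 := by
        have : (tsupport ψ)ᶜ ∈ 𝓝 x := (isClosed_tsupport ψ).isOpen_compl.mem_nhds hx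
        filter_upwards [this] with y hy
        exact Finset.sum_eq_zero fun i _ => by rw [pd_zero_of hy i, mul_zero]
      rw [continuousAt_congr h0]
      exact continuousAt_const
  · have h1 : gg w ψ = gg ψ w := by
      funext x
      exact gg_comm w ψ x
    rw [h1]
    exact hasCompactSupport_gg (C1c.compact hψ) w

theorem Eigf.add (hD : IsOpen D) {w w' : E → ℝ} (h : Eigf D K w) (h' : Eigf D K w') :
    Eigf D K (w + w') := by
  refine ⟨h.cont.add h'.cont, fun x hx => ?_, h.C1.add h'.C1, fun ψ hψ => ?_⟩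
  · rw [Pi.add_apply, h.out x hx, h'.out x hx, add_zero]
  · have key : ∀ x, gg (w + w') ψ x - K * ((w + w') x * ψ x) =
        (gg w ψ x - K * (w x * ψ x)) + (gg w' ψ x - K * (w' x * ψ x)) := by
      intro x
      by_cases hx : x ∈ tsupport ψ
      · have hxD := C1c.sub hψ hx
        rw [gg_add_left (diffAt_of hD h.C1 hxD) (diffAt_of hD h'.C1 hxD), Pi.add_apply]
        ring
      · have h2 : ∀ i, pd ψ i x = 0 := fun i => pd_zero_of hx i
        have h3 : ψ x = 0 := zero_of hx
        simp only [gg, h2, h3]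
        simp
    rw [integral_congr_ae (Eventually.of_forall key),
      integral_add (int_weak hD h hψ) (int_weak hD h' hψ), h.weak ψ hψ, h'.weak ψ hψ, add_zero]

theorem Eigf.smul (hD : IsOpen D) {w : E → ℝ} (a : ℝ) (h : Eigf D K w) : Eigf D K (a • w) := by
  refine ⟨h.cont.const_smul a, fun x hx => ?_, contDiffOn_const.smul h.C1, fun ψ hψ => ?_⟩
  · rw [Pi.smul_apply, h.out x hx, smul_zero]
  · have key : ∀ x, gg (a • w) ψ x - K * ((a • w) x * ψ x) =
        a * (gg w ψ x - K * (w x * ψ x)) := by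
      intro x
      by_cases hx : x ∈ tsupport ψ
      · have hxD := C1c.sub hψ hx
        rw [gg_smul_left a (diffAt_of hD h.C1 hxD), Pi.smul_apply, smul_eq_mul]
        ring
      · have h2 : ∀ i, pd ψ i x = 0 := fun i => pd_zero_of hx i
        have h3 : ψ x = 0 := zero_of hx
        simp only [gg, h2, h3]
        simp
    rw [integral_congr_ae (Eventually.of_forall key), integral_const_mul, h.weak ψ hψ, mul_zero]

end Pool.Agent.H68.SC
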