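import Pool.Agent.H68.SC.FinQ
import Pool.Agent.H68.SC.Quad
import Pool.Agent.H68.SC.CutS

/-!
# Module CoreA (about 200 lines): adding the cut-off eigenfunctions to a negative space

PROOF. Write `v_a = ∑ i, a i * w i` (an `Eigf D K` in `Sy s`, by `Eigf.add`, `Eigf.smul`,
`Eigf.zero'`), `N f = √(∫ f²)`.
(i) `fin_quad` on `F` with the forms `-BB K` and `∫ f g` (bilinear on `F` by `BB_add_left`,
`BB_smul_left`, `BB_comm`, `C1c.int_mul`): `δ₁ > 0` with `BB K f f ≤ -δ₁ ∫ f²` for `f ∈ F`.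
(ii) `fin_quad` on `Fin n → ℝ` with `∫ v_a²` (positive for `a ≠ 0` by `hli` and `int_sq_pos`; `v_a` is
continuous with compact support: zero outside the bounded set `D`) and `∑ a i ^ 2`: `δ₂ > 0` with
`∫ v_a² ≥ δ₂ ∑ a i ^ 2`.
(iii) a compact `K₀ ⊆ D` with `tsupport f ⊆ K₀` for all `f ∈ F` (a finite spanning set of `F`;
`f = ∑ c_j f_j` vanishes outside the union of the `tsupport f_j`).
Let `χ` be the function of `cutS` for `K₀` and a small `ε' > 0`. `χ v_a ∈ C1c D ⊓ Sy s` (`mul_mem`).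
`v_a² ≤ (∑ a i ^ 2) ∑ w i ^ 2` (Cauchy-Schwarz), so with `A = ∑ a i ^ 2`:
`BB K (χ v_a) (χ v_a) = ∫ v_a² gg χ χ ≤ A ε'` (`quad`), `BB K f (χ v_a) = 0` (`cross`), and
`∫ ((1 - χ) v_a)² ≤ A ε' vol D` (`v_a = 0` outside `D`). So with `g = f + χ v_a`:
`BB K g g ≤ -δ₁ N f ² + A ε'` and `N g ≥ N (χ v_a) - N f ≥ √(δ₂ A) - √(ε' vol D A) - N f ≥ √(δ₂ A) / 2 - N f`
if `ε' vol D ≤ δ₂ / 4` (triangle inequality in `L²`). If `N f ≤ √(δ₂ A) / 4` then
`ε N g ² ≥ ε δ₂ A / 16 ≥ A ε'` for `ε' ≤ ε δ₂ / 16`; if `N f > √(δ₂ A) / 4` then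
`BB K g g ≤ -δ₁ δ₂ A / 16 + A ε' ≤ 0` for `ε' ≤ δ₁ δ₂ / 16`. This is the second claim.
Third: if `f + χ v_a = 0` then `BB K f f = - BB K f (χ v_a) = 0`, so `f = 0` by `hneg`, then
`χ v_a = 0`, `0 = N (χ v_a) ≥ √(δ₂ A) / 2`, `A = 0`.
-/

set_option autoImplicit false

namespace Pool.Agent.H68.SC

open Filter Topology MeasureTheory Metric
open scoped ContDiff

/-- linear combinations of the eigenfunctions -/
private def vA {n : ℕ} (w : Fin n → E → ℝ) (a : Fin n → ℝ) (x : E) : ℝ := ∑ i, a i * w i x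

private theorem vA_eq {n : ℕ} (w : Fin n → E → ℝ) (a : Fin n → ℝ) :
    vA w a = ∑ i, a i • w i := by
  funext x
  simp [vA, Finset.sum_apply]

private theorem vA_eigf {D : Set E} (hD : IsOpen D) {K : ℝ} {n : ℕ} {w : Fin n → E → ℝ}
    (hw : ∀ i, Eigf D K (w i)) (a : Fin n → ℝ) : Eigf D K (vA w a) := by
  rw [vA_eq]
  exact Finset.sum_induction (fun i => a i • w i) (Eigf D K) (fun _ _ h h' => Eigf.add hD h h')
    Eigf.zero' (fun i _ => Eigf.smul hD (a i) (hw i))

private theorem vA_sy {s : ℝ} {n : ℕ} {w : Fin n → E → ℝ}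
    (hws : ∀ i, w i ∈ Sy s) (a : Fin n → ℝ) : vA w a ∈ Sy s := by
  rw [vA_eq]
  exact Submodule.sum_mem _ fun i _ => Submodule.smul_mem _ _ (hws i)

private theorem cs_of {D : Set E} (hb : Bornology.IsBounded D) {w : E → ℝ}
    (h : ∀ x, x ∉ D → w x = 0) : HasCompactSupport w := by
  refine HasCompactSupport.intro (K := closure D) hb.isCompact_closure fun x hx => ?_
  exact h x fun hx' => hx (subset_closure hx')

private theorem vA_add {n : ℕ} (w : Fin n → E → ℝ) (a b : Fin n → ℝ) (x : E) :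
    vA w (a + b) x = vA w a x + vA w b x := by
  simp [vA, add_mul, Finset.sum_add_distrib]

private theorem vA_smul {n : ℕ} (w : Fin n → E → ℝ) (c : ℝ) (a : Fin n → ℝ) (x : E) :
    vA w (c • a) x = c * vA w a x := by
  simp only [vA, Pi.smul_apply, smul_eq_mul, Finset.mul_sum]
  exact Finset.sum_congr rfl fun i _ => by ring

private theorem vA_sq_le {n : ℕ} (w : Fin n → E → ℝ) (a : Fin n → ℝ) (x : E) :
    vA w a x ^ 2 ≤ (∑ i, a i ^ 2) * ∑ i, w i x ^ 2 :=
  Finset.sum_mul_sq_le_sq_mul_sq _ _ _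

/-- step (i) -/
private theorem step1 {D : Set E} {K : ℝ} (F : Submodule ℝ (E → ℝ)) (hF : F ≤ C1c D)
    (hfin : Module.Finite ℝ F) (hneg : ∀ f ∈ F, f ≠ 0 → BB K f f < 0) :
    ∃ δ : ℝ, 0 < δ ∧ ∀ f ∈ F, δ * ∫ x, f x ^ 2 ≤ - BB K f f := by
  let p : LinearMap.BilinForm ℝ F := LinearMap.mk₂ ℝ (fun f g => - BB K (f : E → ℝ) g)
    (by
      intro f g h
      simp only [Submodule.coe_add]
      rw [BB_add_left (hF f.2) (hF g.2) (hF h.2)]; ring)
    (by
      intro a f h
      simp only [Submodule.coe_smul, smul_eq_mul]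
      rw [BB_smul_left a (hF f.2)]; ring)
    (by
      intro h f g
      simp only [Submodule.coe_add]
      rw [BB_comm K h, BB_add_left (hF f.2) (hF g.2) (hF h.2), BB_comm K h, BB_comm K h]; ring)
    (by
      intro a h f
      simp only [Submodule.coe_smul, smul_eq_mul]
      rw [BB_comm K h, BB_smul_left a (hF f.2), BB_comm K h]; ring)
  let q : LinearMap.BilinForm ℝ F := LinearMap.mk₂ ℝ (fun f g => ∫ x, (f : E → ℝ) x * (g : E → ℝ) x)
    (by
      intro f g h
      rw [← integral_add (C1c.int_mul (hF f.2) (hF h.2)) (C1c.int_mul (hF g.2) (hF h.2))]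
      refine integral_congr_ae (Eventually.of_forall fun x => ?_)
      simp only [Submodule.coe_add, Pi.add_apply]; ring)
    (by
      intro a f h
      rw [smul_eq_mul, ← integral_const_mul]
      refine integral_congr_ae (Eventually.of_forall fun x => ?_)
      simp only [Submodule.coe_smul, Pi.smul_apply, smul_eq_mul]; ring)
    (by
      intro h f g
      rw [← integral_add (C1c.int_mul (hF h.2) (hF f.2)) (C1c.int_mul (hF h.2) (hF g.2))]
      refine integral_congr_ae (Eventually.of_forall fun x => ?_)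
      simp only [Submodule.coe_add, Pi.add_apply]; ring)
    (by
      intro a h f
      rw [smul_eq_mul, ← integral_const_mul]
      refine integral_congr_ae (Eventually.of_forall fun x => ?_)
      simp only [Submodule.coe_smul, Pi.smul_apply, smul_eq_mul]; ring)
  obtain ⟨δ, hδ, h⟩ := fin_quad p q (fun v hv => by
    change 0 < - BB K (v : E → ℝ) v
    have := hneg v v.2 (fun h0 => hv (Subtype.ext h0))
    linarith)
  refine ⟨δ, hδ, fun f hf => ?_⟩
  have h1 : δ * ∫ x, f x * f x ≤ - BB K f f := h ⟨f, hf⟩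
  have h2 : ∫ x, f x ^ 2 = ∫ x, f x * f x :=
    integral_congr_ae (Eventually.of_forall fun x => sq (f x))
  rw [h2]; exact h1

/-- step (ii) -/
private theorem step2 {D : Set E} (hD : IsOpen D) (hb : Bornology.IsBounded D) {K : ℝ} {n : ℕ}
    {w : Fin n → E → ℝ} (hw : ∀ i, Eigf D K (w i)) (hli : LinearIndependent ℝ w) :
    ∃ δ : ℝ, 0 < δ ∧ ∀ a : Fin n → ℝ, δ * ∑ i, a i ^ 2 ≤ ∫ x, vA w a x ^ 2 := by
  have hc : ∀ a, Continuous (vA w a) := fun a => (vA_eigf hD hw a).cont
  have hs : ∀ a, HasCompactSupport (vA w a) := fun a => cs_of hb (vA_eigf hD hw a).out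
  have hi : ∀ a b, Integrable (fun x => vA w a x * vA w b x) := fun a b =>
    integrable_cc ((hc a).mul (hc b)) (HasCompactSupport.mul_right (hs a))
  let p : LinearMap.BilinForm ℝ (Fin n → ℝ) := LinearMap.mk₂ ℝ
    (fun a b => ∫ x, vA w a x * vA w b x)
    (by
      intro a b c
      rw [← integral_add (hi a c) (hi b c)]
      refine integral_congr_ae (Eventually.of_forall fun x => ?_)
      simp only [vA_add]; ring)
    (by
      intro t a c
      rw [smul_eq_mul, ← integral_const_mul]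
      refine integral_congr_ae (Eventually.of_forall fun x => ?_)
      simp only [vA_smul]; ring)
    (by
      intro c a b
      rw [← integral_add (hi c a) (hi c b)]
      refine integral_congr_ae (Eventually.of_forall fun x => ?_)
      simp only [vA_add]; ring)
    (by
      intro t c a
      rw [smul_eq_mul, ← integral_const_mul]
      refine integral_congr_ae (Eventually.of_forall fun x => ?_)
      simp only [vA_smul]; ring)
  let q : LinearMap.BilinForm ℝ (Fin n → ℝ) := LinearMap.mk₂ ℝ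
    (fun a b => ∑ i, a i * b i)
    (by intro a b c; simp [add_mul, Finset.sum_add_distrib])
    (by
      intro t a c
      simp only [Pi.smul_apply, smul_eq_mul, Finset.mul_sum]
      exact Finset.sum_congr rfl fun i _ => by ring)
    (by intro a b c; simp [mul_add, Finset.sum_add_distrib])
    (by
      intro t a c
      simp only [Pi.smul_apply, smul_eq_mul, Finset.mul_sum]
      exact Finset.sum_congr rfl fun i _ => by ring)
  have hsq : ∀ a, ∫ x, vA w a x ^ 2 = ∫ x, vA w a x * vA w a x := fun a =>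
    integral_congr_ae (Eventually.of_forall fun x => sq (vA w a x))
  obtain ⟨δ, hδ, h⟩ := fin_quad p q (fun a ha => by
    change 0 < ∫ x, vA w a x * vA w a x
    rw [← hsq a]
    refine int_sq_pos (hc a) (hs a) fun h0 => ha ?_
    rw [vA_eq] at h0
    funext i
    exact Fintype.linearIndependent_iff.1 hli a h0 i)
  refine ⟨δ, hδ, fun a => ?_⟩
  have h1 : δ * ∑ i, a i * a i ≤ ∫ x, vA w a x * vA w a x := h a
  rw [hsq a]
  have h2 : ∑ i, a i ^ 2 = ∑ i, a i * a i := Finset.sum_congr rfl fun i _ => sq (a i)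
  rw [h2]; exact h1

/-- step (iii) -/
private theorem step3 {D : Set E} (F : Submodule ℝ (E → ℝ)) (hF : F ≤ C1c D)
    (hfin : Module.Finite ℝ F) : ∃ K₀ : Set E, IsCompact K₀ ∧ K₀ ⊆ D ∧ ∀ f ∈ F, tsupport f ⊆ K₀ := by
  let b := Module.finBasis ℝ F
  have hc : IsCompact (⋃ i, tsupport ((b i : F) : E → ℝ)) :=
    isCompact_iUnion fun i => C1c.compact (hF (b i).2)
  refine ⟨⋃ i, tsupport ((b i : F) : E → ℝ), hc,
    Set.iUnion_subset fun i => C1c.sub (hF (b i).2), fun f hf => ?_⟩
  refine closure_minimal ?_ hc.isClosed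
  intro x hx
  by_contra hne
  refine hx ?_
  have h1 := b.sum_repr ⟨f, hf⟩
  have h2 : f = ∑ i, b.repr ⟨f, hf⟩ i • ((b i : F) : E → ℝ) := by
    have := congrArg (fun g : F => (g : E → ℝ)) h1
    simp only [Submodule.coe_sum, Submodule.coe_smul] at this
    exact this.symm
  rw [h2, Finset.sum_apply]
  refine Finset.sum_eq_zero fun i _ => ?_
  have h3 : ((b i : F) : E → ℝ) x = 0 := by
    by_contra h4
    exact hne (Set.mem_iUnion.2 ⟨i, subset_tsupport _ h4⟩)
  rw [Pi.smul_apply, h3, smul_zero]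

theorem coreA {D : Set E} (hD : IsOpen D) (hb : Bornology.IsBounded D) {K : ℝ} (hK : 0 < K)
    {s : ℝ} (hs : s = 1 ∨ s = -1) (hDs : ∀ x ∈ D, s • x ∈ D) {n : ℕ}
    (w : Fin n → E → ℝ) (hw : ∀ i, Eigf D K (w i)) (hws : ∀ i, w i ∈ Sy s)
    (hli : LinearIndependent ℝ w) (F : Submodule ℝ (E → ℝ)) (hF : F ≤ C1c D ⊓ Sy s)
    (hfin : Module.Finite ℝ F) (hneg : ∀ f ∈ F, f ≠ 0 → BB K f f < 0) {ε : ℝ} (hε : 0 < ε) :
    ∃ χ : E → ℝ, ∀ f ∈ F, ∀ a : Fin n → ℝ,
      (fun x => f x + χ x * ∑ i, a i * w i x) ∈ C1c D ⊓ Sy s ∧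
      BB K (fun x => f x + χ x * ∑ i, a i * w i x) (fun x => f x + χ x * ∑ i, a i * w i x) ≤
        ε * ∫ x, (f x + χ x * ∑ i, a i * w i x) ^ 2 ∧
      ((fun x => f x + χ x * ∑ i, a i * w i x) = 0 → f = 0 ∧ a = 0) := by
  have hF' : F ≤ C1c D := hF.trans inf_le_left
  obtain ⟨δ₁, hδ₁, h1⟩ := step1 F hF' hfin hneg
  obtain ⟨δ₂, hδ₂, h2⟩ := step2 hD hb hw hli
  obtain ⟨K₀, hK₀, hK₀D, h3⟩ := step3 F hF' hfin
  set vol : ℝ := (volume D).toReal with hvol
  have hvol0 : 0 ≤ vol := ENNReal.toReal_nonneg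
  have hvolf : volume D ≠ ⊤ := hb.measure_lt_top.ne
  set η : ℝ := min ε δ₁ with hη
  have hη0 : 0 < η := lt_min hε hδ₁
  set ε' : ℝ := min (η * δ₂ / 6) (δ₂ / (6 * (vol + 1))) with hε'
  have hε'0 : 0 < ε' := lt_min (by positivity) (by positivity)
  have e1 : ε' ≤ η * δ₂ / 6 := min_le_left _ _
  have e2 : ε' * vol ≤ δ₂ / 6 := by
    have h4 : ε' ≤ δ₂ / (6 * (vol + 1)) := min_le_right _ _
    calc ε' * vol ≤ δ₂ / (6 * (vol + 1)) * (vol + 1) :=
          mul_le_mul h4 (by linarith) hvol0 (by positivity)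
      _ = δ₂ / 6 := by field_simp
  obtain ⟨χ, hχ, hχ01, hχ1, hχe, hχs⟩ := cutS hD hb hK hs hDs w hw hws hK₀ hK₀D hε'0
  refine ⟨χ, fun f hf a => ?_⟩
  set V : E → ℝ := vA w a with hV
  have hVe : Eigf D K V := vA_eigf hD hw a
  set A : ℝ := ∑ i, a i ^ 2 with hA
  have hA0 : 0 ≤ A := Finset.sum_nonneg fun i _ => sq_nonneg _
  set h : E → ℝ := fun x => χ x * V x with hh
  have hfC : f ∈ C1c D := hF' hf
  have hhC : h ∈ C1c D := mul_mem hD hVe hχ.1
  have hhS : h ∈ Sy s := by
    intro x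
    have e3 : χ (s • x) = χ x := hχ.2 x
    have e4 : V (s • x) = V x := vA_sy hws a x
    simp only [hh, e3, e4]
  have hg : (fun x => f x + χ x * ∑ i, a i * w i x) = f + h := by
    funext x; rfl
  have hgC : f + h ∈ C1c D := add_mem hfC hhC
  have hVc : Continuous V := hVe.cont
  have hVs : HasCompactSupport V := cs_of hb hVe.out
  -- the energy of `χ V`
  have hquad : BB K h h ≤ A * ε' := by
    have e5 : BB K h h = ∫ x, V x ^ 2 * gg χ χ x := quad hD hVe hχ.1
    have hwc : Continuous fun x => ∑ i, w i x ^ 2 :=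
      continuous_finsetSum _ fun i _ => (hw i).cont.pow 2
    have hgc : Continuous (gg χ χ) := continuous_gg (C1c.contDiff hχ.1) (C1c.contDiff hχ.1)
    have hgs : HasCompactSupport (gg χ χ) := hasCompactSupport_gg (C1c.compact hχ.1) χ
    rw [e5]
    calc ∫ x, V x ^ 2 * gg χ χ x ≤ ∫ x, A * ((∑ i, w i x ^ 2) * gg χ χ x) := by
          refine integral_mono (integrable_cc ((hVc.pow 2).mul hgc)
            (HasCompactSupport.mul_left hgs)) ((integrable_cc (hwc.mul hgc)
            (HasCompactSupport.mul_left hgs)).const_mul A) fun x => ?_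
          have := mul_le_mul_of_nonneg_right (vA_sq_le w a x) (gg_nonneg χ x)
          simp only
          linarith
      _ = A * ∫ x, (∑ i, w i x ^ 2) * gg χ χ x := integral_const_mul _ _
      _ ≤ A * ε' := mul_le_mul_of_nonneg_left hχe hA0
  have hcross : BB K f h = 0 :=
    cross hD hVe hχ.1 hfC fun x hx => hχ1 x (h3 f hf hx)
  have hBB : BB K (f + h) (f + h) ≤ -(δ₁ * ∫ x, f x ^ 2) + A * ε' := by
    rw [BB_add_self hfC hhC, hcross]
    have := h1 f hf
    linarith
  -- lower bound for the norm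
  have iV : Integrable (fun x => V x ^ 2) := by
    have : (fun x => V x ^ 2) = fun x => V x * V x := by funext x; ring
    rw [this]
    exact integrable_cc (hVc.mul hVc) (HasCompactSupport.mul_right hVs)
  have isq : ∀ {g : E → ℝ}, g ∈ C1c D → Integrable (fun x => g x ^ 2) := fun {g} hg => by
    have : (fun x => g x ^ 2) = fun x => g x * g x := by funext x; ring
    rw [this]
    exact C1c.int_mul hg hg
  have hind : Integrable (D.indicator fun _ : E => A * ε') :=
    (integrable_indicator_iff hD.measurableSet).2 (integrableOn_const hvolf)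
  have hnorm : δ₂ * A ≤ 3 * (∫ x, (f + h) x ^ 2) + 3 * (∫ x, f x ^ 2) + 3 * (A * ε' * vol) := by
    calc δ₂ * A ≤ ∫ x, V x ^ 2 := h2 a
      _ ≤ ∫ x, (3 * (f + h) x ^ 2 + 3 * f x ^ 2 + 3 * D.indicator (fun _ : E => A * ε') x) := by
          refine integral_mono iV ((((isq hgC).const_mul 3).add ((isq hfC).const_mul 3)).add
            (hind.const_mul 3)) fun x => ?_
          simp only [Pi.add_apply]
          have e6 : ((1 - χ x) * V x) ^ 2 ≤ D.indicator (fun _ : E => A * ε') x := by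
            by_cases hx : x ∈ D
            · rw [Set.indicator_of_mem hx]
              have e7 := vA_sq_le w a x
              have e8 := hχs x
              have e9 : 0 ≤ (1 - χ x) ^ 2 := sq_nonneg _
              calc ((1 - χ x) * V x) ^ 2 = (1 - χ x) ^ 2 * V x ^ 2 := by ring
                _ ≤ (1 - χ x) ^ 2 * (A * ∑ i, w i x ^ 2) := mul_le_mul_of_nonneg_left e7 e9
                _ = A * ((1 - χ x) ^ 2 * ∑ i, w i x ^ 2) := by ring
                _ ≤ A * ε' := mul_le_mul_of_nonneg_left e8 hA0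
            · rw [Set.indicator_of_notMem hx, hVe.out x hx]; simp
          have e10 : h x = χ x * V x := rfl
          have e11 : V x = (f x + h x) - f x + (1 - χ x) * V x := by rw [e10]; ring
          nlinarith [sq_nonneg ((f x + h x) + f x), sq_nonneg ((f x + h x) - (1 - χ x) * V x),
            sq_nonneg (f x + (1 - χ x) * V x), e6, e11]
      _ = 3 * (∫ x, (f + h) x ^ 2) + 3 * (∫ x, f x ^ 2) + 3 * (A * ε' * vol) := by
          have j1 : Integrable (fun x => 3 * (f + h) x ^ 2) := (isq hgC).const_mul 3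
          have j2 : Integrable (fun x => 3 * f x ^ 2) := (isq hfC).const_mul 3
          have j3 : Integrable (fun x => 3 * (f + h) x ^ 2 + 3 * f x ^ 2) := j1.add j2
          rw [integral_add j3 (hind.const_mul 3), integral_add j1 j2,
            integral_const_mul, integral_const_mul, integral_const_mul,
            integral_indicator hD.measurableSet, setIntegral_const]
          simp only [smul_eq_mul, Measure.real]
          rw [← hvol]; ring
  have hN : δ₂ * A / 6 ≤ (∫ x, (f + h) x ^ 2) + ∫ x, f x ^ 2 := by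
    have e12 : A * ε' * vol ≤ A * (δ₂ / 6) := by
      rw [mul_assoc]; exact mul_le_mul_of_nonneg_left e2 hA0
    nlinarith
  have hf0 : 0 ≤ ∫ x, f x ^ 2 := integral_nonneg fun x => sq_nonneg _
  have hg0 : 0 ≤ ∫ x, (f + h) x ^ 2 := integral_nonneg fun x => sq_nonneg _
  rw [hg]
  refine ⟨⟨hgC, add_mem (hF hf).2 hhS⟩, ?_, ?_⟩
  · change BB K (f + h) (f + h) ≤ ε * ∫ x, (f + h) x ^ 2
    have e13 : η * (∫ x, (f + h) x ^ 2) ≤ ε * ∫ x, (f + h) x ^ 2 :=
      mul_le_mul_of_nonneg_right (min_le_left _ _) hg0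
    have e14 : η * (∫ x, f x ^ 2) ≤ δ₁ * ∫ x, f x ^ 2 :=
      mul_le_mul_of_nonneg_right (min_le_right _ _) hf0
    have e15 : A * ε' ≤ η * (δ₂ * A / 6) := by
      calc A * ε' ≤ A * (η * δ₂ / 6) := mul_le_mul_of_nonneg_left e1 hA0
        _ = η * (δ₂ * A / 6) := by ring
    have e16 : η * (δ₂ * A / 6) ≤ η * ((∫ x, (f + h) x ^ 2) + ∫ x, f x ^ 2) :=
      mul_le_mul_of_nonneg_left hN hη0.le
    nlinarith
  · intro h0
    have e17 : BB K (f + h) f = BB K f f + BB K h f := BB_add_left hfC hhC hfC K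
    have e18 : BB K (f + h) f = 0 := by
      rw [h0]
      have := BB_smul_left (Ω := D) (f := f) (h := f) 0 hfC K
      rw [zero_smul, zero_mul] at this
      exact this
    rw [e18, BB_comm K h f, hcross, add_zero] at e17
    have hfz : f = 0 := by
      by_contra hne
      have := hneg f hf hne
      linarith
    refine ⟨hfz, ?_⟩
    have e19 : ∫ x, (f + h) x ^ 2 = 0 := by rw [h0]; simp
    have e20 : ∫ x, f x ^ 2 = 0 := by rw [hfz]; simp
    rw [e19, e20] at hN
    have e21 : A = 0 := by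
      have : δ₂ * A ≤ 0 := by linarith
      nlinarith
    funext i
    have e22 := (Finset.sum_eq_zero_iff_of_nonneg (fun i _ => sq_nonneg (a i))).1 e21 i
      (Finset.mem_univ i)
    simpa using e22

end Pool.Agent.H68.SC
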