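import Pool.Agent.H68.SC.Rot
import Pool.Agent.H53.SH.Basis

/-!
# Module Dense (helper53): spherical harmonics exist

The library `Pool/Agent/H53/SH` (harmonic polynomials, orthonormal basis, Stone-Weierstrass) is
translated into the structure `Harm`.
-/

set_option autoImplicit false

namespace Pool.Agent.H68.SC

open Filter Topology MeasureTheory Metric
open scoped ContDiff

open Pool.H53.SH (P3 pf LD T yp dm rs HS)

private theorem dn_LL (a : Fin 3) (p : P3) : LL a (pf p) = pf (LD a p) := by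
  funext x
  rw [LL_eq_Ld, Pool.H53.SH.Ld_pf]

private theorem dn_eig (l : ℕ) (i : Fin (dm l)) (y : E) :
    ∑ a, LL a (LL a (pf (yp l i))) y = -((l : ℝ) * (l + 1)) * pf (yp l i) y := by
  have h := Pool.H53.SH.sum_LD_LD_Harm (Pool.H53.SH.yp_mem l i)
  rw [Fin.sum_univ_three]
  simp only [dn_LL]
  rw [← Pool.H53.SH.pf_add, ← Pool.H53.SH.pf_add, h, Pool.H53.SH.pf_mul, Pool.H53.SH.pf_C]

private theorem dn_T_eq {p q : P3} (h : T p = T q) (y : S2) : pf p y = pf q y := by
  have h1 : rs p = rs q := ContinuousMap.toLp_injective (p := 2) (𝕜 := ℝ) Pool.H53.SH.sig h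
  rw [← Pool.H53.SH.rs_apply, ← Pool.H53.SH.rs_apply, h1]

/-- a polynomial function is a finite combination of harmonics on the sphere -/
private theorem dn_span (p : P3) : ∃ (N : ℕ) (a : (l : ℕ) → Fin (dm l) → ℝ),
    ∀ y : S2, pf p y = ∑ l ∈ Finset.range N, ∑ i, a l i * pf (yp l i) y := by
  have h := Pool.H53.SH.T_mem_span p
  rw [Finsupp.mem_span_range_iff_exists_finsupp] at h
  obtain ⟨c, hc⟩ := h
  obtain ⟨N, hN⟩ : ∃ N : ℕ, ∀ q ∈ c.support, q.1 < N := by
    refine ⟨c.support.sup (fun q => q.1) + 1, fun q hq => Nat.lt_succ_of_le ?_⟩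
    exact Finset.le_sup (f := fun q : (l : ℕ) × Fin (dm l) => q.1) hq
  refine ⟨N, fun l i => c ⟨l, i⟩, fun y => ?_⟩
  have h1 : T p = T (∑ l ∈ Finset.range N, ∑ i : Fin (dm l), c ⟨l, i⟩ • yp l i) := by
    rw [← hc, map_sum]
    simp only [map_sum, map_smul]
    rw [Finsupp.sum, Finset.sum_sigma']
    refine Finset.sum_subset_zero_on_sdiff ?_ ?_ ?_
    · intro q hq
      exact Finset.mem_sigma.2 ⟨Finset.mem_range.2 (hN q hq), Finset.mem_univ _⟩
    · intro q hq
      have : c q = 0 := Finsupp.notMem_support_iff.1 (Finset.mem_sdiff.1 hq).2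
      show c ⟨q.1, q.2⟩ • T (yp q.1 q.2) = 0
      rw [this, zero_smul]
    · intro q _; rfl
  rw [dn_T_eq h1 y]
  simp only [Pool.H53.SH.pf, map_sum, MvPolynomial.smul_eval]

private theorem dn_complete (f : E → ℝ) (hf : Continuous f) (ε : ℝ) (hε : 0 < ε) :
    ∃ (N : ℕ) (a : (l : ℕ) → Fin (dm l) → ℝ),
      ∀ y : S2, |f y - ∑ l ∈ Finset.range N, ∑ i, a l i * pf (yp l i) y| < ε := by
  obtain ⟨g, hg⟩ := ContinuousMap.exists_mem_subalgebra_near_continuous_of_separatesPoints
    _ Pool.H53.SH.rs_separates (fun y : S2 => f y) (hf.comp continuous_subtype_val) ε hε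
  obtain ⟨p, hp⟩ := g.2
  obtain ⟨N, a, ha⟩ := dn_span p
  refine ⟨N, a, fun y => ?_⟩
  rw [← ha y]
  have h1 := hg y
  have h2 : (g : C(S2, ℝ)) y = pf p y := by
    rw [← Pool.H53.SH.rs_apply, ← hp]; rfl
  rw [h2, Real.norm_eq_abs, abs_sub_comm] at h1
  exact h1

private theorem dn_parity (l : ℕ) (i : Fin (dm l)) (y : E) :
    pf (yp l i) (-y) = (-1) ^ l * pf (yp l i) y := by
  have h := Pool.H53.SH.pf_hom (Pool.H53.SH.mem_Harm.1 (Pool.H53.SH.yp_mem l i)).1 (-1) y
  rwa [neg_smul, one_smul] at h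

private theorem dn_T_ne {p : P3} {y : S2} (h : pf p y ≠ 0) : T p ≠ 0 := by
  intro h1
  have h2 : T p = T 0 := by rw [h1, map_zero]
  exact h (by rw [dn_T_eq h2 y]; simp)

/-- the point `e_i` of the sphere -/
private noncomputable def dn_pt (i : Fin 3) : S2 := ⟨ee i, by simp⟩

private theorem dn_d0 : dm 0 = 1 := by
  have h1 : HS 0 = Submodule.span ℝ {T 1} := by
    unfold HS
    have h2 : Pool.H53.SH.Harm 0 = Submodule.span ℝ {(1 : P3)} := by
      ext p
      rw [Pool.H53.SH.mem_Harm, Submodule.mem_span_singleton]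
      constructor
      · rintro ⟨h3, -⟩
        rw [← MvPolynomial.totalDegree_zero_iff_isHomogeneous,
          MvPolynomial.totalDegree_eq_zero_iff_eq_C] at h3
        refine ⟨p.coeff 0, ?_⟩
        conv_rhs => rw [h3]
        rw [MvPolynomial.smul_eq_C_mul, mul_one]
      · rintro ⟨c, rfl⟩
        have h3 : (c • (1 : P3)).IsHomogeneous 0 := by
          rw [MvPolynomial.smul_eq_C_mul, mul_one]; exact MvPolynomial.isHomogeneous_C _ _
        exact ⟨h3, Pool.H53.SH.lap_hom_small (by norm_num) h3⟩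
    rw [h2, Submodule.map_span, Set.image_singleton]
  unfold dm
  rw [h1]
  exact finrank_span_singleton (dn_T_ne (y := dn_pt 0) (by simp))

private theorem dn_d1 : dm 1 = 3 := by
  have h1 : HS 1 = Submodule.span ℝ (Set.range fun i : Fin 3 => T (MvPolynomial.X i)) := by
    unfold HS
    have h2 : Pool.H53.SH.Harm 1 = Submodule.span ℝ (Set.range (MvPolynomial.X : Fin 3 → P3)) := by
      rw [← MvPolynomial.homogeneousSubmodule_one_eq_span_X]
      ext p
      rw [Pool.H53.SH.mem_Harm, MvPolynomial.mem_homogeneousSubmodule]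
      exact ⟨fun h => h.1, fun h => ⟨h, Pool.H53.SH.lap_hom_small (by norm_num) h⟩⟩
    rw [h2, Submodule.map_span, ← Set.range_comp]
    rfl
  have h2 : LinearIndependent ℝ fun i : Fin 3 => T (MvPolynomial.X i) := by
    rw [Fintype.linearIndependent_iff]
    intro c hc j
    have h3 : T (∑ i, c i • (MvPolynomial.X i : P3)) = T 0 := by
      rw [map_sum, map_zero, ← hc]
      exact Finset.sum_congr rfl fun i _ => by rw [map_smul]
    have h4 := dn_T_eq h3 (dn_pt j)
    rw [Pool.H53.SH.pf_zero] at h4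
    rw [← h4]
    simp only [Pool.H53.SH.pf, map_sum, MvPolynomial.smul_eval, MvPolynomial.eval_X]
    rw [Finset.sum_eq_single j]
    · simp [dn_pt]
    · intro i _ hij
      simp [dn_pt, hij]
    · intro h; exact absurd (Finset.mem_univ _) h
  unfold dm
  rw [h1, finrank_span_eq_card h2]
  rfl

theorem exists_harm : Nonempty Harm := by
  refine ⟨⟨dm, fun l i => pf (yp l i), ?_, ?_, ?_, dn_complete, ?_, dn_d0, dn_d1⟩⟩
  · intro l i
    exact Pool.H53.SH.contDiff_pf _
  · intro l i y _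
    exact dn_eig l i y
  · intro p q
    have h1 := Pool.H53.SH.inner_T (yp p.1 p.2) (yp q.1 q.2)
    have h2 := (orthonormal_iff_ite.1 Pool.H53.SH.orthonormal_Yv) p q
    rw [← h2]
    exact h1.symm
  · intro l i y _
    exact dn_parity l i y

end Pool.Agent.H68.SC
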