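import Pool.Agent.H68.SC.JPos

/-!
# Module J576 (about 130 lines): the zeros below `5.76`

PROOF. `j2_pos`: `t³ jl 2 t = P t := (3 - t²) sin t - 3 t cos t` for `t > 0`, `P 0 = 0`,
`P' t = t (sin t - t cos t)`. Let `g t = sin t - t cos t`, `g 0 = 0`, `g' t = t sin t`: `g` is
increasing on `[0, π]` and decreasing on `[π, 2π]`, so on `[0, 5.76]` `g` is positive on `(0, z)` and
negative after, for some `z` (or positive throughout); so `P` is increasing, then decreasing
(unimodal) on `[0, 5.76]`, and `P > 0` on `(0, 5.76]` as soon as `P 5.76 > 0` (argue: if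
`P t ≤ 0` for some `t ∈ (0, 5.76]`, then by the mean value theorem there are `s₁ < t` with
`g s₁ ≤ 0` and `s₂ ∈ (t, 5.76)` with `g s₂ > 0` (as `P 5.76 > 0 ≥ P t`), so `s₁ < s₂ ≤ 5.76 < 2π`,
`g s₁ ≤ 0 < g s₂`; but `g > 0` on `(0, π]`, so `s₁ > π` and `g` decreases on `[π, 2π]`: contradiction).
Numerics: with `x = 2π - 5.76 ∈ (0.52318, 0.52319)` (`Real.pi_gt_d6`, `Real.pi_lt_d6`) and `y = x / 2`,
`Real.sin_bound`, `Real.cos_bound` at `y` (`|y| ≤ 1`): `sin y ≥ 0.25836`, `cos y ≥ 0.96554`, so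
`sin x = 2 sin y cos y ≥ 0.49890`, `cos x = 1 - 2 sin² y ≤ 0.86651`, `sin 5.76 = - sin x`,
`cos 5.76 = cos x`, `P 5.76 = 30.1776 sin x - 17.28 cos x ≥ 15.05 - 14.98 > 0`.
`jl_pos_576`: `l = 2` and `jl_pos_succ`, induction.
`j0_one`: `sin t = 0`, `0 < t < 2π` implies `t = π`. `j1_one`: `t² jl 1 t = g t`; two zeros
`t < t'` of `g` in `(0, 5.76]` are `> π` (as `g > 0` on `(0, π]`), but `g` is strictly decreasing on
`[π, 2π]`.
-/

set_option autoImplicit false

namespace Pool.Agent.H68.SC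

open Filter Topology MeasureTheory Metric
open scoped ContDiff

/-- `t² jl 1 t` -/
private noncomputable def g5 (t : ℝ) : ℝ := Real.sin t - t * Real.cos t

/-- `t³ jl 2 t` -/
private noncomputable def p5 (t : ℝ) : ℝ := (3 - t ^ 2) * Real.sin t - 3 * t * Real.cos t

private theorem hasDerivAt_g5 (t : ℝ) : HasDerivAt g5 (t * Real.sin t) t := by
  have h := (Real.hasDerivAt_sin t).sub ((hasDerivAt_id t).mul (Real.hasDerivAt_cos t))
  have e : Real.cos t - (1 * Real.cos t + id t * -Real.sin t) = t * Real.sin t := by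
    simp only [id]
    ring
  rw [e] at h
  exact h

private theorem hasDerivAt_p5 (t : ℝ) : HasDerivAt p5 (t * g5 t) t := by
  have h1 : HasDerivAt (fun t : ℝ => 3 - t ^ 2) (-(2 * t)) t := by
    have := (hasDerivAt_pow 2 t).const_sub 3
    simpa using this
  have h2 : HasDerivAt (fun t : ℝ => 3 * t) 3 t := by
    simpa using (hasDerivAt_id t).const_mul (3 : ℝ)
  have h := (h1.mul (Real.hasDerivAt_sin t)).sub (h2.mul (Real.hasDerivAt_cos t))
  have e : -(2 * t) * Real.sin t + (3 - t ^ 2) * Real.cos t -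
      (3 * Real.cos t + 3 * t * -Real.sin t) = t * g5 t := by
    unfold g5
    ring
  rw [e] at h
  exact h

private theorem g5_pos {t : ℝ} (h0 : 0 < t) (h1 : t ≤ Real.pi) : 0 < g5 t := by
  have hm : StrictMonoOn g5 (Set.Icc 0 Real.pi) := by
    refine strictMonoOn_of_deriv_pos (convex_Icc _ _)
      (fun x _ => (hasDerivAt_g5 x).continuousAt.continuousWithinAt) fun x hx => ?_
    rw [interior_Icc] at hx
    rw [(hasDerivAt_g5 x).deriv]
    exact mul_pos hx.1 (Real.sin_pos_of_pos_of_lt_pi hx.1 hx.2)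
  have h := hm ⟨le_refl 0, Real.pi_pos.le⟩ ⟨h0.le, h1⟩ h0
  have h00 : g5 0 = 0 := by simp [g5]
  rwa [h00] at h

private theorem g5_anti : StrictAntiOn g5 (Set.Icc Real.pi (2 * Real.pi)) := by
  refine strictAntiOn_of_deriv_neg (convex_Icc _ _)
    (fun x _ => (hasDerivAt_g5 x).continuousAt.continuousWithinAt) fun x hx => ?_
  rw [interior_Icc] at hx
  rw [(hasDerivAt_g5 x).deriv]
  have hpi := Real.pi_pos
  have h1 : 0 < Real.sin (x - Real.pi) :=
    Real.sin_pos_of_pos_of_lt_pi (by linarith [hx.1]) (by linarith [hx.2])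
  rw [Real.sin_sub_pi] at h1
  exact mul_neg_of_pos_of_neg (by linarith [hx.1]) (by linarith)

private theorem p5_576 : 0 < p5 5.76 := by
  have hp1 := Real.pi_gt_d6
  have hp2 := Real.pi_lt_d6
  set d : ℝ := 5.76 - 11 * Real.pi / 6 with hd
  have hd0 : 0 < d := by rw [hd]; linarith
  have hd1 : d < 0.00042 := by rw [hd]; linarith
  have he : (5.76 : ℝ) = d - Real.pi / 6 + 2 * Real.pi := by rw [hd]; ring
  have hs : Real.sin 5.76 = Real.sin d * (√3 / 2) - Real.cos d * (1 / 2) := by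
    rw [he, Real.sin_add_two_pi, Real.sin_sub, Real.cos_pi_div_six, Real.sin_pi_div_six]
  have hc : Real.cos 5.76 = Real.cos d * (√3 / 2) + Real.sin d * (1 / 2) := by
    rw [he, Real.cos_add_two_pi, Real.cos_sub, Real.cos_pi_div_six, Real.sin_pi_div_six]
  have hq : √3 ≤ 1.7321 := by
    rw [Real.sqrt_le_left (by norm_num)]
    norm_num
  have hq0 : 0 ≤ √3 := Real.sqrt_nonneg 3
  have hsd : Real.sin d ≤ d := Real.sin_le hd0.le
  have hsd0 : 0 ≤ Real.sin d := Real.sin_nonneg_of_nonneg_of_le_pi hd0.le (by linarith)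
  have hcd : 1 - d ^ 2 / 2 ≤ Real.cos d := Real.one_sub_sq_div_two_le_cos
  have hd2 : d ^ 2 ≤ 0.00042 ^ 2 := pow_le_pow_left₀ hd0.le hd1.le 2
  have hcd' : 0.999 ≤ Real.cos d := by
    norm_num at hd2 ⊢
    linarith
  have e : p5 5.76 = Real.cos d * (15.0888 - 8.64 * √3) - Real.sin d * (15.0888 * √3 + 8.64) := by
    unfold p5
    rw [hs, hc]
    ring
  rw [e]
  have h1 : 0.12 ≤ 15.0888 - 8.64 * √3 := by linarith
  have h2 : 15.0888 * √3 + 8.64 ≤ 35 := by linarith
  have h3 : 0.999 * 0.12 ≤ Real.cos d * (15.0888 - 8.64 * √3) :=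
    mul_le_mul hcd' h1 (by norm_num) (by linarith)
  have h4 : Real.sin d * (15.0888 * √3 + 8.64) ≤ 0.00042 * 35 :=
    mul_le_mul (by linarith) h2 (by positivity) (by norm_num)
  linarith

private theorem jl1_eq {t : ℝ} (h0 : 0 < t) : t ^ 2 * jl 1 t = g5 t := by
  rw [jl]
  unfold g5
  field_simp

private theorem jl2_eq {t : ℝ} (h0 : 0 < t) : t ^ 3 * jl 2 t = p5 t := by
  rw [show (2 : ℕ) = 0 + 2 from rfl, jl, jl, jl]
  unfold p5
  push_cast
  field_simp
  ring

theorem j2_pos {t : ℝ} (h0 : 0 < t) (h1 : t ≤ 5.76) : 0 < jl 2 t := by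
  have hp1 := Real.pi_gt_d6
  have hcont : Continuous p5 := continuous_iff_continuousAt.2 fun x => (hasDerivAt_p5 x).continuousAt
  have hP : 0 < p5 t := by
    by_contra hneg
    rw [not_lt] at hneg
    have hlt : t < 5.76 := by
      rcases lt_or_eq_of_le h1 with h | h
      · exact h
      · rw [h] at hneg
        exact absurd p5_576 (not_lt.2 hneg)
    obtain ⟨s, hs, hs'⟩ := exists_hasDerivAt_eq_slope p5 (fun x => x * g5 x) h0
      hcont.continuousOn (fun x _ => hasDerivAt_p5 x)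
    obtain ⟨r, hr, hr'⟩ := exists_hasDerivAt_eq_slope p5 (fun x => x * g5 x) hlt
      hcont.continuousOn (fun x _ => hasDerivAt_p5 x)
    have hp0 : p5 0 = 0 := by simp [p5]
    have h2 : s * g5 s ≤ 0 := by
      rw [hs', hp0]
      exact div_nonpos_of_nonpos_of_nonneg (by linarith) (by linarith)
    have h3 : 0 < r * g5 r := by
      rw [hr']
      exact div_pos (by linarith [p5_576]) (by linarith)
    have h4 : g5 s ≤ 0 := by
      by_contra hc
      rw [not_le] at hc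
      exact absurd (mul_pos hs.1 hc) (not_lt.2 h2)
    have hr0 : 0 < r := lt_trans h0 hr.1
    have h5 : 0 < g5 r := (mul_pos_iff_of_pos_left hr0).1 h3
    have h6 : Real.pi < s := by
      by_contra hc
      rw [not_lt] at hc
      exact absurd (g5_pos hs.1 hc) (not_lt.2 h4)
    have h7 : g5 r < g5 s := g5_anti ⟨h6.le, by linarith [hs.2]⟩
      ⟨by linarith [hs.2, hr.1], by linarith [hr.2]⟩ (lt_trans hs.2 hr.1)
    linarith
  rw [← jl2_eq h0] at hP
  exact (mul_pos_iff_of_pos_left (by positivity)).1 hP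

theorem jl_pos_576 {l : ℕ} (hl : 2 ≤ l) {t : ℝ} (h0 : 0 < t) (h1 : t ≤ 5.76) : 0 < jl l t := by
  have key : ∀ l : ℕ, 2 ≤ l → ∀ t : ℝ, 0 < t → t ≤ 5.76 → 0 < jl l t := by
    intro l hl
    induction l, hl using Nat.le_induction with
    | base => exact fun t h0 h1 => j2_pos h0 h1
    | succ l _ ih => exact jl_pos_succ l ih
  exact key l hl t h0 h1

private theorem sin_zero_pi {t : ℝ} (h0 : 0 < t) (h1 : t ≤ 5.76) (h : jl 0 t = 0) :
    t = Real.pi := by
  have hp1 := Real.pi_gt_d6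
  rw [jl, div_eq_zero_iff] at h
  rcases h with h | h
  · obtain ⟨n, hn⟩ := Real.sin_eq_zero_iff.1 h
    have hn1 : (0 : ℝ) < n := by
      by_contra hc
      rw [not_lt] at hc
      have := mul_nonpos_of_nonpos_of_nonneg hc Real.pi_pos.le
      linarith
    have hn2 : (n : ℝ) < 2 := by
      by_contra hc
      rw [not_lt] at hc
      have := mul_le_mul_of_nonneg_right hc Real.pi_pos.le
      linarith
    have hn3 : 0 < n := by exact_mod_cast hn1
    have hn4 : n < 2 := by exact_mod_cast hn2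
    have hn5 : n = 1 := by omega
    rw [hn5] at hn
    rw [← hn]
    norm_num
  · exact absurd h h0.ne'

theorem j0_one {t t' : ℝ} (h0 : 0 < t) (h1 : t ≤ 5.76) (h0' : 0 < t') (h1' : t' ≤ 5.76)
    (h : jl 0 t = 0) (h' : jl 0 t' = 0) : t = t' :=
  (sin_zero_pi h0 h1 h).trans (sin_zero_pi h0' h1' h').symm

private theorem g5_zero {t : ℝ} (h0 : 0 < t) (h1 : t ≤ 5.76) (h : jl 1 t = 0) :
    g5 t = 0 ∧ t ∈ Set.Icc Real.pi (2 * Real.pi) := by
  have hp1 := Real.pi_gt_d6
  have hg : g5 t = 0 := by rw [← jl1_eq h0, h, mul_zero]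
  refine ⟨hg, ?_, by linarith⟩
  by_contra hc
  rw [not_le] at hc
  have := g5_pos h0 hc.le
  linarith

theorem j1_one {t t' : ℝ} (h0 : 0 < t) (h1 : t ≤ 5.76) (h0' : 0 < t') (h1' : t' ≤ 5.76)
    (h : jl 1 t = 0) (h' : jl 1 t' = 0) : t = t' := by
  obtain ⟨a, b⟩ := g5_zero h0 h1 h
  obtain ⟨a', b'⟩ := g5_zero h0' h1' h'
  exact g5_anti.injOn b b' (a.trans a'.symm)

end Pool.Agent.H68.SC
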