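import Pool.Agent.H68.SC.Basic

/-!
# Module NegSpan: orthogonal negative functions

PROOF. `F = span ℝ (range f)`. `F ≤ C1c Ω ⊓ S`, finite dimensional. For `g = ∑ a_i f_i`
`BB K g g = ∑ a_i² BB K (f i) (f i)` (bilinearity: `BB_add_left`, `BB_smul_left`, `BB_comm`, by induction on
finite sums, all functions in `C1c Ω`), which is `< 0` unless `a = 0`. So the `f i` are linearly
independent (a vanishing combination has `BB = 0`), `finrank F = card ι`, and the form is negative on
`F \ {0}`; `BB_self`.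
-/

set_option autoImplicit false

namespace Pool.Agent.H68.SC

open Filter Topology MeasureTheory Metric
open scoped ContDiff

theorem BB_sum_left {Ω : Set E} {K : ℝ} {ι : Type*} (s : Finset ι) (a : ι → ℝ) (f : ι → E → ℝ)
    (hf : ∀ i, f i ∈ C1c Ω) {h : E → ℝ} (hh : h ∈ C1c Ω) :
    BB K (∑ i ∈ s, a i • f i) h = ∑ i ∈ s, a i * BB K (f i) h := by
  classical
  induction s using Finset.induction_on with
  | empty =>
    have := BB_smul_left (Ω := Ω) (f := (0 : E → ℝ)) (h := h) 0 (zero_mem _) K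
    simpa using this
  | insert i s hi ih =>
    rw [Finset.sum_insert hi, Finset.sum_insert hi,
      BB_add_left (Ω := Ω) (Submodule.smul_mem _ _ (hf i))
        (Submodule.sum_mem _ fun j _ => Submodule.smul_mem _ _ (hf j)) hh, ih,
      BB_smul_left _ (hf i)]

theorem neg_span {S : Submodule ℝ (E → ℝ)} {Ω : Set E} {K : ℝ} {ι : Type*} [Fintype ι]
    (f : ι → E → ℝ) (h1 : ∀ i, f i ∈ C1c Ω ⊓ S) (h2 : ∀ i, BB K (f i) (f i) < 0)
    (h3 : ∀ i j, i ≠ j → BB K (f i) (f j) = 0) : AtLeast S Ω K (Fintype.card ι) := by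
  classical
  have hf : ∀ i, f i ∈ C1c Ω := fun i => (h1 i).1
  have hmem : ∀ a : ι → ℝ, ∑ i, a i • f i ∈ C1c Ω := fun a =>
    Submodule.sum_mem _ fun j _ => Submodule.smul_mem _ _ (hf j)
  have hBB : ∀ a : ι → ℝ, BB K (∑ i, a i • f i) (∑ i, a i • f i) =
      ∑ i, a i ^ 2 * BB K (f i) (f i) := by
    intro a
    rw [BB_sum_left Finset.univ a f hf (hmem a)]
    refine Finset.sum_congr rfl fun i _ => ?_
    rw [BB_comm, BB_sum_left Finset.univ a f hf (hf i), Finset.sum_eq_single i]
    · ring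
    · intro j _ hj
      rw [h3 j i hj, mul_zero]
    · intro h; exact absurd (Finset.mem_univ i) h
  have hneg : ∀ a : ι → ℝ, (∃ i, a i ≠ 0) →
      BB K (∑ i, a i • f i) (∑ i, a i • f i) < 0 := by
    rintro a ⟨i, hi⟩
    rw [hBB]
    have hle : ∀ j ∈ (Finset.univ : Finset ι), a j ^ 2 * BB K (f j) (f j) ≤ 0 := fun j _ =>
      mul_nonpos_of_nonneg_of_nonpos (sq_nonneg _) (h2 j).le
    exact Finset.sum_neg' hle ⟨i, Finset.mem_univ i,
      mul_neg_of_pos_of_neg (by positivity) (h2 i)⟩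
  have hB0 : BB K (0 : E → ℝ) (0 : E → ℝ) = 0 := by
    have := BB_smul_left (Ω := Ω) (f := (0 : E → ℝ)) (h := (0 : E → ℝ)) 0 (zero_mem _) K
    simpa using this
  have hli : LinearIndependent ℝ f := by
    rw [Fintype.linearIndependent_iff]
    intro a ha i
    by_contra hi
    have := hneg a ⟨i, hi⟩
    rw [ha, hB0] at this
    exact lt_irrefl _ this
  refine ⟨Submodule.span ℝ (Set.range f), ?_, ?_, ?_, ?_⟩
  · rw [Submodule.span_le]
    rintro _ ⟨i, rfl⟩
    exact h1 i
  · exact Module.Finite.span_of_finite ℝ (Set.finite_range f)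
  · rw [finrank_span_eq_card hli]
  · intro g hg hg0
    obtain ⟨a, rfl⟩ := (Submodule.mem_span_range_iff_exists_fun ℝ).1 hg
    have hex : ∃ i, a i ≠ 0 := by
      by_contra hne
      push Not at hne
      exact hg0 (Finset.sum_eq_zero fun i _ => by rw [hne i, zero_smul])
    have := hneg a hex
    rw [BB_self (hmem a)] at this
    linarith

end Pool.Agent.H68.SC
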