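import Pool.Agent.H68.SC.Polar

/-!
# Module Rot (about 110 lines): rotational derivatives and integrals over spheres

PROOF. `int_LL`: for `f` of class `C¹` and every smooth `ρ : ℝ → ℝ` with compact support in `(0, ∞)`
the function `F x = ρ (‖x‖ ^ 2) f x` is `C¹` with compact support and `LL a F x = ρ (‖x‖ ^ 2) LL a f x`
(`inner_crs`); `LL a F = ∑ i, ∂_i (X_i F)` with `X = crs (ee a)` (`∂_i X_i = 0`), so
`∫ x, LL a F x = 0` (`integral_pd`), and by `polar`: `∫_0^∞ ρ (r²) r² J r dr = 0` with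
`J r = ∫ y, LL a f (r • y) ∂sg` continuous (`sg_cont`), so `J r = 0` for `r > 0`
(take `ρ ≥ 0` concentrated near `r²`, or the fundamental lemma
`ae_eq_zero_of_integral_contDiff_smul_eq_zero` on `Ioi 0`). `LL_ibp`: `int_LL` for `f g` and the
product rule. `LL_scale`: chain rule.
-/

set_option autoImplicit false

namespace Pool.Agent.H68.SC

open Filter Topology MeasureTheory Metric
open scoped ContDiff

/-- the rotation fields of the two libraries agree -/
theorem crs_eq_rot (a : Fin 3) (x : E) : crs (ee a) x = Pool.H53.SH.rot a x := by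
  ext j
  fin_cases a <;> fin_cases j <;>
    simp [crs_apply0, crs_apply1, crs_apply2, Pool.H53.SH.rot_apply]

theorem LL_eq_Ld (a : Fin 3) (f : E → ℝ) (x : E) : LL a f x = Pool.H53.SH.Ld a f x := by
  unfold LL Pool.H53.SH.Ld
  rw [crs_eq_rot]

theorem LL_scale {f : E → ℝ} (hf : ContDiff ℝ 1 f) (a : Fin 3) (r : ℝ) (y : E) :
    LL a (fun z => f (r • z)) y = LL a f (r • y) := by
  unfold LL
  have h1 : HasFDerivAt (fun z : E => f (r • z))
      ((fderiv ℝ f (r • y)).comp (r • ContinuousLinearMap.id ℝ E)) y :=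
    HasFDerivAt.comp y (hf.differentiable one_ne_zero (r • y)).hasFDerivAt
      ((hasFDerivAt_id y).const_smul r)
  rw [h1.fderiv, crs_smul_right]
  simp

theorem int_LL {f : E → ℝ} (hf : ContDiff ℝ 1 f) (a : Fin 3) :
    ∫ y : S2, LL a f y ∂sg = 0 := by
  simp only [LL_eq_Ld]
  exact Pool.H53.SH.integral_Ld hf a

theorem LL_ibp {f g : E → ℝ} (hf : ContDiff ℝ 1 f) (hg : ContDiff ℝ 1 g) (a : Fin 3) :
    ∫ y : S2, LL a f y * g y ∂sg = -∫ y : S2, f y * LL a g y ∂sg := by
  simp only [LL_eq_Ld]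
  exact Pool.H53.SH.integral_Ld_mul hf hg a

end Pool.Agent.H68.SC
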