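import Pool.Agent.H68.SC.TT1
import Pool.Agent.H68.SC.Rot

/-!
# Module TT2 (about 110 lines): the form on the test functions

PROOF. `F x = gg f g x - K * (f x * g x)`, `f = TT ζ (H.Y p)`, `g = TT ξ (H.Y q)` (`TT_mem`), continuous, zero
for `‖x‖ ≥ r`. `polarR`: `BB K f g = ∫ ρ in 0..r, ρ² ∫ y, F (ρ • y)`. For `ρ > 0` by `lagrange` at
`x = ρ • y`, `TT_val`, `TT_rad`, `TT_tan`:
`ρ² F (ρ • y) = ρ² ζ' ξ' Y_p Y_q + ζ ξ ∑ a, LL a Y_p LL a Y_q - K ρ² ζ ξ Y_p Y_q`. Integrate over the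
sphere: `∫ Y_p Y_q = δ` (`H.orth`), `∑ a ∫ LL a Y_p LL a Y_q = - ∫ Y_p ∑ a, LL a (LL a Y_q)
= l (l + 1) δ` with `l = q.1` (`LL_ibp`, `H.eig`; `LL a Y_q` is smooth). If `p ≠ q` everything is `0`.
-/

set_option autoImplicit false

namespace Pool.Agent.H68.SC

open Filter Topology MeasureTheory Metric
open scoped ContDiff

private theorem TT2_out {f : E → ℝ} {r : ℝ} (hf : f ∈ C1c (ball 0 r)) {x : E} (hx : r ≤ ‖x‖) :
    x ∉ tsupport f := by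
  intro h
  have h1 := C1c.sub hf h
  rw [mem_ball_zero_iff] at h1
  linarith

private theorem TT2_LL_smooth {Y : E → ℝ} (hY : ContDiff ℝ ∞ Y) (a : Fin 3) :
    ContDiff ℝ ∞ (LL a Y) := by
  have h1 : ContDiff ℝ ∞ (fderiv ℝ Y) := hY.fderiv_right (m := ∞) (by simp)
  exact h1.clm_apply (contDiff_crs (ee a))

private theorem TT2_int {f : E → ℝ} (hf : Continuous f) : Integrable (fun y : S2 => f y) sg :=
  (hf.comp continuous_subtype_val).integrable_of_hasCompactSupport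
    (HasCompactSupport.of_compactSpace _)

open Classical in
private theorem TT2_tan (H : Harm) (p q : (l : ℕ) × Fin (H.d l)) :
    ∫ y : S2, (∑ a, LL a (H.Y p.1 p.2) y * LL a (H.Y q.1 q.2) y) ∂sg =
      ((q.1 : ℝ) * (q.1 + 1)) * (if p = q then 1 else 0) := by
  have hp := H.smooth p.1 p.2
  have hq := H.smooth q.1 q.2
  have hp1 : ContDiff ℝ 1 (H.Y p.1 p.2) := hp.of_le (by exact_mod_cast le_top)
  have hi : ∀ a ∈ (Finset.univ : Finset (Fin 3)),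
      Integrable (fun y : S2 => LL a (H.Y p.1 p.2) y * LL a (H.Y q.1 q.2) y) sg := by
    intro a _
    exact TT2_int (f := fun y => LL a (H.Y p.1 p.2) y * LL a (H.Y q.1 q.2) y)
      ((TT2_LL_smooth hp a).continuous.mul (TT2_LL_smooth hq a).continuous)
  rw [integral_finsetSum _ hi]
  have h1 : ∀ a : Fin 3, ∫ y : S2, LL a (H.Y p.1 p.2) y * LL a (H.Y q.1 q.2) y ∂sg =
      -∫ y : S2, H.Y p.1 p.2 y * LL a (LL a (H.Y q.1 q.2)) y ∂sg := fun a =>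
    LL_ibp hp1 ((TT2_LL_smooth hq a).of_le (by exact_mod_cast le_top)) a
  have hi2 : ∀ a ∈ (Finset.univ : Finset (Fin 3)),
      Integrable (fun y : S2 => H.Y p.1 p.2 y * LL a (LL a (H.Y q.1 q.2)) y) sg := by
    intro a _
    exact TT2_int (f := fun y => H.Y p.1 p.2 y * LL a (LL a (H.Y q.1 q.2)) y)
      (hp.continuous.mul (TT2_LL_smooth (TT2_LL_smooth hq a) a).continuous)
  rw [Finset.sum_congr rfl fun a _ => h1 a, Finset.sum_neg_distrib, ← integral_finsetSum _ hi2,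
    ← H.orth p q, ← integral_const_mul, ← integral_neg]
  refine integral_congr_ae (Eventually.of_forall fun y => ?_)
  have hy : ‖(y : E)‖ = 1 := by simp
  have h2 := H.eig q.1 q.2 y hy
  simp only
  rw [← Finset.mul_sum, h2]
  ring

open Classical in
private theorem TT2_sphere (H : Harm) {ζ ξ : ℝ → ℝ} (h1 : ContDiff ℝ 1 ζ) (h4 : ContDiff ℝ 1 ξ)
    (K : ℝ) (p q : (l : ℕ) × Fin (H.d l)) {ρ : ℝ} (hρ : 0 < ρ) :
    ρ ^ 2 * ∫ y : S2, (gg (TT ζ (H.Y p.1 p.2)) (TT ξ (H.Y q.1 q.2)) (ρ • (y : E)) -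
      K * (TT ζ (H.Y p.1 p.2) (ρ • (y : E)) * TT ξ (H.Y q.1 q.2) (ρ • (y : E)))) ∂sg =
    (ρ ^ 2 * (deriv ζ ρ * deriv ξ ρ) +
        ((q.1 : ℝ) * (q.1 + 1) - K * ρ ^ 2) * (ζ ρ * ξ ρ)) * (if p = q then 1 else 0) := by
  have hp := H.smooth p.1 p.2
  have hq := H.smooth q.1 q.2
  have key : ∀ y : S2, ρ ^ 2 * (gg (TT ζ (H.Y p.1 p.2)) (TT ξ (H.Y q.1 q.2)) (ρ • (y : E)) -
      K * (TT ζ (H.Y p.1 p.2) (ρ • (y : E)) * TT ξ (H.Y q.1 q.2) (ρ • (y : E)))) =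
      (ρ ^ 2 * (deriv ζ ρ * deriv ξ ρ) - K * ρ ^ 2 * (ζ ρ * ξ ρ)) *
        (H.Y p.1 p.2 y * H.Y q.1 q.2 y) +
      (ζ ρ * ξ ρ) * ∑ a, LL a (H.Y p.1 p.2) y * LL a (H.Y q.1 q.2) y := by
    intro y
    have hy : ‖(y : E)‖ = 1 := by simp
    have hL := lagrange (TT ζ (H.Y p.1 p.2)) (TT ξ (H.Y q.1 q.2)) (ρ • (y : E))
    have hn : ‖ρ • (y : E)‖ = ρ := by
      rw [norm_smul, hy, mul_one, Real.norm_eq_abs, abs_of_pos hρ]
    rw [hn, map_smul, map_smul, TT_rad h1 hp hρ hy, TT_rad h4 hq hρ hy] at hL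
    rw [mul_sub, hL, TT_val ζ _ hρ hy, TT_val ξ _ hρ hy]
    have e : ∑ a, LL a (TT ζ (H.Y p.1 p.2)) (ρ • (y : E)) *
        LL a (TT ξ (H.Y q.1 q.2)) (ρ • (y : E)) =
        (ζ ρ * ξ ρ) * ∑ a, LL a (H.Y p.1 p.2) y * LL a (H.Y q.1 q.2) y := by
      rw [Finset.mul_sum]
      refine Finset.sum_congr rfl fun a _ => ?_
      rw [TT_tan h1 hp a hρ hy, TT_tan h4 hq a hρ hy]
      ring
    rw [e]
    simp only [smul_eq_mul]
    ring
  rw [← integral_const_mul]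
  rw [integral_congr_ae (Eventually.of_forall key)]
  have i1 : Integrable (fun y : S2 => (ρ ^ 2 * (deriv ζ ρ * deriv ξ ρ) -
      K * ρ ^ 2 * (ζ ρ * ξ ρ)) * (H.Y p.1 p.2 y * H.Y q.1 q.2 y)) sg :=
    (TT2_int (f := fun y => H.Y p.1 p.2 y * H.Y q.1 q.2 y)
      (hp.continuous.mul hq.continuous)).const_mul _
  have i2 : Integrable (fun y : S2 => (ζ ρ * ξ ρ) *
      ∑ a, LL a (H.Y p.1 p.2) y * LL a (H.Y q.1 q.2) y) sg :=
    (TT2_int (f := fun y => ∑ a, LL a (H.Y p.1 p.2) y * LL a (H.Y q.1 q.2) y)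
      (continuous_finsetSum _ fun a _ =>
        (TT2_LL_smooth hp a).continuous.mul (TT2_LL_smooth hq a).continuous)).const_mul _
  rw [integral_add i1 i2, integral_const_mul, integral_const_mul, TT2_tan H p q, H.orth p q]
  ring

open Classical in
theorem TT_BB (H : Harm) {ζ ξ : ℝ → ℝ} {r : ℝ} (hr : 0 < r)
    (h1 : ContDiff ℝ 1 ζ) (h2 : HasCompactSupport ζ) (h3 : tsupport ζ ⊆ Set.Ioo 0 r)
    (h4 : ContDiff ℝ 1 ξ) (h5 : HasCompactSupport ξ) (h6 : tsupport ξ ⊆ Set.Ioo 0 r)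
    (K : ℝ) (p q : (l : ℕ) × Fin (H.d l)) :
    BB K (TT ζ (H.Y p.1 p.2)) (TT ξ (H.Y q.1 q.2)) =
      if p = q then ∫ x in (0 : ℝ)..r, (x ^ 2 * (deriv ζ x * deriv ξ x) +
        ((q.1 : ℝ) * (q.1 + 1) - K * x ^ 2) * (ζ x * ξ x)) else 0 := by
  have hf : TT ζ (H.Y p.1 p.2) ∈ C1c (ball 0 r) := TT_mem h1 h2 h3 (H.smooth p.1 p.2)
  have hg : TT ξ (H.Y q.1 q.2) ∈ C1c (ball 0 r) := TT_mem h4 h5 h6 (H.smooth q.1 q.2)
  have hc : Continuous fun x => gg (TT ζ (H.Y p.1 p.2)) (TT ξ (H.Y q.1 q.2)) x -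
      K * (TT ζ (H.Y p.1 p.2) x * TT ξ (H.Y q.1 q.2) x) :=
    (continuous_gg (C1c.contDiff hf) (C1c.contDiff hg)).sub
      (continuous_const.mul ((C1c.cont hf).mul (C1c.cont hg)))
  have h0 : ∀ x : E, r ≤ ‖x‖ → gg (TT ζ (H.Y p.1 p.2)) (TT ξ (H.Y q.1 q.2)) x -
      K * (TT ζ (H.Y p.1 p.2) x * TT ξ (H.Y q.1 q.2) x) = 0 := by
    intro x hx
    have hn := TT2_out hf hx
    have e1 : gg (TT ζ (H.Y p.1 p.2)) (TT ξ (H.Y q.1 q.2)) x = 0 :=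
      Finset.sum_eq_zero fun i _ => by rw [pd_zero_of hn i, zero_mul]
    rw [e1, image_eq_zero_of_notMem_tsupport hn]
    ring
  unfold BB
  rw [polarR hc hr.le h0, intervalIntegral.integral_of_le hr.le]
  have e2 : ∀ ρ ∈ Set.Ioc (0 : ℝ) r, ρ ^ 2 * ∫ y : S2,
      (gg (TT ζ (H.Y p.1 p.2)) (TT ξ (H.Y q.1 q.2)) (ρ • (y : E)) -
      K * (TT ζ (H.Y p.1 p.2) (ρ • (y : E)) * TT ξ (H.Y q.1 q.2) (ρ • (y : E)))) ∂sg =
      (ρ ^ 2 * (deriv ζ ρ * deriv ξ ρ) +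
        ((q.1 : ℝ) * (q.1 + 1) - K * ρ ^ 2) * (ζ ρ * ξ ρ)) * (if p = q then 1 else 0) :=
    fun ρ hρ => TT2_sphere H h1 h4 K p q hρ.1
  rw [setIntegral_congr_fun measurableSet_Ioc e2]
  split_ifs with hpq
  · rw [intervalIntegral.integral_of_le hr.le]
    simp only [mul_one]
  · simp

end Pool.Agent.H68.SC
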