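import Pool.Agent.H68.SC.LowF
import Pool.Agent.H68.SC.TT2
import Pool.Agent.H68.SC.NegSpan

/-!
# Module Low (about 110 lines): at least so many Dirichlet eigenvalues of a ball are `< k²`

PROOF. If `r ≤ 0` then `Zo l (k r)` is empty and the number is `0`: take `F = ⊥`. Let `r > 0`,
`ζ_{l, j}` the functions of `lowF`. Index type
`ι = Σ l : {l : Fin L // s ^ (l : ℕ) = 1}, Fin (Zo l (k r)).ncard × Fin (H.d l)`, `f (l, j, i) =
TT (ζ_{l, j}) (H.Y l i) ∈ C1c (ball 0 r) ⊓ Sy s` (`TT_mem`, `TT_sy`, `H.smooth`). By `TT_BB`: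
`BB (f α) (f α) < 0` (`lowF`; `ζ * ζ = ζ ^ 2`); for `α ≠ β`: if `(l, i) ≠ (l', i')` it is `0`; otherwise
`j ≠ j'`, and `ζ_{l,j}`, `ζ_{l,j'}` have disjoint supports, so all products vanish (also those of the
derivatives: `deriv ζ` vanishes outside `tsupport ζ`). `neg_span`, `Fintype.card` of a sigma type.
-/

set_option autoImplicit false

namespace Pool.Agent.H68.SC

open Filter Topology MeasureTheory Metric
open scoped ContDiff

private theorem low_disj {ζ ξ : ℝ → ℝ} (h : Disjoint (tsupport ζ) (tsupport ξ)) (x : ℝ) :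
    ζ x * ξ x = 0 ∧ deriv ζ x * deriv ξ x = 0 := by
  constructor
  · by_contra hne
    have h1 : ζ x ≠ 0 := left_ne_zero_of_mul hne
    have h2 : ξ x ≠ 0 := right_ne_zero_of_mul hne
    exact Set.disjoint_left.1 h (subset_tsupport ζ h1) (subset_tsupport ξ h2)
  · by_contra hne
    have h1 : deriv ζ x ≠ 0 := left_ne_zero_of_mul hne
    have h2 : deriv ξ x ≠ 0 := right_ne_zero_of_mul hne
    exact Set.disjoint_left.1 h (support_deriv_subset h1) (support_deriv_subset h2)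

open Classical in
theorem lowerc (H : Harm) {s : ℝ} (hs : s = 1 ∨ s = -1) {k : ℝ} (hk : 0 < k) (r : ℝ) (L : ℕ) :
    AtLeast (Sy s) (ball 0 r) (k ^ 2)
      (∑ l ∈ Finset.range L, if s ^ l = 1 then H.d l * (Zo l (k * r)).ncard else 0) := by
  rcases le_or_gt r 0 with hr | hr
  · have h0 : ∀ l, (Zo l (k * r)) = ∅ := by
      intro l
      ext t
      simp only [Zo, Set.mem_ofPred_eq, Set.mem_empty_iff_false, iff_false, not_and]
      intro h1 h2
      have : k * r ≤ 0 := mul_nonpos_of_nonneg_of_nonpos hk.le hr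
      linarith
    have h1 : (∑ l ∈ Finset.range L, if s ^ l = 1 then H.d l * (Zo l (k * r)).ncard else 0) = 0 := by
      refine Finset.sum_eq_zero fun l _ => ?_
      rw [h0 l]; simp
    rw [h1]
    refine ⟨⊥, bot_le, inferInstance, Nat.zero_le _, ?_⟩
    intro f hf hne
    exact absurd ((Submodule.mem_bot ℝ).1 hf) hne
  · choose ζ hζ hd using fun l : ℕ => lowF l hk hr
    let ι := Σ l : {l : Fin L // s ^ (l : ℕ) = 1},
      Fin (Zo ((l : Fin L) : ℕ) (k * r)).ncard × Fin (H.d ((l : Fin L) : ℕ))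
    let f : ι → E → ℝ := fun α => TT (ζ _ α.2.1) (H.Y _ α.2.2)
    have hcard : Fintype.card ι =
        ∑ l ∈ Finset.range L, if s ^ l = 1 then H.d l * (Zo l (k * r)).ncard else 0 := by
      have h1 : Fintype.card ι = ∑ l : {l : Fin L // s ^ (l : ℕ) = 1},
          H.d ((l : Fin L) : ℕ) * (Zo ((l : Fin L) : ℕ) (k * r)).ncard := by
        simp only [ι, Fintype.card_sigma, Fintype.card_prod, Fintype.card_fin]
        exact Finset.sum_congr rfl fun l _ => mul_comm _ _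
      rw [h1, ← Finset.sum_subtype (Finset.univ.filter fun l : Fin L => s ^ (l : ℕ) = 1)
        (fun l => by simp) (fun l : Fin L => H.d (l : ℕ) * (Zo (l : ℕ) (k * r)).ncard),
        Finset.sum_filter,
        Fin.sum_univ_eq_sum_range (fun l => if s ^ l = 1 then H.d l * (Zo l (k * r)).ncard else 0)]
    rw [← hcard]
    refine neg_span f ?_ ?_ ?_
    · rintro ⟨⟨l, hl⟩, j, i⟩
      obtain ⟨h1, h2, h3, -⟩ := hζ l j
      exact ⟨TT_mem h1 h2 h3 (H.smooth _ _), TT_sy H _ hs hl _⟩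
    · rintro ⟨⟨l, hl⟩, j, i⟩
      obtain ⟨h1, h2, h3, h4⟩ := hζ l j
      have h5 := TT_BB H hr h1 h2 h3 h1 h2 h3 (k ^ 2) ⟨l, i⟩ ⟨l, i⟩
      rw [if_pos rfl] at h5
      change BB (k ^ 2) (TT (ζ l j) (H.Y l i)) (TT (ζ l j) (H.Y l i)) < 0
      rw [h5]
      refine lt_of_eq_of_lt ?_ h4
      refine intervalIntegral.integral_congr fun x _ => ?_
      simp only
      ring
    · rintro ⟨⟨l, hl⟩, j, i⟩ ⟨⟨l', hl'⟩, j', i'⟩ hne
      obtain ⟨h1, h2, h3, -⟩ := hζ l j
      obtain ⟨h4, h5, h6, -⟩ := hζ l' j'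
      have h7 := TT_BB H hr h1 h2 h3 h4 h5 h6 (k ^ 2) ⟨l, i⟩ ⟨l', i'⟩
      change BB (k ^ 2) (TT (ζ l j) (H.Y l i)) (TT (ζ l' j') (H.Y l' i')) = 0
      rw [h7]
      by_cases hp : (⟨(l : ℕ), i⟩ : (l : ℕ) × Fin (H.d l)) = ⟨(l' : ℕ), i'⟩
      · rw [if_pos hp]
        have hll : l = l' := Fin.ext (congrArg Sigma.fst hp)
        subst hll
        have hii : i = i' := eq_of_heq (Sigma.mk.inj_iff.1 hp).2
        subst hii
        have hjj : j ≠ j' := by
          rintro rfl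
          exact hne rfl
        have hz : ∀ x ∈ Set.uIcc (0 : ℝ) r, x ^ 2 * (deriv (ζ l j) x * deriv (ζ l j') x) +
            (((l : ℕ) : ℝ) * (((l : ℕ) : ℝ) + 1) - k ^ 2 * x ^ 2) * (ζ l j x * ζ l j' x) = (0 : ℝ) := by
          intro x _
          obtain ⟨e1, e2⟩ := low_disj (hd l j j' hjj) x
          rw [e1, e2]; ring
        rw [intervalIntegral.integral_congr (g := fun _ => (0 : ℝ)) hz]
        simp
      · rw [if_neg hp]

end Pool.Agent.H68.SC
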