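import Pool.Agent.H68.SC.PicA

/-!
# Module PicB (about 70 lines): summing over the nodal intervals

PROOF. Claim: for every `b` with `0 < b ≤ R`, `f b = 0`: `0 ≤ qf l (k²) b f f'`, by strong induction on
the number of elements of the finite set `Z b = {r | 0 < r ∧ r < b ∧ jl l (k r) = 0}` (finite by
`Zo_finite`: its image under `r ↦ k r` is `Zo l (k b)`). If it is empty use `picA` on `(0, b)`.
Otherwise let `a` be its largest element; `f a = 0` by `hz` (`k a ∈ Zc l (k R)`), the induction
hypothesis for `a` (`Z a ⊂ Z b`), `picA` on `(a, b)`, and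
`intervalIntegral.integral_add_adjacent_intervals` (continuous integrands).
-/

set_option autoImplicit false

namespace Pool.Agent.H68.SC

open Filter Topology MeasureTheory Metric
open scoped ContDiff

theorem picB (l : ℕ) {k R : ℝ} (hk : 0 < k) (hR : 0 < R) {f f' : ℝ → ℝ}
    (hf : ∀ r, HasDerivAt f (f' r) r) (hf' : Continuous f') (h0 : f R = 0)
    (hz : ∀ t ∈ Zc l (k * R), f (t / k) = 0) : 0 ≤ qf l (k ^ 2) R f f' := by
  have hfc : Continuous f := continuous_iff_continuousAt.2 fun r => (hf r).continuousAt
  have hI : ∀ a b : ℝ, IntervalIntegrable (fun r => r ^ 2 * f' r ^ 2 +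
      ((l : ℝ) * (l + 1) - k ^ 2 * r ^ 2) * f r ^ 2) volume a b := fun a b =>
    Continuous.intervalIntegrable (by fun_prop) a b
  have claim : ∀ n : ℕ, ∀ b : ℝ, 0 < b → b ≤ R → f b = 0 → (Zo l (k * b)).ncard = n →
      0 ≤ qf l (k ^ 2) b f f' := by
    intro n
    induction n using Nat.strong_induction_on with
    | _ n ih =>
      intro b hb hbR hfb hn
      rcases Set.eq_empty_or_nonempty (Zo l (k * b)) with he | hne
      · have h := picA l hk le_rfl hb hf hf' (fun r hr hj => ?_) (Or.inl rfl) hfb
        · exact h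
        · have : k * r ∈ Zo l (k * b) := ⟨mul_pos hk hr.1, mul_lt_mul_of_pos_left hr.2 hk, hj⟩
          rw [he] at this
          exact this
      · obtain ⟨t, ht, hmax⟩ := Set.exists_max_image (Zo l (k * b)) id (Zo_finite l _) hne
        have hkt : k * (t / k) = t := by field_simp
        have ha : 0 < t / k := div_pos ht.1 hk
        have hab : t / k < b := by
          rw [div_lt_iff₀ hk, mul_comm]
          exact ht.2.1
        have hfa : f (t / k) = 0 := hz t ⟨ht.1,
          ht.2.1.le.trans (mul_le_mul_of_nonneg_left hbR hk.le), ht.2.2⟩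
        have hss : Zo l (k * (t / k)) ⊂ Zo l (k * b) := by
          rw [hkt, Set.ssubset_iff_of_subset]
          · exact ⟨t, ht, fun h => lt_irrefl _ h.2.1⟩
          · exact fun x hx => ⟨hx.1, hx.2.1.trans ht.2.1, hx.2.2⟩
        have h1 := ih _ (by rw [← hn]; exact Set.ncard_lt_ncard hss (Zo_finite l _)) (t / k) ha
          (hab.le.trans hbR) hfa rfl
        have h2 := picA l hk ha.le hab hf hf' (fun r hr hj => ?_) (Or.inr hfa) hfb
        · unfold qf at h1 ⊢
          rw [← intervalIntegral.integral_add_adjacent_intervals (hI 0 (t / k)) (hI (t / k) b)]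
          exact add_nonneg h1 h2
        · have h3 : k * r ∈ Zo l (k * b) :=
            ⟨mul_pos hk (ha.trans hr.1), mul_lt_mul_of_pos_left hr.2 hk, hj⟩
          have h4 : k * r ≤ t := hmax _ h3
          have h5 : k * (t / k) < k * r := mul_lt_mul_of_pos_left hr.1 hk
          rw [hkt] at h5
          exact absurd h4 (not_le.2 h5)
  exact claim _ R hR le_rfl h0 rfl

end Pool.Agent.H68.SC
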