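import Pool.Agent.H68.SC.Lower
import Pool.Agent.H68.SC.PicB

/-!
# Module Up (about 150 lines): at most so many Dirichlet eigenvalues of a ball are `≤ k²`

PROOF. For each `l < L` let `T_l > k R` with `Zc l T_l = Zc l (k R)` (`Zc_extend`). Choose `k₂ > k` with
`k₂ R ≤ T_l` for all `l < L` (finite minimum) and `(k₂ R)² ≤ L (L + 1)` (by `hL`, continuity). Then
`Zc l (k₂ R) = Zc l (k R)`. `ε = (k₂² - k²) / 2`. Let `F ≤ C1c (ball 0 R) ⊓ Sy s` be finite
dimensional with `∫ ‖fderiv f‖² ≤ (k² + ε) ∫ f²`. Index set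
`ι = {(l, t, i) | l < L, s ^ l = 1, t ∈ Zc l (k R), i : Fin (H.d l)}` (a finite type; e.g. a sigma type over
`Fin L` of `{t // t ∈ Zc l (k R)} × Fin (H.d l)` when `s ^ l = 1` and empty otherwise), of
cardinality the sum `M` in the statement. `Λ : F → (ι → ℝ)`, `f ↦ mom H f l i (t / k₂)` is linear
(`mom_add`, `mom_smul`). If `finrank F > M` there is `f ∈ F`, `f ≠ 0`, with `Λ f = 0`
(`LinearMap.ker_ne_bot_of_finrank_lt`). For every `l < L` and `i`: `0 ≤ qf l (k₂²) R (mom H f l i)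
(dmom H f l i)`: if `s ^ l = 1` by `picB` (with `k₂`; `mom_deriv`, `dmom_cont`, `mom_zero` at `R`), if
`s ^ l ≠ 1` (so `s = -1`) both functions vanish (`mom_parity`; `dmom` is the derivative of
`mom = 0`), so `qf = 0`. By `lower` `0 ≤ BB (k₂²) f f`. But by `BB_self`
`BB (k₂²) f f = ∫ ‖fderiv f‖² - k₂² ∫ f² ≤ (k² + ε - k₂²) ∫ f² = - ε ∫ f² < 0` (`int_sq_pos`).
-/

set_option autoImplicit false

namespace Pool.Agent.H68.SC

open Filter Topology MeasureTheory Metric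
open scoped ContDiff

private theorem up_k2 {k R : ℝ} (hR : 0 < R) {L : ℕ}
    (hL : (k * R) ^ 2 < (L : ℝ) * (L + 1)) :
    ∃ k₂ : ℝ, k < k₂ ∧ (k₂ * R) ^ 2 ≤ (L : ℝ) * (L + 1) ∧
      ∀ l, l < L → Zc l (k₂ * R) = Zc l (k * R) := by
  choose T hT1 hT2 using fun l => Zc_extend l (k * R)
  have c1 : ContinuousAt (fun x : ℝ => x * R) k := by fun_prop
  have c2 : ContinuousAt (fun x : ℝ => (x * R) ^ 2) k := by fun_prop
  have e1 : ∀ᶠ x in 𝓝[>] k, ∀ l ∈ Finset.range L, x * R < T l := by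
    rw [Filter.eventually_all_finset]
    intro l _
    exact (c1.eventually_lt continuousAt_const (hT1 l)).filter_mono nhdsWithin_le_nhds
  have e2 : ∀ᶠ x in 𝓝[>] k, (x * R) ^ 2 < (L : ℝ) * (L + 1) :=
    (c2.eventually_lt continuousAt_const hL).filter_mono nhdsWithin_le_nhds
  have e3 : ∀ᶠ x in 𝓝[>] k, k < x := self_mem_nhdsWithin
  obtain ⟨k₂, h1, h2, h3⟩ := (e1.and (e2.and e3)).exists
  refine ⟨k₂, h3, h2.le, fun l hl => ?_⟩
  apply Set.Subset.antisymm
  · rw [← hT2 l]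
    exact fun t ht => ⟨ht.1, ht.2.1.trans (h1 l (Finset.mem_range.2 hl)).le, ht.2.2⟩
  · exact fun t ht => ⟨ht.1, ht.2.1.trans (mul_le_mul_of_nonneg_right h3.le hR.le), ht.2.2⟩

private theorem up_qf (H : Harm) {s : ℝ} (hs : s = 1 ∨ s = -1) {k₂ R : ℝ} (hk : 0 < k₂)
    (hR : 0 < R) {f : E → ℝ} (hf : f ∈ C1c (ball 0 R)) (hfs : f ∈ Sy s) (l : ℕ) (i : Fin (H.d l))
    (h0 : s ^ l = 1 → ∀ t ∈ Zc l (k₂ * R), mom H f l i (t / k₂) = 0) :
    0 ≤ qf l (k₂ ^ 2) R (mom H f l i) (dmom H f l i) := by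
  have hf1 : ContDiff ℝ 1 f := C1c.contDiff hf
  by_cases hl : s ^ l = 1
  · refine picB l hk hR (mom_deriv H hf1 l i) (dmom_cont H hf1 l i) ?_ (h0 hl)
    refine mom_zero H hR.le (fun x hx => ?_) l i (le_refl R)
    apply image_eq_zero_of_notMem_tsupport
    intro hc
    have := C1c.sub hf hc
    rw [mem_ball, dist_zero_right] at this
    exact absurd hx (not_le.2 this)
  · have hs1 : s = -1 := by
      rcases hs with h | h
      · exact absurd (by rw [h, one_pow]) hl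
      · exact h
    subst hs1
    have h1 : mom H f l i = fun _ => 0 := funext fun r => mom_parity H hfs hl i r
    have h2 : dmom H f l i = fun _ => 0 := by
      funext r
      have h3 := mom_deriv H hf1 l i r
      rw [h1] at h3
      exact h3.unique (hasDerivAt_const r 0)
    rw [h1, h2]
    unfold qf
    simp

open Classical in
private theorem up_card (H : Harm) (s T : ℝ) (L : ℕ) [∀ l, Fintype (Zc l T)] :
    Fintype.card (Σ l : Fin L, {p : (Zc (l : ℕ) T) × Fin (H.d l) // s ^ (l : ℕ) = 1}) =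
      ∑ l ∈ Finset.range L, if s ^ l = 1 then H.d l * (Zc l T).ncard else 0 := by
  rw [Fintype.card_sigma, Finset.sum_range]
  refine Finset.sum_congr rfl fun l _ => ?_
  by_cases h : s ^ (l : ℕ) = 1
  · rw [if_pos h]
    have e : {p : (Zc (l : ℕ) T) × Fin (H.d l) // s ^ (l : ℕ) = 1} ≃
        (Zc (l : ℕ) T) × Fin (H.d l) := Equiv.subtypeUnivEquiv fun _ => h
    rw [Fintype.card_congr e, Fintype.card_prod, Fintype.card_fin, mul_comm,
      Set.ncard_eq_toFinset_card', Set.toFinset_card]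
  · rw [if_neg h]
    have : IsEmpty {p : (Zc (l : ℕ) T) × Fin (H.d l) // s ^ (l : ℕ) = 1} :=
      ⟨fun p => h p.2⟩
    exact Fintype.card_eq_zero

open Classical in
theorem upper (H : Harm) {s : ℝ} (hs : s = 1 ∨ s = -1) {k R : ℝ} (hk : 0 < k) (hR : 0 < R)
    {L : ℕ} (hL : (k * R) ^ 2 < (L : ℝ) * (L + 1)) :
    AtMost (Sy s) (ball 0 R) (k ^ 2)
      (∑ l ∈ Finset.range L, if s ^ l = 1 then H.d l * (Zc l (k * R)).ncard else 0) := by
  obtain ⟨k₂, hk2, hL2, hZ⟩ := up_k2 hR hL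
  have hk20 : 0 < k₂ := hk.trans hk2
  have hε : 0 < (k₂ ^ 2 - k ^ 2) / 2 := by nlinarith
  refine ⟨(k₂ ^ 2 - k ^ 2) / 2, hε, fun F hF hfin hq => ?_⟩
  haveI : ∀ l, Fintype (Zc l (k * R)) := fun l => (Zc_finite l (k * R)).fintype
  rw [← up_card H s (k * R) L]
  let Λ : F →ₗ[ℝ] ((Σ l : Fin L, {p : (Zc (l : ℕ) (k * R)) × Fin (H.d l) //
      s ^ (l : ℕ) = 1}) → ℝ) :=
    { toFun := fun f p => mom H (f : E → ℝ) p.1 p.2.1.2 ((p.2.1.1 : ℝ) / k₂)
      map_add' := fun f g => funext fun p =>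
        mom_add H (C1c.cont (hF f.2).1) (C1c.cont (hF g.2).1) _ _ _
      map_smul' := fun a f => funext fun p => mom_smul H a (f : E → ℝ) _ _ _ }
  have hinj : Function.Injective Λ := by
    rw [injective_iff_map_eq_zero]
    intro f hf
    by_contra hne
    have hne' : (f : E → ℝ) ≠ 0 := fun h => hne (Subtype.ext h)
    have hC := (hF f.2).1
    have h1 : ∀ l ∈ Finset.range L, ∀ i ∈ (Finset.univ : Finset (Fin (H.d l))),
        0 ≤ qf l (k₂ ^ 2) R (mom H (f : E → ℝ) l i) (dmom H (f : E → ℝ) l i) := by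
      intro l hl i _
      rw [Finset.mem_range] at hl
      refine up_qf H hs hk20 hR hC (hF f.2).2 l i fun hsl t ht => ?_
      rw [hZ l hl] at ht
      exact congrFun hf ⟨⟨l, hl⟩, ⟨(⟨t, ht⟩, i), hsl⟩⟩
    have h2 : 0 ≤ BB (k₂ ^ 2) (f : E → ℝ) f :=
      (Finset.sum_nonneg fun l hl => Finset.sum_nonneg (h1 l hl)).trans
        (lower H hR hC (sq_nonneg k₂) (by rw [← mul_pow]; exact hL2))
    rw [BB_self hC] at h2
    have h3 := hq f f.2
    have h4 := int_sq_pos (C1c.cont hC) (C1c.compact hC) hne'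
    nlinarith
  have h5 := LinearMap.finrank_le_finrank_of_injective hinj
  rwa [Module.finrank_fintype_fun_eq_card] at h5

end Pool.Agent.H68.SC
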