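import Pool.Agent.H68.SC.MainA
import Pool.Agent.H68.SC.Up
import Pool.Agent.H68.SC.Low
import Pool.Agent.H68.SC.Dense
import Pool.Agent.H68.SC.J576

/-!
# Balls (proved from the modules)
-/

set_option autoImplicit false

namespace Pool.Agent.H68.SC

open Filter Topology MeasureTheory Metric
open scoped ContDiff

/-- `j_l` has no zero in the window `[k r, k R]` -/
def NoZero (l : ℕ) (k r R : ℝ) : Prop := ∀ t : ℝ, 0 < t → k * r ≤ t → t ≤ k * R → jl l t ≠ 0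

/-- `j_l` has at most one zero in the window `[k r, k R]` -/
def OneZero (l : ℕ) (k r R : ℝ) : Prop := ∀ t t' : ℝ, 0 < t → k * r ≤ t → t ≤ k * R →
  0 < t' → k * r ≤ t' → t' ≤ k * R → jl l t = 0 → jl l t' = 0 → t = t'

theorem ncard_no {l : ℕ} {k r R : ℝ} (h : NoZero l k r R) :
    (Zc l (k * R)).ncard ≤ (Zo l (k * r)).ncard := by
  refine Set.ncard_le_ncard ?_ (Zo_finite l _)
  rintro t ⟨h1, h2, h3⟩
  refine ⟨h1, ?_, h3⟩
  by_contra h4
  exact h t h1 (not_lt.1 h4) h2 h3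

theorem ncard_one {l : ℕ} {k r R : ℝ} (h : OneZero l k r R) :
    (Zc l (k * R)).ncard ≤ (Zo l (k * r)).ncard + 1 := by
  set W : Set ℝ := {t | 0 < t ∧ k * r ≤ t ∧ t ≤ k * R ∧ jl l t = 0} with hW
  have h1 : Zc l (k * R) ⊆ Zo l (k * r) ∪ W := by
    rintro t ⟨h1, h2, h3⟩
    by_cases h4 : t < k * r
    · exact Or.inl ⟨h1, h4, h3⟩
    · exact Or.inr ⟨h1, not_lt.1 h4, h2, h3⟩
  have h2 : W.Subsingleton := by
    rintro t ⟨h1, h2, h3, h4⟩ t' ⟨h5, h6, h7, h8⟩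
    exact h t t' h1 h2 h3 h5 h6 h7 h4 h8
  have h3 : W.ncard ≤ 1 := by
    haveI : Finite W := h2.finite
    exact Set.ncard_le_one_iff_subsingleton.2 h2
  calc (Zc l (k * R)).ncard ≤ (Zo l (k * r) ∪ W).ncard :=
        Set.ncard_le_ncard h1 ((Zo_finite l _).union h2.finite)
    _ ≤ (Zo l (k * r)).ncard + W.ncard := Set.ncard_union_le _ _
    _ ≤ (Zo l (k * r)).ncard + 1 := by omega

open Classical in
theorem count_le (d : ℕ → ℕ) (P : ℕ → Prop) {k r R : ℝ} (L : ℕ) (e : ℕ → ℕ)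
    (h : ∀ l, P l → (Zc l (k * R)).ncard ≤ (Zo l (k * r)).ncard + e l) :
    (∑ l ∈ Finset.range L, if P l then d l * (Zc l (k * R)).ncard else 0) ≤
      (∑ l ∈ Finset.range L, if P l then d l * (Zo l (k * r)).ncard else 0) +
        ∑ l ∈ Finset.range L, if P l then d l * e l else 0 := by
  rw [← Finset.sum_add_distrib]
  refine Finset.sum_le_sum fun l _ => ?_
  by_cases hP : P l
  · simp only [if_pos hP]
    rw [← mul_add]
    exact Nat.mul_le_mul_left _ (h l hP)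
  · simp only [if_neg hP]; omega

theorem AtMost.le {S : Submodule ℝ (E → ℝ)} {Ω : Set E} {K : ℝ} {M M' : ℕ}
    (h : AtMost S Ω K M) (h1 : M ≤ M') : AtMost S Ω K M' := by
  obtain ⟨ε, hε, h2⟩ := h
  exact ⟨ε, hε, fun F hF h3 h4 => (h2 F hF h3 h4).trans h1⟩

theorem exists_L (x : ℝ) : ∃ L : ℕ, 2 ≤ L ∧ x < (L : ℝ) * (L + 1) := by
  obtain ⟨n, hn⟩ := exists_nat_gt x
  refine ⟨n + 2, by omega, ?_⟩
  push_cast
  nlinarith [(Nat.cast_nonneg n : (0 : ℝ) ≤ n)]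

theorem radius_pos {D : Set E} {φ : E → ℝ} {k c : ℝ} {u : E → ℝ} (h : Sol D φ k c u) {x₀ : E}
    {R : ℝ} (h2 : D ⊆ ball x₀ R) : 0 < R := by
  obtain ⟨x, hx⟩ := h.conn.nonempty
  exact dist_nonneg.trans_lt (mem_ball.1 (h2 hx))

theorem ballA {D : Set E} {φ : E → ℝ} {k c : ℝ} {u : E → ℝ} (h : Sol D φ k c u) {r R : ℝ}
    (h1 : ball 0 r ⊆ D) (h2 : D ⊆ ball 0 R) (hn : ∀ l, 2 ≤ l → NoZero l k r R)
    (ho : ∀ l, l < 2 → OneZero l k r R) : ∃ (z : E) (ρ : ℝ), D = ball z ρ := by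
  classical
  obtain ⟨H⟩ := exists_harm
  have hR := radius_pos h h2
  obtain ⟨L, hL2, hL⟩ := exists_L ((k * R) ^ 2)
  refine mainA h h1 h2 (lowerc H (s := 1) (Or.inl rfl) h.kpos r L)
    (((upper H (s := 1) (Or.inl rfl) h.kpos hR hL).le ?_).le
      (Nat.add_le_add_right (le_max_left _ _) 4))
  have h3 := count_le H.d (fun l => (1 : ℝ) ^ l = 1) (k := k) (r := r) (R := R) L
    (fun l => if l < 2 then 1 else 0) (fun l _ => ?_)
  · refine h3.trans ?_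
    have h4 : (∑ l ∈ Finset.range L, if (1 : ℝ) ^ l = 1 then H.d l * (if l < 2 then 1 else 0)
        else 0) ≤ 4 := by
      obtain ⟨n, rfl⟩ : ∃ n, L = n + 2 := ⟨L - 2, by omega⟩
      rw [Finset.sum_range_succ', Finset.sum_range_succ']
      simp [H.d0, H.d1]
    omega
  · by_cases hl : l < 2
    · simp only [if_pos hl]
      exact ncard_one (ho l hl)
    · simp only [if_neg hl]
      exact ncard_no (hn l (by omega))

theorem ballS {D : Set E} {φ : E → ℝ} {k c : ℝ} {u : E → ℝ} (h : Sol D φ k c u)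
    (hs : ∀ x ∈ D, -x ∈ D) {r R : ℝ}
    (h1 : ball 0 r ⊆ D) (h2 : D ⊆ ball 0 R) (hn : ∀ l, 2 ≤ l → Even l → NoZero l k r R)
    (ho : OneZero 0 k r R) : ∃ (z : E) (ρ : ℝ), D = ball z ρ := by
  classical
  obtain ⟨H⟩ := exists_harm
  have hR := radius_pos h h2
  obtain ⟨L, hL2, hL⟩ := exists_L ((k * R) ^ 2)
  refine mainS h hs h1 h2 (lowerc H (s := -1) (Or.inr rfl) h.kpos r L)
    (((upper H (s := -1) (Or.inr rfl) h.kpos hR hL).le ?_).le
      (Nat.add_le_add_right (le_max_left _ _) 1))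
  have hev : ∀ l : ℕ, (-1 : ℝ) ^ l = 1 → Even l := by
    intro l hl
    by_contra hne
    rw [Nat.not_even_iff_odd] at hne
    rw [hne.neg_one_pow] at hl
    norm_num at hl
  have h3 := count_le H.d (fun l => (-1 : ℝ) ^ l = 1) (k := k) (r := r) (R := R) L
    (fun l => if l = 0 then 1 else 0) (fun l hl => ?_)
  · refine h3.trans ?_
    have h4 : (∑ l ∈ Finset.range L, if (-1 : ℝ) ^ l = 1 then H.d l * (if l = 0 then 1 else 0)
        else 0) ≤ 1 := by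
      obtain ⟨n, rfl⟩ : ∃ n, L = n + 1 := ⟨L - 1, by omega⟩
      rw [Finset.sum_range_succ']
      simp [H.d0]
    omega
  · by_cases h0 : l = 0
    · simp only [if_pos h0]
      rw [h0]
      exact ncard_one ho
    · simp only [if_neg h0]
      have he := hev l hl
      refine ncard_no (hn l ?_ he)
      rcases he with ⟨m, hm⟩
      omega

/-! ### arbitrary centres -/

theorem ball_trans {D : Set E} {x₀ : E} (h : ∃ (z : E) (ρ : ℝ), (fun x => x + x₀) ⁻¹' D = ball z ρ) :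
    ∃ (z : E) (ρ : ℝ), D = ball z ρ := by
  obtain ⟨z, ρ, h⟩ := h
  refine ⟨z + x₀, ρ, ?_⟩
  ext x
  have h1 : x - x₀ ∈ (fun x => x + x₀) ⁻¹' D ↔ x ∈ D := by simp
  rw [← h1, h, mem_ball, mem_ball, dist_eq_norm, dist_eq_norm]
  have : x - x₀ - z = x - (z + x₀) := by abel
  rw [this]

theorem sub_in {D : Set E} {x₀ : E} {r : ℝ} (h : ball x₀ r ⊆ D) :
    ball 0 r ⊆ (fun x => x + x₀) ⁻¹' D := by
  intro x hx
  refine h ?_
  simpa [dist_eq_norm] using hx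

theorem sub_out {D : Set E} {x₀ : E} {r : ℝ} (h : D ⊆ ball x₀ r) :
    (fun x => x + x₀) ⁻¹' D ⊆ ball 0 r := by
  intro x hx
  have := h hx
  simpa [dist_eq_norm] using this

theorem finA {D : Set E} {φ : E → ℝ} {k c : ℝ} {u : E → ℝ} (h : Sol D φ k c u) {x₀ : E} {r R : ℝ}
    (h1 : ball x₀ r ⊆ D) (h2 : D ⊆ ball x₀ R) (hn : ∀ l, 2 ≤ l → NoZero l k r R)
    (ho : ∀ l, l < 2 → OneZero l k r R) : ∃ (z : E) (ρ : ℝ), D = ball z ρ :=
  ball_trans (ballA (trans_sol h x₀) (sub_in h1) (sub_out h2) hn ho)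

theorem finB {D : Set E} {φ : E → ℝ} {k c : ℝ} {u : E → ℝ} (h : Sol D φ k c u) {x₀ : E} {R : ℝ}
    (h2 : D ⊆ ball x₀ R) (h3 : k * R ≤ 5.76) : ∃ (z : E) (ρ : ℝ), D = ball z ρ := by
  refine finA h (x₀ := x₀) (r := 0) (by simp) h2 ?_ ?_
  · intro l hl t h0 _ h1
    exact (jl_pos_576 hl h0 (h1.trans h3)).ne'
  · intro l hl t t' h0 _ h1 h0' _ h1' h4 h5
    interval_cases l
    · exact j0_one h0 (h1.trans h3) h0' (h1'.trans h3) h4 h5
    · exact j1_one h0 (h1.trans h3) h0' (h1'.trans h3) h4 h5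

theorem finS {D : Set E} {φ : E → ℝ} {k c : ℝ} {u : E → ℝ} (h : Sol D φ k c u) {x₀ : E} {r R : ℝ}
    (hs : ∀ x ∈ D, (2 : ℝ) • x₀ - x ∈ D)
    (h1 : ball x₀ r ⊆ D) (h2 : D ⊆ ball x₀ R) (hn : ∀ l, 2 ≤ l → Even l → NoZero l k r R)
    (ho : OneZero 0 k r R) : ∃ (z : E) (ρ : ℝ), D = ball z ρ := by
  refine ball_trans (ballS (trans_sol h x₀) ?_ (sub_in h1) (sub_out h2) hn ho)
  intro x hx
  have := hs _ hx
  have h5 : (2 : ℝ) • x₀ - (x + x₀) = -x + x₀ := by rw [two_smul]; abel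
  rw [h5] at this
  exact this

end Pool.Agent.H68.SC
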