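import Pool.Agent.H68.SC.Energy

/-!
# Module Cut: cutoff functions of small energy

PROOF. `G = ∑ i, w i ²`, continuous, zero outside `D`, `C¹` on `D`. `τ s = Real.smoothTransition (s - 1)`
(`0` for `s ≤ 1`, `1` for `s ≥ 2`), `|τ'| ≤ M`.
`η` smooth with compact support in `D`, `0 ≤ η ≤ 1`, `η = 1` near `K₀`.
For `r > 0` put `χ = η + (1 - η) τ (G / r)`. Near a point outside `D` (and `tsupport η`) `G < r`, so
`χ = 0`; the set `{G ≥ r} ∪ tsupport η` is compact in `D`; `χ` is `C¹`, `0 ≤ χ ≤ 1`, `χ = 1` near `K₀`.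
Where `χ ≠ 1` we have `G < 2 r`, so `(1 - χ)² G ≤ 2 r`.
`∇χ = (1 - τ) ∇η + (1 - η) τ' ∇G / r`, so `G gg χ χ ≤ 2 G (1 - τ)² gg η η + 2 G τ'² gg G G / r²`.
The second term is at most `32 M² 1_{r ≤ G ≤ 2 r} ∑ i, 1_{w i ≠ 0} gg (w i) (w i)`; dominated convergence.
-/

set_option autoImplicit false

namespace Pool.Agent.H68.SC

open Filter Topology MeasureTheory Metric
open scoped ContDiff

namespace CutAux

noncomputable def tau (s : ℝ) : ℝ := Real.smoothTransition (s - 1)

theorem tau_contDiff : ContDiff ℝ ∞ tau :=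
  Real.smoothTransition.contDiff.comp (contDiff_id.sub contDiff_const)

theorem tau_zero {s : ℝ} (h : s ≤ 1) : tau s = 0 :=
  Real.smoothTransition.zero_of_nonpos (by linarith)

theorem tau_one {s : ℝ} (h : 2 ≤ s) : tau s = 1 :=
  Real.smoothTransition.one_of_one_le (by linarith)

theorem tau_nonneg (s : ℝ) : 0 ≤ tau s := Real.smoothTransition.nonneg _

theorem tau_le_one (s : ℝ) : tau s ≤ 1 := Real.smoothTransition.le_one _

theorem tau_diff : Differentiable ℝ tau := tau_contDiff.differentiable (by simp)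

theorem deriv_tau_lt {s : ℝ} (h : s < 1) : deriv tau s = 0 := by
  have h1 : tau =ᶠ[𝓝 s] fun _ => (0 : ℝ) := by
    filter_upwards [Iio_mem_nhds h] with y hy
    exact tau_zero (le_of_lt hy)
  rw [h1.deriv_eq, deriv_const]

theorem deriv_tau_gt {s : ℝ} (h : 2 < s) : deriv tau s = 0 := by
  have h1 : tau =ᶠ[𝓝 s] fun _ => (1 : ℝ) := by
    filter_upwards [Ioi_mem_nhds h] with y hy
    exact tau_one (le_of_lt hy)
  rw [h1.deriv_eq, deriv_const]

theorem bound : ∃ M : ℝ, 0 ≤ M ∧ ∀ s, |deriv tau s| ≤ M := by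
  have hc : Continuous (deriv tau) := tau_contDiff.continuous_deriv (by simp)
  obtain ⟨M, hM⟩ := (isCompact_Icc (a := (1 : ℝ)) (b := 2)).exists_bound_of_continuousOn
    hc.continuousOn
  refine ⟨max M 0, le_max_right _ _, fun s => ?_⟩
  by_cases h1 : s < 1
  · rw [deriv_tau_lt h1, abs_zero]; exact le_max_right _ _
  by_cases h2 : 2 < s
  · rw [deriv_tau_gt h2, abs_zero]; exact le_max_right _ _
  exact (hM s ⟨not_lt.1 h1, not_lt.1 h2⟩).trans (le_max_left _ _)

theorem pd_comp {G : E → ℝ} {x : E} (hG : DifferentiableAt ℝ G x) (r : ℝ) (i : Fin 3) :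
    pd (fun y => tau (G y / r)) i x = deriv tau (G x / r) * (pd G i x / r) := by
  have h1 : HasFDerivAt (fun y => G y / r) (r⁻¹ • fderiv ℝ G x) x := by
    have := hG.hasFDerivAt.const_mul r⁻¹
    simpa only [div_eq_inv_mul] using this
  have h2 : HasDerivAt tau (deriv tau (G x / r)) (G x / r) := (tau_diff _).hasDerivAt
  have h3 := HasDerivAt.comp_hasFDerivAt x h2 h1
  have h4 : fderiv ℝ (fun y => tau (G y / r)) x = deriv tau (G x / r) • (r⁻¹ • fderiv ℝ G x) :=
    h3.fderiv
  unfold pd
  rw [h4]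
  simp only [smul_apply, smul_eq_mul]
  ring

theorem pd_G {n : ℕ} {w : Fin n → E → ℝ} {x : E} (hw : ∀ i, DifferentiableAt ℝ (w i) x)
    (j : Fin 3) :
    pd (fun y => ∑ i, w i y ^ 2) j x = 2 * ∑ i, w i x * pd (w i) j x := by
  have h1 : HasFDerivAt (fun y => ∑ i, w i y ^ 2)
      (∑ i, (2 * w i x) • fderiv ℝ (w i) x) x := by
    refine HasFDerivAt.fun_sum fun i _ => ?_
    have := (hw i).hasFDerivAt.pow 2
    simpa using this
  unfold pd
  rw [h1.fderiv, sum_apply, Finset.mul_sum]
  refine Finset.sum_congr rfl fun i _ => ?_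
  simp only [smul_apply, smul_eq_mul]
  ring

/-- the density `∑ i, 1_{w i ≠ 0} gg (w i) (w i)` -/
noncomputable def hh {n : ℕ} (w : Fin n → E → ℝ) (x : E) : ℝ :=
  ∑ i, Set.indicator {x | w i x ≠ 0} (gg (w i) (w i)) x

theorem hh_nonneg {n : ℕ} (w : Fin n → E → ℝ) (x : E) : 0 ≤ hh w x :=
  Finset.sum_nonneg fun _ _ => Set.indicator_nonneg (fun _ _ => gg_nonneg _ _) _

theorem gg_G {n : ℕ} {w : Fin n → E → ℝ} {x : E} (hw : ∀ i, DifferentiableAt ℝ (w i) x) :
    gg (fun y => ∑ i, w i y ^ 2) (fun y => ∑ i, w i y ^ 2) x ≤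
      4 * (∑ i, w i x ^ 2) * hh w x := by
  classical
  have h1 : ∀ j : Fin 3, pd (fun y => ∑ i, w i y ^ 2) j x ^ 2 ≤
      4 * (∑ i, w i x ^ 2) * ∑ i, (if w i x ≠ 0 then pd (w i) j x else 0) ^ 2 := by
    intro j
    rw [pd_G hw j]
    have h2 := Finset.sum_mul_sq_le_sq_mul_sq Finset.univ (fun i => w i x)
      (fun i => if w i x ≠ 0 then pd (w i) j x else 0)
    have h3 : ∑ i, w i x * (if w i x ≠ 0 then pd (w i) j x else 0) =
        ∑ i, w i x * pd (w i) j x := by
      refine Finset.sum_congr rfl fun i _ => ?_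
      by_cases h : w i x = 0
      · simp [h]
      · simp [h]
    rw [h3] at h2
    nlinarith [h2]
  have h4 : gg (fun y => ∑ i, w i y ^ 2) (fun y => ∑ i, w i y ^ 2) x =
      ∑ j, pd (fun y => ∑ i, w i y ^ 2) j x ^ 2 := by
    unfold gg
    exact Finset.sum_congr rfl fun _ _ => (sq _).symm
  have h5 : hh w x = ∑ j : Fin 3, ∑ i, (if w i x ≠ 0 then pd (w i) j x else 0) ^ 2 := by
    rw [Finset.sum_comm]
    unfold hh
    refine Finset.sum_congr rfl fun i _ => ?_
    by_cases h : w i x = 0
    · simp [Set.indicator, h]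
    · simp only [Set.indicator, Set.mem_ofPred_eq, ne_eq, h, not_false_eq_true, if_true]
      unfold gg
      exact Finset.sum_congr rfl fun _ _ => (sq _).symm
  rw [h4, h5, Finset.mul_sum]
  exact Finset.sum_le_sum fun j _ => h1 j

theorem eta {D : Set E} (hD : IsOpen D) {K₀ : Set E} (h0 : IsCompact K₀) (h1 : K₀ ⊆ D) :
    ∃ η : E → ℝ, η ∈ C1c D ∧ (∀ x, 0 ≤ η x ∧ η x ≤ 1) ∧ ∀ x ∈ K₀, ∀ᶠ y in 𝓝 x, η y = 1 := by
  obtain ⟨t, ht, h2, h3⟩ := exists_compact_between h0 hD h1
  obtain ⟨f, hf1, hf2, hf3⟩ := exists_contMDiffMap_one_nhds_of_subset_interior (n := 1)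
    (modelWithCornersSelf ℝ E) h0.isClosed h2
  have hts : tsupport (f : E → ℝ) ⊆ t := by
    refine closure_minimal ?_ ht.isClosed
    intro x hx
    by_contra hne
    exact hx (hf2 x hne)
  refine ⟨f, ⟨?_, ?_, hts.trans h3⟩, fun x => ⟨(hf3 x).1, (hf3 x).2⟩, fun x hx => ?_⟩
  · exact f.contMDiff.contDiff
  · exact ht.of_isClosed_subset (isClosed_tsupport _) hts
  · exact hf1.filter_mono (nhds_le_nhdsSet hx)

end CutAux

open CutAux

theorem cut {D : Set E} (hD : IsOpen D) (hb : Bornology.IsBounded D) {K : ℝ} (hK : 0 < K) {n : ℕ}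
    (w : Fin n → E → ℝ) (hw : ∀ i, Eigf D K (w i)) {K₀ : Set E} (h0 : IsCompact K₀) (h1 : K₀ ⊆ D)
    {ε : ℝ} (hε : 0 < ε) :
    ∃ χ ∈ C1c D, (∀ x, 0 ≤ χ x ∧ χ x ≤ 1) ∧ (∀ x ∈ K₀, ∀ᶠ y in 𝓝 x, χ y = 1) ∧
      ∫ x, (∑ i, w i x ^ 2) * gg χ χ x ≤ ε ∧ ∀ x, (1 - χ x) ^ 2 * ∑ i, w i x ^ 2 ≤ ε := by
  classical
  obtain ⟨M, hM0, hM⟩ := bound
  obtain ⟨η, hη, hη1, hη2⟩ := eta hD h0 h1
  set G : E → ℝ := fun x => ∑ i, w i x ^ 2 with hG
  have hGc : Continuous G := by
    have : ∀ i, Continuous (w i) := fun i => (hw i).cont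
    fun_prop
  have hG0 : ∀ x, 0 ≤ G x := fun x => Finset.sum_nonneg fun i _ => sq_nonneg _
  have hGout : ∀ x, x ∉ D → G x = 0 := by
    intro x hx
    simp only [hG]
    exact Finset.sum_eq_zero fun i _ => by rw [(hw i).out x hx]; simp
  have hwd : ∀ x ∈ D, ∀ i, ContDiffAt ℝ 1 (w i) x := fun x hx i =>
    ((hw i).C1 x hx).contDiffAt (hD.mem_nhds hx)
  have hGd : ∀ x ∈ D, ContDiffAt ℝ 1 G x := by
    intro x hx
    exact ContDiffAt.sum fun i _ => (hwd x hx i).pow 2
  have hηo : ∀ x, x ∉ D → η =ᶠ[𝓝 x] fun _ => 0 := by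
    intro x hx
    exact notMem_tsupport_iff_eventuallyEq.1 fun h => hx (C1c.sub hη h)
  -- the family of cutoffs
  have hfam : ∀ r : ℝ, 0 < r → ∃ χ ∈ C1c D, (∀ x, 0 ≤ χ x ∧ χ x ≤ 1) ∧
      (∀ x ∈ K₀, ∀ᶠ y in 𝓝 x, χ y = 1) ∧
      (∀ x, G x * gg χ χ x ≤ 4 * r * gg η η x +
        32 * M ^ 2 * Set.indicator {x | r ≤ G x ∧ G x ≤ 2 * r} (hh w) x) ∧
      ∀ x, (1 - χ x) ^ 2 * G x ≤ 2 * r := by
    intro r hr
    set χ : E → ℝ := fun x => η x + (1 - η x) * tau (G x / r) with hχ
    have hχout : ∀ x, x ∉ D → χ =ᶠ[𝓝 x] fun _ => 0 := by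
      intro x hx
      have h2 : ∀ᶠ y in 𝓝 x, G y < r := by
        have : G x < r := by rw [hGout x hx]; exact hr
        exact hGc.continuousAt.eventually_lt continuousAt_const this
      filter_upwards [hηo x hx, h2] with y hy1 hy2
      simp only [hχ]
      rw [hy1, tau_zero ((div_le_one hr).2 hy2.le)]
      simp
    have hχC : ContDiff ℝ 1 χ := by
      rw [contDiff_iff_contDiffAt]
      intro x
      by_cases hx : x ∈ D
      · have h2 : ContDiffAt ℝ 1 η x := (C1c.contDiff hη).contDiffAt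
        have h3 : ContDiffAt ℝ 1 (fun y => tau (G y / r)) x := by
          have h4 : ContDiffAt ℝ 1 tau (G x / r) :=
            (tau_contDiff.of_le (by simp)).contDiffAt
          exact ContDiffAt.comp (g := tau) (f := fun y => G y / r) x h4 ((hGd x hx).div_const r)
        exact h2.add ((contDiffAt_const.sub h2).mul h3)
      · exact contDiffAt_const.congr_of_eventuallyEq (hχout x hx)
    have hχsub : tsupport χ ⊆ D := by
      intro x hx
      by_contra hne
      exact (notMem_tsupport_iff_eventuallyEq.2 (hχout x hne)) hx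
    have hχcs : HasCompactSupport χ :=
      Metric.isCompact_of_isClosed_isBounded (isClosed_tsupport _) (hb.subset hχsub)
    have htau : ∀ x, 2 * r ≤ G x → tau (G x / r) = 1 := fun x hx =>
      tau_one (by rw [le_div_iff₀ hr]; exact hx)
    have hkey : ∀ x, G x * (1 - tau (G x / r)) ^ 2 ≤ 2 * r := by
      intro x
      by_cases h : 2 * r ≤ G x
      · rw [htau x h]; simp; linarith
      · have h2 : (1 - tau (G x / r)) ^ 2 ≤ 1 := by
          have := tau_nonneg (G x / r)
          have := tau_le_one (G x / r)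
          nlinarith
        have h3 : G x ≤ 2 * r := le_of_lt (not_le.1 h)
        calc G x * (1 - tau (G x / r)) ^ 2 ≤ G x * 1 :=
              mul_le_mul_of_nonneg_left h2 (hG0 x)
          _ ≤ 2 * r := by linarith
    refine ⟨χ, ⟨hχC, hχcs, hχsub⟩, fun x => ?_, fun x hx => ?_, fun x => ?_, fun x => ?_⟩
    · have a1 := hη1 x
      have a2 := tau_nonneg (G x / r)
      have a3 := tau_le_one (G x / r)
      simp only [hχ]
      constructor
      · have := mul_nonneg (sub_nonneg.2 a1.2) a2
        linarith [a1.1]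
      · have := mul_nonneg (sub_nonneg.2 a1.2) (sub_nonneg.2 a3)
        nlinarith
    · filter_upwards [hη2 x hx] with y hy
      simp only [hχ]
      rw [hy]; ring
    · by_cases hx : x ∈ D
      · have hηd : DifferentiableAt ℝ η x := C1c.diff hη x
        have hGdx : DifferentiableAt ℝ G x := (hGd x hx).differentiableAt one_ne_zero
        have hθd : DifferentiableAt ℝ (fun y => tau (G y / r)) x :=
          DifferentiableAt.comp (g := tau) (f := fun y => G y / r) x (tau_diff _)
            (by simpa only [div_eq_inv_mul] using hGdx.const_mul r⁻¹)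
        have hpd : ∀ i, pd χ i x = (1 - tau (G x / r)) * pd η i x +
            (1 - η x) * (deriv tau (G x / r) * (pd G i x / r)) := by
          intro i
          have e1 : pd χ i x = pd η i x + pd (fun y => (1 - η y) * tau (G y / r)) i x :=
            pd_add hηd ((differentiableAt_const _).sub hηd |>.mul hθd) i
          have e2 : pd (fun y => (1 - η y) * tau (G y / r)) i x =
              (1 - η x) * pd (fun y => tau (G y / r)) i x +
              tau (G x / r) * pd (fun y => 1 - η y) i x :=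
            pd_mul ((differentiableAt_const _).sub hηd) hθd i
          have e3 : pd (fun y => 1 - η y) i x = - pd η i x := by
            have := pd_sub (f := fun _ => (1 : ℝ)) (g := η) (x := x)
              (differentiableAt_const _) hηd i
            rw [this]
            simp [pd]
          rw [e1, e2, e3, pd_comp hGdx r i]
          ring
        have hgg : gg χ χ x ≤ 2 * (1 - tau (G x / r)) ^ 2 * gg η η x +
            2 * (deriv tau (G x / r) ^ 2 / r ^ 2) * gg G G x := by
          unfold gg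
          rw [Finset.mul_sum, Finset.mul_sum, ← Finset.sum_add_distrib]
          refine Finset.sum_le_sum fun i _ => ?_
          rw [hpd i]
          set a := (1 - tau (G x / r)) * pd η i x
          set b := deriv tau (G x / r) * (pd G i x / r)
          have a1 := hη1 x
          have h2 : (1 - η x) ^ 2 ≤ 1 := by nlinarith [a1.1, a1.2]
          have h3 : ((1 - η x) * b) ^ 2 ≤ b ^ 2 := by
            rw [mul_pow]
            nlinarith [sq_nonneg b]
          have h4 : (a + (1 - η x) * b) * (a + (1 - η x) * b) ≤ 2 * a ^ 2 + 2 * b ^ 2 := by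
            nlinarith [sq_nonneg (a - (1 - η x) * b)]
          refine h4.trans (le_of_eq ?_)
          simp only [a, b]
          field_simp
        have hggG : gg G G x ≤ 4 * G x * hh w x :=
          gg_G fun i => (hwd x hx i).differentiableAt one_ne_zero
        have t1 : G x * (2 * (1 - tau (G x / r)) ^ 2 * gg η η x) ≤ 4 * r * gg η η x := by
          have := mul_le_mul_of_nonneg_right (hkey x) (gg_nonneg η x)
          nlinarith
        have t2 : G x * (2 * (deriv tau (G x / r) ^ 2 / r ^ 2) * gg G G x) ≤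
            32 * M ^ 2 * Set.indicator {x | r ≤ G x ∧ G x ≤ 2 * r} (hh w) x := by
          have hh0 := hh_nonneg w x
          by_cases hin : r ≤ G x ∧ G x ≤ 2 * r
          · rw [Set.indicator_of_mem (by exact hin)]
            have c1 : deriv tau (G x / r) ^ 2 ≤ M ^ 2 := by
              rw [← sq_abs]
              exact pow_le_pow_left₀ (abs_nonneg _) (hM _) 2
            have c2 : G x * (2 * (deriv tau (G x / r) ^ 2 / r ^ 2) * gg G G x) ≤
                G x * (2 * (M ^ 2 / r ^ 2) * (4 * G x * hh w x)) := by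
              have c3 : deriv tau (G x / r) ^ 2 / r ^ 2 ≤ M ^ 2 / r ^ 2 := by gcongr
              have c4 : 0 ≤ M ^ 2 / r ^ 2 := by positivity
              refine mul_le_mul_of_nonneg_left ?_ (hG0 x)
              refine mul_le_mul (by linarith) hggG (gg_nonneg _ _) (by linarith)
            refine c2.trans ?_
            have c5 : G x * (2 * (M ^ 2 / r ^ 2) * (4 * G x * hh w x)) =
                8 * M ^ 2 * hh w x * (G x ^ 2 / r ^ 2) := by ring
            rw [c5]
            have c6 : G x ^ 2 / r ^ 2 ≤ 4 := by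
              rw [div_le_iff₀ (by positivity)]
              nlinarith [hin.1, hin.2, hG0 x]
            have c7 : 0 ≤ 8 * M ^ 2 * hh w x := by positivity
            nlinarith [mul_le_mul_of_nonneg_left c6 c7]
          · have hz : deriv tau (G x / r) = 0 := by
              by_cases h2 : r ≤ G x
              · have h3 : 2 * r < G x := by
                  by_contra h4
                  exact hin ⟨h2, not_lt.1 h4⟩
                exact deriv_tau_gt (by rw [lt_div_iff₀ hr]; exact h3)
              · exact deriv_tau_lt (by rw [div_lt_one hr]; exact not_le.1 h2)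
            rw [hz, Set.indicator_of_notMem (by exact hin)]
            simp
        calc G x * gg χ χ x ≤ G x * (2 * (1 - tau (G x / r)) ^ 2 * gg η η x +
              2 * (deriv tau (G x / r) ^ 2 / r ^ 2) * gg G G x) :=
              mul_le_mul_of_nonneg_left hgg (hG0 x)
          _ = G x * (2 * (1 - tau (G x / r)) ^ 2 * gg η η x) +
              G x * (2 * (deriv tau (G x / r) ^ 2 / r ^ 2) * gg G G x) := by ring
          _ ≤ _ := add_le_add t1 t2
      · rw [hGout x hx, zero_mul]
        have c1 : 0 ≤ 4 * r * gg η η x := mul_nonneg (by linarith) (gg_nonneg _ _)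
        have c2 : 0 ≤ Set.indicator {x | r ≤ G x ∧ G x ≤ 2 * r} (hh w) x :=
          Set.indicator_nonneg (fun _ _ => hh_nonneg w _) _
        have c3 : 0 ≤ 32 * M ^ 2 * Set.indicator {x | r ≤ G x ∧ G x ≤ 2 * r} (hh w) x := by
          positivity
        linarith
    · have e : 1 - χ x = (1 - η x) * (1 - tau (G x / r)) := by simp only [hχ]; ring
      have a1 := hη1 x
      have h2 : (1 - η x) ^ 2 ≤ 1 := by nlinarith [a1.1, a1.2]
      rw [e, mul_pow]
      have h3 := hkey x
      have h4 : 0 ≤ G x * (1 - tau (G x / r)) ^ 2 := mul_nonneg (hG0 x) (sq_nonneg _)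
      nlinarith [mul_le_mul_of_nonneg_right h2 h4]
  -- dominated convergence
  have hint : Integrable (hh w) := by
    unfold hh
    refine integrable_finsetSum _ fun i _ => ?_
    have hm : MeasurableSet {x | w i x ≠ 0} :=
      (isOpen_ne_fun (hw i).cont continuous_const).measurableSet
    rw [integrable_indicator_iff hm]
    exact energy hD hb hK (hw i)
  have hηint : Integrable (gg η η) := C1c.int_gg hη hη
  have hms : ∀ r : ℝ, MeasurableSet {x | r ≤ G x ∧ G x ≤ 2 * r} := fun r =>
    ((isClosed_le continuous_const hGc).inter (isClosed_le hGc continuous_const)).measurableSet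
  have hr0 : ∀ m : ℕ, (0 : ℝ) < 1 / ((m : ℝ) + 1) := fun m => by positivity
  have hlim : Tendsto (fun m : ℕ => ∫ x, Set.indicator
      {x | 1 / ((m : ℝ) + 1) ≤ G x ∧ G x ≤ 2 * (1 / ((m : ℝ) + 1))} (hh w) x) atTop
      (𝓝 (∫ _, (0 : ℝ) ∂(volume : Measure E))) := by
    refine tendsto_integral_of_dominated_convergence (hh w) ?_ hint ?_ ?_
    · intro m
      exact (hint.indicator (hms _)).aestronglyMeasurable
    · intro m
      refine Eventually.of_forall fun x => ?_
      rw [Real.norm_eq_abs, abs_of_nonneg (Set.indicator_nonneg (fun _ _ => hh_nonneg w _) _)]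
      exact Set.indicator_le_self' (fun _ _ => hh_nonneg w _) _
    · refine Eventually.of_forall fun x => ?_
      refine tendsto_const_nhds.congr' ?_
      by_cases hx : G x = 0
      · refine Eventually.of_forall fun m => ?_
        refine Eq.symm (Set.indicator_of_notMem ?_ _)
        intro h
        have := h.1
        rw [hx] at this
        linarith [hr0 m]
      · have hx' : 0 < G x := lt_of_le_of_ne (hG0 x) (Ne.symm hx)
        have h2 : Tendsto (fun m : ℕ => 2 * (1 / ((m : ℝ) + 1))) atTop (𝓝 (2 * 0)) :=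
          tendsto_one_div_add_atTop_nhds_zero_nat.const_mul 2
        rw [mul_zero] at h2
        filter_upwards [h2.eventually_lt_const hx'] with m hm
        refine Eq.symm (Set.indicator_of_notMem ?_ _)
        intro h
        exact absurd h.2 (not_le.2 hm)
  have hlim2 : Tendsto (fun m : ℕ => 4 * (1 / ((m : ℝ) + 1)) * (∫ x, gg η η x) +
      32 * M ^ 2 * ∫ x, Set.indicator
      {x | 1 / ((m : ℝ) + 1) ≤ G x ∧ G x ≤ 2 * (1 / ((m : ℝ) + 1))} (hh w) x) atTop (𝓝 0) := by
    have a1 := ((tendsto_one_div_add_atTop_nhds_zero_nat (𝕜 := ℝ)).const_mul 4).mul_const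
      (∫ x, gg η η x)
    have a2 := hlim.const_mul (32 * M ^ 2)
    have a3 := a1.add a2
    simpa using a3
  have hlim3 : Tendsto (fun m : ℕ => 2 * (1 / ((m : ℝ) + 1))) atTop (𝓝 0) := by
    have := (tendsto_one_div_add_atTop_nhds_zero_nat (𝕜 := ℝ)).const_mul 2
    simpa using this
  obtain ⟨m, hm1, hm2⟩ := ((hlim2.eventually_lt_const hε).and
    (hlim3.eventually_lt_const hε)).exists
  obtain ⟨χ, hχ, q1, q2, q3, q4⟩ := hfam _ (hr0 m)
  refine ⟨χ, hχ, q1, q2, ?_, fun x => (q4 x).trans hm2.le⟩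
  have hI : Integrable (fun x => 4 * (1 / ((m : ℝ) + 1)) * gg η η x + 32 * M ^ 2 *
      Set.indicator {x | 1 / ((m : ℝ) + 1) ≤ G x ∧ G x ≤ 2 * (1 / ((m : ℝ) + 1))} (hh w) x) :=
    (hηint.const_mul _).add ((hint.indicator (hms _)).const_mul _)
  have hle : ∫ x, G x * gg χ χ x ≤ ∫ x, (4 * (1 / ((m : ℝ) + 1)) * gg η η x + 32 * M ^ 2 *
      Set.indicator {x | 1 / ((m : ℝ) + 1) ≤ G x ∧ G x ≤ 2 * (1 / ((m : ℝ) + 1))} (hh w) x) :=
    integral_mono_of_nonneg (Eventually.of_forall fun x => mul_nonneg (hG0 x) (gg_nonneg _ _))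
      hI (Eventually.of_forall q3)
  rw [integral_add (hηint.const_mul _) ((hint.indicator (hms _)).const_mul _),
    integral_const_mul, integral_const_mul] at hle
  exact hle.trans hm1.le

end Pool.Agent.H68.SC
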