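import Mathlib

/-!
# Schiffer / Pompeiu in three-space (MP_f4af34_an): definitions (helper68)

Comparison theorem by counting Dirichlet eigenvalues. Paper: `/team-store/h68_schiffer.md`.

`Sol D φ k c u`: the setting of the problem. `UU D k c U`: the properties of the extension
`U = u - c` by zero. `Eigf D K w`: `w` is a (weak) Dirichlet eigenfunction of `D` with eigenvalue
`K`. `AtLeast S Ω K m` / `AtMost S Ω K M`: at least `m` Dirichlet eigenvalues of `Ω` in the class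
`S` are `< K` / at most `M` are `≤ K`. `jl l`: spherical Bessel functions. `Harm`: an orthonormal
basis of spherical harmonics.
-/

set_option autoImplicit false

namespace Pool.Agent.H68.SC

open Filter Topology MeasureTheory Metric
open scoped ContDiff

noncomputable section

/-- Euclidean three-space -/
abbrev E := EuclideanSpace ℝ (Fin 3)

/-- the unit sphere -/
abbrev S2 := Metric.sphere (0 : E) 1

/-- the surface measure of the unit sphere -/
def sg : Measure S2 := (volume : Measure E).toSphere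

/-- the standard basis -/
abbrev ee (i : Fin 3) : E := EuclideanSpace.single i (1 : ℝ)

/-- partial derivatives -/
def pd (f : E → ℝ) (i : Fin 3) (x : E) : ℝ := fderiv ℝ f x (ee i)

/-- `∇ f · ∇ g` -/
def gg (f g : E → ℝ) (x : E) : ℝ := ∑ i, pd f i x * pd g i x

/-- the form `∫ ∇ f · ∇ g - K f g` -/
def BB (K : ℝ) (f g : E → ℝ) : ℝ := ∫ x, (gg f g x - K * (f x * g x))

/-- the cross product `b × x` -/
def crs (b x : E) : E :=
  !₂[b 1 * x 2 - b 2 * x 1, b 2 * x 0 - b 0 * x 2, b 0 * x 1 - b 1 * x 0]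

/-- the Killing field with parameters `p = (a, b)`: `a + b × x` -/
def kf (p : E × E) (x : E) : E := p.1 + crs p.2 x

/-- the derivative of `U` along the Killing field with parameters `p` -/
def ww (U : E → ℝ) (p : E × E) (x : E) : ℝ := fderiv ℝ U x (kf p x)

/-- the rotational derivatives -/
def LL (a : Fin 3) (f : E → ℝ) (x : E) : ℝ := fderiv ℝ f x (crs (ee a) x)

/-- The setting of the problem (as in `S06715`). -/
structure Sol (D : Set E) (φ : E → ℝ) (k c : ℝ) (u : E → ℝ) : Prop where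
  bdd : Bornology.IsBounded D
  conn : IsConnected D
  smooth : ContDiff ℝ 2 φ
  eqD : D = {x | φ x < 0}
  reg : ∀ x, φ x = 0 → fderiv ℝ φ x ≠ 0
  sph : Nonempty (frontier D ≃ₜ Metric.sphere (0 : E) 1)
  kpos : 0 < k
  cne : c ≠ 0
  u2 : ContDiffOn ℝ 2 u D
  helm : ∀ x ∈ D, (∑ i : Fin 3, fderiv ℝ (fderiv ℝ u) x (ee i) (ee i)) + k ^ 2 * u x = 0
  bd : ∀ x ∈ frontier D, Tendsto u (𝓝[D] x) (𝓝 c) ∧ Tendsto (fderiv ℝ u) (𝓝[D] x) (𝓝 0)

open Classical in
/-- `u - c` on `D`, extended by zero -/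
def extU (D : Set E) (c : ℝ) (u : E → ℝ) (x : E) : ℝ := if x ∈ D then u x - c else 0

/-- The properties of `U = u - c`, extended by zero. -/
structure UU (D : Set E) (k c : ℝ) (U : E → ℝ) : Prop where
  opn : IsOpen D
  bdd : Bornology.IsBounded D
  ne : D.Nonempty
  kpos : 0 < k
  cne : c ≠ 0
  C1 : ContDiff ℝ 1 U
  out : ∀ x, x ∉ D → U x = 0 ∧ fderiv ℝ U x = 0
  C2 : ContDiffOn ℝ 2 U D
  helm : ∀ x ∈ D, (∑ i : Fin 3, pd (pd U i) i x) + k ^ 2 * (U x + c) = 0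

/-- `C¹` functions with compact support in `Ω` -/
def C1c (Ω : Set E) : Submodule ℝ (E → ℝ) where
  carrier := {f | ContDiff ℝ 1 f ∧ HasCompactSupport f ∧ tsupport f ⊆ Ω}
  add_mem' := by
    rintro f g ⟨h1, h2, h3⟩ ⟨h4, h5, h6⟩
    refine ⟨h1.add h4, h2.add h5, ?_⟩
    exact (tsupport_add f g).trans (Set.union_subset h3 h6)
  zero_mem' := by
    refine ⟨contDiff_const, HasCompactSupport.zero, ?_⟩
    have : tsupport (0 : E → ℝ) = ∅ := by rw [tsupport_eq_empty_iff]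
    rw [this]; exact Set.empty_subset _
  smul_mem' := by
    rintro a f ⟨h1, h2, h3⟩
    refine ⟨contDiff_const.smul h1, ?_, ?_⟩
    · exact h2.smul_left (f := fun _ => a)
    · exact (closure_mono (Function.support_const_smul_subset a f)).trans h3

/-- functions invariant under `x ↦ s x` (for `s = 1`: all functions, for `s = -1`: even ones) -/
def Sy (s : ℝ) : Submodule ℝ (E → ℝ) where
  carrier := {f | ∀ x, f (s • x) = f x}
  add_mem' := by
    intro f g hf hg x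
    change f (s • x) + g (s • x) = f x + g x
    rw [hf x, hg x]
  zero_mem' := fun _ => rfl
  smul_mem' := by
    intro a f hf x
    change a * f (s • x) = a * f x
    rw [hf x]

/-- A weak Dirichlet eigenfunction of `D` with eigenvalue `K`. -/
structure Eigf (D : Set E) (K : ℝ) (w : E → ℝ) : Prop where
  cont : Continuous w
  out : ∀ x, x ∉ D → w x = 0
  C1 : ContDiffOn ℝ 1 w D
  weak : ∀ ψ ∈ C1c D, ∫ x, (gg w ψ x - K * (w x * ψ x)) = 0

/-- At least `m` Dirichlet eigenvalues of `Ω` (for functions in the class `S`) are smaller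
than `K`. -/
def AtLeast (S : Submodule ℝ (E → ℝ)) (Ω : Set E) (K : ℝ) (m : ℕ) : Prop :=
  ∃ F : Submodule ℝ (E → ℝ), F ≤ C1c Ω ⊓ S ∧ Module.Finite ℝ F ∧ m ≤ Module.finrank ℝ F ∧
    ∀ f ∈ F, f ≠ 0 → ∫ x, ‖fderiv ℝ f x‖ ^ 2 < K * ∫ x, f x ^ 2

/-- At most `M` Dirichlet eigenvalues of `Ω` (for functions in the class `S`) are at most `K`
(that is, smaller than `K + ε` for some `ε > 0`). -/
def AtMost (S : Submodule ℝ (E → ℝ)) (Ω : Set E) (K : ℝ) (M : ℕ) : Prop :=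
  ∃ ε : ℝ, 0 < ε ∧ ∀ F : Submodule ℝ (E → ℝ), F ≤ C1c Ω ⊓ S → Module.Finite ℝ F →
    (∀ f ∈ F, ∫ x, ‖fderiv ℝ f x‖ ^ 2 ≤ (K + ε) * ∫ x, f x ^ 2) → Module.finrank ℝ F ≤ M

/-- The spherical Bessel functions (for `t > 0`). -/
def jl : ℕ → ℝ → ℝ
  | 0, t => Real.sin t / t
  | 1, t => Real.sin t / t ^ 2 - Real.cos t / t
  | (l + 2), t => (2 * (l : ℝ) + 3) / t * jl (l + 1) t - jl l t

/-- the zeros of `jl l` in `(0, T]` -/
def Zc (l : ℕ) (T : ℝ) : Set ℝ := {t | 0 < t ∧ t ≤ T ∧ jl l t = 0}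

/-- the zeros of `jl l` in `(0, T)` -/
def Zo (l : ℕ) (T : ℝ) : Set ℝ := {t | 0 < t ∧ t < T ∧ jl l t = 0}

/-- An orthonormal basis of spherical harmonics: `Y l i`, `i < d l`, is the restriction to the
unit sphere of an eigenfunction of `∑ L_a²` with eigenvalue `-l (l + 1)`. -/
structure Harm where
  d : ℕ → ℕ
  Y : (l : ℕ) → Fin (d l) → E → ℝ
  smooth : ∀ l i, ContDiff ℝ ∞ (Y l i)
  eig : ∀ l i (y : E), ‖y‖ = 1 → ∑ a, LL a (LL a (Y l i)) y = -((l : ℝ) * (l + 1)) * Y l i y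
  orth : ∀ (p q : (l : ℕ) × Fin (d l)), ∫ y : S2, Y p.1 p.2 y * Y q.1 q.2 y ∂sg =
    if p = q then 1 else 0
  complete : ∀ f : E → ℝ, Continuous f → ∀ ε : ℝ, 0 < ε → ∃ (N : ℕ) (a : (l : ℕ) → Fin (d l) → ℝ),
    ∀ y : S2, |f y - ∑ l ∈ Finset.range N, ∑ i, a l i * Y l i y| < ε
  parity : ∀ l i (y : E), ‖y‖ = 1 → Y l i (-y) = (-1) ^ l * Y l i y
  d0 : d 0 = 1
  d1 : d 1 = 3

/-- the moments of `g` on the sphere of radius `r` -/
def mom (H : Harm) (g : E → ℝ) (l : ℕ) (i : Fin (H.d l)) (r : ℝ) : ℝ :=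
  ∫ y : S2, g (r • (y : E)) * H.Y l i y ∂sg

/-- the moments of the radial derivative of `g` on the sphere of radius `r` -/
def dmom (H : Harm) (g : E → ℝ) (l : ℕ) (i : Fin (H.d l)) (r : ℝ) : ℝ :=
  ∫ y : S2, fderiv ℝ g (r • (y : E)) (y : E) * H.Y l i y ∂sg

/-- the one-dimensional form -/
def qf (l : ℕ) (K : ℝ) (R : ℝ) (f f' : ℝ → ℝ) : ℝ :=
  ∫ r in (0 : ℝ)..R, (r ^ 2 * f' r ^ 2 + ((l : ℝ) * (l + 1) - K * r ^ 2) * f r ^ 2)

/-- the test functions `ζ(|x|) Y(x / |x|)` -/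
def TT (ζ : ℝ → ℝ) (Y : E → ℝ) (x : E) : ℝ := ζ ‖x‖ * Y (‖x‖⁻¹ • x)

end

end Pool.Agent.H68.SC
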