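import Pool.Agent.H68.SC.Basic

/-!
# Module WeakB (about 130 lines): from `C²` to `C¹` test functions

PROOF. Mollification. Let `ψ ∈ C1c D` and `δ > 0` with `cthickening δ (tsupport ψ) ⊆ D`
(`IsCompact.exists_cthickening_subset_open`), `K₁` this compact set. For `n` large let
`ψ_n = (ρ_n).normed volume ⋆ ψ` with `ContDiffBump` `ρ_n` of outer radius `δ/(n+1)`. Then `ψ_n` is
smooth with support in `K₁`, `ψ_n → ψ` and `∂_i ψ_n = ρ_n ⋆ ∂_i ψ → ∂_i ψ` uniformly
(`HasCompactSupport.hasFDerivAt_convolution_right` or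
`HasCompactSupport.contDiff_convolution_right`, `ContDiffBump.dist_normed_convolution_le` and the
uniform continuity of `ψ`, `∂_i ψ`). `w` and `∂_i w` are continuous on `K₁`, so bounded there, and
`∫ (gg w ψ_n - K w ψ_n) → ∫ (gg w ψ - K w ψ)` (integrals over `K₁`, uniform convergence).
-/

set_option autoImplicit false

namespace Pool.Agent.H68.SC

open Filter Topology MeasureTheory Metric
open scoped ContDiff

private theorem wb_unif {f : E → ℝ} (hf : Continuous f) (hc : HasCompactSupport f) {ε : ℝ}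
    (hε : 0 < ε) : ∃ η > 0, ∀ x y : E, dist x y < η → dist (f x) (f y) ≤ ε := by
  have h := HasCompactSupport.uniformContinuous_of_continuous hc hf
  obtain ⟨η, hη, h⟩ := Metric.uniformContinuous_iff.1 h ε hε
  exact ⟨η, hη, fun x y hxy => (h hxy).le⟩

/-- the approximation -/
private theorem wb_approx {D : Set E} {ψ : E → ℝ} (hψ : ψ ∈ C1c D) {δ ε : ℝ} (hδ : 0 < δ)
    (hε : 0 < ε) : ∃ χ : E → ℝ, ContDiff ℝ 2 χ ∧ HasCompactSupport χ ∧
      tsupport χ ⊆ cthickening δ (tsupport ψ) ∧ (∀ x, |χ x - ψ x| ≤ ε) ∧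
      ∀ i x, |pd χ i x - pd ψ i x| ≤ ε := by
  have hc := C1c.cont hψ
  have hs := C1c.compact hψ
  have h1 := C1c.contDiff hψ
  obtain ⟨η0, hη0, hu0⟩ := wb_unif hc hs hε
  have hall : ∀ i : Fin 3, ∃ η > 0, ∀ x y : E, dist x y < η → dist (pd ψ i x) (pd ψ i y) ≤ ε :=
    fun i => wb_unif (continuous_pd h1 i) (hasCompactSupport_pd hs i) hε
  choose η hη hu using hall
  obtain ⟨r, hr, hr0, hrη, hrδ⟩ : ∃ r > 0, r ≤ η0 ∧ (∀ i, r ≤ η i) ∧ r ≤ δ := by
    refine ⟨min (min η0 δ) (min (η 0) (min (η 1) (η 2))), ?_, ?_, ?_, ?_⟩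
    · exact lt_min (lt_min hη0 hδ) (lt_min (hη 0) (lt_min (hη 1) (hη 2)))
    · exact (min_le_left _ _).trans (min_le_left _ _)
    · intro i
      refine (min_le_right _ _).trans ?_
      fin_cases i
      · exact min_le_left _ _
      · exact (min_le_right _ _).trans (min_le_left _ _)
      · exact (min_le_right _ _).trans (min_le_right _ _)
    · exact (min_le_left _ _).trans (min_le_right _ _)
  let ρ : ContDiffBump (0 : E) := ⟨r / 2, r, by linarith, by linarith⟩
  have hρ : ρ.rOut = r := rfl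
  have hli : LocallyIntegrable (ρ.normed volume) volume :=
    (ρ.continuous_normed).locallyIntegrable
  set χ : E → ℝ := convolution (ρ.normed volume) ψ (ContinuousLinearMap.lsmul ℝ ℝ) volume with hχ
  have hsub : tsupport χ ⊆ cthickening δ (tsupport ψ) := by
    refine closure_minimal ?_ isClosed_cthickening
    intro x hx
    obtain ⟨a, ha, b, hb, hab⟩ := support_convolution_subset _ hx
    rw [ρ.support_normed_eq, hρ] at ha
    refine mem_cthickening_of_dist_le x b δ _ (subset_tsupport ψ hb) ?_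
    rw [← hab, dist_eq_norm]
    have : ‖a‖ < r := by simpa using ha
    simp only [add_sub_cancel_right]
    linarith
  have hpd : ∀ i x, pd χ i x
      = convolution (ρ.normed volume) (pd ψ i) (ContinuousLinearMap.lsmul ℝ ℝ) volume x := by
    intro i x
    have h := HasCompactSupport.hasFDerivAt_convolution_right
      (ContinuousLinearMap.lsmul ℝ ℝ : ℝ →L[ℝ] ℝ →L[ℝ] ℝ) hs hli h1 x
    unfold pd
    rw [h.fderiv]
    have h2 := convolution_precompR_apply (L := (ContinuousLinearMap.lsmul ℝ ℝ : ℝ →L[ℝ] ℝ →L[ℝ] ℝ))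
      hli (hs.fderiv (𝕜 := ℝ)) (h1.continuous_fderiv one_ne_zero) x (ee i)
    exact h2
  refine ⟨χ, ?_, ?_, hsub, ?_, ?_⟩
  · exact HasCompactSupport.contDiff_convolution_left _ (n := 2) ρ.hasCompactSupport_normed
      ρ.contDiff_normed (hc.locallyIntegrable)
  · exact HasCompactSupport.convolution _ ρ.hasCompactSupport_normed hs
  · intro x
    rw [← Real.dist_eq]
    refine ContDiffBump.dist_normed_convolution_le hc.aestronglyMeasurable ?_
    intro y hy
    exact hu0 y x (lt_of_lt_of_le (by simpa [hρ] using hy) hr0)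
  · intro i x
    rw [← Real.dist_eq, hpd]
    refine ContDiffBump.dist_normed_convolution_le (continuous_pd h1 i).aestronglyMeasurable ?_
    intro y hy
    exact hu i y x (lt_of_lt_of_le (by simpa [hρ] using hy) (hrη i))

/-- integrability of the integrand -/
private theorem wb_int {D : Set E} (hD : IsOpen D) {K : ℝ} {w : E → ℝ} (hw : Continuous w)
    (h1 : ContDiffOn ℝ 1 w D) {χ : E → ℝ} (h2 : ContDiff ℝ 1 χ) (h3 : HasCompactSupport χ)
    (h4 : tsupport χ ⊆ D) : Integrable (fun x => gg w χ x - K * (w x * χ x)) := by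
  have hpc : ∀ i, ContinuousOn (pd w i) D := fun i =>
    (h1.continuousOn_fderiv_of_isOpen hD le_rfl).clm_apply continuousOn_const
  refine integrable_cc ?_ ?_
  · rw [continuous_iff_continuousAt]
    intro x
    by_cases hx : x ∈ tsupport χ
    · refine ContinuousAt.sub ?_ ?_
      · unfold gg
        refine tendsto_finsetSum _ fun i _ => ?_
        exact ((hpc i).continuousAt (hD.mem_nhds (h4 hx))).mul (continuous_pd h2 i).continuousAt
      · exact (continuous_const.mul (hw.mul h2.continuous)).continuousAt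
    · have h0 : (fun y => gg w χ y - K * (w y * χ y)) =ᶠ[𝓝 x] fun _ => 0 := by
        have : (tsupport χ)ᶜ ∈ 𝓝 x := (isClosed_tsupport χ).isOpen_compl.mem_nhds hx
        filter_upwards [this] with y hy
        have e1 : χ y = 0 := image_eq_zero_of_notMem_tsupport hy
        have e2 : gg w χ y = 0 := Finset.sum_eq_zero fun i _ => by rw [pd_zero_of hy i, mul_zero]
        rw [e1, e2]; ring
      rw [continuousAt_congr h0]
      exact continuousAt_const
  · refine HasCompactSupport.intro h3 fun x hx => ?_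
    have e1 : χ x = 0 := image_eq_zero_of_notMem_tsupport hx
    have e2 : gg w χ x = 0 := Finset.sum_eq_zero fun i _ => by rw [pd_zero_of hx i, mul_zero]
    rw [e1, e2]; ring

theorem weakB {D : Set E} (hD : IsOpen D) {K : ℝ} {w : E → ℝ} (hw : Continuous w)
    (h1 : ContDiffOn ℝ 1 w D)
    (h2 : ∀ ψ : E → ℝ, ContDiff ℝ 2 ψ → HasCompactSupport ψ → tsupport ψ ⊆ D →
      ∫ x, (gg w ψ x - K * (w x * ψ x)) = 0)
    {ψ : E → ℝ} (hψ : ψ ∈ C1c D) : ∫ x, (gg w ψ x - K * (w x * ψ x)) = 0 := by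
  obtain ⟨δ, hδ, hsub⟩ := (C1c.compact hψ).exists_cthickening_subset_open hD (C1c.sub hψ)
  set K₁ := cthickening δ (tsupport ψ) with hK
  have hKc : IsCompact K₁ := IsCompact.cthickening (C1c.compact hψ)
  have hpc : ∀ i, ContinuousOn (pd w i) K₁ := fun i =>
    ((h1.continuousOn_fderiv_of_isOpen hD le_rfl).clm_apply continuousOn_const).mono hsub
  obtain ⟨M0, hM0⟩ := hKc.exists_bound_of_continuousOn hw.continuousOn
  have hM : ∀ i, ∃ M, ∀ x ∈ K₁, ‖pd w i x‖ ≤ M := fun i => hKc.exists_bound_of_continuousOn (hpc i)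
  choose M hM using hM
  set C := |M 0| + |M 1| + |M 2| + |K| * |M0| with hC
  have hC0 : 0 ≤ C := by positivity
  have hself : tsupport ψ ⊆ K₁ := self_subset_cthickening _
  have key : ∀ ε > 0, |∫ x, (gg w ψ x - K * (w x * ψ x))| ≤ (C * ε) * (volume K₁).toReal := by
    intro ε hε
    obtain ⟨χ, hχ1, hχ2, hχ3, hχ4, hχ5⟩ := wb_approx hψ hδ hε
    have hz := h2 χ hχ1 hχ2 (hχ3.trans hsub)
    have hχ1' : ContDiff ℝ 1 χ := hχ1.of_le (by norm_num)
    have i1 := wb_int hD (K := K) hw h1 (C1c.contDiff hψ) (C1c.compact hψ) (C1c.sub hψ)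
    have i2 := wb_int hD (K := K) hw h1 hχ1' hχ2 (hχ3.trans hsub)
    have e1 : ∫ x, (gg w ψ x - K * (w x * ψ x))
        = ∫ x, ((gg w ψ x - K * (w x * ψ x)) - (gg w χ x - K * (w x * χ x))) := by
      rw [integral_sub i1 i2, hz, sub_zero]
    have hv : ∀ f : E → ℝ, (tsupport f ⊆ K₁) → ∀ x ∉ K₁, gg w f x - K * (w x * f x) = 0 := by
      intro f hf x hx
      have hx' : x ∉ tsupport f := fun h => hx (hf h)
      have e1 : f x = 0 := image_eq_zero_of_notMem_tsupport hx'
      have e2 : gg w f x = 0 := Finset.sum_eq_zero fun i _ => by rw [pd_zero_of hx' i, mul_zero]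
      rw [e1, e2]; ring
    have e2 : ∫ x, ((gg w ψ x - K * (w x * ψ x)) - (gg w χ x - K * (w x * χ x)))
        = ∫ x in K₁, ((gg w ψ x - K * (w x * ψ x)) - (gg w χ x - K * (w x * χ x))) := by
      rw [setIntegral_eq_integral_of_forall_compl_eq_zero]
      intro x hx
      rw [hv ψ hself x hx, hv χ hχ3 x hx, sub_zero]
    rw [e1, e2, ← Real.norm_eq_abs]
    refine norm_setIntegral_le_of_norm_le_const hKc.measure_lt_top ?_
    intro x hx
    have e3 : (gg w ψ x - K * (w x * ψ x)) - (gg w χ x - K * (w x * χ x))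
        = - (pd w 0 x * (pd χ 0 x - pd ψ 0 x) + pd w 1 x * (pd χ 1 x - pd ψ 1 x)
          + pd w 2 x * (pd χ 2 x - pd ψ 2 x)) + K * (w x * (χ x - ψ x)) := by
      simp only [gg, Fin.sum_univ_three]; ring
    have b0 : ∀ i, |pd w i x * (pd χ i x - pd ψ i x)| ≤ |M i| * ε := by
      intro i
      rw [abs_mul]
      exact mul_le_mul ((hM i x hx).trans (le_abs_self _)) (hχ5 i x) (abs_nonneg _) (abs_nonneg _)
    have b1 : |K * (w x * (χ x - ψ x))| ≤ |K| * |M0| * ε := by
      rw [abs_mul, abs_mul, mul_assoc]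
      refine mul_le_mul_of_nonneg_left ?_ (abs_nonneg _)
      exact mul_le_mul ((hM0 x hx).trans (le_abs_self _)) (hχ4 x) (abs_nonneg _) (abs_nonneg _)
    rw [Real.norm_eq_abs, e3]
    have t1 := b0 0
    have t2 := b0 1
    have t3 := b0 2
    rw [abs_le] at t1 t2 t3 b1 ⊢
    constructor <;> rw [hC] <;> nlinarith [t1.1, t1.2, t2.1, t2.2, t3.1, t3.2, b1.1, b1.2]
  have hfin : |∫ x, (gg w ψ x - K * (w x * ψ x))| ≤ 0 := by
    refine le_of_forall_pos_le_add fun ε hε => ?_
    have hV : 0 ≤ (volume K₁).toReal := ENNReal.toReal_nonneg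
    have hden : 0 < C * (volume K₁).toReal + 1 := by positivity
    have h := key (ε / (C * (volume K₁).toReal + 1)) (by positivity)
    refine h.trans ?_
    rw [zero_add]
    have : C * (ε / (C * (volume K₁).toReal + 1)) * (volume K₁).toReal
        = (C * (volume K₁).toReal) / (C * (volume K₁).toReal + 1) * ε := by ring
    rw [this]
    have h3 : (C * (volume K₁).toReal) / (C * (volume K₁).toReal + 1) ≤ 1 := by
      rw [div_le_one hden]; linarith
    nlinarith
  exact abs_eq_zero.1 (le_antisymm hfin (abs_nonneg _))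

end Pool.Agent.H68.SC
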