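import Pool.Agent.H68.SC.WeakA
import Pool.Agent.H68.SC.WeakB

/-!
# Killing derivatives are weak eigenfunctions (proved from the modules)
-/

set_option autoImplicit false

namespace Pool.Agent.H68.SC

open Filter Topology MeasureTheory Metric
open scoped ContDiff

theorem ww_eigf {D : Set E} {k c : ℝ} {U : E → ℝ} (h : UU D k c U) (p : E × E) :
    Eigf D (k ^ 2) (ww U p) where
  cont := ww_cont h p
  out := ww_out h p
  C1 := ww_C1 h p
  weak := fun _ hψ => weakB h.opn (ww_cont h p) (ww_C1 h p)
    (fun _ h1 h2 h3 => weakA h p h1 h2 h3) hψ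

end Pool.Agent.H68.SC
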