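import Pool.Agent.H68.SC.Basic

/-!
# Module Energy (about 150 lines): eigenfunctions have finite energy

PROOF. Let `τ s = Real.smoothTransition (s - 1)`: smooth, `0 ≤ τ ≤ 1`, monotone, `τ = 0` for
`s ≤ 1`, `τ = 1` for `s ≥ 2`. For `δ > 0` let `T s = s τ (s² / δ²)`, smooth,
`T' s = τ (s² / δ²) + 2 (s² / δ²) τ' (s² / δ²) ≥ τ (s² / δ²)` (`τ' ≥ 0` by monotonicity).
`ψ = T ∘ w ∈ C1c D`: the set `{|w| ≥ δ}` is closed (`w` continuous), contained in `D` (`out`), bounded,
so compact, and `ψ` vanishes outside it; near points outside `D`, `|w| < δ`, `ψ = 0`.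
`weak`: `∫ T' (w) gg w w = K ∫ w T (w) ≤ K ∫ w²` (`gg w ψ = T' (w) gg w w` on `D`). So
`∫ τ (w² / δ²) gg w w ≤ K ∫ w²` for every `δ > 0`. With `δ = 1 / (n+1)` and `τ (w² / δ²) → 1` where
`w ≠ 0` Fatou (`lintegral_liminf_le`) gives `∫⁻_{w ≠ 0} gg w w ≤ K ∫ w² < ∞` (`w` is continuous with
compact support in `closure D`). Measurability: `gg w w` is continuous on the open set `D`, and
`{w ≠ 0} ⊆ D` is open.
-/

set_option autoImplicit false

namespace Pool.Agent.H68.SC

open Filter Topology MeasureTheory Metric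
open scoped ContDiff

/-- the cutoff profile, `0` for `s ≤ 1` and `1` for `s ≥ 2` -/
private noncomputable def tau (s : ℝ) : ℝ := Real.smoothTransition (s - 1)

private theorem tau_smooth : ContDiff ℝ ∞ tau :=
  Real.smoothTransition.contDiff.comp (contDiff_id.sub contDiff_const)

private theorem tau_nonneg (s : ℝ) : 0 ≤ tau s := Real.smoothTransition.nonneg _

private theorem tau_le_one (s : ℝ) : tau s ≤ 1 := Real.smoothTransition.le_one _

private theorem tau_zero {s : ℝ} (h : s ≤ 1) : tau s = 0 :=
  Real.smoothTransition.zero_of_nonpos (by linarith)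

private theorem tau_one {s : ℝ} (h : 2 ≤ s) : tau s = 1 :=
  Real.smoothTransition.one_of_one_le (by linarith)

private theorem tau_mono : Monotone tau := fun a b h =>
  Real.smoothTransition.monotone (by linarith)

/-- the truncation with parameter `m = 1 / δ²` -/
private noncomputable def TTr (m s : ℝ) : ℝ := s * tau (m * s ^ 2)

private noncomputable def TTr' (m s : ℝ) : ℝ :=
  tau (m * s ^ 2) + s * (deriv tau (m * s ^ 2) * (m * (2 * s)))

private theorem TTr_hasDeriv (m s : ℝ) : HasDerivAt (TTr m) (TTr' m s) s := by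
  have h1 : HasDerivAt (fun s : ℝ => m * s ^ 2) (m * (2 * s)) s := by
    have := (hasDerivAt_pow 2 s).const_mul m
    simpa using this
  have h2 : HasDerivAt tau (deriv tau (m * s ^ 2)) (m * s ^ 2) :=
    (tau_smooth.differentiable (by simp) _).hasDerivAt
  have h3 : HasDerivAt (tau ∘ fun s : ℝ => m * s ^ 2) (deriv tau (m * s ^ 2) * (m * (2 * s))) s :=
    h2.comp s h1
  have h4 := (hasDerivAt_id s).mul h3
  have e : TTr' m s = 1 * tau (m * s ^ 2) + s * (deriv tau (m * s ^ 2) * (m * (2 * s))) := by
    unfold TTr'; ring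
  rw [e]
  exact h4

private theorem TTr_smooth (m : ℝ) : ContDiff ℝ ∞ (TTr m) := by
  unfold TTr
  exact contDiff_id.mul (tau_smooth.comp (contDiff_const.mul (contDiff_id.pow 2)))

private theorem TTr'_ge {m : ℝ} (hm : 0 ≤ m) (s : ℝ) : tau (m * s ^ 2) ≤ TTr' m s := by
  have h1 : 0 ≤ deriv tau (m * s ^ 2) := tau_mono.deriv_nonneg
  unfold TTr'
  have : s * (deriv tau (m * s ^ 2) * (m * (2 * s))) = 2 * (deriv tau (m * s ^ 2) * (m * s ^ 2)) := by
    ring
  rw [this]
  have h2 : 0 ≤ deriv tau (m * s ^ 2) * (m * s ^ 2) := mul_nonneg h1 (mul_nonneg hm (sq_nonneg _))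
  linarith

private theorem cont_mul {D : Set E} (hD : IsOpen D) {A B : E → ℝ} (hA : ContinuousOn A D)
    (hB : Continuous B) (hs : tsupport B ⊆ D) : Continuous (fun x => A x * B x) := by
  rw [continuous_iff_continuousAt]
  intro x
  by_cases hx : x ∈ tsupport B
  · exact (hA.continuousAt (hD.mem_nhds (hs hx))).mul hB.continuousAt
  · have h0 : (fun y => A y * B y) =ᶠ[𝓝 x] fun _ => 0 := by
      have : (tsupport B)ᶜ ∈ 𝓝 x := (isClosed_tsupport B).isOpen_compl.mem_nhds hx
      filter_upwards [this] with y hy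
      have : B y = 0 := by
        by_contra hne
        exact hy (subset_tsupport B hne)
      rw [this, mul_zero]
    rw [continuousAt_congr h0]
    exact continuousAt_const

private theorem psi_mem {D : Set E} (hD : IsOpen D) (hb : Bornology.IsBounded D) {K : ℝ}
    {w : E → ℝ} (h : Eigf D K w) (m : ℝ) : (fun x => TTr m (w x)) ∈ C1c D := by
  have hzero : ∀ x, m * w x ^ 2 ≤ 1 → TTr m (w x) = 0 := fun x hx => by
    unfold TTr
    rw [tau_zero hx, mul_zero]
  have hcl : IsClosed {x | 1 ≤ m * w x ^ 2} :=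
    isClosed_le continuous_const (continuous_const.mul (h.cont.pow 2))
  have hsub : {x | 1 ≤ m * w x ^ 2} ⊆ D := by
    intro x hx
    by_contra hne
    have h0 := h.out x hne
    have h1 : 1 ≤ m * w x ^ 2 := hx
    rw [h0] at h1
    norm_num at h1
  have hts : tsupport (fun x => TTr m (w x)) ⊆ {x | 1 ≤ m * w x ^ 2} := by
    refine closure_minimal ?_ hcl
    intro x hx
    by_contra hne
    exact hx (hzero x (le_of_lt (not_le.1 hne)))
  refine ⟨?_, ?_, hts.trans hsub⟩
  · rw [contDiff_iff_contDiffAt]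
    intro x
    by_cases hx : x ∈ D
    · exact ((TTr_smooth m).of_le (by exact_mod_cast le_top)).contDiffAt.comp x
        ((h.C1 x hx).contDiffAt (hD.mem_nhds hx))
    · have h0 : (fun y => TTr m (w y)) =ᶠ[𝓝 x] fun _ => 0 := by
        have hopen : IsOpen {y | m * w y ^ 2 < 1} :=
          isOpen_lt (continuous_const.mul (h.cont.pow 2)) continuous_const
        have hmem : x ∈ {y | m * w y ^ 2 < 1} := by
          change m * w x ^ 2 < 1
          rw [h.out x hx]; norm_num
        filter_upwards [hopen.mem_nhds hmem] with y hy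
        exact hzero y (le_of_lt hy)
      exact contDiffAt_const.congr_of_eventuallyEq h0
  · have hbd : Bornology.IsBounded {x | 1 ≤ m * w x ^ 2} := hb.subset hsub
    exact (isCompact_of_isClosed_isBounded hcl hbd).of_isClosed_subset (isClosed_tsupport _) hts

private theorem meas_gg (w : E → ℝ) : Measurable (gg w w) := by
  unfold gg
  refine Finset.measurable_sum _ fun i _ => ?_
  exact (measurable_fderiv_apply_const ℝ w (ee i)).mul (measurable_fderiv_apply_const ℝ w (ee i))

private theorem eig_cs {D : Set E} (hb : Bornology.IsBounded D) {K : ℝ}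
    {w : E → ℝ} (h : Eigf D K w) : HasCompactSupport w := by
  refine HasCompactSupport.intro (K := closure D) hb.isCompact_closure fun x hx => ?_
  exact h.out x fun hx' => hx (subset_closure hx')

private theorem bound {D : Set E} (hD : IsOpen D) (hb : Bornology.IsBounded D) {K : ℝ} (hK : 0 < K)
    {w : E → ℝ} (h : Eigf D K w) {m : ℝ} (hm : 0 < m) :
    ∫⁻ x, ENNReal.ofReal (tau (m * w x ^ 2) * gg w w x) ≤ ENNReal.ofReal (K * ∫ x, w x ^ 2) := by
  have hψ := psi_mem hD hb h m
  set ψ : E → ℝ := fun x => TTr m (w x) with hψd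
  have hgw : ∀ x, gg w ψ x = TTr' m (w x) * gg w w x := by
    intro x
    by_cases hx : x ∈ D
    · have hw : DifferentiableAt ℝ w x :=
        ((h.C1 x hx).contDiffAt (hD.mem_nhds hx)).differentiableAt one_ne_zero
      have h1 : HasFDerivAt ψ (TTr' m (w x) • fderiv ℝ w x) x :=
        (TTr_hasDeriv m (w x)).comp_hasFDerivAt x hw.hasFDerivAt
      have h2 : ∀ i, pd ψ i x = TTr' m (w x) * pd w i x := by
        intro i
        unfold pd
        rw [h1.fderiv]
        rfl
      unfold gg
      rw [Finset.mul_sum]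
      refine Finset.sum_congr rfl fun i _ => ?_
      rw [h2 i]; ring
    · have h1 : x ∉ tsupport ψ := fun hh => hx (C1c.sub hψ hh)
      have h2 : gg w ψ x = 0 := by
        unfold gg
        refine Finset.sum_eq_zero fun i _ => ?_
        rw [pd_zero_of h1, mul_zero]
      have h3 : TTr' m (w x) = 0 := by
        rw [h.out x hx]
        unfold TTr'
        rw [tau_zero (by norm_num)]
        ring
      rw [h2, h3, zero_mul]
  have hci : Continuous (gg w ψ) := by
    refine continuous_finsetSum _ fun i _ => ?_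
    refine cont_mul hD ?_ (continuous_pd (C1c.contDiff hψ) i) ?_
    · exact (h.C1.continuousOn_fderiv_of_isOpen hD le_rfl).clm_apply continuousOn_const
    · refine (closure_minimal ?_ (isClosed_tsupport ψ)).trans (C1c.sub hψ)
      intro x hx
      by_contra hne
      exact hx (pd_zero_of hne i)
  have hcs : HasCompactSupport (gg w ψ) := by
    refine HasCompactSupport.intro (C1c.compact hψ) fun x hx => ?_
    unfold gg
    refine Finset.sum_eq_zero fun i _ => ?_
    rw [pd_zero_of hx, mul_zero]
  have hig : Integrable (gg w ψ) := integrable_cc hci hcs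
  have hwc := eig_cs hb h
  have hiw : Integrable (fun x => w x * ψ x) :=
    integrable_cc (h.cont.mul (C1c.cont hψ)) (HasCompactSupport.mul_right hwc)
  have hi2 : Integrable (fun x => w x ^ 2) := by
    have : (fun x => w x ^ 2) = fun x => w x * w x := by funext x; ring
    rw [this]
    exact integrable_cc (h.cont.mul h.cont) (HasCompactSupport.mul_right hwc)
  have hweak := h.weak ψ hψ
  rw [integral_sub hig (hiw.const_mul K), integral_const_mul] at hweak
  have hle : ∫ x, w x * ψ x ≤ ∫ x, w x ^ 2 := by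
    refine integral_mono hiw hi2 fun x => ?_
    have h1 := tau_le_one (m * w x ^ 2)
    have h2 : w x * ψ x = w x ^ 2 * tau (m * w x ^ 2) := by
      simp only [hψd, TTr]; ring
    simp only
    rw [h2]
    nlinarith [sq_nonneg (w x)]
  have hnn : ∀ x, 0 ≤ gg w ψ x := fun x => by
    rw [hgw x]
    exact mul_nonneg ((tau_nonneg _).trans (TTr'_ge hm.le _)) (gg_nonneg w x)
  calc ∫⁻ x, ENNReal.ofReal (tau (m * w x ^ 2) * gg w w x)
      ≤ ∫⁻ x, ENNReal.ofReal (gg w ψ x) := by
        refine lintegral_mono fun x => ENNReal.ofReal_le_ofReal ?_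
        rw [hgw x]
        exact mul_le_mul_of_nonneg_right (TTr'_ge hm.le _) (gg_nonneg w x)
    _ = ENNReal.ofReal (∫ x, gg w ψ x) :=
        (ofReal_integral_eq_lintegral_ofReal hig (Eventually.of_forall hnn)).symm
    _ ≤ ENNReal.ofReal (K * ∫ x, w x ^ 2) := by
        refine ENNReal.ofReal_le_ofReal ?_
        have := mul_le_mul_of_nonneg_left hle hK.le
        linarith

theorem energy {D : Set E} (hD : IsOpen D) (hb : Bornology.IsBounded D) {K : ℝ} (hK : 0 < K)
    {w : E → ℝ} (h : Eigf D K w) : IntegrableOn (gg w w) {x | w x ≠ 0} := by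
  refine ⟨(meas_gg w).aestronglyMeasurable, ?_⟩
  rw [hasFiniteIntegral_iff_ofReal (Eventually.of_forall fun x => gg_nonneg w x)]
  set f : ℕ → E → ENNReal := fun n x =>
    ENNReal.ofReal (tau (((n : ℝ) + 1) * w x ^ 2) * gg w w x) with hf
  have hfm : ∀ n, Measurable (f n) := by
    intro n
    refine ENNReal.measurable_ofReal.comp (Measurable.mul ?_ (meas_gg w))
    exact (tau_smooth.continuous.comp (continuous_const.mul (h.cont.pow 2))).measurable
  have hbd : ∀ n, ∫⁻ x in {x | w x ≠ 0}, f n x ≤ ENNReal.ofReal (K * ∫ x, w x ^ 2) := fun n =>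
    (setLIntegral_le_lintegral _ _).trans (bound hD hb hK h (by positivity))
  have hS : MeasurableSet {x | w x ≠ 0} := by
    have : IsOpen {x | w x ≠ 0} := isOpen_ne_fun h.cont continuous_const
    exact this.measurableSet
  have hlim : ∀ x ∈ {x | w x ≠ 0}, ENNReal.ofReal (gg w w x) = liminf (fun n => f n x) atTop := by
    intro x hx
    have hx' : w x ≠ 0 := hx
    have hpos : 0 < w x ^ 2 := by positivity
    have ht : Tendsto (fun n => f n x) atTop (𝓝 (ENNReal.ofReal (gg w w x))) := by
      refine tendsto_const_nhds.congr' ?_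
      obtain ⟨N, hN⟩ := exists_nat_gt (2 / w x ^ 2)
      filter_upwards [eventually_ge_atTop N] with n hn
      have h1 : 2 ≤ ((n : ℝ) + 1) * w x ^ 2 := by
        have h2 : (N : ℝ) ≤ n := by exact_mod_cast hn
        have h3 : 2 / w x ^ 2 ≤ (n : ℝ) + 1 := by linarith
        exact (div_le_iff₀ hpos).1 h3
      simp only [hf]
      rw [tau_one h1, one_mul]
    exact ht.liminf_eq.symm
  calc ∫⁻ x in {x | w x ≠ 0}, ENNReal.ofReal (gg w w x)
      = ∫⁻ x in {x | w x ≠ 0}, liminf (fun n => f n x) atTop :=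
        setLIntegral_congr_fun hS hlim
    _ ≤ liminf (fun n => ∫⁻ x in {x | w x ≠ 0}, f n x) atTop :=
        lintegral_liminf_le hfm
    _ ≤ ENNReal.ofReal (K * ∫ x, w x ^ 2) := by
        refine liminf_le_of_frequently_le' ?_
        exact Frequently.of_forall hbd
    _ < ⊤ := ENNReal.ofReal_lt_top

end Pool.Agent.H68.SC
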