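import Pool.Agent.H68.SC.Basic

/-!
# Module Ext (about 150 lines): the extension of `u - c` by zero is `C¹`

PROOF. `D` is open (`eqD`, `φ` continuous) and nonempty. `frontier D ∩ D = ∅`.
Put `U = extU D c u` and `G x = fderiv ℝ u x` for `x ∈ D`, `G x = 0` for `x ∉ D`.
* `G` and `U` are continuous: on `D` by `u2`; outside `closure D` they are locally `0`; at
  `x ∈ frontier D` by `bd` (for `y → x`: either `y ∈ D` and `bd` applies, or the value is `0`).
* `HasFDerivAt U (G x) x` for every `x`. Clear for `x ∈ D` (`U = u - c` near `x`) and for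
  `x ∉ closure D`. Let `x ∈ frontier D`, `ε > 0`, and `‖G‖ ≤ ε` on `ball x δ`. Claim
  `|U y| ≤ ε ‖y - x‖` for `y ∈ ball x δ`: if `y ∉ D` this is `0`. If `y ∈ D` let
  `γ t = x + t (y - x)` and `t₀ = sSup {t ∈ [0,1] | γ t ∉ D}` (contains `0`, closed), so `γ t₀ ∉ D`,
  `U (γ t₀) = 0`, and `γ t ∈ D` for `t₀ < t ≤ 1`; `t ↦ U (γ t)` is continuous on `[t₀, 1]` with
  derivative `G (γ t) (y - x)` on `(t₀, 1)`, of absolute value `≤ ε ‖y - x‖`
  (`image_norm_le_of_norm_deriv_right_le_deriv_boundary` or
  `norm_image_sub_le_of_norm_deriv_le_segment'`), so `|U y| = |U y - U (γ t₀)| ≤ ε ‖y - x‖`.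
* So `U` is `C¹` (`contDiff_one_iff_fderiv`), `fderiv ℝ U = G`, `out`; `C2`: `U = u - c` on the open
  set `D`; `helm`: on `D`, `pd (pd U i) i x = fderiv ℝ (fderiv ℝ u) x (ee i) (ee i)` because `pd U i`
  equals `y ↦ fderiv ℝ u y (ee i)` near `x` and `fderiv ℝ u` is differentiable at `x` (`u` is `C²`).
-/

set_option autoImplicit false

namespace Pool.Agent.H68.SC

open Filter Topology MeasureTheory Metric
open scoped ContDiff

private theorem Ext_tendsto {D : Set E} (hD : IsOpen D) {F : Type} [NormedAddCommGroup F]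
    {f : E → F} {p : E} (hp : p ∉ D) (h0 : ∀ x, x ∉ D → f x = 0)
    (h1 : p ∈ frontier D → Tendsto f (𝓝[D] p) (𝓝 0)) : Tendsto f (𝓝 p) (𝓝 0) := by
  rw [← nhdsWithin_univ, ← Set.union_compl_self D, nhdsWithin_union, tendsto_sup]
  constructor
  · by_cases hc : p ∈ closure D
    · apply h1
      rw [hD.frontier_eq]
      exact ⟨hc, hp⟩
    · have h2 : 𝓝[D] p = ⊥ := by
        by_contra h3
        exact hc (mem_closure_iff_nhdsWithin_neBot.2 ⟨h3⟩)
      rw [h2]
      exact tendsto_bot
  · refine tendsto_const_nhds.congr' ?_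
    filter_upwards [self_mem_nhdsWithin] with x hx
    exact (h0 x hx).symm

theorem ext_UU {D : Set E} {φ : E → ℝ} {k c : ℝ} {u : E → ℝ} (h : Sol D φ k c u) :
    UU D k c (extU D c u) := by
  have hD : IsOpen D := by
    rw [h.eqD]
    exact isOpen_lt h.smooth.continuous continuous_const
  have hu := h.u2
  have hf := h.bd
  set v : E → ℝ := extU D c u with hv
  have hvD : ∀ x ∈ D, v x = u x - c := fun x hx => if_pos hx
  have hv0 : ∀ x, x ∉ D → v x = 0 := fun x hx => if_neg hx
  have hw2 : ContDiffOn ℝ 2 (fun x => u x - c) D := hu.sub contDiffOn_const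
  have hvc2 : ContDiffOn ℝ 2 v D := hw2.congr hvD
  have hud : ∀ x ∈ D, DifferentiableAt ℝ u x := fun x hx =>
    (hu.contDiffAt (hD.mem_nhds hx)).differentiableAt (by norm_num)
  have hev : ∀ x ∈ D, v =ᶠ[𝓝 x] fun y => u y - c := by
    intro x hx
    filter_upwards [hD.mem_nhds hx] with y hy
    exact hvD y hy
  -- the derivative inside
  have hdv : ∀ x ∈ D, HasFDerivAt v (fderiv ℝ u x) x := by
    intro x hx
    have h1 : HasFDerivAt (fun y => u y - c) (fderiv ℝ u x) x :=
      (hud x hx).hasFDerivAt.sub_const c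
    exact h1.congr_of_eventuallyEq (hev x hx)
  have hdD : ∀ x ∈ D, fderiv ℝ v x = fderiv ℝ u x := fun x hx => (hdv x hx).fderiv
  -- continuity of v
  have htv : ∀ p, p ∉ D → Tendsto v (𝓝 p) (𝓝 0) := by
    intro p hp
    refine Ext_tendsto hD hp hv0 (fun hpf => ?_)
    have h1 : Tendsto (fun x => u x - c) (𝓝[D] p) (𝓝 (c - c)) :=
      (hf p hpf).1.sub_const c
    rw [sub_self] at h1
    refine h1.congr' ?_
    filter_upwards [self_mem_nhdsWithin] with x hx
    exact (hvD x hx).symm
  have hcont : Continuous v := by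
    rw [continuous_iff_continuousAt]
    intro x
    by_cases hx : x ∈ D
    · exact (hdv x hx).continuousAt
    · have h1 := htv x hx
      rw [← hv0 x hx] at h1
      exact h1
  -- the derivative outside
  have hdo : ∀ p, p ∉ D → HasFDerivAt v (0 : E →L[ℝ] ℝ) p := by
    intro p hp
    rw [hasFDerivAt_iff_isLittleO, Asymptotics.isLittleO_iff]
    intro ε hε
    -- a neighbourhood of p where the derivative is small
    have hsm : ∀ᶠ y in 𝓝[D] p, ‖fderiv ℝ v y‖ ≤ ε := by
      by_cases hcl : p ∈ closure D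
      · have hpf : p ∈ frontier D := by
          rw [hD.frontier_eq]
          exact ⟨hcl, hp⟩
        have h1 : Tendsto (fun y => fderiv ℝ u y) (𝓝[D] p) (𝓝 0) := (hf p hpf).2
        have h3 : ∀ᶠ y in 𝓝[D] p, ‖fderiv ℝ u y‖ < ε := by
          have h4 := h1.norm
          rw [norm_zero] at h4
          exact h4.eventually (gt_mem_nhds hε)
        filter_upwards [h3, self_mem_nhdsWithin] with y hy hyD
        rw [hdD y hyD]
        exact hy.le
      · have h2 : 𝓝[D] p = ⊥ := by
          by_contra h3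
          exact hcl (mem_closure_iff_nhdsWithin_neBot.2 ⟨h3⟩)
        rw [h2]
        exact eventually_bot
    rw [eventually_nhdsWithin_iff, Metric.eventually_nhds_iff] at hsm
    obtain ⟨δ, hδ, hsm⟩ := hsm
    rw [Metric.eventually_nhds_iff]
    refine ⟨δ, hδ, fun x hx => ?_⟩
    rw [hv0 p hp, sub_zero]
    change ‖v x - (0 : E →L[ℝ] ℝ) (x - p)‖ ≤ ε * ‖x - p‖
    rw [zero_apply, sub_zero]
    by_cases hxD : x ∈ D
    · -- the segment
      set γ : ℝ → E := fun s => x + s • (p - x) with hγ
      have hγc : Continuous γ := by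
        rw [hγ]
        fun_prop
      have hγd : ∀ s, HasDerivAt γ (p - x) s := by
        intro s
        have h1 : HasDerivAt (fun s : ℝ => s • (p - x)) ((1 : ℝ) • (p - x)) s :=
          (hasDerivAt_id s).smul_const (p - x)
        rw [one_smul] at h1
        exact h1.const_add x
      set S : Set ℝ := Set.Icc 0 1 ∩ γ ⁻¹' Dᶜ with hS
      have hScl : IsClosed S := isClosed_Icc.inter (hD.isClosed_compl.preimage hγc)
      have h1S : (1 : ℝ) ∈ S := by
        refine ⟨⟨zero_le_one, le_refl _⟩, ?_⟩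
        change γ 1 ∉ D
        have : γ 1 = p := by
          simp only [hγ, one_smul]
          abel
        rw [this]
        exact hp
      have hSb : BddBelow S := ⟨0, fun s hs => hs.1.1⟩
      set s₁ := sInf S with hs₁
      have hs₁S : s₁ ∈ S := hScl.csInf_mem ⟨1, h1S⟩ hSb
      have hlt : ∀ s ∈ Set.Ico 0 s₁, γ s ∈ D := by
        intro s hs
        by_contra hsD
        have h3 : s ∈ S := ⟨⟨hs.1, (hs.2.trans_le hs₁S.1.2).le⟩, hsD⟩
        exact absurd (csInf_le hSb h3) (not_le.2 hs.2)
      have hγp : ∀ s ∈ Set.Ico 0 s₁, dist (γ s) p < δ := by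
        intro s hs
        have h3 : γ s - p = (1 - s) • (x - p) := by
          simp only [hγ, sub_smul, one_smul, smul_sub]
          abel
        have h4 : s ≤ 1 := (hs.2.trans_le hs₁S.1.2).le
        rw [dist_eq_norm, h3, norm_smul, Real.norm_of_nonneg (by linarith)]
        rw [dist_eq_norm] at hx
        have h5 := norm_nonneg (x - p)
        have h6 : (1 - s) * ‖x - p‖ ≤ ‖x - p‖ := by nlinarith [hs.1]
        linarith
      have hmv := norm_image_sub_le_of_norm_deriv_right_le_segment
        (f := fun s => v (γ s)) (f' := fun s => fderiv ℝ v (γ s) (p - x)) (a := 0) (b := s₁)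
        (C := ε * ‖x - p‖) (hcont.comp hγc).continuousOn
        (fun s hs => by
          have h3 : HasFDerivAt v (fderiv ℝ v (γ s)) (γ s) :=
            (hdv (γ s) (hlt s hs)).differentiableAt.hasFDerivAt
          exact (h3.comp_hasDerivAt s (hγd s)).hasDerivWithinAt)
        (fun s hs => by
          have h3 := hsm (hγp s hs) (hlt s hs)
          calc ‖fderiv ℝ v (γ s) (p - x)‖ ≤ ‖fderiv ℝ v (γ s)‖ * ‖p - x‖ :=
                ContinuousLinearMap.le_opNorm _ _
            _ ≤ ε * ‖p - x‖ := mul_le_mul_of_nonneg_right h3 (norm_nonneg _)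
            _ = ε * ‖x - p‖ := by rw [norm_sub_rev])
        s₁ ⟨hs₁S.1.1, le_refl _⟩
      have h5 : v (γ s₁) = 0 := hv0 _ hs₁S.2
      have h6 : γ 0 = x := by simp [hγ]
      rw [h5, h6, zero_sub, norm_neg, sub_zero] at hmv
      refine hmv.trans ?_
      have h7 : 0 ≤ ε * ‖x - p‖ := by positivity
      exact mul_le_of_le_one_right h7 hs₁S.1.2
    · rw [hv0 x hxD, norm_zero]
      positivity
  have hdo' : ∀ p, p ∉ D → fderiv ℝ v p = 0 := fun p hp => (hdo p hp).fderiv
  have hdiff : Differentiable ℝ v := by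
    intro x
    by_cases hx : x ∈ D
    · exact (hdv x hx).differentiableAt
    · exact (hdo x hx).differentiableAt
  have hcd : Continuous (fderiv ℝ v) := by
    rw [continuous_iff_continuousAt]
    intro x
    by_cases hx : x ∈ D
    · have h1 : ContDiffAt ℝ 2 v x := hvc2.contDiffAt (hD.mem_nhds hx)
      exact (h1.fderiv_right (m := 1) (by norm_num)).continuousAt
    · have h1 : Tendsto (fderiv ℝ v) (𝓝 x) (𝓝 0) := by
        refine Ext_tendsto hD hx hdo' (fun hpf => ?_)
        have h2 := (hf x hpf).2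
        refine h2.congr' ?_
        filter_upwards [self_mem_nhdsWithin] with y hy
        exact (hdD y hy).symm
      rw [← hdo' x hx] at h1
      exact h1
  have hne : D.Nonempty := h.conn.nonempty
  refine ⟨hD, h.bdd, hne, h.kpos, h.cne, contDiff_one_iff_fderiv.2 ⟨hdiff, hcd⟩,
    fun x hx => ⟨hv0 x hx, hdo' x hx⟩, hvc2, ?_⟩
  intro x hx
  have h1 : ∀ i : Fin 3, pd (pd v i) i x = fderiv ℝ (fderiv ℝ u) x (ee i) (ee i) := by
    intro i
    have h2 : pd v i =ᶠ[𝓝 x] fun y => fderiv ℝ u y (ee i) := by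
      filter_upwards [hD.mem_nhds hx] with y hy
      unfold pd
      rw [hdD y hy]
    have h3 : DifferentiableAt ℝ (fderiv ℝ u) x :=
      ((hu.contDiffAt (hD.mem_nhds hx)).fderiv_right (m := 1) (by norm_num)).differentiableAt
        (by norm_num)
    have h4 : HasFDerivAt (fun y => fderiv ℝ u y (ee i))
        ((fderiv ℝ (fderiv ℝ u) x).flip (ee i)) x := by
      have h5 := h3.hasFDerivAt.clm_apply (hasFDerivAt_const (ee i) x)
      refine h5.congr_fderiv ?_
      ext w
      simp
    rw [pd_congr h2 i]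
    unfold pd
    rw [h4.fderiv]
    rfl
  simp only [h1]
  rw [hvD x hx, sub_add_cancel]
  exact h.helm x hx

end Pool.Agent.H68.SC
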