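import Mathlib

/-!
# Module FinQ (about 60 lines): comparing quadratic forms in finite dimension (Mathlib only)

PROOF. Let `b = Module.finBasis ℝ V` and `e : EuclideanSpace ℝ (Fin n) → V`, `e x = ∑ i, x i • b i`
(a linear bijection). `P x = p (e x) (e x)` and `Q x = q (e x) (e x)` are continuous (finite sums of
`x i * x j * p (b i) (b j)`). On the compact unit sphere `P > 0` has a positive minimum `P₀` (if the
sphere is empty, `V = 0`, take `δ = 1`) and `Q ≤ Q₀` with `Q₀ > 0`. `δ = P₀ / Q₀`, homogeneity.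
-/

set_option autoImplicit false

namespace Pool.Agent.H68.SC

private theorem FinQ_expand {V : Type*} [AddCommGroup V] [Module ℝ V] {n : ℕ}
    (b : Module.Basis (Fin n) ℝ V) (p : LinearMap.BilinForm ℝ V) (x : Fin n → ℝ) :
    p (b.equivFun.symm x) (b.equivFun.symm x) = ∑ i, ∑ j, x i * (x j * p (b i) (b j)) := by
  rw [Module.Basis.equivFun_symm_apply]
  simp only [map_sum, LinearMap.sum_apply, map_smul, LinearMap.smul_apply, smul_eq_mul,
    Finset.mul_sum]
  rw [Finset.sum_comm]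
  refine Finset.sum_congr rfl fun i _ => Finset.sum_congr rfl fun j _ => ?_
  ring

theorem fin_quad {V : Type*} [AddCommGroup V] [Module ℝ V] [Module.Finite ℝ V]
    (p q : LinearMap.BilinForm ℝ V) (hp : ∀ v, v ≠ 0 → 0 < p v v) :
    ∃ δ : ℝ, 0 < δ ∧ ∀ v, δ * q v v ≤ p v v := by
  set n := Module.finrank ℝ V with hn
  let b : Module.Basis (Fin n) ℝ V := Module.finBasis ℝ V
  set e : (Fin n → ℝ) ≃ₗ[ℝ] V := b.equivFun.symm with he
  have hcont : ∀ r : LinearMap.BilinForm ℝ V, Continuous fun x : Fin n → ℝ => r (e x) (e x) := by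
    intro r
    have h1 : (fun x : Fin n → ℝ => r (e x) (e x)) =
        fun x => ∑ i, ∑ j, x i * (x j * r (b i) (b j)) := by
      funext x
      exact FinQ_expand b r x
    rw [h1]
    fun_prop
  have hcomp : IsCompact (Metric.sphere (0 : Fin n → ℝ) 1) := isCompact_sphere _ _
  obtain ⟨P₀, hP₀, hP⟩ : ∃ P₀ : ℝ, 0 < P₀ ∧ ∀ x ∈ Metric.sphere (0 : Fin n → ℝ) 1,
      P₀ ≤ p (e x) (e x) := by
    rcases (Metric.sphere (0 : Fin n → ℝ) 1).eq_empty_or_nonempty with h | h
    · exact ⟨1, one_pos, fun v hv => by rw [h] at hv; exact absurd hv (Set.notMem_empty v)⟩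
    · obtain ⟨x, hx, hmin⟩ := hcomp.exists_isMinOn h (hcont p).continuousOn
      refine ⟨p (e x) (e x), hp _ ?_, fun y hy => hmin hy⟩
      intro h0
      have hx0 : x = 0 := by
        have h2 := congrArg e.symm h0
        rwa [LinearEquiv.symm_apply_apply, map_zero] at h2
      rw [mem_sphere_zero_iff_norm, hx0, norm_zero] at hx
      exact zero_ne_one hx
  obtain ⟨C, hC⟩ := hcomp.exists_bound_of_continuousOn (hcont q).continuousOn
  have hQ₀ : 0 < |C| + 1 := by positivity
  refine ⟨P₀ / (|C| + 1), div_pos hP₀ hQ₀, fun v => ?_⟩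
  by_cases hv : v = 0
  · rw [hv]
    simp
  · set x := e.symm v with hx
    have hvx : v = e x := by rw [hx, LinearEquiv.apply_symm_apply]
    have hx0 : x ≠ 0 := by
      intro h0
      apply hv
      rw [hvx, h0, map_zero]
    have ht : 0 < ‖x‖ := norm_pos_iff.2 hx0
    set y := ‖x‖⁻¹ • x with hy
    have hyS : y ∈ Metric.sphere (0 : Fin n → ℝ) 1 := by
      rw [mem_sphere_zero_iff_norm, hy, norm_smul, norm_inv, norm_norm, inv_mul_cancel₀ ht.ne']
    have hxy : x = ‖x‖ • y := by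
      rw [hy, smul_smul, mul_inv_cancel₀ ht.ne', one_smul]
    have hhom : ∀ r : LinearMap.BilinForm ℝ V, r v v = ‖x‖ ^ 2 * r (e y) (e y) := by
      intro r
      have h1 : v = ‖x‖ • e y := by rw [← map_smul, ← hxy, ← hvx]
      have h2 : r v v = r (‖x‖ • e y) (‖x‖ • e y) := by rw [← h1]
      rw [h2]
      simp only [map_smul, LinearMap.smul_apply, smul_eq_mul]
      ring
    rw [hhom p, hhom q]
    have h3 := hP y hyS
    have h4 : q (e y) (e y) ≤ |C| + 1 := by
      have h5 := (le_abs_self _).trans (hC y hyS)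
      linarith [le_abs_self C]
    have h5 : P₀ / (|C| + 1) * q (e y) (e y) ≤ P₀ := by
      calc P₀ / (|C| + 1) * q (e y) (e y) ≤ P₀ / (|C| + 1) * (|C| + 1) :=
            mul_le_mul_of_nonneg_left h4 (div_pos hP₀ hQ₀).le
        _ = P₀ := div_mul_cancel₀ _ hQ₀.ne'
    have h6 : 0 ≤ ‖x‖ ^ 2 := by positivity
    calc P₀ / (|C| + 1) * (‖x‖ ^ 2 * q (e y) (e y)) = ‖x‖ ^ 2 * (P₀ / (|C| + 1) * q (e y) (e y)) := by
          ring
      _ ≤ ‖x‖ ^ 2 * p (e y) (e y) := mul_le_mul_of_nonneg_left (h5.trans h3) h6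

end Pool.Agent.H68.SC
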