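import Pool.Agent.H68.SC.Rot

/-!
# Module Gap (helper53): Bessel inequality and spectral gap on every sphere

PROOF. `bessel`: orthonormality (`H.orth`) for the finite family. `gap`: for `h z = g (r • z)` and
the partial sum `P = ∑_{l < N} c_{li} Y_{li}`, `c_{li} = ∫ h Y_{li}`:
`0 ≤ ∑ a, ∫ (LL a h - LL a P)² = ∑ a, ∫ (LL a h)² - ∑_{l < N} l (l + 1) c_{li}²` (`LL_ibp`, `H.eig`),
and `∫ h² - ∑_{l < N} c_{li}² → 0` (`H.complete`).
-/

set_option autoImplicit false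

namespace Pool.Agent.H68.SC

open Filter Topology MeasureTheory Metric
open scoped ContDiff

/-- the index set of the harmonics of degree `< N` -/
private def gpS (H : Harm) (N : ℕ) : Finset ((l : ℕ) × Fin (H.d l)) :=
  (Finset.range N).sigma fun _ => Finset.univ

private theorem gp_sum (H : Harm) (N : ℕ) (F : ((l : ℕ) × Fin (H.d l)) → ℝ) :
    ∑ q ∈ gpS H N, F q = ∑ l ∈ Finset.range N, ∑ i, F ⟨l, i⟩ := by
  unfold gpS
  rw [Finset.sum_sigma]

private theorem gp_integrable {F : E → ℝ} (hF : Continuous F) :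
    Integrable (fun y : S2 => F y) sg :=
  (hF.comp continuous_subtype_val).integrable_of_hasCompactSupport
    (HasCompactSupport.of_compactSpace _)

private theorem gp_cY (H : Harm) (q : (l : ℕ) × Fin (H.d l)) : Continuous (H.Y q.1 q.2) :=
  (H.smooth q.1 q.2).continuous

/-- integral against a finite combination -/
private theorem gp_lin (H : Harm) {f : E → ℝ} (hf : Continuous f)
    (S : Finset ((l : ℕ) × Fin (H.d l))) (b : ((l : ℕ) × Fin (H.d l)) → ℝ) :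
    ∫ y : S2, f y * (∑ q ∈ S, b q * H.Y q.1 q.2 y) ∂sg
      = ∑ q ∈ S, b q * ∫ y : S2, f y * H.Y q.1 q.2 y ∂sg := by
  have h1 : ∀ y : S2, f y * (∑ q ∈ S, b q * H.Y q.1 q.2 y)
      = ∑ q ∈ S, b q * (f y * H.Y q.1 q.2 y) := by
    intro y
    rw [Finset.mul_sum]
    exact Finset.sum_congr rfl fun q _ => by ring
  simp only [h1]
  rw [integral_finsetSum]
  · exact Finset.sum_congr rfl fun q _ => integral_const_mul _ _
  · intro q _
    exact (gp_integrable (F := fun y => f y * H.Y q.1 q.2 y) (hf.mul (gp_cY H q))).const_mul _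

/-- moments of a finite combination -/
private theorem gp_mom (H : Harm) (S : Finset ((l : ℕ) × Fin (H.d l)))
    (b : ((l : ℕ) × Fin (H.d l)) → ℝ) (p : (l : ℕ) × Fin (H.d l)) (hp : p ∈ S) :
    ∫ y : S2, (∑ q ∈ S, b q * H.Y q.1 q.2 y) * H.Y p.1 p.2 y ∂sg = b p := by
  have h1 : ∀ y : S2, (∑ q ∈ S, b q * H.Y q.1 q.2 y) * H.Y p.1 p.2 y
      = H.Y p.1 p.2 y * (∑ q ∈ S, b q * H.Y q.1 q.2 y) := fun y => mul_comm _ _
  simp only [h1]
  rw [gp_lin H (gp_cY H p)]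
  rw [Finset.sum_eq_single p]
  · rw [H.orth p p]; simp
  · intro q _ hq
    rw [H.orth p q, if_neg (Ne.symm hq), mul_zero]
  · intro h; exact absurd hp h

private theorem gp_contP (H : Harm) (S : Finset ((l : ℕ) × Fin (H.d l)))
    (b : ((l : ℕ) × Fin (H.d l)) → ℝ) :
    Continuous fun z : E => ∑ q ∈ S, b q * H.Y q.1 q.2 z :=
  continuous_finsetSum _ fun q _ => continuous_const.mul (gp_cY H q)

/-- the square of the distance to a finite combination -/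
private theorem gp_dist (H : Harm) {f : E → ℝ} (hf : Continuous f)
    (S : Finset ((l : ℕ) × Fin (H.d l))) (b : ((l : ℕ) × Fin (H.d l)) → ℝ) :
    ∫ y : S2, (f y - ∑ q ∈ S, b q * H.Y q.1 q.2 y) ^ 2 ∂sg
      = ∫ y : S2, f y ^ 2 ∂sg - 2 * (∑ q ∈ S, b q * ∫ y : S2, f y * H.Y q.1 q.2 y ∂sg)
        + ∑ q ∈ S, b q ^ 2 := by
  have hP := gp_contP H S b
  have h1 : ∀ y : S2, (f y - ∑ q ∈ S, b q * H.Y q.1 q.2 y) ^ 2
      = f y ^ 2 - 2 * (f y * (∑ q ∈ S, b q * H.Y q.1 q.2 y))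
        + (∑ q ∈ S, b q * H.Y q.1 q.2 y) * (∑ q ∈ S, b q * H.Y q.1 q.2 y) := fun y => by ring
  simp only [h1]
  rw [integral_add, integral_sub, integral_const_mul, gp_lin H hf S b, gp_lin H hP S b]
  · congr 1
    refine Finset.sum_congr rfl fun q hq => ?_
    rw [gp_mom H S b q hq]; ring
  · exact gp_integrable (F := fun y => f y ^ 2) (hf.pow 2)
  · exact (gp_integrable (F := fun y => f y * (∑ q ∈ S, b q * H.Y q.1 q.2 y))
      (hf.mul hP)).const_mul 2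
  · exact gp_integrable (F := fun y => f y ^ 2 - 2 * (f y * (∑ q ∈ S, b q * H.Y q.1 q.2 y)))
      ((hf.pow 2).sub (continuous_const.mul (hf.mul hP)))
  · exact gp_integrable (F := fun y => (∑ q ∈ S, b q * H.Y q.1 q.2 y) *
      (∑ q ∈ S, b q * H.Y q.1 q.2 y)) (hP.mul hP)

/-- Bessel, on the index set -/
private theorem gp_bessel (H : Harm) {f : E → ℝ} (hf : Continuous f)
    (S : Finset ((l : ℕ) × Fin (H.d l))) :
    ∑ q ∈ S, (∫ y : S2, f y * H.Y q.1 q.2 y ∂sg) ^ 2 ≤ ∫ y : S2, f y ^ 2 ∂sg := by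
  have h1 := gp_dist H hf S fun q => ∫ y : S2, f y * H.Y q.1 q.2 y ∂sg
  have h2 : 0 ≤ ∫ y : S2, (f y - ∑ q ∈ S, (∫ y : S2, f y * H.Y q.1 q.2 y ∂sg) *
      H.Y q.1 q.2 y) ^ 2 ∂sg := integral_nonneg fun y => sq_nonneg _
  have h3 : ∑ q ∈ S, (∫ y : S2, f y * H.Y q.1 q.2 y ∂sg) * (∫ y : S2, f y * H.Y q.1 q.2 y ∂sg)
      = ∑ q ∈ S, (∫ y : S2, f y * H.Y q.1 q.2 y ∂sg) ^ 2 :=
    Finset.sum_congr rfl fun q _ => by ring
  rw [h3] at h1
  linarith

theorem bessel (H : Harm) {f : E → ℝ} (hf : Continuous f) (L : ℕ) :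
    ∑ l ∈ Finset.range L, ∑ i, (∫ y : S2, f y * H.Y l i y ∂sg) ^ 2 ≤ ∫ y : S2, f y ^ 2 ∂sg := by
  have h1 := gp_bessel H hf (gpS H L)
  rw [gp_sum] at h1
  exact h1

/-- the energy of the tail tends to zero -/
private theorem gp_tail (H : Harm) {f : E → ℝ} (hf : Continuous f) {ε : ℝ} (hε : 0 < ε) :
    ∃ N0 : ℕ, ∀ N, N0 ≤ N → ∫ y : S2, f y ^ 2 ∂sg
      ≤ ∑ q ∈ gpS H N, (∫ y : S2, f y * H.Y q.1 q.2 y ∂sg) ^ 2 + ε ^ 2 * sg.real Set.univ := by
  obtain ⟨N0, a, ha⟩ := H.complete f hf ε hε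
  refine ⟨N0, fun N hN => ?_⟩
  set b : ((l : ℕ) × Fin (H.d l)) → ℝ := fun q => if q.1 < N0 then a q.1 q.2 else 0 with hb
  have h1 := gp_dist H hf (gpS H N) b
  have h2 : ∀ y : S2, ∑ q ∈ gpS H N, b q * H.Y q.1 q.2 y
      = ∑ l ∈ Finset.range N0, ∑ i, a l i * H.Y l i y := by
    intro y
    rw [gp_sum]
    symm
    rw [← Finset.sum_subset (Finset.range_subset_range.2 hN)]
    · refine Finset.sum_congr rfl fun l hl => Finset.sum_congr rfl fun i _ => ?_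
      simp only [hb, Finset.mem_range.1 hl, if_true]
    · intro l _ hl
      refine Finset.sum_eq_zero fun i _ => ?_
      simp only [hb, show ¬ l < N0 from fun h => hl (Finset.mem_range.2 h), if_false, zero_mul]
  have h3 : ∫ y : S2, (f y - ∑ q ∈ gpS H N, b q * H.Y q.1 q.2 y) ^ 2 ∂sg
      ≤ ε ^ 2 * sg.real Set.univ := by
    calc ∫ y : S2, (f y - ∑ q ∈ gpS H N, b q * H.Y q.1 q.2 y) ^ 2 ∂sg
        ≤ ∫ _ : S2, ε ^ 2 ∂sg := by
          refine integral_mono (gp_integrable (F := fun z => (f z - ∑ q ∈ gpS H N,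
            b q * H.Y q.1 q.2 z) ^ 2) ((hf.sub (gp_contP H _ b)).pow 2)) (integrable_const _) ?_
          intro y
          have h4 := ha y
          rw [← h2 y] at h4
          exact sq_le_sq' (by linarith [(abs_lt.1 h4).1]) (by linarith [(abs_lt.1 h4).2])
      _ = ε ^ 2 * sg.real Set.univ := by rw [integral_const, smul_eq_mul, mul_comm]
  have h5 : 0 ≤ ∑ q ∈ gpS H N, (b q - ∫ y : S2, f y * H.Y q.1 q.2 y ∂sg) ^ 2 :=
    Finset.sum_nonneg fun q _ => sq_nonneg _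
  have h6 : ∑ q ∈ gpS H N, (b q - ∫ y : S2, f y * H.Y q.1 q.2 y ∂sg) ^ 2
      = ∑ q ∈ gpS H N, b q ^ 2
        - 2 * (∑ q ∈ gpS H N, b q * ∫ y : S2, f y * H.Y q.1 q.2 y ∂sg)
        + ∑ q ∈ gpS H N, (∫ y : S2, f y * H.Y q.1 q.2 y ∂sg) ^ 2 := by
    rw [Finset.mul_sum, ← Finset.sum_sub_distrib, ← Finset.sum_add_distrib]
    exact Finset.sum_congr rfl fun q _ => by ring
  linarith

/-! ### rotational derivatives of combinations -/

private theorem gp_contDiff_LL {f : E → ℝ} (hf : ContDiff ℝ ∞ f) (a : Fin 3) :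
    ContDiff ℝ ∞ (LL a f) := by
  unfold LL
  exact (hf.fderiv_right (m := ∞) (by simp)).clm_apply (contDiff_crs (ee a))

private theorem gp_LL_sum (H : Harm) (S : Finset ((l : ℕ) × Fin (H.d l)))
    (b : ((l : ℕ) × Fin (H.d l)) → ℝ) (F : ((l : ℕ) × Fin (H.d l)) → E → ℝ)
    (hF : ∀ q, ContDiff ℝ ∞ (F q)) (a : Fin 3) :
    LL a (fun z => ∑ q ∈ S, b q * F q z) = fun z => ∑ q ∈ S, b q * LL a (F q) z := by
  funext z
  unfold LL
  have hd : ∀ q, DifferentiableAt ℝ (F q) z := fun q =>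
    ((hF q).differentiable (by simp)) z
  have h1 : HasFDerivAt (fun z => ∑ q ∈ S, b q * F q z) (∑ q ∈ S, b q • fderiv ℝ (F q) z) z :=
    HasFDerivAt.fun_sum fun q _ => (hd q).hasFDerivAt.const_mul (b q)
  rw [h1.fderiv]
  simp

private theorem gp_smoothP (H : Harm) (S : Finset ((l : ℕ) × Fin (H.d l)))
    (b : ((l : ℕ) × Fin (H.d l)) → ℝ) :
    ContDiff ℝ ∞ fun z : E => ∑ q ∈ S, b q * H.Y q.1 q.2 z :=
  ContDiff.sum fun q _ => contDiff_const.mul (H.smooth q.1 q.2)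

/-- the sum of the second rotational derivatives of a combination -/
private theorem gp_lap (H : Harm) (S : Finset ((l : ℕ) × Fin (H.d l)))
    (b : ((l : ℕ) × Fin (H.d l)) → ℝ) (y : S2) :
    ∑ a, LL a (LL a (fun z => ∑ q ∈ S, b q * H.Y q.1 q.2 z)) y
      = ∑ q ∈ S, (b q * (-((q.1 : ℝ) * (q.1 + 1)))) * H.Y q.1 q.2 y := by
  have h1 : ∀ a, LL a (LL a (fun z => ∑ q ∈ S, b q * H.Y q.1 q.2 z)) y
      = ∑ q ∈ S, b q * LL a (LL a (H.Y q.1 q.2)) y := by
    intro a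
    rw [gp_LL_sum H S b (fun q => H.Y q.1 q.2) (fun q => H.smooth q.1 q.2) a,
      gp_LL_sum H S b (fun q => LL a (H.Y q.1 q.2)) (fun q => gp_contDiff_LL (H.smooth q.1 q.2) a) a]
  simp only [h1]
  rw [Finset.sum_comm]
  refine Finset.sum_congr rfl fun q _ => ?_
  rw [← Finset.mul_sum, H.eig q.1 q.2 y (by simp)]
  ring

/-- the cross energy with a combination -/
private theorem gp_cross (H : Harm) {h : E → ℝ} (hh : ContDiff ℝ 1 h)
    (S : Finset ((l : ℕ) × Fin (H.d l))) (b : ((l : ℕ) × Fin (H.d l)) → ℝ) :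
    ∑ a, ∫ y : S2, LL a h y * LL a (fun z => ∑ q ∈ S, b q * H.Y q.1 q.2 z) y ∂sg
      = ∑ q ∈ S, (q.1 : ℝ) * (q.1 + 1) * b q * ∫ y : S2, h y * H.Y q.1 q.2 y ∂sg := by
  set P : E → ℝ := fun z => ∑ q ∈ S, b q * H.Y q.1 q.2 z with hP
  have hPs : ContDiff ℝ ∞ P := gp_smoothP H S b
  have h1 : ∀ a, ∫ y : S2, LL a h y * LL a P y ∂sg = -∫ y : S2, h y * LL a (LL a P) y ∂sg :=
    fun a => LL_ibp hh ((gp_contDiff_LL hPs a).of_le (by simp)) a
  simp only [h1]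
  rw [Finset.sum_neg_distrib, ← integral_finsetSum]
  · have h2 : ∀ y : S2, ∑ a, h y * LL a (LL a P) y
        = h y * ∑ q ∈ S, (b q * (-((q.1 : ℝ) * (q.1 + 1)))) * H.Y q.1 q.2 y := by
      intro y
      rw [← Finset.mul_sum, hP, gp_lap]
    simp only [h2]
    rw [gp_lin H hh.continuous, ← Finset.sum_neg_distrib]
    exact Finset.sum_congr rfl fun q _ => by ring
  · intro a _
    exact gp_integrable (F := fun z => h z * LL a (LL a P) z)
      (hh.continuous.mul (gp_contDiff_LL (gp_contDiff_LL hPs a) a).continuous)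

/-- the energy is at least the energy of every partial sum -/
private theorem gp_partial (H : Harm) {h : E → ℝ} (hh : ContDiff ℝ 1 h)
    (S : Finset ((l : ℕ) × Fin (H.d l))) :
    ∑ q ∈ S, (q.1 : ℝ) * (q.1 + 1) * (∫ y : S2, h y * H.Y q.1 q.2 y ∂sg) ^ 2
      ≤ ∑ a, ∫ y : S2, LL a h y ^ 2 ∂sg := by
  set c : ((l : ℕ) × Fin (H.d l)) → ℝ := fun q => ∫ y : S2, h y * H.Y q.1 q.2 y ∂sg with hc
  set P : E → ℝ := fun z => ∑ q ∈ S, c q * H.Y q.1 q.2 z with hP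
  have hPs : ContDiff ℝ ∞ P := gp_smoothP H S c
  have hP1 : ContDiff ℝ 1 P := hPs.of_le (by simp)
  have h1 := gp_cross H hh S c
  have h2 := gp_cross H hP1 S c
  have h3 : ∀ a, 0 ≤ ∫ y : S2, (LL a h y - LL a P y) ^ 2 ∂sg := fun a =>
    integral_nonneg fun y => sq_nonneg _
  have hcl : ∀ f : E → ℝ, ContDiff ℝ 1 f → ∀ a, Continuous (LL a f) := fun f hf a =>
    (hf.continuous_fderiv one_ne_zero).clm_apply (contDiff_crs (ee a)).continuous
  have h4 : ∀ a, ∫ y : S2, (LL a h y - LL a P y) ^ 2 ∂sg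
      = ∫ y : S2, LL a h y ^ 2 ∂sg - 2 * (∫ y : S2, LL a h y * LL a P y ∂sg)
        + ∫ y : S2, LL a P y * LL a P y ∂sg := by
    intro a
    have e1 : ∀ y : S2, (LL a h y - LL a P y) ^ 2
        = LL a h y ^ 2 - 2 * (LL a h y * LL a P y) + LL a P y * LL a P y := fun y => by ring
    simp only [e1]
    have c1 := hcl h hh a
    have c2 := hcl P hP1 a
    rw [integral_add, integral_sub, integral_const_mul]
    · exact gp_integrable (F := fun z => LL a h z ^ 2) (c1.pow 2)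
    · exact (gp_integrable (F := fun z => LL a h z * LL a P z) (c1.mul c2)).const_mul 2
    · exact gp_integrable (F := fun z => LL a h z ^ 2 - 2 * (LL a h z * LL a P z))
        ((c1.pow 2).sub (continuous_const.mul (c1.mul c2)))
    · exact gp_integrable (F := fun z => LL a P z * LL a P z) (c2.mul c2)
  have h5 : 0 ≤ ∑ a, ∫ y : S2, (LL a h y - LL a P y) ^ 2 ∂sg :=
    Finset.sum_nonneg fun a _ => h3 a
  simp only [h4] at h5
  rw [Finset.sum_add_distrib, Finset.sum_sub_distrib, ← Finset.mul_sum, h1, h2] at h5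
  have h6 : ∑ q ∈ S, (q.1 : ℝ) * (q.1 + 1) * c q * ∫ y : S2, P y * H.Y q.1 q.2 y ∂sg
      = ∑ q ∈ S, (q.1 : ℝ) * (q.1 + 1) * c q ^ 2 := by
    refine Finset.sum_congr rfl fun q hq => ?_
    have := gp_mom H S c q hq
    rw [hP, this]; ring
  have h7 : ∑ q ∈ S, (q.1 : ℝ) * (q.1 + 1) * c q * ∫ y : S2, h y * H.Y q.1 q.2 y ∂sg
      = ∑ q ∈ S, (q.1 : ℝ) * (q.1 + 1) * c q ^ 2 :=
    Finset.sum_congr rfl fun q _ => by simp only [hc]; ring
  rw [h6, h7] at h5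
  linarith

theorem gap (H : Harm) {g : E → ℝ} (hg : ContDiff ℝ 1 g) {r K : ℝ} {L : ℕ}
    (hK : K * r ^ 2 ≤ (L : ℝ) * (L + 1)) :
    ∑ l ∈ Finset.range L, ∑ i, ((l : ℝ) * (l + 1) - K * r ^ 2) * mom H g l i r ^ 2 ≤
      ∫ y : S2, (∑ a, LL a g (r • (y : E)) ^ 2 - K * r ^ 2 * g (r • (y : E)) ^ 2) ∂sg := by
  set h : E → ℝ := fun z => g (r • z) with hh
  have hhc : ContDiff ℝ 1 h := hg.comp (contDiff_const_smul r)
  have hcl : ∀ f : E → ℝ, ContDiff ℝ 1 f → ∀ a, Continuous (LL a f) := fun f hf a =>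
    (hf.continuous_fderiv one_ne_zero).clm_apply (contDiff_crs (ee a)).continuous
  set c : ((l : ℕ) × Fin (H.d l)) → ℝ := fun q => ∫ y : S2, h y * H.Y q.1 q.2 y ∂sg with hc
  have hR : ∫ y : S2, (∑ a, LL a g (r • (y : E)) ^ 2 - K * r ^ 2 * g (r • (y : E)) ^ 2) ∂sg
      = ∑ a, ∫ y : S2, LL a h y ^ 2 ∂sg - K * r ^ 2 * ∫ y : S2, h y ^ 2 ∂sg := by
    have e1 : ∀ y : S2, (∑ a, LL a g (r • (y : E)) ^ 2 - K * r ^ 2 * g (r • (y : E)) ^ 2)
        = ∑ a, LL a h y ^ 2 - K * r ^ 2 * h y ^ 2 := by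
      intro y
      congr 1
      exact Finset.sum_congr rfl fun a _ => by rw [hh, LL_scale hg]
    simp only [e1]
    rw [integral_sub, integral_finsetSum, integral_const_mul]
    · intro a _
      exact gp_integrable (F := fun z => LL a h z ^ 2) ((hcl h hhc a).pow 2)
    · exact gp_integrable (F := fun z => ∑ a, LL a h z ^ 2)
        (continuous_finsetSum _ fun a _ => (hcl h hhc a).pow 2)
    · exact (gp_integrable (F := fun z => h z ^ 2) (hhc.continuous.pow 2)).const_mul _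
  have hL : ∑ l ∈ Finset.range L, ∑ i, ((l : ℝ) * (l + 1) - K * r ^ 2) * mom H g l i r ^ 2
      = ∑ q ∈ gpS H L, (q.1 : ℝ) * (q.1 + 1) * c q ^ 2 - K * r ^ 2 * ∑ q ∈ gpS H L, c q ^ 2 := by
    rw [Finset.mul_sum, ← Finset.sum_sub_distrib, gp_sum]
    refine Finset.sum_congr rfl fun l _ => Finset.sum_congr rfl fun i _ => ?_
    have : mom H g l i r = c ⟨l, i⟩ := rfl
    rw [this]; ring
  rw [hR, hL]
  have hbes := gp_bessel H hhc.continuous (gpS H L)
  have hLL : (0 : ℝ) ≤ (L : ℝ) * (L + 1) := by positivity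
  set M := sg.real Set.univ with hM
  have hM0 : 0 ≤ M := measureReal_nonneg
  -- the main bound
  have hmain : ∑ q ∈ gpS H L, (q.1 : ℝ) * (q.1 + 1) * c q ^ 2
      + (L : ℝ) * (L + 1) * (∫ y : S2, h y ^ 2 ∂sg - ∑ q ∈ gpS H L, c q ^ 2)
      ≤ ∑ a, ∫ y : S2, LL a h y ^ 2 ∂sg := by
    refine le_of_forall_pos_le_add fun δ hδ => ?_
    set C : ℝ := (L : ℝ) * (L + 1) * M + 1 with hC
    have hCpos : 0 < C := by positivity
    obtain ⟨N0, hN0⟩ := gp_tail H hhc.continuous (ε := Real.sqrt (δ / C))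
      (Real.sqrt_pos.2 (div_pos hδ hCpos))
    set N := max N0 L with hN
    have h1 := hN0 N (le_max_left _ _)
    rw [Real.sq_sqrt (div_pos hδ hCpos).le] at h1
    have h2 := gp_partial H hhc (gpS H N)
    have hsplit : ∀ F : ((l : ℕ) × Fin (H.d l)) → ℝ, ∑ q ∈ gpS H N, F q
        = ∑ q ∈ gpS H L, F q + ∑ q ∈ gpS H N \ gpS H L, F q := by
      intro F
      rw [add_comm]
      refine (Finset.sum_sdiff ?_).symm
      unfold gpS
      exact Finset.sigma_mono (Finset.range_subset_range.2 (le_max_right _ _)) fun _ => le_rfl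
    rw [hsplit] at h1 h2
    have h3 : (L : ℝ) * (L + 1) * ∑ q ∈ gpS H N \ gpS H L, c q ^ 2
        ≤ ∑ q ∈ gpS H N \ gpS H L, (q.1 : ℝ) * (q.1 + 1) * c q ^ 2 := by
      rw [Finset.mul_sum]
      refine Finset.sum_le_sum fun q hq => ?_
      refine mul_le_mul_of_nonneg_right ?_ (sq_nonneg _)
      have h4 : L ≤ q.1 := by
        by_contra hlt
        refine (Finset.mem_sdiff.1 hq).2 ?_
        unfold gpS
        exact Finset.mem_sigma.2 ⟨Finset.mem_range.2 (not_le.1 hlt), Finset.mem_univ _⟩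
      have h5 : (L : ℝ) ≤ q.1 := by exact_mod_cast h4
      have h6 : (0 : ℝ) ≤ L := Nat.cast_nonneg L
      nlinarith
    have h4 : (L : ℝ) * (L + 1) * (∫ y : S2, h y ^ 2 ∂sg - ∑ q ∈ gpS H L, c q ^ 2)
        ≤ (L : ℝ) * (L + 1) * (∑ q ∈ gpS H N \ gpS H L, c q ^ 2 + δ / C * M) :=
      mul_le_mul_of_nonneg_left (by linarith) hLL
    have h5 : (L : ℝ) * (L + 1) * (δ / C * M) ≤ δ := by
      have : (L : ℝ) * (L + 1) * (δ / C * M) = δ * ((L : ℝ) * (L + 1) * M / C) := by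
        field_simp
      rw [this]
      have h6 : (L : ℝ) * (L + 1) * M / C ≤ 1 := by
        rw [div_le_one hCpos]; linarith
      nlinarith
    nlinarith
  have hfin : K * r ^ 2 * (∫ y : S2, h y ^ 2 ∂sg - ∑ q ∈ gpS H L, c q ^ 2)
      ≤ (L : ℝ) * (L + 1) * (∫ y : S2, h y ^ 2 ∂sg - ∑ q ∈ gpS H L, c q ^ 2) :=
    mul_le_mul_of_nonneg_right hK (by linarith)
  linarith

end Pool.Agent.H68.SC
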