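import Pool.Agent.H68.SC.JPos

/-!
# Module JZero (about 110 lines): the zeros of spherical Bessel functions

PROOF. `djl_ne`: if `jl l t = 0 = djl l t` then `jl (l+1) t = 0` (definition of `djl`), and by the
recursion downwards (`jl m t = (2 m + 3) / t jl (m+1) t - jl (m+2) t`) all `jl m t = 0`, `m ≤ l + 1`, so
`sin t = 0` and `cos t = 0` (from `jl 0`, `jl 1`): contradiction.
`Zc_finite`: zeros in `(0, T]` lie in the compact `[1, T]` (`jl_pos_small`); every point of it has a
punctured neighbourhood without zeros (`jl_deriv`, `djl_ne`, `HasDerivAt.eventually_ne`, or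
continuity at non-zeros): `Set.Finite` by `IsCompact` (`Set.Infinite.exists_accPt_of_subset_isCompact`).
`Zc_extend`: `Zc l (T + 1)` is finite; if it has an element `> T` let `T'` be the midpoint of `T` and
the smallest such element, otherwise `T' = T + 1`. `Zo_shrink`: `Zo l T` is finite; `T'` the
midpoint of `T` and `max (T / 2) (largest element of Zo l T)`.
-/

set_option autoImplicit false

namespace Pool.Agent.H68.SC

open Filter Topology MeasureTheory Metric
open scoped ContDiff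

private theorem jz_two (l : ℕ) {t : ℝ} (ht : 0 < t) (h : jl l t = 0) (h' : jl (l + 1) t = 0) :
    False := by
  induction l with
  | zero =>
    have hne : t ≠ 0 := ht.ne'
    have h1 : Real.sin t = 0 := by
      have : jl 0 t = Real.sin t / t := by rw [jl]
      rw [this, div_eq_zero_iff] at h
      exact h.resolve_right hne
    have h2 : Real.cos t = 0 := by
      have : jl (0 + 1) t = Real.sin t / t ^ 2 - Real.cos t / t := by
        rw [show (0 + 1 : ℕ) = 1 from rfl, jl]
      rw [this, h1, zero_div, zero_sub, neg_eq_zero, div_eq_zero_iff] at h'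
      exact h'.resolve_right hne
    have := Real.sin_sq_add_cos_sq t
    rw [h1, h2] at this
    norm_num at this
  | succ l ih =>
    refine ih ?_ h
    have h3 := jl_rec l t
    rw [show l + 1 + 1 = l + 2 from rfl] at h'
    rw [h', h, mul_zero, zero_sub] at h3
    linarith

theorem djl_ne (l : ℕ) {t : ℝ} (ht : 0 < t) (h : jl l t = 0) : djl l t ≠ 0 := by
  intro h1
  unfold djl at h1
  rw [h, mul_zero, zero_sub, neg_eq_zero] at h1
  exact jz_two l ht h h1

theorem Zc_finite (l : ℕ) (T : ℝ) : (Zc l T).Finite := by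
  by_contra hinf
  have hsub : Zc l T ⊆ Set.Icc 1 T := by
    rintro t ⟨h0, h1, h2⟩
    refine ⟨?_, h1⟩
    by_contra hlt
    have := jl_pos_small l h0 (not_le.1 hlt).le
    rw [h2] at this
    exact lt_irrefl _ this
  obtain ⟨z, hz, hacc⟩ := Set.Infinite.exists_accPt_of_subset_isCompact hinf isCompact_Icc hsub
  have hz0 : 0 < z := lt_of_lt_of_le one_pos hz.1
  rw [accPt_iff_frequently_nhdsNE] at hacc
  have hd := jl_deriv l hz0
  have hev : ∀ᶠ y in 𝓝[≠] z, jl l y ≠ 0 := by
    by_cases h0 : jl l z = 0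
    · exact hd.eventually_ne (djl_ne l hz0 h0)
    · exact (hd.continuousAt.eventually_ne h0).filter_mono nhdsWithin_le_nhds
  obtain ⟨y, hy1, hy2⟩ := (hacc.and_eventually hev).exists
  exact hy2 hy1.2.2

theorem Zo_finite (l : ℕ) (T : ℝ) : (Zo l T).Finite :=
  (Zc_finite l T).subset fun _ h => ⟨h.1, h.2.1.le, h.2.2⟩

theorem Zc_extend (l : ℕ) (T : ℝ) : ∃ T' : ℝ, T < T' ∧ Zc l T' = Zc l T := by
  have hfin : (Zc l (T + 1) \ Set.Iic T).Finite := (Zc_finite l (T + 1)).subset Set.sdiff_subset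
  have h1 : ∀ᶠ T' in 𝓝[>] T, ∀ z ∈ Zc l (T + 1) \ Set.Iic T, T' < z := by
    rw [Filter.eventually_all_finite hfin]
    intro z hz
    have : T < z := not_le.1 hz.2
    exact (eventually_lt_nhds this).filter_mono nhdsWithin_le_nhds
  have h2 : ∀ᶠ T' in 𝓝[>] T, T' < T + 1 :=
    (eventually_lt_nhds (lt_add_one T)).filter_mono nhdsWithin_le_nhds
  obtain ⟨T', ⟨h3, h4⟩, h5⟩ := ((h1.and h2).and self_mem_nhdsWithin).exists
  refine ⟨T', h5, ?_⟩
  ext t
  constructor
  · rintro ⟨a, b, c⟩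
    refine ⟨a, ?_, c⟩
    by_contra hlt
    have := h3 t ⟨⟨a, b.trans h4.le, c⟩, fun h => hlt h⟩
    exact absurd b (not_le.2 this)
  · rintro ⟨a, b, c⟩
    exact ⟨a, b.trans (le_of_lt h5), c⟩

theorem Zo_shrink (l : ℕ) {T : ℝ} (hT : 0 < T) :
    ∃ T' : ℝ, 0 < T' ∧ T' < T ∧ Zo l T' = Zo l T := by
  have h1 : ∀ᶠ T' in 𝓝[<] T, ∀ z ∈ Zo l T, z < T' := by
    rw [Filter.eventually_all_finite (Zo_finite l T)]
    intro z hz
    exact (eventually_gt_nhds hz.2.1).filter_mono nhdsWithin_le_nhds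
  have h2 : ∀ᶠ T' in 𝓝[<] T, 0 < T' :=
    (eventually_gt_nhds hT).filter_mono nhdsWithin_le_nhds
  obtain ⟨T', ⟨h3, h4⟩, h5⟩ := ((h1.and h2).and self_mem_nhdsWithin).exists
  refine ⟨T', h4, h5, ?_⟩
  ext t
  constructor
  · rintro ⟨a, b, c⟩
    exact ⟨a, b.trans h5, c⟩
  · rintro ⟨a, b, c⟩
    exact ⟨a, h3 t ⟨a, b, c⟩, c⟩

end Pool.Agent.H68.SC
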