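import Pool.Agent.H68.SC.Basic

/-!
# Module Kill (about 90 lines): Killing derivatives

PROOF. `kf` is linear in `p` (`crs_add_left`, `crs_smul_left`) and smooth in `x` (`contDiff_crs`).
`ww_C1`: on the open set `D` the map `fderiv ℝ U` is `C¹` (`ContDiffOn.fderiv_of_isOpen`), so
`x ↦ fderiv ℝ U x (kf p x)` is `C¹` (`ContDiffOn.clm_apply`).
-/

set_option autoImplicit false

namespace Pool.Agent.H68.SC

open Filter Topology MeasureTheory Metric
open scoped ContDiff

theorem kf_add (p q : E × E) (x : E) : kf (p + q) x = kf p x + kf q x := by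
  unfold kf
  rw [Prod.fst_add, Prod.snd_add, crs_add_left]
  abel

theorem kf_smul (a : ℝ) (p : E × E) (x : E) : kf (a • p) x = a • kf p x := by
  unfold kf
  rw [Prod.smul_fst, Prod.smul_snd, crs_smul_left, smul_add]

theorem contDiff_kf (p : E × E) : ContDiff ℝ ∞ (kf p) :=
  contDiff_const.add (contDiff_crs p.2)

theorem ww_add (U : E → ℝ) (p q : E × E) : ww U (p + q) = ww U p + ww U q := by
  funext x
  change fderiv ℝ U x (kf (p + q) x) = fderiv ℝ U x (kf p x) + fderiv ℝ U x (kf q x)
  rw [kf_add, map_add]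

theorem ww_smul (U : E → ℝ) (a : ℝ) (p : E × E) : ww U (a • p) = a • ww U p := by
  funext x
  change fderiv ℝ U x (kf (a • p) x) = a * fderiv ℝ U x (kf p x)
  rw [kf_smul, map_smul, smul_eq_mul]

variable {D : Set E} {k c : ℝ} {U : E → ℝ}

theorem ww_cont (h : UU D k c U) (p : E × E) : Continuous (ww U p) :=
  (h.C1.continuous_fderiv one_ne_zero).clm_apply (contDiff_kf p).continuous

theorem ww_out (h : UU D k c U) (p : E × E) (x : E) (hx : x ∉ D) : ww U p x = 0 := by
  unfold ww
  rw [(h.out x hx).2]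
  rfl

theorem ww_C1 (h : UU D k c U) (p : E × E) : ContDiffOn ℝ 1 (ww U p) D := by
  have h1 : ContDiffOn ℝ 1 (fderiv ℝ U) D := h.C2.fderiv_of_isOpen h.opn (by norm_num)
  have h2 : ContDiffOn ℝ 1 (kf p) D := ((contDiff_kf p).of_le (by simp)).contDiffOn
  exact h1.clm_apply h2

end Pool.Agent.H68.SC
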