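import Pool.Agent.H68.SC.JZero

/-!
# Module Low1 (about 200 lines): a test function on one nodal interval

PROOF. `J x = jl l (k x)`, `J' x = k djl l (k x)`, `q x = l (l + 1) - k² x²`; on `(a, b)`:
`HasDerivAt J (J' x) x`, `HasDerivAt (fun x => x² J' x) (q x * J x) x` (`jl_deriv`, `jl_ode`).
(i) there is `C` with `|x J x| ≤ C (x - a)` and `|x J x| ≤ C (b - x)` on `(a, b)`: `J' ` is bounded on
`[a, b]` if `a > 0` and `J a = 0` or `J b = 0` (mean value theorem); if `a = 0`: `J` is bounded on `(0, b]`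
(`jl_le_one` near `0`, continuity), so `|x J x| ≤ C x`.
(ii) for small `δ > 0` let `η = η_δ` be smooth, `0 ≤ η ≤ 1`, `η = 0` for `x ≤ a + δ` and for
`x ≥ b - δ`, `η = 1` on `[a + 2 δ, b - 2 δ]`, `|η'| ≤ M / δ`, e.g.
`η x = Real.smoothTransition ((x - a) / δ - 1) * Real.smoothTransition ((b - x) / δ - 1)` (the derivative of
`smoothTransition` is continuous and vanishes outside `[0, 1]`, so it is bounded).
`ζ = J η` for `x > 0`, `0` otherwise: `C¹` with compact support in `(a, b)`.
(iii) `∫ x² ζ'² + q ζ² = ∫ x² J² η'²` because the difference is the integral over `[a, b]` of the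
derivative of `x² J' J η²`, which vanishes near `a` and `b`. By (i) and `|η'| ≤ M / δ`, `η' = 0`
outside the two intervals of length `δ`, the right side is `≤ 2 δ (2 C δ)² (M / δ)² = 8 C² M² δ → 0`.
(iv) `∫ x² ζ² ≥ ∫_{a + 2δ}^{b - 2δ} x² J² ≥ c₀ > 0` for small `δ` (`J` is not identically zero on
`(a, b)`: its zeros are simple, `djl_ne`). So
`∫ x² ζ'² + (q - κ x²) ζ² ≤ 8 C² M² δ - κ c₀ < 0` for small `δ`.
-/

set_option autoImplicit false

namespace Pool.Agent.H68.SC

open Filter Topology MeasureTheory Metric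
open scoped ContDiff

/-- the derivative of `smoothTransition` vanishes outside `(0, 1)` -/
theorem dst_zero {y : ℝ} (hy : y ≤ 0 ∨ 1 ≤ y) : deriv Real.smoothTransition y = 0 := by
  rcases hy with hy | hy
  · refine IsLocalMin.deriv_eq_zero ?_
    refine Filter.Eventually.of_forall fun z => ?_
    rw [Real.smoothTransition.zero_of_nonpos hy]
    exact Real.smoothTransition.nonneg z
  · refine IsLocalMax.deriv_eq_zero ?_
    refine Filter.Eventually.of_forall fun z => ?_
    rw [Real.smoothTransition.one_of_one_le hy]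
    exact Real.smoothTransition.le_one z

theorem dst_cont : Continuous (deriv Real.smoothTransition) :=
  (Real.smoothTransition.contDiff (n := 1)).continuous_deriv le_rfl

theorem exists_dst_bound : ∃ M : ℝ, 0 ≤ M ∧ ∀ y, |deriv Real.smoothTransition y| ≤ M := by
  obtain ⟨M, hM⟩ := (isCompact_Icc (a := (0 : ℝ)) (b := 1)).exists_bound_of_continuousOn
    dst_cont.continuousOn
  refine ⟨max M 0, le_max_right _ _, fun y => ?_⟩
  by_cases hy : y ∈ Set.Icc (0 : ℝ) 1
  · exact (hM y hy).trans (le_max_left _ _)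
  · rw [dst_zero, abs_zero]
    · exact le_max_right _ _
    · rw [Set.mem_Icc, not_and_or, not_le, not_le] at hy
      exact hy.imp le_of_lt le_of_lt

/-- the cutoff function -/
noncomputable def cutf (a b δ x : ℝ) : ℝ :=
  Real.smoothTransition ((x - a) / δ - 1) * Real.smoothTransition ((b - x) / δ - 1)

/-- its derivative -/
noncomputable def dcutf (a b δ x : ℝ) : ℝ :=
  deriv Real.smoothTransition ((x - a) / δ - 1) * (1 / δ) *
    Real.smoothTransition ((b - x) / δ - 1) +
  Real.smoothTransition ((x - a) / δ - 1) *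
    (deriv Real.smoothTransition ((b - x) / δ - 1) * (-1 / δ))

theorem cutf_deriv (a b δ x : ℝ) : HasDerivAt (cutf a b δ) (dcutf a b δ x) x := by
  have hs : ∀ y, HasDerivAt Real.smoothTransition (deriv Real.smoothTransition y) y := fun y =>
    ((Real.smoothTransition.contDiff (n := 1)).differentiable one_ne_zero y).hasDerivAt
  have h1 : HasDerivAt (fun x : ℝ => (x - a) / δ - 1) (1 / δ) x :=
    (((hasDerivAt_id x).sub_const a).div_const δ).sub_const 1
  have h2 : HasDerivAt (fun x : ℝ => (b - x) / δ - 1) (-1 / δ) x :=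
    (((hasDerivAt_id x).const_sub b).div_const δ).sub_const 1
  exact ((hs _).comp x h1).mul ((hs _).comp x h2)

theorem cutf_cd (a b δ : ℝ) {n : ℕ∞} : ContDiff ℝ n (cutf a b δ) := by
  unfold cutf
  refine ContDiff.mul ?_ ?_
  · exact Real.smoothTransition.contDiff.comp (by fun_prop)
  · exact Real.smoothTransition.contDiff.comp (by fun_prop)

theorem dcutf_cont (a b δ : ℝ) : Continuous (dcutf a b δ) := by
  unfold dcutf
  have h1 := dst_cont
  have h2 := Real.smoothTransition.continuous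
  fun_prop

theorem cutf_zero_left {a b δ x : ℝ} (hδ : 0 < δ) (hx : x ≤ a + δ) :
    cutf a b δ x = 0 ∧ dcutf a b δ x = 0 := by
  have h1 : (x - a) / δ - 1 ≤ 0 := by
    rw [sub_nonpos, div_le_one hδ]
    linarith
  unfold cutf dcutf
  rw [Real.smoothTransition.zero_of_nonpos h1, dst_zero (Or.inl h1)]
  simp

theorem cutf_zero_right {a b δ x : ℝ} (hδ : 0 < δ) (hx : b - δ ≤ x) :
    cutf a b δ x = 0 ∧ dcutf a b δ x = 0 := by
  have h1 : (b - x) / δ - 1 ≤ 0 := by
    rw [sub_nonpos, div_le_one hδ]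
    linarith
  unfold cutf dcutf
  rw [Real.smoothTransition.zero_of_nonpos h1, dst_zero (Or.inl h1)]
  simp

theorem cutf_one {a b δ x : ℝ} (hδ : 0 < δ) (h1 : a + 2 * δ ≤ x) (h2 : x ≤ b - 2 * δ) :
    cutf a b δ x = 1 ∧ dcutf a b δ x = 0 := by
  have h3 : 1 ≤ (x - a) / δ - 1 := by
    rw [le_sub_iff_add_le, le_div_iff₀ hδ]
    linarith
  have h4 : 1 ≤ (b - x) / δ - 1 := by
    rw [le_sub_iff_add_le, le_div_iff₀ hδ]
    linarith
  unfold cutf dcutf
  rw [Real.smoothTransition.one_of_one_le h3, Real.smoothTransition.one_of_one_le h4,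
    dst_zero (Or.inr h3), dst_zero (Or.inr h4)]
  simp

theorem dcutf_le {a b δ M x : ℝ} (hδ : 0 < δ) (hM : ∀ y, |deriv Real.smoothTransition y| ≤ M) :
    |dcutf a b δ x| ≤ 2 * M / δ := by
  have hM0 : 0 ≤ M := (abs_nonneg _).trans (hM 0)
  have hs : ∀ y, |Real.smoothTransition y| ≤ 1 := fun y => by
    rw [abs_of_nonneg (Real.smoothTransition.nonneg y)]
    exact Real.smoothTransition.le_one y
  unfold dcutf
  refine (abs_add_le _ _).trans ?_
  rw [abs_mul, abs_mul, abs_mul, abs_mul, abs_div, abs_div, abs_neg, abs_one, abs_of_pos hδ]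
  have h1 : |deriv Real.smoothTransition ((x - a) / δ - 1)| * (1 / δ) *
      |Real.smoothTransition ((b - x) / δ - 1)| ≤ M * (1 / δ) * 1 :=
    mul_le_mul (mul_le_mul_of_nonneg_right (hM _) (by positivity)) (hs _) (abs_nonneg _)
      (by positivity)
  have h2 : |Real.smoothTransition ((x - a) / δ - 1)| *
      (|deriv Real.smoothTransition ((b - x) / δ - 1)| * (1 / δ)) ≤ 1 * (M * (1 / δ)) :=
    mul_le_mul (hs _) (mul_le_mul_of_nonneg_right (hM _) (by positivity)) (by positivity)
      zero_le_one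
  calc _ ≤ M * (1 / δ) * 1 + 1 * (M * (1 / δ)) := add_le_add h1 h2
    _ = 2 * M / δ := by ring

/-- `J x = jl l (k x)` -/
noncomputable def Jf (l : ℕ) (k x : ℝ) : ℝ := jl l (k * x)

/-- its derivative -/
noncomputable def dJf (l : ℕ) (k x : ℝ) : ℝ := k * djl l (k * x)

theorem Jf_deriv (l : ℕ) {k x : ℝ} (hk : 0 < k) (hx : 0 < x) :
    HasDerivAt (Jf l k) (dJf l k x) x := by
  have h1 : HasDerivAt (fun x : ℝ => k * x) (k * 1) x := (hasDerivAt_id x).const_mul k
  have h2 := (jl_deriv l (mul_pos hk hx)).comp x h1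
  rw [mul_one, mul_comm] at h2
  exact h2

theorem Jf_ode (l : ℕ) {k x : ℝ} (hk : 0 < k) (hx : 0 < x) :
    HasDerivAt (fun x => x ^ 2 * dJf l k x)
      (((l : ℝ) * (l + 1) - k ^ 2 * x ^ 2) * Jf l k x) x := by
  have h1 : HasDerivAt (fun x : ℝ => k * x) (k * 1) x := (hasDerivAt_id x).const_mul k
  have h2 := ((jl_ode l (mul_pos hk hx)).comp x h1).const_mul (1 / k)
  have e1 : (fun x => x ^ 2 * dJf l k x) =
      fun x => 1 / k * ((fun t => t ^ 2 * djl l t) ∘ fun x => k * x) x := by
    funext y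
    simp only [Function.comp_apply, dJf]
    field_simp
  rw [e1]
  refine h2.congr_deriv ?_
  unfold Jf
  field_simp

theorem Jf_cont (l : ℕ) {k : ℝ} (hk : 0 < k) : ContinuousOn (Jf l k) (Set.Ioi 0) :=
  fun _ hx => (Jf_deriv l hk hx).continuousAt.continuousWithinAt

theorem dJf_cont (l : ℕ) {k : ℝ} (hk : 0 < k) : ContinuousOn (dJf l k) (Set.Ioi 0) := by
  unfold dJf
  refine ContinuousOn.mul continuousOn_const ?_
  refine (djl_smooth l).continuousOn.comp (continuous_const.mul continuous_id).continuousOn ?_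
  intro x hx
  exact mul_pos hk hx

/-- bounds for `J` and the derivative of `x J` -/
theorem Jf_bound (l : ℕ) {k b : ℝ} (hk : 0 < k) : ∃ C : ℝ, 0 ≤ C ∧ ∀ x, 0 < x → x ≤ b →
    |Jf l k x| ≤ C ∧ |Jf l k x + x * dJf l k x| ≤ C := by
  have hpos : (0 : ℝ) < 1 / k := by positivity
  have hsub : Set.Icc (1 / k) b ⊆ Set.Ioi 0 := fun x hx => lt_of_lt_of_le hpos hx.1
  obtain ⟨C₁, h1⟩ := (isCompact_Icc (a := 1 / k) (b := b)).exists_bound_of_continuousOn
    ((Jf_cont l hk).mono hsub)
  obtain ⟨C₂, h2⟩ := (isCompact_Icc (a := 1 / k) (b := b)).exists_bound_of_continuousOn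
    (((Jf_cont l hk).mono hsub).add (continuousOn_id.mul ((dJf_cont l hk).mono hsub)))
  refine ⟨max (max C₁ C₂) ((l : ℝ) + 2), le_trans (by positivity) (le_max_right _ _),
    fun x hx hxb => ?_⟩
  by_cases h : 1 / k ≤ x
  · exact ⟨(h1 x ⟨h, hxb⟩).trans ((le_max_left _ _).trans (le_max_left _ _)),
      (h2 x ⟨h, hxb⟩).trans ((le_max_right _ _).trans (le_max_left _ _))⟩
  · push Not at h
    have h3 : 0 < k * x := mul_pos hk hx
    have h4 : k * x ≤ 1 := by
      rw [lt_div_iff₀ hk] at h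
      linarith
    have h5 := jl_pos_small l h3 h4
    have h6 := jl_le_one l h3 h4
    have h7 := djl_bound l h3 h4
    have h8 : |Jf l k x| ≤ 1 := by
      unfold Jf
      rw [abs_of_pos h5]
      exact h6
    have h9 : |x * dJf l k x| ≤ (l : ℝ) + 1 := by
      have e : x * dJf l k x = k * x * djl l (k * x) := by
        unfold dJf
        ring
      rw [e]
      refine h7.trans ?_
      have : (0 : ℝ) ≤ (l : ℝ) + 1 := by positivity
      nlinarith
    have h10 : (0 : ℝ) ≤ l := by positivity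
    refine ⟨h8.trans (le_trans (by linarith) (le_max_right _ _)), ?_⟩
    refine ((abs_add_le _ _).trans (add_le_add h8 h9)).trans (le_trans (by linarith) (le_max_right _ _))

theorem xJ_lip (l : ℕ) {k b C : ℝ} (hk : 0 < k)
    (hC : ∀ x, 0 < x → x ≤ b → |Jf l k x + x * dJf l k x| ≤ C) {x y : ℝ} (hx : 0 < x)
    (hxb : x ≤ b) (hy : 0 < y) (hyb : y ≤ b) :
    |y * Jf l k y - x * Jf l k x| ≤ C * |y - x| := by
  have h1 : Convex ℝ (Set.Ioc 0 b) := convex_Ioc 0 b
  refine h1.norm_image_sub_le_of_norm_hasDerivWithin_le (f := fun x => x * Jf l k x)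
    (f' := fun x => Jf l k x + x * dJf l k x) (fun z hz => ?_) (fun z hz => hC z hz.1 hz.2)
    ⟨hx, hxb⟩ ⟨hy, hyb⟩
  have h2 := ((hasDerivAt_id z).mul (Jf_deriv l hk hz.1)).hasDerivWithinAt (s := Set.Ioc 0 b)
  simp only [id_eq, one_mul] at h2
  exact h2

theorem low1 (l : ℕ) {k a b κ : ℝ} (hk : 0 < k) (ha : 0 ≤ a) (hab : a < b) (hκ : 0 < κ)
    (h1 : a = 0 ∨ jl l (k * a) = 0) (h2 : jl l (k * b) = 0) :
    ∃ ζ : ℝ → ℝ, ContDiff ℝ 1 ζ ∧ HasCompactSupport ζ ∧ tsupport ζ ⊆ Set.Ioo a b ∧
      (∫ x in a..b, (x ^ 2 * deriv ζ x ^ 2 +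
        ((l : ℝ) * (l + 1) - (k ^ 2 + κ) * x ^ 2) * ζ x ^ 2)) < 0 := by
  obtain ⟨M, hM0, hM⟩ := exists_dst_bound
  obtain ⟨C, hC0, hC⟩ := Jf_bound l (b := b) hk
  have hb : 0 < b := lt_of_le_of_lt ha hab
  -- the bounds at the end points
  have hA : ∀ x, 0 < x → a < x → x ≤ b → |x * Jf l k x| ≤ C * (x - a) := by
    intro x hx hax hxb
    rcases eq_or_lt_of_le ha with h0 | h0
    · rw [abs_mul, abs_of_pos hx, ← h0, sub_zero, mul_comm]
      exact mul_le_mul_of_nonneg_right (hC x hx hxb).1 hx.le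
    · have h3 := xJ_lip l hk (fun x hx hxb => (hC x hx hxb).2) h0 hab.le hx hxb
      have h4 : Jf l k a = 0 := by
        rcases h1 with h1 | h1
        · exact absurd h1 h0.ne'
        · exact h1
      rw [h4, mul_zero, sub_zero, abs_of_pos (sub_pos.2 hax)] at h3
      exact h3
  have hB : ∀ x, 0 < x → x ≤ b → |x * Jf l k x| ≤ C * (b - x) := by
    intro x hx hxb
    have h3 := xJ_lip l hk (fun x hx hxb => (hC x hx hxb).2) hb le_rfl hx hxb
    have h4 : Jf l k b = 0 := h2
    rw [h4, mul_zero, sub_zero, abs_sub_comm x b, abs_of_nonneg (sub_nonneg.2 hxb)] at h3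
    exact h3
  -- the middle part
  set m := (a + b) / 2 with hm
  set m1 := (3 * a + b) / 4 with hm1
  set m2 := (a + 3 * b) / 4 with hm2
  have hm1pos : 0 < m1 := by rw [hm1]; linarith
  have hm12 : m1 < m2 := by rw [hm1, hm2]; linarith
  have hJm : ContinuousOn (Jf l k) (Set.Icc m1 m2) :=
    (Jf_cont l hk).mono fun x hx => lt_of_lt_of_le hm1pos hx.1
  set c₀ := ∫ x in m1..m2, (x * Jf l k x) ^ 2 with hc₀
  have hc₀pos : 0 < c₀ := by
    refine intervalIntegral.integral_pos hm12 ((continuousOn_id.mul hJm).pow 2)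
      (fun x _ => sq_nonneg _) ?_
    by_contra hcon
    push Not at hcon
    have h3 : ∀ x ∈ Set.Icc m1 m2, Jf l k x = 0 := by
      intro x hx
      have h4 := hcon x hx
      have h5 : x * Jf l k x = 0 := by
        have h6 := sq_nonneg (x * Jf l k x)
        exact pow_eq_zero_iff (two_ne_zero) |>.1 (le_antisymm h4 h6)
      exact (mul_eq_zero.1 h5).resolve_left (lt_of_lt_of_le hm1pos hx.1).ne'
    have hmm : m ∈ Set.Ioo m1 m2 := by
      rw [hm, hm1, hm2]
      constructor <;> linarith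
    have hmpos : 0 < m := hm1pos.trans hmm.1
    have h4 : Jf l k =ᶠ[𝓝 m] fun _ => 0 := by
      filter_upwards [Icc_mem_nhds hmm.1 hmm.2] with x hx
      exact h3 x hx
    have h5 := (Jf_deriv l hk hmpos).unique ((hasDerivAt_const m (0 : ℝ)).congr_of_eventuallyEq h4)
    have h6 := djl_ne l (mul_pos hk hmpos) (h3 m (Set.Ioo_subset_Icc_self hmm))
    unfold dJf at h5
    exact h6 ((mul_eq_zero.1 h5).resolve_left hk.ne')
  -- the choice of the width
  obtain ⟨δ, hδ, hδ1, hδ2⟩ : ∃ δ : ℝ, 0 < δ ∧ 8 * δ ≤ b - a ∧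
      32 * C ^ 2 * M ^ 2 * δ < κ * c₀ := by
    have h3 : 0 < κ * c₀ := mul_pos hκ hc₀pos
    refine ⟨min ((b - a) / 8) (κ * c₀ / (32 * C ^ 2 * M ^ 2 + 1)), ?_, ?_, ?_⟩
    · exact lt_min (by linarith) (by positivity)
    · have := min_le_left ((b - a) / 8) (κ * c₀ / (32 * C ^ 2 * M ^ 2 + 1))
      linarith
    · have h4 := min_le_right ((b - a) / 8) (κ * c₀ / (32 * C ^ 2 * M ^ 2 + 1))
      have h5 : (0 : ℝ) < 32 * C ^ 2 * M ^ 2 + 1 := by positivity
      have h6 : 0 < min ((b - a) / 8) (κ * c₀ / (32 * C ^ 2 * M ^ 2 + 1)) :=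
        lt_min (by linarith) (by positivity)
      rw [le_div_iff₀ h5] at h4
      nlinarith
  set η := cutf a b δ with hη
  set η' := dcutf a b δ with hη'
  have haδ : 0 < a + δ := by linarith
  let ζ : ℝ → ℝ := fun x => Jf l k x * η x
  have hζd : ∀ x, 0 < x → HasDerivAt ζ (dJf l k x * η x + Jf l k x * η' x) x := fun x hx =>
    (Jf_deriv l hk hx).mul (cutf_deriv a b δ x)
  have hζ0 : ∀ x, x ≤ a + δ → ζ x = 0 := fun x hx => by
    simp only [ζ, hη, (cutf_zero_left hδ hx).1, mul_zero]
  have hζ1 : ∀ x, b - δ ≤ x → ζ x = 0 := fun x hx => by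
    simp only [ζ, hη, (cutf_zero_right hδ hx).1, mul_zero]
  have hdζ0 : ∀ x, x ≤ a + δ → deriv ζ x = 0 := fun x hx => by
    rcases le_or_gt x 0 with h0 | h0
    · have h3 : ζ =ᶠ[𝓝 x] fun _ => 0 := by
        filter_upwards [Iio_mem_nhds (lt_of_le_of_lt h0 haδ)] with y hy
        exact hζ0 y (le_of_lt hy)
      rw [h3.deriv_eq, deriv_const]
    · rw [(hζd x h0).deriv, hη, hη', (cutf_zero_left hδ hx).1, (cutf_zero_left hδ hx).2]
      simp
  have hdζ1 : ∀ x, b - δ ≤ x → deriv ζ x = 0 := fun x hx => by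
    rw [(hζd x (by linarith)).deriv, hη, hη', (cutf_zero_right hδ hx).1,
      (cutf_zero_right hδ hx).2]
    simp
  have hζC : ContDiff ℝ 1 ζ := by
    rw [contDiff_iff_contDiffAt]
    intro x
    rcases lt_or_ge x (a + δ) with h0 | h0
    · have h3 : ζ =ᶠ[𝓝 x] fun _ => 0 := by
        filter_upwards [Iio_mem_nhds h0] with y hy
        exact hζ0 y (le_of_lt hy)
      exact contDiffAt_const.congr_of_eventuallyEq h3
    · have hx : 0 < x := by linarith
      refine ContDiffAt.mul ?_ (cutf_cd a b δ (n := 1)).contDiffAt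
      have h3 : ContDiffAt ℝ ∞ (jl l) (k * x) :=
        (jl_smooth l).contDiffAt (Ioi_mem_nhds (mul_pos hk hx))
      exact (h3.of_le (by exact_mod_cast le_top)).comp x (contDiffAt_const.mul contDiffAt_id)
  have hsupp : tsupport ζ ⊆ Set.Icc (a + δ) (b - δ) := by
    refine closure_minimal (fun x hx => ?_) isClosed_Icc
    rw [Function.mem_support] at hx
    constructor
    · by_contra h
      exact hx (hζ0 x (le_of_lt (not_le.1 h)))
    · by_contra h
      exact hx (hζ1 x (le_of_lt (not_le.1 h)))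
  refine ⟨ζ, hζC, isCompact_Icc.of_isClosed_subset (isClosed_tsupport ζ) hsupp,
    hsupp.trans fun x hx => ⟨by linarith [hx.1], by linarith [hx.2]⟩, ?_⟩
  set a' := a + δ with ha'
  set b' := b - δ with hb'
  have hab' : a' ≤ b' := by rw [ha', hb']; linarith
  have hIcc : Set.Icc a' b' ⊆ Set.Ioi 0 := fun x hx => lt_of_lt_of_le haδ hx.1
  have huIcc : Set.uIcc a' b' = Set.Icc a' b' := Set.uIcc_of_le hab'
  set f : ℝ → ℝ := fun x => x ^ 2 * deriv ζ x ^ 2 +
        ((l : ℝ) * (l + 1) - (k ^ 2 + κ) * x ^ 2) * ζ x ^ 2 with hf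
  have hfc : Continuous f := by
    have e1 : Continuous (deriv ζ) := hζC.continuous_deriv le_rfl
    have e2 : Continuous ζ := hζC.continuous
    rw [hf]
    fun_prop
  have hηc : Continuous η := (cutf_cd a b δ (n := 0)).continuous
  have hη'c : Continuous η' := dcutf_cont a b δ
  have hJc := (Jf_cont l hk).mono hIcc
  have hI1 : ∫ x in a..b, f x = ∫ x in a'..b', f x := by
    have e1 : ∫ x in a..a', f x = 0 := by
      rw [intervalIntegral.integral_congr (g := fun _ => 0), intervalIntegral.integral_zero]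
      intro x hx
      rw [Set.uIcc_of_le (by linarith)] at hx
      simp only [hf, hζ0 x hx.2, hdζ0 x hx.2]
      ring
    have e2 : ∫ x in b'..b, f x = 0 := by
      rw [intervalIntegral.integral_congr (g := fun _ => 0), intervalIntegral.integral_zero]
      intro x hx
      rw [Set.uIcc_of_le (by linarith)] at hx
      simp only [hf, hζ1 x hx.1, hdζ1 x hx.1]
      ring
    rw [← intervalIntegral.integral_add_adjacent_intervals (hfc.intervalIntegrable a a')
      (hfc.intervalIntegrable a' b), ← intervalIntegral.integral_add_adjacent_intervals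
      (hfc.intervalIntegrable a' b') (hfc.intervalIntegrable b' b), e1, e2]
    ring
  have hg1 : ContinuousOn (fun x => (x * Jf l k x * η' x) ^ 2) (Set.Icc a' b') :=
    ((continuousOn_id.mul hJc).mul hη'c.continuousOn).pow 2
  have hg2 : ContinuousOn (fun x => (x * Jf l k x * η x) ^ 2) (Set.Icc a' b') :=
    ((continuousOn_id.mul hJc).mul hηc.continuousOn).pow 2
  have hi1 : IntervalIntegrable (fun x => (x * Jf l k x * η' x) ^ 2) volume a' b' :=
    ContinuousOn.intervalIntegrable (by rw [huIcc]; exact hg1)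
  have hi2 : IntervalIntegrable (fun x => (x * Jf l k x * η x) ^ 2) volume a' b' :=
    ContinuousOn.intervalIntegrable (by rw [huIcc]; exact hg2)
  have hFTC : ∫ x in a'..b', (f x - ((x * Jf l k x * η' x) ^ 2 -
      κ * (x * Jf l k x * η x) ^ 2)) = 0 := by
    rw [intervalIntegral.integral_eq_sub_of_hasDerivAt
      (f := fun x => x ^ 2 * dJf l k x * (Jf l k x * η x ^ 2)) (fun x hx => ?_)
      ((hfc.intervalIntegrable a' b').sub (hi1.sub (hi2.const_mul κ)))]
    · simp only [hη, ha', hb', (cutf_zero_left hδ le_rfl).1, (cutf_zero_right hδ le_rfl).1]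
      ring
    · rw [huIcc] at hx
      have hx0 : 0 < x := hIcc hx
      have e1 := (Jf_ode l hk hx0).mul ((Jf_deriv l hk hx0).mul ((cutf_deriv a b δ x).pow 2))
      refine e1.congr_deriv ?_
      simp only [hf]
      rw [(hζd x hx0).deriv]
      simp only [ζ, hη, hη', Nat.cast_ofNat, Pi.mul_apply, Pi.pow_apply]
      ring
  rw [intervalIntegral.integral_sub (hfc.intervalIntegrable a' b') (hi1.sub (hi2.const_mul κ)),
    intervalIntegral.integral_sub hi1 (hi2.const_mul κ), intervalIntegral.integral_const_mul] at hFTC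
  -- the lower bound
  have hlow : c₀ ≤ ∫ x in a'..b', (x * Jf l k x * η x) ^ 2 := by
    have e1 : c₀ = ∫ x in m1..m2, (x * Jf l k x * η x) ^ 2 := by
      rw [hc₀]
      refine intervalIntegral.integral_congr fun x hx => ?_
      rw [Set.uIcc_of_le hm12.le] at hx
      simp only [hη]
      rw [(cutf_one hδ (by linarith [hx.1]) (by linarith [hx.2])).1, mul_one]
    rw [e1]
    refine intervalIntegral.integral_mono_interval (by linarith) hm12.le (by linarith)
      (Filter.Eventually.of_forall fun x => sq_nonneg _) hi2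
  -- the upper bound
  have hup : ∫ x in a'..b', (x * Jf l k x * η' x) ^ 2 ≤ 32 * C ^ 2 * M ^ 2 * δ := by
    set h := fun x => (x * Jf l k x * η' x) ^ 2 with hh
    have hi : ∀ x y, a' ≤ x → x ≤ b' → a' ≤ y → y ≤ b' → IntervalIntegrable h volume x y := by
      intro x y h3 h4 h5 h6
      refine ContinuousOn.intervalIntegrable (hg1.mono ?_)
      intro z hz
      rw [Set.mem_uIcc] at hz
      rcases hz with hz | hz
      · exact ⟨h3.trans hz.1, hz.2.trans h6⟩
      · exact ⟨h5.trans hz.1, hz.2.trans h4⟩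
    have hpt : ∀ x, 0 < x → |x * Jf l k x| ≤ C * (2 * δ) → |h x| ≤ 16 * C ^ 2 * M ^ 2 := by
      intro x hx h3
      have h4 : |η' x| ≤ 2 * M / δ := dcutf_le hδ hM
      have h5 : |x * Jf l k x * η' x| ≤ 4 * C * M := by
        rw [abs_mul]
        calc |x * Jf l k x| * |η' x| ≤ C * (2 * δ) * (2 * M / δ) :=
              mul_le_mul h3 h4 (abs_nonneg _) (by positivity)
          _ = 4 * C * M := by field_simp; ring
      rw [hh]
      simp only
      rw [abs_of_nonneg (sq_nonneg _), ← sq_abs]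
      calc |x * Jf l k x * η' x| ^ 2 ≤ (4 * C * M) ^ 2 := pow_le_pow_left₀ (abs_nonneg _) h5 2
        _ = 16 * C ^ 2 * M ^ 2 := by ring
    have e1 : ∫ x in a'..(a + 2 * δ), h x ≤ 16 * C ^ 2 * M ^ 2 * δ := by
      have := intervalIntegral.norm_integral_le_of_norm_le_const (a := a') (b := a + 2 * δ)
        (f := h) (C := 16 * C ^ 2 * M ^ 2) (fun x hx => ?_)
      · refine (le_abs_self _).trans (this.trans (le_of_eq ?_))
        rw [ha', show a + 2 * δ - (a + δ) = δ by ring, abs_of_pos hδ]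
      · rw [Set.uIoc_of_le (by linarith)] at hx
        refine hpt x (by linarith [hx.1]) ((hA x (by linarith [hx.1]) (by linarith [hx.1])
          (by linarith [hx.2])).trans ?_)
        exact mul_le_mul_of_nonneg_left (by linarith [hx.2]) hC0
    have e2 : ∫ x in (a + 2 * δ)..(b - 2 * δ), h x = 0 := by
      rw [intervalIntegral.integral_congr (g := fun _ => 0), intervalIntegral.integral_zero]
      intro x hx
      rw [Set.uIcc_of_le (by linarith)] at hx
      simp only [hh, hη', (cutf_one hδ hx.1 hx.2).2]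
      ring
    have e3 : ∫ x in (b - 2 * δ)..b', h x ≤ 16 * C ^ 2 * M ^ 2 * δ := by
      have := intervalIntegral.norm_integral_le_of_norm_le_const (a := b - 2 * δ) (b := b')
        (f := h) (C := 16 * C ^ 2 * M ^ 2) (fun x hx => ?_)
      · refine (le_abs_self _).trans (this.trans (le_of_eq ?_))
        rw [hb', show b - δ - (b - 2 * δ) = δ by ring, abs_of_pos hδ]
      · rw [Set.uIoc_of_le (by linarith)] at hx
        refine hpt x (by linarith [hx.1]) ((hB x (by linarith [hx.1])
          (by linarith [hx.2])).trans ?_)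
        exact mul_le_mul_of_nonneg_left (by linarith [hx.1]) hC0
    rw [← intervalIntegral.integral_add_adjacent_intervals
      (hi a' (a + 2 * δ) le_rfl hab' (by linarith) (by linarith))
      (hi (a + 2 * δ) b' (by linarith) (by linarith) hab' le_rfl),
      ← intervalIntegral.integral_add_adjacent_intervals
      (hi (a + 2 * δ) (b - 2 * δ) (by linarith) (by linarith) (by linarith) (by linarith))
      (hi (b - 2 * δ) b' (by linarith) (by linarith) hab' le_rfl), e2]
    linarith
  rw [hI1]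
  have h3 := mul_le_mul_of_nonneg_left hlow hκ.le
  linarith

end Pool.Agent.H68.SC
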