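import Pool.Agent.H68.SC.Low1

/-!
# Module LowF (about 100 lines): disjoint test functions on `(0, r)`

PROOF. By `Zo_shrink` (`T = k r`) there is `T' < k r` with `Zo l T' = Zo l (k r)`; put `k' = T' / r < k`,
`κ = k² - k'² > 0`. Let `t_1 < ... < t_n` be the elements of the finite set `Zo l (k r)`
(`Finset.orderEmbOfFin` / `orderIsoOfFin` of `(Zo_finite l _).toFinset`), `t_0 = 0`; all `t_j < T'`, so
`t_j / k' < r`. `low1` on `(t_{j-1} / k', t_j / k')` with `k'` and `κ` gives `ζ_j`; its support lies in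
this interval, so the integral over `[0, r]` equals the one over the interval (the integrand
vanishes outside `tsupport ζ_j`), and different intervals are disjoint.
-/

set_option autoImplicit false

namespace Pool.Agent.H68.SC

open Filter Topology MeasureTheory Metric
open scoped ContDiff

private theorem supp_integrand (ζ : ℝ → ℝ) (A B : ℝ) :
    Function.support (fun x : ℝ => x ^ 2 * deriv ζ x ^ 2 + (A - B * x ^ 2) * ζ x ^ 2)
      ⊆ tsupport ζ := by
  intro x hx
  by_contra hc
  apply hx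
  have h1 : ζ x = 0 := image_eq_zero_of_notMem_tsupport hc
  have h2 : deriv ζ x = 0 := by
    by_contra h3
    exact hc (support_deriv_subset h3)
  simp only [h1, h2]
  ring

theorem lowF (l : ℕ) {k r : ℝ} (hk : 0 < k) (hr : 0 < r) :
    ∃ ζ : Fin (Zo l (k * r)).ncard → ℝ → ℝ,
      (∀ j, ContDiff ℝ 1 (ζ j) ∧ HasCompactSupport (ζ j) ∧ tsupport (ζ j) ⊆ Set.Ioo 0 r ∧
        (∫ x in (0 : ℝ)..r, (x ^ 2 * deriv (ζ j) x ^ 2 +
          ((l : ℝ) * (l + 1) - k ^ 2 * x ^ 2) * ζ j x ^ 2)) < 0) ∧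
      ∀ i j, i ≠ j → Disjoint (tsupport (ζ i)) (tsupport (ζ j)) := by
  obtain ⟨T', hT0, hTk, hZ⟩ := Zo_shrink l (mul_pos hk hr)
  set k' : ℝ := T' / r with hk'
  have hk'0 : 0 < k' := div_pos hT0 hr
  have hk'k : k' < k := by rw [hk', div_lt_iff₀ hr]; exact hTk
  have hT' : T' = k' * r := by rw [hk']; field_simp
  have hκ : 0 < k ^ 2 - k' ^ 2 := by nlinarith
  have hfin := Zo_finite l (k * r)
  set n := (Zo l (k * r)).ncard with hn
  have hcard : hfin.toFinset.card = n := (Set.ncard_eq_toFinset_card _ hfin).symm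
  let t : Fin n ↪o ℝ := hfin.toFinset.orderEmbOfFin hcard
  have htmem : ∀ j, t j ∈ Zo l (k * r) := by
    intro j
    have := Finset.orderEmbOfFin_mem hfin.toFinset hcard j
    exact hfin.mem_toFinset.1 this
  have htpos : ∀ j, 0 < t j := fun j => (htmem j).1
  have htT : ∀ j, t j < T' := by
    intro j
    have := htmem j
    rw [← hZ] at this
    exact this.2.1
  have htz : ∀ j, jl l (t j) = 0 := fun j => (htmem j).2.2
  let p : Fin n → ℝ := fun j => if h : (j : ℕ) = 0 then 0 else t ⟨(j : ℕ) - 1, by omega⟩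
  have hp0 : ∀ j, 0 ≤ p j := by
    intro j
    simp only [p]
    split_ifs with h
    · exact le_rfl
    · exact (htpos _).le
  have hpt : ∀ j, p j < t j := by
    intro j
    simp only [p]
    split_ifs with h
    · exact htpos j
    · apply t.strictMono
      rw [Fin.lt_def]
      simp only
      omega
  have hpz : ∀ j, p j = 0 ∨ jl l (p j) = 0 := by
    intro j
    simp only [p]
    split_ifs with h
    · exact Or.inl rfl
    · exact Or.inr (htz _)
  have hple : ∀ i j : Fin n, i < j → t i ≤ p j := by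
    intro i j hij
    have h1 : (i : ℕ) < j := hij
    have h : ¬ (j : ℕ) = 0 := by omega
    simp only [p, dif_neg h]
    apply t.monotone
    rw [Fin.le_def]
    simp only
    omega
  have hmul : ∀ x : ℝ, k' * (x / k') = x := fun x => by field_simp
  have hex : ∀ j : Fin n, ∃ ζ : ℝ → ℝ, ContDiff ℝ 1 ζ ∧ HasCompactSupport ζ ∧
      tsupport ζ ⊆ Set.Ioo (p j / k') (t j / k') ∧
      (∫ x in (p j / k')..(t j / k'), (x ^ 2 * deriv ζ x ^ 2 +
        ((l : ℝ) * (l + 1) - (k' ^ 2 + (k ^ 2 - k' ^ 2)) * x ^ 2) * ζ x ^ 2)) < 0 := by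
    intro j
    refine low1 l hk'0 (div_nonneg (hp0 j) hk'0.le) ((div_lt_div_iff_of_pos_right hk'0).2 (hpt j))
      hκ ?_ ?_
    · rcases hpz j with h | h
      · left; rw [h, zero_div]
      · right; rw [hmul]; exact h
    · rw [hmul]; exact htz j
  choose ζ hζ1 hζ2 hζ3 hζ4 using hex
  have hbr : ∀ j, t j / k' < r := by
    intro j
    rw [div_lt_iff₀ hk'0, mul_comm, ← hT']
    exact htT j
  have ha0 : ∀ j, 0 ≤ p j / k' := fun j => div_nonneg (hp0 j) hk'0.le
  have hsub : ∀ j, tsupport (ζ j) ⊆ Set.Ioo 0 r := fun j x hx =>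
    ⟨(ha0 j).trans_lt (hζ3 j hx).1, (hζ3 j hx).2.trans (hbr j)⟩
  refine ⟨ζ, fun j => ⟨hζ1 j, hζ2 j, hsub j, ?_⟩, fun i j hij => ?_⟩
  · have h1 := hζ4 j
    have h2 : k' ^ 2 + (k ^ 2 - k' ^ 2) = k ^ 2 := by ring
    rw [h2] at h1
    have h3 := supp_integrand (ζ j) ((l : ℝ) * (l + 1)) (k ^ 2)
    rw [intervalIntegral.integral_eq_integral_of_support_subset
      (h3.trans ((hζ3 j).trans Set.Ioo_subset_Ioc_self))] at h1
    rw [intervalIntegral.integral_eq_integral_of_support_subset
      (h3.trans ((hsub j).trans Set.Ioo_subset_Ioc_self))]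
    exact h1
  · have key : ∀ i j : Fin n, i < j → Disjoint (tsupport (ζ i)) (tsupport (ζ j)) := by
      intro i j hij
      rw [Set.disjoint_left]
      intro x hx hx'
      have h1 := (hζ3 i hx).2
      have h2 := (hζ3 j hx').1
      have h3 : t i / k' ≤ p j / k' := (div_le_div_iff_of_pos_right hk'0).2 (hple i j hij)
      linarith
    rcases lt_or_gt_of_ne hij with h | h
    · exact key i j h
    · exact (key j i h).symm

end Pool.Agent.H68.SC
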