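import Pool.Agent.H68.SC.Polar

/-!
# Module Mom (about 120 lines): moments on spheres

PROOF. `mom_deriv`: differentiation under the integral sign (`hasDerivAt_integral_of_dominated_loc_of_deriv_le`):
for `|ρ - r| < 1`, `y` on the unit sphere, the derivative of `ρ ↦ g (ρ • y) * Y y` is
`fderiv ℝ g (ρ • y) y * Y y`, bounded on a compact set by continuity. `dmom_cont`: continuity of
parametric integrals (`continuous_parametric_integral_of_continuous` or
`continuous_of_dominated`) over the compact sphere. `mom_zero`: the integrand vanishes.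
`mom_parity`: for even `g` the integrand satisfies `F (-y) = (-1) ^ l * F y` (`H.parity`), and
`sg_neg`. `mom_add`, `mom_smul`: linearity (continuous integrands on a compact space with a
finite measure are integrable).
-/

set_option autoImplicit false

namespace Pool.Agent.H68.SC

open Filter Topology MeasureTheory Metric
open scoped ContDiff

variable (H : Harm)

private theorem mom_ccont {F : S2 → ℝ} (hF : Continuous F) : Integrable F sg :=
  hF.integrable_of_hasCompactSupport
    (HasCompactSupport.of_compactSpace F)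

private theorem mom_c0 {g Y : E → ℝ} (hg : Continuous g) (hY : Continuous Y) :
    Continuous (Function.uncurry fun (r : ℝ) (y : S2) => g (r • (y : E)) * Y y) :=
  Continuous.mul (hg.comp (continuous_fst.smul (continuous_subtype_val.comp continuous_snd)))
    (hY.comp (continuous_subtype_val.comp continuous_snd))

private theorem mom_c1 {g Y : E → ℝ} (hg : ContDiff ℝ 1 g) (hY : Continuous Y) :
    Continuous (Function.uncurry fun (r : ℝ) (y : S2) =>
      fderiv ℝ g (r • (y : E)) (y : E) * Y y) := by
  have h1 : Continuous fun p : ℝ × S2 => fderiv ℝ g (p.1 • (p.2 : E)) (p.2 : E) :=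
    ((hg.continuous_fderiv one_ne_zero).comp
      (continuous_fst.smul (continuous_subtype_val.comp continuous_snd))).clm_apply
      (continuous_subtype_val.comp continuous_snd)
  exact h1.mul (hY.comp (continuous_subtype_val.comp continuous_snd))

theorem mom_deriv {g : E → ℝ} (hg : ContDiff ℝ 1 g) (l : ℕ) (i : Fin (H.d l)) (r : ℝ) :
    HasDerivAt (mom H g l i) (dmom H g l i r) r := by
  have hY : Continuous (H.Y l i) := (H.smooth l i).continuous
  have hc0 := mom_c0 hg.continuous hY
  have hc1 := mom_c1 hg hY
  obtain ⟨C, hC⟩ := ((isCompact_Icc (a := r - 1) (b := r + 1)).prod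
    (isCompact_univ (X := S2))).exists_bound_of_continuousOn hc1.continuousOn
  have hs : Set.Icc (r - 1) (r + 1) ∈ 𝓝 r := Icc_mem_nhds (by linarith) (by linarith)
  have key := hasDerivAt_integral_of_dominated_loc_of_deriv_le (μ := sg) (𝕜 := ℝ) (x₀ := r)
    (F := fun (r : ℝ) (y : S2) => g (r • (y : E)) * H.Y l i y)
    (F' := fun (r : ℝ) (y : S2) => fderiv ℝ g (r • (y : E)) (y : E) * H.Y l i y)
    (bound := fun _ => C) hs
    (Eventually.of_forall fun ρ =>
      (hc0.comp (Continuous.prodMk_right ρ)).aestronglyMeasurable)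
    (mom_ccont (hc0.comp (Continuous.prodMk_right r)))
    (hc1.comp (Continuous.prodMk_right r)).aestronglyMeasurable
    (Eventually.of_forall fun y ρ hρ => hC (ρ, y) ⟨hρ, Set.mem_univ _⟩)
    (integrable_const C)
    (Eventually.of_forall fun y ρ _ => by
      have h1 : HasDerivAt (fun ρ : ℝ => ρ • (y : E)) (y : E) ρ := by
        simpa using (hasDerivAt_id ρ).smul_const (y : E)
      have h2 := ((hg.differentiable one_ne_zero) (ρ • (y : E))).hasFDerivAt.comp_hasDerivAt ρ h1
      exact h2.mul_const _)
  exact key.2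

theorem dmom_cont {g : E → ℝ} (hg : ContDiff ℝ 1 g) (l : ℕ) (i : Fin (H.d l)) :
    Continuous (dmom H g l i) := by
  have hY : Continuous (H.Y l i) := (H.smooth l i).continuous
  have h2 := continuous_parametric_integral_of_continuous (μ := sg) (mom_c1 hg hY)
    (isCompact_univ (X := S2))
  have h3 : dmom H g l i = fun x => ∫ y : S2, fderiv ℝ g (x • (y : E)) (y : E) * H.Y l i y ∂sg := rfl
  rw [h3]
  simpa using h2

theorem mom_zero {g : E → ℝ} {R : ℝ} (hR : 0 ≤ R) (hg : ∀ x, R ≤ ‖x‖ → g x = 0) (l : ℕ)
    (i : Fin (H.d l)) {r : ℝ} (hr : R ≤ r) : mom H g l i r = 0 := by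
  unfold mom
  have h : ∀ y : S2, g (r • (y : E)) * H.Y l i y = 0 := by
    intro y
    have hy : ‖(y : E)‖ = 1 := mem_sphere_zero_iff_norm.1 y.2
    rw [hg, zero_mul]
    rw [norm_smul, hy, mul_one, Real.norm_eq_abs, abs_of_nonneg (hR.trans hr)]
    exact hr
  simp only [h, integral_zero]

theorem mom_parity {g : E → ℝ} (hg : g ∈ Sy (-1)) {l : ℕ} (hl : (-1 : ℝ) ^ l ≠ 1)
    (i : Fin (H.d l)) (r : ℝ) : mom H g l i r = 0 := by
  have hl1 : (-1 : ℝ) ^ l = -1 := (neg_one_pow_eq_or ℝ l).resolve_left hl
  have h1 := sg_neg (fun x => g (r • x) * H.Y l i x)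
  have h2 : ∀ y : S2, g (r • -(y : E)) * H.Y l i (-(y : E)) =
      -(g (r • (y : E)) * H.Y l i y) := by
    intro y
    have hy : ‖(y : E)‖ = 1 := mem_sphere_zero_iff_norm.1 y.2
    have h3 : g (r • -(y : E)) = g (r • (y : E)) := by
      have := hg (r • (y : E))
      rw [← this]
      congr 1
      rw [smul_neg, neg_smul, one_smul]
    rw [h3, H.parity l i _ hy, hl1]
    ring
  have h4 : ∫ y : S2, g (r • -(y : E)) * H.Y l i (-(y : E)) ∂sg =
      -∫ y : S2, g (r • (y : E)) * H.Y l i y ∂sg := by
    rw [← integral_neg]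
    exact integral_congr_ae (Eventually.of_forall h2)
  have h5 : mom H g l i r = -mom H g l i r := by
    unfold mom
    rw [← h4]
    exact h1.symm
  linarith

theorem mom_add {f g : E → ℝ} (hf : Continuous f) (hg : Continuous g) (l : ℕ)
    (i : Fin (H.d l)) (r : ℝ) : mom H (f + g) l i r = mom H f l i r + mom H g l i r := by
  have hY : Continuous (H.Y l i) := (H.smooth l i).continuous
  unfold mom
  rw [← integral_add]
  · refine integral_congr_ae (Eventually.of_forall fun y => ?_)
    simp only [Pi.add_apply]
    ring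
  · exact mom_ccont ((mom_c0 hf hY).comp (Continuous.prodMk_right r))
  · exact mom_ccont ((mom_c0 hg hY).comp (Continuous.prodMk_right r))

theorem mom_smul (a : ℝ) (f : E → ℝ) (l : ℕ) (i : Fin (H.d l)) (r : ℝ) :
    mom H (a • f) l i r = a * mom H f l i r := by
  unfold mom
  rw [← integral_const_mul]
  refine integral_congr_ae (Eventually.of_forall fun y => ?_)
  simp only [Pi.smul_apply, smul_eq_mul]
  ring

end Pool.Agent.H68.SC
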