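import Pool.Agent.H68.SC.Gap
import Pool.Agent.H68.SC.Mom

/-!
# Module Lower (about 130 lines): the form dominates its one-dimensional parts

PROOF. `F x = gg g g x - K * (g x * g x)` is continuous and vanishes for `‖x‖ ≥ R`. By `polarR`
`BB K g g = ∫ r in 0..R, r² ∫ y, F (r • y) ∂sg`. By `lagrange` at `x = r • y`, `‖y‖ = 1`, `r > 0`:
`r² gg g g (r • y) = r² (fderiv ℝ g (r • y) y)² + ∑ a, LL a g (r • y) ^ 2`, so
`r² ∫ F (r • y) = r² ∫ (fderiv ℝ g (r • y) y)² + ∫ (∑ a, LL a g (r • y) ^ 2 - K r² g (r • y)²)`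
`≥ r² ∑_{l < L} ∑ i, dmom² + ∑_{l < L} ∑ i, (l (l + 1) - K r²) mom²` by `bessel` (for the continuous
function `f x = fderiv ℝ g (r • x) x`) and `gap` (as `K r² ≤ K R² ≤ L (L + 1)`). Integrate over
`(0, R)` (`intervalIntegral.integral_mono_on`, `intervalIntegral.integral_finsetSum`, all
functions of `r` are continuous: `sg_cont`-type lemmas, `dmom_cont`, `mom_deriv`; for the inner integral of `F` use a
parametric integral over the compact sphere).
-/

set_option autoImplicit false

namespace Pool.Agent.H68.SC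

open Filter Topology MeasureTheory Metric
open scoped ContDiff

private theorem lwr_point (H : Harm) {g : E → ℝ} (hg : ContDiff ℝ 1 g) {K r : ℝ} {L : ℕ}
    (hL : K * r ^ 2 ≤ (L : ℝ) * (L + 1)) :
    ∑ l ∈ Finset.range L, ∑ i, (r ^ 2 * dmom H g l i r ^ 2 +
      ((l : ℝ) * (l + 1) - K * r ^ 2) * mom H g l i r ^ 2) ≤
    r ^ 2 * ∫ y : S2, (gg g g (r • (y : E)) -
      K * (g (r • (y : E)) * g (r • (y : E)))) ∂sg := by
  have hfd : Continuous (fderiv ℝ g) := hg.continuous_fderiv one_ne_zero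
  have hf : Continuous fun x : E => fderiv ℝ g (r • x) x :=
    (hfd.comp (continuous_const_smul r)).clm_apply continuous_id
  have hb := bessel H hf L
  have hgap := gap H hg (r := r) (K := K) (L := L) hL
  have hval : Continuous fun y : S2 => (y : E) := continuous_subtype_val
  have hry : Continuous fun y : S2 => r • (y : E) := hval.const_smul r
  have i1 : Integrable (fun y : S2 => r ^ 2 * (fderiv ℝ g (r • (y : E)) (y : E)) ^ 2) sg := by
    refine Continuous.integrable_of_hasCompactSupport ?_ (HasCompactSupport.of_compactSpace _)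
    exact continuous_const.mul ((hf.comp hval).pow 2)
  have cLL : ∀ a : Fin 3, Continuous fun y : S2 => LL a g (r • (y : E)) := by
    intro a
    unfold LL
    exact (hfd.comp hry).clm_apply ((contDiff_crs (ee a)).continuous.comp hry)
  have i2 : Integrable (fun y : S2 => ∑ a, LL a g (r • (y : E)) ^ 2 -
      K * r ^ 2 * g (r • (y : E)) ^ 2) sg := by
    refine Continuous.integrable_of_hasCompactSupport ?_ (HasCompactSupport.of_compactSpace _)
    exact (continuous_finsetSum _ fun a _ => (cLL a).pow 2).sub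
      (continuous_const.mul ((hg.continuous.comp hry).pow 2))
  have e : r ^ 2 * ∫ y : S2, (gg g g (r • (y : E)) -
      K * (g (r • (y : E)) * g (r • (y : E)))) ∂sg =
      r ^ 2 * (∫ y : S2, (fderiv ℝ g (r • (y : E)) (y : E)) ^ 2 ∂sg) +
      ∫ y : S2, (∑ a, LL a g (r • (y : E)) ^ 2 - K * r ^ 2 * g (r • (y : E)) ^ 2) ∂sg := by
    rw [← integral_const_mul, ← integral_const_mul, ← integral_add i1 i2]
    refine integral_congr_ae (Eventually.of_forall fun y => ?_)
    have h1 := lagrange g g (r • (y : E))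
    have hy : ‖(y : E)‖ = 1 := by simp
    have h2 : ‖r • (y : E)‖ ^ 2 = r ^ 2 := by
      rw [norm_smul, hy, mul_one, Real.norm_eq_abs, sq_abs]
    rw [h2, map_smul, smul_eq_mul] at h1
    simp only
    have h3 : ∑ a, LL a g (r • (y : E)) ^ 2 =
        ∑ a, LL a g (r • (y : E)) * LL a g (r • (y : E)) :=
      Finset.sum_congr rfl fun a _ => sq _
    rw [h3]
    linear_combination h1
  rw [e]
  have h4 : ∑ l ∈ Finset.range L, ∑ i, (r ^ 2 * dmom H g l i r ^ 2 +
      ((l : ℝ) * (l + 1) - K * r ^ 2) * mom H g l i r ^ 2) =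
      r ^ 2 * (∑ l ∈ Finset.range L, ∑ i, dmom H g l i r ^ 2) +
      ∑ l ∈ Finset.range L, ∑ i, ((l : ℝ) * (l + 1) - K * r ^ 2) * mom H g l i r ^ 2 := by
    rw [Finset.mul_sum, ← Finset.sum_add_distrib]
    refine Finset.sum_congr rfl fun l _ => ?_
    rw [Finset.mul_sum, ← Finset.sum_add_distrib]
  rw [h4]
  have h5 : ∑ l ∈ Finset.range L, ∑ i, dmom H g l i r ^ 2 ≤
      ∫ y : S2, (fderiv ℝ g (r • (y : E)) (y : E)) ^ 2 ∂sg := hb
  exact add_le_add (mul_le_mul_of_nonneg_left h5 (sq_nonneg r)) hgap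

theorem lower (H : Harm) {R : ℝ} (hR : 0 < R) {g : E → ℝ} (hg : g ∈ C1c (ball 0 R)) {K : ℝ}
    (hK : 0 ≤ K) {L : ℕ} (hL : K * R ^ 2 ≤ (L : ℝ) * (L + 1)) :
    ∑ l ∈ Finset.range L, ∑ i, qf l K R (mom H g l i) (dmom H g l i) ≤ BB K g g := by
  have hg1 : ContDiff ℝ 1 g := C1c.contDiff hg
  have hF : Continuous fun x => gg g g x - K * (g x * g x) :=
    (continuous_gg hg1 hg1).sub
      (continuous_const.mul (hg1.continuous.mul hg1.continuous))
  have hz : ∀ x : E, R ≤ ‖x‖ → gg g g x - K * (g x * g x) = 0 := by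
    intro x hx
    have hx' : x ∉ tsupport g := by
      intro hc
      have := C1c.sub hg hc
      rw [mem_ball, dist_zero_right] at this
      exact absurd hx (not_le.2 this)
    have h0 : g x = 0 := image_eq_zero_of_notMem_tsupport hx'
    have h1 : gg g g x = 0 := Finset.sum_eq_zero fun i _ => by rw [pd_zero_of hx' i, zero_mul]
    rw [h0, h1]; ring
  have hB : BB K g g = ∫ r in (0 : ℝ)..R, r ^ 2 * ∫ y : S2, (gg g g (r • (y : E)) -
      K * (g (r • (y : E)) * g (r • (y : E)))) ∂sg := polarR hF hR.le hz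
  have cm : ∀ l (i : Fin (H.d l)), Continuous (mom H g l i) := fun l i =>
    continuous_iff_continuousAt.2 fun r => (mom_deriv H hg1 l i r).continuousAt
  have cd : ∀ l (i : Fin (H.d l)), Continuous (dmom H g l i) := fun l i => dmom_cont H hg1 l i
  have ct : ∀ l (i : Fin (H.d l)), Continuous fun r : ℝ => r ^ 2 * dmom H g l i r ^ 2 +
      ((l : ℝ) * (l + 1) - K * r ^ 2) * mom H g l i r ^ 2 := by
    intro l i
    have c1 := cm l i
    have c2 := cd l i
    fun_prop
  have hS : ∑ l ∈ Finset.range L, ∑ i, qf l K R (mom H g l i) (dmom H g l i) =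
      ∫ r in (0 : ℝ)..R, ∑ l ∈ Finset.range L, ∑ i, (r ^ 2 * dmom H g l i r ^ 2 +
        ((l : ℝ) * (l + 1) - K * r ^ 2) * mom H g l i r ^ 2) := by
    rw [intervalIntegral.integral_finsetSum]
    · refine Finset.sum_congr rfl fun l _ => ?_
      rw [intervalIntegral.integral_finsetSum]
      · rfl
      · intro i _
        exact (ct l i).intervalIntegrable _ _
    · intro l _
      exact (continuous_finsetSum _ fun i _ => ct l i).intervalIntegrable _ _
  rw [hB, hS]
  refine intervalIntegral.integral_mono_on hR.le ?_ ?_ fun r hr => ?_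
  · exact (continuous_finsetSum _ fun l _ => continuous_finsetSum _ fun i _ =>
      ct l i).intervalIntegrable _ _
  · have h1 := sg_cont hF (g := fun _ => (1 : ℝ)) continuous_const
    simp only [mul_one] at h1
    exact ((continuous_pow 2).mul h1).intervalIntegrable _ _
  · refine lwr_point H hg1 (le_trans ?_ hL)
    have h1 : r ^ 2 ≤ R ^ 2 := pow_le_pow_left₀ hr.1 hr.2 2
    exact mul_le_mul_of_nonneg_left h1 hK

end Pool.Agent.H68.SC
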