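import Pool.Agent.H68.SC.Cut
import Pool.Agent.H68.SC.Eig
import Pool.Agent.H68.SC.NegSpan

/-!
# Module NegU (about 180 lines): at least one Dirichlet eigenvalue of `D` is smaller than `k²`

PROOF. `K = k²`. `U` is continuous with compact support (zero outside the bounded set `D`).
* The three functions `pd U j` are zero outside `D`, continuous, `C¹` on `D`, but `cut` wants
  `Eigf D (k²)`; they are: `pd U j = ww U (ee j, 0)` (`ww_eigf` of module Eig; import it).
* `int_U`: let `K₀` be a compact subset of `D` and `χ` the function of `cut` for the three functions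
  `pd U j`, `K₀` and `ε`. For each `i`, `ibp` (`f = pd U i`, `g = χ`): `∫ pd U i * pd χ i = - ∫ pd (pd U i) i * χ`,
  sum over `i`: `∫ gg U χ = k² ∫ (U + c) χ` (`helm`, `χ = 0` outside `D`). By Cauchy-Schwarz
  `|gg U χ| ≤ √(gg U U) √(gg χ χ)` and `∫ over D`: `|∫ gg U χ| ≤ √(vol D) √(∫ gg U U gg χ χ) ≤ √(vol D ε)`.
  And `|∫_D (U + c) - ∫_D (U + c) χ| ≤ M vol (D \ K₀)`, `M = sup |U + c|`. `vol (D \ K₀)` is as small as we
  like (inner regularity, `IsOpen.exists_lt_isCompact`).
* `neg1`: `τ s = Real.smoothTransition (s - 1)` (`0` for `s ≤ 1`, `1` for `s ≥ 2`), `T s = s τ (s² / δ²)`,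
  `|T'| ≤ C` with `C` independent of `δ` (`T' s = τ (s²/δ²) + 2 (s²/δ²) τ' (s²/δ²)`), `T s = s` for `s² ≥ 2 δ²`.
  `f = T ∘ U ∈ C1c D ⊓ Sy s` (support in the compact `{|U| ≥ δ} ⊆ D`). `gg f f = T' (U)² gg U U`.
  By dominated convergence (`δ = 1/(n+1) → 0`) `∫ gg f f → ∫ gg U U` (where `U = 0`: `gg U U = 0` a.e. is
  not needed: use instead `∫ gg U f = ∫ T' (U) gg U U`; simplest: bound
  `∫ gg f f ≤ ∫ gg U U` up to an error: `T' (U)² gg U U → 1_{U ≠ 0} gg U U ≤ gg U U`), `∫ f² → ∫ U²`.
  By `ibp`: `∫ gg U f = k² ∫ (U + c) f` and `∫ T' (U) gg U U → ∫_{U ≠ 0} gg U U`, so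
  `∫_{U ≠ 0} gg U U = k² ∫ (U + c) U = k² ∫ U² + k² c ∫ U`, and `∫_D U = - c vol D` (`int_U`), so
  `lim (∫ gg f f - k² ∫ f²) = - k² c² vol D < 0`. Take `δ` small and `F = span {f}`.
-/

set_option autoImplicit false

namespace Pool.Agent.H68.SC

open Filter Topology MeasureTheory Metric
open scoped ContDiff

variable {D : Set E} {k c : ℝ} {U : E → ℝ}

private theorem NegU_pdC1 (h : UU D k c U) (i : Fin 3) : ContDiffOn ℝ 1 (pd U i) D :=
  (h.C2.fderiv_of_isOpen h.opn (by norm_num)).clm_apply contDiffOn_const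

private theorem NegU_int {A B : E → ℝ} (hD : IsOpen D) (hA : ContinuousOn A D) (hB : B ∈ C1c D) :
    Integrable (fun x => A x * B x) := by
  refine integrable_cc ?_ (HasCompactSupport.mul_left (C1c.compact hB))
  rw [continuous_iff_continuousAt]
  intro x
  by_cases hx : x ∈ tsupport B
  · exact (hA.continuousAt (hD.mem_nhds (C1c.sub hB hx))).mul (C1c.cont hB).continuousAt
  · have h0 : (fun y => A y * B y) =ᶠ[𝓝 x] fun _ => 0 := by
      have : (tsupport B)ᶜ ∈ 𝓝 x := (isClosed_tsupport B).isOpen_compl.mem_nhds hx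
      filter_upwards [this] with y hy
      rw [image_eq_zero_of_notMem_tsupport hy, mul_zero]
    rw [continuousAt_congr h0]
    exact continuousAt_const

private theorem NegU_out {χ : E → ℝ} (hχ : χ ∈ C1c D) {x : E} (hx : x ∉ D) : χ x = 0 :=
  image_eq_zero_of_notMem_tsupport fun hc => hx (C1c.sub hχ hc)

private theorem NegU_id (h : UU D k c U) {χ : E → ℝ} (hχ : χ ∈ C1c D) :
    ∫ x, gg U χ x = k ^ 2 * ∫ x, (U x + c) * χ x := by
  have h1 : ∀ i, ∫ x, pd U i x * pd χ i x = -∫ x, pd (pd U i) i x * χ x := fun i =>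
    ibp h.opn (NegU_pdC1 h i) (C1c.contDiff hχ) (C1c.compact hχ) (C1c.sub hχ) i
  have h2 : ∀ i, Integrable (fun x => pd U i x * pd χ i x) := fun i =>
    integrable_cc ((continuous_pd h.C1 i).mul (continuous_pd (C1c.contDiff hχ) i))
      (HasCompactSupport.mul_left (hasCompactSupport_pd (C1c.compact hχ) i))
  have h3 : ∀ i, Integrable (fun x => pd (pd U i) i x * χ x) := fun i =>
    NegU_int h.opn (((NegU_pdC1 h i).continuousOn_fderiv_of_isOpen h.opn le_rfl).clm_apply
      continuousOn_const) hχ
  calc ∫ x, gg U χ x = ∑ i, ∫ x, pd U i x * pd χ i x := by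
        unfold gg
        exact integral_finsetSum _ fun i _ => h2 i
    _ = -∫ x, ∑ i, pd (pd U i) i x * χ x := by
        rw [integral_finsetSum _ fun i _ => h3 i, ← Finset.sum_neg_distrib]
        exact Finset.sum_congr rfl fun i _ => h1 i
    _ = k ^ 2 * ∫ x, (U x + c) * χ x := by
        rw [← integral_neg, ← integral_const_mul]
        refine integral_congr_ae (Eventually.of_forall fun x => ?_)
        simp only
        by_cases hx : x ∈ D
        · have := h.helm x hx
          rw [← Finset.sum_mul]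
          have e : ∑ i, pd (pd U i) i x = -(k ^ 2 * (U x + c)) := by linarith
          rw [e]
          ring
        · rw [NegU_out hχ hx]
          simp

private theorem NegU_vol (h : UU D k c U) : volume D < ⊤ := h.bdd.measure_lt_top

private theorem NegU_cs (h : UU D k c U) : HasCompactSupport U := by
  refine HasCompactSupport.intro h.bdd.isCompact_closure fun x hx => ?_
  exact (h.out x fun hd => hx (subset_closure hd)).1

private theorem NegU_ww (j : Fin 3) : pd U j = ww U (ee j, 0) := by
  funext x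
  unfold pd ww kf
  congr 1
  ext i
  fin_cases i
  · simp [crs_apply0]
  · simp [crs_apply1]
  · simp [crs_apply2]

theorem int_U (h : UU D k c U) : ∫ x in D, (U x + c) = 0 := by
  have hDm : MeasurableSet D := h.opn.measurableSet
  obtain ⟨M, hM⟩ : ∃ M : ℝ, ∀ x, ‖U x‖ ≤ M := h.C1.continuous.bounded_above_of_compact_support
    (NegU_cs h)
  have hM0 : 0 ≤ M + |c| := add_nonneg ((norm_nonneg _).trans (hM 0)) (abs_nonneg c)
  have hUc : ∀ x, |U x + c| ≤ M + |c| := fun x =>
    (abs_add_le _ _).trans (add_le_add (hM x) le_rfl)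
  have hUi : IntegrableOn (fun x => U x + c) D := by
    refine IntegrableOn.of_bound (NegU_vol h)
      (h.C1.continuous.add continuous_const).aestronglyMeasurable (M + |c|) ?_
    exact Eventually.of_forall fun x => hUc x
  set V : ℝ := volume.real D with hV
  have hV0 : 0 ≤ V := measureReal_nonneg
  have key : ∀ l : ℝ, 0 < l → |∫ x in D, (U x + c)| ≤ l * ((V + 1) / (2 * k ^ 2) + (M + |c|)) := by
    intro l hl
    obtain ⟨K₀, hK1, hK2, hK3⟩ := hDm.exists_isCompact_sdiff_lt (NegU_vol h).ne
      (ENNReal.ofReal_pos.2 hl).ne'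
    obtain ⟨χ, hχ, c1, c2, c3, -⟩ := cut h.opn h.bdd (K := k ^ 2) (pow_pos h.kpos 2)
      (fun j : Fin 3 => pd U j) (fun j => by rw [NegU_ww]; exact ww_eigf h _) hK2 hK1
      (ε := l ^ 2) (by positivity)
    have hGe : ∀ x, ∑ j : Fin 3, pd U j x ^ 2 = gg U U x := fun x => by
      unfold gg
      exact Finset.sum_congr rfl fun i _ => sq _
    simp only [hGe] at c3
    have hggc : Continuous (gg U χ) := continuous_gg h.C1 (C1c.contDiff hχ)
    have hggs : HasCompactSupport (gg U χ) := by
      have : gg U χ = gg χ U := by funext x; exact gg_comm _ _ _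
      rw [this]
      exact hasCompactSupport_gg (C1c.compact hχ) U
    have hgout : ∀ x, x ∉ D → gg U χ x = 0 := by
      intro x hx
      unfold gg
      refine Finset.sum_eq_zero fun i _ => ?_
      rw [pd_zero_of (fun hc => hx (C1c.sub hχ hc)) i, mul_zero]
    -- the first estimate
    have a1 : |∫ x, gg U χ x| ≤ l * (V + 1) / 2 := by
      have b1 : Integrable (fun x => gg U U x * gg χ χ x) :=
        integrable_cc ((continuous_gg h.C1 h.C1).mul
          (continuous_gg (C1c.contDiff hχ) (C1c.contDiff hχ)))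
          (HasCompactSupport.mul_left (hasCompactSupport_gg (C1c.compact hχ) χ))
      have b2 : ∫ x, gg U χ x = ∫ x in D, gg U χ x :=
        (setIntegral_eq_integral_of_forall_compl_eq_zero fun x hx => hgout x hx).symm
      rw [b2]
      have b3 : |∫ x in D, gg U χ x| ≤ ∫ x in D, |gg U χ x| := abs_integral_le_integral_abs
      have b4 : ∫ x in D, |gg U χ x| ≤ ∫ x in D, (l / 2 + (1 / (2 * l)) * (gg U U x * gg χ χ x)) := by
        apply integral_mono
        · exact (integrable_cc hggc hggs).integrableOn.abs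
        · exact (integrableOn_const (NegU_vol h).ne).add (b1.const_mul _).integrableOn
        · intro x
          simp only
          have d1 := gg_sq_le U χ x
          have d2 : |gg U χ x| ^ 2 ≤ gg U U x * gg χ χ x := by rw [sq_abs]; exact d1
          have d3 : 0 ≤ (|gg U χ x| - l) ^ 2 := sq_nonneg _
          have d4 : 1 / (2 * l) * (gg U U x * gg χ χ x) ≥ 1 / (2 * l) * |gg U χ x| ^ 2 :=
            mul_le_mul_of_nonneg_left d2 (by positivity)
          have d5 : |gg U χ x| ≤ l / 2 + 1 / (2 * l) * |gg U χ x| ^ 2 := by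
            have : l / 2 + 1 / (2 * l) * |gg U χ x| ^ 2 - |gg U χ x| =
                (|gg U χ x| - l) ^ 2 / (2 * l) := by
              field_simp
              ring
            have d6 : 0 ≤ (|gg U χ x| - l) ^ 2 / (2 * l) := by positivity
            linarith
          linarith
      have b5 : ∫ x in D, (l / 2 + (1 / (2 * l)) * (gg U U x * gg χ χ x)) ≤
          l / 2 * V + 1 / (2 * l) * l ^ 2 := by
        have b7 : IntegrableOn (fun _ : E => l / 2) D := integrableOn_const (NegU_vol h).ne
        rw [integral_add b7 (b1.const_mul _).integrableOn, integral_const_mul]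
        apply add_le_add
        · simp only [integral_const, smul_eq_mul, measureReal_restrict_apply_univ]
          rw [← hV]
          linarith
        · apply mul_le_mul_of_nonneg_left _ (by positivity)
          refine (setIntegral_le_integral b1 (Eventually.of_forall fun x =>
            mul_nonneg (gg_nonneg _ _) (gg_nonneg _ _))).trans c3
      have b6 : l / 2 * V + 1 / (2 * l) * l ^ 2 = l * (V + 1) / 2 := by
        field_simp
      linarith
    rw [NegU_id h hχ] at a1
    have hk2 : 0 < k ^ 2 := pow_pos h.kpos 2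
    have a2 : |∫ x, (U x + c) * χ x| ≤ l * ((V + 1) / (2 * k ^ 2)) := by
      rw [abs_mul, abs_of_pos hk2] at a1
      have : l * ((V + 1) / (2 * k ^ 2)) = (l * (V + 1) / 2) / k ^ 2 := by
        field_simp
      rw [this, le_div_iff₀ hk2]
      linarith
    have a3 : ∫ x, (U x + c) * χ x = ∫ x in D, (U x + c) * χ x :=
      (setIntegral_eq_integral_of_forall_compl_eq_zero fun x hx => by
        rw [NegU_out hχ hx, mul_zero]).symm
    have hχi : Integrable (fun x => (U x + c) * χ x) :=
      NegU_int h.opn (h.C1.continuous.add continuous_const).continuousOn hχ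
    have a4 : |(∫ x in D, (U x + c)) - ∫ x in D, (U x + c) * χ x| ≤ (M + |c|) * l := by
      rw [← integral_sub hUi hχi.integrableOn]
      have hDK : MeasurableSet (D \ K₀) := hDm.diff hK2.measurableSet
      calc |∫ x in D, (U x + c - (U x + c) * χ x)| ≤ ∫ x in D, |U x + c - (U x + c) * χ x| :=
            abs_integral_le_integral_abs
        _ ≤ ∫ x in D, (D \ K₀).indicator (fun _ => M + |c|) x := by
            apply setIntegral_mono_on
            · exact (hUi.sub hχi.integrableOn).abs
            · exact ((integrable_indicator_iff hDK).2 (integrableOn_const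
                ((measure_mono Set.sdiff_subset).trans_lt (NegU_vol h)).ne)).integrableOn
            · exact hDm
            · intro x hx
              by_cases hxK : x ∈ K₀
              · rw [(c2 x hxK).self_of_nhds, Set.indicator_of_notMem (fun hc => hc.2 hxK)]
                simp
              · rw [Set.indicator_of_mem (show x ∈ D \ K₀ from ⟨hx, hxK⟩)]
                have e1 : U x + c - (U x + c) * χ x = (U x + c) * (1 - χ x) := by ring
                rw [e1, abs_mul]
                have e2 : |1 - χ x| ≤ 1 := by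
                  rw [abs_le]
                  constructor
                  · linarith [(c1 x).2]
                  · linarith [(c1 x).1]
                calc |U x + c| * |1 - χ x| ≤ (M + |c|) * 1 :=
                      mul_le_mul (hUc x) e2 (abs_nonneg _) hM0
                  _ = M + |c| := mul_one _
        _ = (M + |c|) * volume.real (D \ K₀) := by
            rw [setIntegral_indicator hDK, Set.inter_eq_right.2 Set.sdiff_subset]
            simp only [integral_const, smul_eq_mul, measureReal_restrict_apply_univ]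
            ring
        _ ≤ (M + |c|) * l := by
            apply mul_le_mul_of_nonneg_left _ hM0
            rw [measureReal_def]
            exact ENNReal.toReal_le_of_le_ofReal hl.le hK3.le
    rw [a3] at a2
    have a5 := abs_sub_abs_le_abs_sub (∫ x in D, (U x + c)) (∫ x in D, (U x + c) * χ x)
    have e7 : l * ((V + 1) / (2 * k ^ 2) + (M + |c|)) = l * ((V + 1) / (2 * k ^ 2)) + (M + |c|) * l := by
      ring
    rw [e7]
    linarith
  by_contra hne
  have hpos : 0 < |∫ x in D, (U x + c)| := abs_pos.2 hne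
  set Q := (V + 1) / (2 * k ^ 2) + (M + |c|) with hQ
  have hQ0 : 0 ≤ Q := by
    have hk2 : 0 < k ^ 2 := pow_pos h.kpos 2
    positivity
  have h9 := key (|∫ x in D, (U x + c)| / (2 * (Q + 1))) (by positivity)
  have h10 : |∫ x in D, (U x + c)| / (2 * (Q + 1)) * Q ≤ |∫ x in D, (U x + c)| / 2 := by
    have : |∫ x in D, (U x + c)| / (2 * (Q + 1)) * Q =
        |∫ x in D, (U x + c)| / 2 * (Q / (Q + 1)) := by
      field_simp
    rw [this]
    have h11 : Q / (Q + 1) ≤ 1 := by
      rw [div_le_one (by linarith)]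
      linarith
    nlinarith
  linarith

private noncomputable def NegU_T (δ s : ℝ) : ℝ := s * CutAux.tau (s ^ 2 / δ ^ 2)

private noncomputable def NegU_T' (δ s : ℝ) : ℝ :=
  CutAux.tau (s ^ 2 / δ ^ 2) + 2 * (s ^ 2 / δ ^ 2) * deriv CutAux.tau (s ^ 2 / δ ^ 2)

private theorem NegU_T_cd (δ : ℝ) : ContDiff ℝ 1 (NegU_T δ) := by
  unfold NegU_T
  apply contDiff_id.mul
  apply (CutAux.tau_contDiff.of_le (by simp)).comp
  exact (contDiff_id.pow 2).div_const _

private theorem NegU_T_has (δ s : ℝ) : HasDerivAt (NegU_T δ) (NegU_T' δ s) s := by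
  have h1 : HasDerivAt (fun s : ℝ => s ^ 2 / δ ^ 2) (2 * s / δ ^ 2) s := by
    have := (hasDerivAt_pow 2 s).div_const (δ ^ 2)
    simpa using this
  have h2 : HasDerivAt CutAux.tau (deriv CutAux.tau (s ^ 2 / δ ^ 2)) (s ^ 2 / δ ^ 2) :=
    (CutAux.tau_diff _).hasDerivAt
  have h3 := (hasDerivAt_id s).mul (h2.comp s h1)
  have h4 : HasDerivAt (NegU_T δ)
      (1 * CutAux.tau (s ^ 2 / δ ^ 2) +
        s * (deriv CutAux.tau (s ^ 2 / δ ^ 2) * (2 * s / δ ^ 2))) s := h3
  have e : 1 * CutAux.tau (s ^ 2 / δ ^ 2) +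
        s * (deriv CutAux.tau (s ^ 2 / δ ^ 2) * (2 * s / δ ^ 2)) = NegU_T' δ s := by
    unfold NegU_T'
    ring
  rw [e] at h4
  exact h4

private theorem NegU_T'_le {M : ℝ} (hM : 0 ≤ M) (hb : ∀ s, |deriv CutAux.tau s| ≤ M) (δ s : ℝ) :
    |NegU_T' δ s| ≤ 1 + 4 * M := by
  unfold NegU_T'
  set y := s ^ 2 / δ ^ 2 with hy
  have hy0 : 0 ≤ y := by positivity
  have h1 : |CutAux.tau y| ≤ 1 := by
    rw [abs_of_nonneg (CutAux.tau_nonneg _)]
    exact CutAux.tau_le_one _
  have h2 : |2 * y * deriv CutAux.tau y| ≤ 4 * M := by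
    by_cases h3 : 2 < y
    · rw [CutAux.deriv_tau_gt h3]
      simp
      exact hM
    · rw [abs_mul, abs_of_nonneg (by positivity : (0 : ℝ) ≤ 2 * y)]
      exact mul_le_mul (by linarith [not_lt.1 h3]) (hb y) (abs_nonneg _) (by norm_num)
  exact (abs_add_le _ _).trans (add_le_add h1 h2)

private theorem NegU_T_big {δ s : ℝ} (hδ : 0 < δ) (h : 2 * δ ^ 2 < s ^ 2) :
    NegU_T δ s = s ∧ NegU_T' δ s = 1 := by
  have h1 : 2 < s ^ 2 / δ ^ 2 := by
    rw [lt_div_iff₀ (by positivity)]
    linarith
  unfold NegU_T NegU_T'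
  rw [CutAux.tau_one h1.le, CutAux.deriv_tau_gt h1]
  simp

private theorem NegU_T_small {δ s : ℝ} (hδ : 0 < δ) (h : s ^ 2 ≤ δ ^ 2) : NegU_T δ s = 0 := by
  have h1 : s ^ 2 / δ ^ 2 ≤ 1 := by
    rw [div_le_one (by positivity)]
    exact h
  unfold NegU_T
  rw [CutAux.tau_zero h1, mul_zero]

private theorem NegU_T'_zero (δ : ℝ) : NegU_T' δ 0 = 0 := by
  unfold NegU_T'
  rw [CutAux.tau_zero (by simp)]
  simp

private theorem NegU_T_le (δ s : ℝ) : |NegU_T δ s| ≤ |s| := by
  unfold NegU_T
  rw [abs_mul, abs_of_nonneg (CutAux.tau_nonneg _)]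
  exact mul_le_of_le_one_right (abs_nonneg _) (CutAux.tau_le_one _)

private theorem NegU_mem (h : UU D k c U) {s : ℝ} (hU : U ∈ Sy s) {δ : ℝ} (hδ : 0 < δ) :
    (fun x => NegU_T δ (U x)) ∈ C1c D ⊓ Sy s := by
  have hsub : tsupport (fun x => NegU_T δ (U x)) ⊆ {x | δ ^ 2 ≤ U x ^ 2} := by
    apply closure_minimal
    · intro x hx
      by_contra hc
      apply hx
      simp only [Set.mem_setOf_eq, not_le] at hc
      exact NegU_T_small hδ hc.le
    · exact isClosed_le continuous_const (h.C1.continuous.pow 2)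
  have hsubD : {x | δ ^ 2 ≤ U x ^ 2} ⊆ D := by
    intro x hx
    by_contra hc
    have h1 : δ ^ 2 ≤ U x ^ 2 := hx
    rw [(h.out x hc).1] at h1
    have : 0 < δ ^ 2 := by positivity
    simp at h1
    linarith
  refine ⟨⟨(NegU_T_cd δ).comp h.C1, ?_, hsub.trans hsubD⟩, ?_⟩
  · apply (NegU_cs h).comp_left (g := NegU_T δ)
    unfold NegU_T
    simp
  · intro x
    simp only
    rw [hU x]

private theorem NegU_pd (h : UU D k c U) (δ : ℝ) (i : Fin 3) (x : E) :
    pd (fun x => NegU_T δ (U x)) i x = NegU_T' δ (U x) * pd U i x := by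
  have h1 : HasFDerivAt U (fderiv ℝ U x) x := (h.C1.differentiable one_ne_zero x).hasFDerivAt
  have h2 : HasFDerivAt (fun x => NegU_T δ (U x)) (NegU_T' δ (U x) • fderiv ℝ U x) x :=
    (NegU_T_has δ (U x)).comp_hasFDerivAt x h1
  unfold pd
  rw [h2.fderiv]
  simp

theorem neg1 (h : UU D k c U) {s : ℝ} (hU : U ∈ Sy s) : AtLeast (Sy s) D (k ^ 2) 1 := by
  obtain ⟨M, hM0, hM⟩ := CutAux.bound
  have hUc : Continuous U := h.C1.continuous
  have hcs := NegU_cs h
  have hgc : Continuous (gg U U) := continuous_gg h.C1 h.C1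
  have hgi : Integrable (gg U U) := integrable_cc hgc (hasCompactSupport_gg hcs U)
  set d : ℕ → ℝ := fun n => 1 / ((n : ℝ) + 1) with hd
  have hd0 : ∀ n, 0 < d n := fun n => by simp only [hd]; positivity
  have hdlim : Tendsto (fun n => 2 * d n ^ 2) atTop (𝓝 0) := by
    have := ((tendsto_one_div_add_atTop_nhds_zero_nat (𝕜 := ℝ)).pow 2).const_mul 2
    simpa [hd] using this
  have hev : ∀ x, U x ≠ 0 → ∀ᶠ n in atTop, 2 * d n ^ 2 < U x ^ 2 := fun x hx =>
    hdlim.eventually_lt_const (by positivity)
  have hT'c : ∀ δ : ℝ, Continuous (NegU_T' δ) := by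
    intro δ
    have : NegU_T' δ = deriv (NegU_T δ) := by
      funext s
      exact ((NegU_T_has δ s).deriv).symm
    rw [this]
    exact (NegU_T_cd δ).continuous_deriv le_rfl
  have hTc : ∀ δ : ℝ, Continuous (NegU_T δ) := fun δ => (NegU_T_cd δ).continuous
  set A : E → ℝ := {x | U x ≠ 0}.indicator (gg U U) with hA
  -- limits
  have l1 : Tendsto (fun n => ∫ x, NegU_T' (d n) (U x) ^ 2 * gg U U x) atTop (𝓝 (∫ x, A x)) := by
    refine tendsto_integral_of_dominated_convergence (fun x => (1 + 4 * M) ^ 2 * gg U U x) ?_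
      (hgi.const_mul _) ?_ ?_
    · intro n
      exact ((((hT'c (d n)).comp hUc).pow 2).mul hgc).aestronglyMeasurable
    · intro n
      refine Eventually.of_forall fun x => ?_
      rw [Real.norm_eq_abs, abs_mul, abs_of_nonneg (gg_nonneg U x), abs_of_nonneg (sq_nonneg _)]
      apply mul_le_mul_of_nonneg_right _ (gg_nonneg U x)
      rw [← sq_abs]
      exact pow_le_pow_left₀ (abs_nonneg _) (NegU_T'_le hM0 hM _ _) 2
    · refine Eventually.of_forall fun x => ?_
      by_cases hx : U x = 0
      · rw [hA, Set.indicator_of_notMem (by simpa using hx)]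
        simp [hx, NegU_T'_zero]
      · rw [hA, Set.indicator_of_mem (by simpa using hx)]
        refine tendsto_const_nhds.congr' ?_
        filter_upwards [hev x hx] with n hn
        rw [(NegU_T_big (hd0 n) hn).2]
        ring
  have l2 : Tendsto (fun n => ∫ x, NegU_T' (d n) (U x) * gg U U x) atTop (𝓝 (∫ x, A x)) := by
    refine tendsto_integral_of_dominated_convergence (fun x => (1 + 4 * M) * gg U U x) ?_
      (hgi.const_mul _) ?_ ?_
    · intro n
      exact (((hT'c (d n)).comp hUc).mul hgc).aestronglyMeasurable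
    · intro n
      refine Eventually.of_forall fun x => ?_
      rw [Real.norm_eq_abs, abs_mul, abs_of_nonneg (gg_nonneg U x)]
      exact mul_le_mul_of_nonneg_right (NegU_T'_le hM0 hM _ _) (gg_nonneg U x)
    · refine Eventually.of_forall fun x => ?_
      by_cases hx : U x = 0
      · rw [hA, Set.indicator_of_notMem (by simpa using hx)]
        simp [hx, NegU_T'_zero]
      · rw [hA, Set.indicator_of_mem (by simpa using hx)]
        refine tendsto_const_nhds.congr' ?_
        filter_upwards [hev x hx] with n hn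
        rw [(NegU_T_big (hd0 n) hn).2]
        ring
  have hUi2 : Integrable (fun x => U x ^ 2) := by
    refine integrable_cc (hUc.pow 2) ?_
    exact hcs.comp_left (g := fun s : ℝ => s ^ 2) (by simp)
  have hUi1 : Integrable (fun x => |U x|) := by
    refine integrable_cc hUc.abs ?_
    exact hcs.comp_left (g := fun s : ℝ => |s|) (by simp)
  have hUi0 : Integrable U := integrable_cc hUc hcs
  have l3 : Tendsto (fun n => ∫ x, NegU_T (d n) (U x) ^ 2) atTop (𝓝 (∫ x, U x ^ 2)) := by
    refine tendsto_integral_of_dominated_convergence (fun x => U x ^ 2) ?_ hUi2 ?_ ?_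
    · intro n
      exact (((hTc (d n)).comp hUc).pow 2).aestronglyMeasurable
    · intro n
      refine Eventually.of_forall fun x => ?_
      rw [Real.norm_eq_abs, abs_of_nonneg (sq_nonneg _), ← sq_abs, ← sq_abs (U x)]
      exact pow_le_pow_left₀ (abs_nonneg _) (NegU_T_le _ _) 2
    · refine Eventually.of_forall fun x => ?_
      by_cases hx : U x = 0
      · simp [hx, NegU_T]
      · refine tendsto_const_nhds.congr' ?_
        filter_upwards [hev x hx] with n hn
        rw [(NegU_T_big (hd0 n) hn).1]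
  have l4 : Tendsto (fun n => ∫ x, (U x + c) * NegU_T (d n) (U x)) atTop
      (𝓝 (∫ x, (U x + c) * U x)) := by
    refine tendsto_integral_of_dominated_convergence (fun x => U x ^ 2 + |c| * |U x|) ?_
      (hUi2.add (hUi1.const_mul _)) ?_ ?_
    · intro n
      exact ((hUc.add continuous_const).mul ((hTc (d n)).comp hUc)).aestronglyMeasurable
    · intro n
      refine Eventually.of_forall fun x => ?_
      rw [Real.norm_eq_abs, abs_mul]
      have e1 : |U x + c| ≤ |U x| + |c| := abs_add_le _ _
      have e2 := NegU_T_le (d n) (U x)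
      calc |U x + c| * |NegU_T (d n) (U x)| ≤ (|U x| + |c|) * |U x| :=
            mul_le_mul e1 e2 (abs_nonneg _) (by positivity)
        _ = U x ^ 2 + |c| * |U x| := by rw [← sq_abs]; ring
    · refine Eventually.of_forall fun x => ?_
      by_cases hx : U x = 0
      · simp [hx, NegU_T]
      · refine tendsto_const_nhds.congr' ?_
        filter_upwards [hev x hx] with n hn
        rw [(NegU_T_big (hd0 n) hn).1]
  have hgU : ∀ n x, gg U (fun x => NegU_T (d n) (U x)) x = NegU_T' (d n) (U x) * gg U U x := by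
    intro n x
    unfold gg
    rw [Finset.mul_sum]
    refine Finset.sum_congr rfl fun i _ => ?_
    rw [NegU_pd h]
    ring
  have hgf : ∀ n x, gg (fun x => NegU_T (d n) (U x)) (fun x => NegU_T (d n) (U x)) x =
      NegU_T' (d n) (U x) ^ 2 * gg U U x := by
    intro n x
    unfold gg
    rw [Finset.mul_sum]
    refine Finset.sum_congr rfl fun i _ => ?_
    rw [NegU_pd h]
    ring
  have hB : ∀ n, ∫ x, NegU_T' (d n) (U x) * gg U U x =
      k ^ 2 * ∫ x, (U x + c) * NegU_T (d n) (U x) := by
    intro n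
    have := NegU_id h (NegU_mem h hU (hd0 n)).1
    rw [← this]
    exact integral_congr_ae (Eventually.of_forall fun x => (hgU n x).symm)
  have hAeq : ∫ x, A x = k ^ 2 * ∫ x, (U x + c) * U x := by
    have l5 := l4.const_mul (k ^ 2)
    simp_rw [hB] at l2
    exact tendsto_nhds_unique l2 l5
  have hUD : ∫ x, U x = -c * volume.real D := by
    have e1 : ∫ x, U x = ∫ x in D, U x :=
      (setIntegral_eq_integral_of_forall_compl_eq_zero fun x hx => (h.out x hx).1).symm
    have e2 := int_U h
    have e3 : IntegrableOn (fun _ : E => c) D := integrableOn_const (NegU_vol h).ne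
    rw [integral_add hUi0.integrableOn e3] at e2
    simp only [integral_const, smul_eq_mul, measureReal_restrict_apply_univ] at e2
    rw [e1]
    linarith
  have hsplit : ∫ x, (U x + c) * U x = (∫ x, U x ^ 2) + c * ∫ x, U x := by
    rw [← integral_const_mul, ← integral_add hUi2 (hUi0.const_mul _)]
    refine integral_congr_ae (Eventually.of_forall fun x => ?_)
    simp only
    ring
  have hVpos : 0 < volume.real D := by
    rw [measureReal_def]
    exact ENNReal.toReal_pos (h.opn.measure_pos _ h.ne).ne' (NegU_vol h).ne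
  have l6 : Tendsto (fun n => (∫ x, NegU_T' (d n) (U x) ^ 2 * gg U U x) -
      k ^ 2 * ∫ x, NegU_T (d n) (U x) ^ 2) atTop (𝓝 (-(k ^ 2 * c ^ 2 * volume.real D))) := by
    have := l1.sub (l3.const_mul (k ^ 2))
    rw [hAeq, hsplit, hUD] at this
    have e : k ^ 2 * ((∫ x, U x ^ 2) + c * (-c * volume.real D)) - k ^ 2 * ∫ x, U x ^ 2 =
        -(k ^ 2 * c ^ 2 * volume.real D) := by ring
    rw [e] at this
    exact this
  have hneg : -(k ^ 2 * c ^ 2 * volume.real D) < 0 := by
    have h1 : 0 < k ^ 2 := pow_pos h.kpos 2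
    have h2 : 0 < c ^ 2 := by
      have := h.cne
      positivity
    have : 0 < k ^ 2 * c ^ 2 * volume.real D := by positivity
    linarith
  obtain ⟨n, hn⟩ := (l6.eventually_lt_const hneg).exists
  have hmem := NegU_mem h hU (hd0 n)
  have hBB : BB (k ^ 2) (fun x => NegU_T (d n) (U x)) (fun x => NegU_T (d n) (U x)) < 0 := by
    rw [BB_eq hmem.1 hmem.1]
    have e1 : ∫ x, gg (fun x => NegU_T (d n) (U x)) (fun x => NegU_T (d n) (U x)) x =
        ∫ x, NegU_T' (d n) (U x) ^ 2 * gg U U x :=
      integral_congr_ae (Eventually.of_forall fun x => hgf n x)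
    have e2 : ∫ x, NegU_T (d n) (U x) * NegU_T (d n) (U x) = ∫ x, NegU_T (d n) (U x) ^ 2 :=
      integral_congr_ae (Eventually.of_forall fun x => (sq _).symm)
    rw [e1, e2]
    exact hn
  have := neg_span (S := Sy s) (Ω := D) (K := k ^ 2) (ι := Unit)
    (fun _ => fun x => NegU_T (d n) (U x)) (fun _ => hmem) (fun _ => hBB)
    (fun i j hij => absurd (Subsingleton.elim i j) hij)
  simpa using this

end Pool.Agent.H68.SC
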