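import Pool.Agent.H68.SC.Kill

/-!
# Module Rig1 (about 170 lines): two independent Killing symmetries make `U` radial

PROOF.
* `rig1a`. `U ≠ 0`: otherwise `helm` gives `k² c = 0` on the nonempty set `D`. `I = ∫ U² > 0`
  (`int_sq_pos`; `U` is continuous with compact support, as `U = 0` outside the bounded set `D`).
  `q = I⁻¹ • ∫ U² x` (componentwise, `q j = I⁻¹ * ∫ U x ^ 2 * x j`).
  Let `ww U p = 0`, `X = kf p`. For fixed `j`, `F_i x = X_i x * U x ^ 2 * x j` is `C¹` with compact
  support and `∑ i, ∂_i F_i = 2 U x_j (∑ X_i ∂_i U) + U² X_j + U² x_j ∑ ∂_i X_i = U² X_j` (the `i`-th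
  component of `crs b x` does not contain `x i`). `integral_pd`: `∫ U² X_j = 0`, i.e.
  `I p.1 j + ∫ U² (crs p.2 x) j = 0`, and `∫ U² (crs p.2 x) j = I (crs p.2 q) j` (linearity).
* `rig1b`. Write `L b x = fderiv ℝ U x (crs b (x - q))`, linear in `b`. On the open set `D`, `U` is
  `C²`, `L b₁ = 0` and `L b₂ = 0` identically, so their derivatives vanish; with
  `X = crs b₁ (x - q)`, `Y = crs b₂ (x - q)`: `0 = D(L b₂)(X) - D(L b₁)(Y)
  = D²U(X, Y) - D²U(Y, X) + DU (crs b₂ X - crs b₁ Y)`, the second derivative is symmetric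
  (`ContDiffAt.isSymmSndFDerivAt`), and `crs b₂ (crs b₁ z) - crs b₁ (crs b₂ z) = - crs (crs b₁ b₂) z`
  (Jacobi, check componentwise). So `L (crs b₁ b₂) = 0` on `D`, and outside `D` as `fderiv ℝ U = 0`
  there. `b₁, b₂, b₁ × b₂` span `E` (their determinant is `|b₁ × b₂|² ≠ 0`), so `L b x = 0` for all `b`.
  So `fderiv ℝ U x v = 0` for every `v ⟂ x - q` (`v = crs b (x - q)` with
  `b = ‖x - q‖⁻² • crs (x - q) v` if `x ≠ q`; for `x = q` take a limit or note it is not needed). For
  `‖x - q‖ = ‖y - q‖ = ρ > 0`: choose an orthonormal pair `e₁, e₂` with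
  `x = q + ρ e₁`, `y = q + ρ (cos θ e₁ + sin θ e₂)`; `t ↦ U (q + ρ (cos t e₁ + sin t e₂))` has
  derivative `0`, so it is constant (`is_const_of_deriv_eq_zero`).
* `rigid1`. Two independent `p₁, p₂ ∈ N` (`finrank ≥ 2`); by `rig1a` `pᵢ = (- crs bᵢ q, bᵢ)`,
  `kf pᵢ x = crs bᵢ (x - q)`, and `b₁, b₂` are independent (a relation between them is one between the
  `pᵢ`). Apply `rig1b`.
-/

set_option autoImplicit false

namespace Pool.Agent.H68.SC

open Filter Topology MeasureTheory Metric
open scoped ContDiff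

variable {D : Set E} {k c : ℝ} {U : E → ℝ}

/-- a component of a Killing field has no derivative in its own direction -/
private theorem Rig1_pd_kf (p : E × E) (i : Fin 3) (x : E) :
    pd (fun y => kf p y i) i x = 0 := by
  have hd : DifferentiableAt ℝ (fun y => kf p y i) x := by
    have h1 : ContDiff ℝ ∞ (fun y : E => kf p y i) := by
      have h2 : ContDiff ℝ ∞ (fun y : E => p.1 + crs p.2 y) := contDiff_const.add (contDiff_crs p.2)
      exact (contDiff_piLp 2).1 h2 i
    exact (h1.differentiable (by simp)) x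
  have h2 := hd.lineDeriv_eq_fderiv (v := ee i)
  unfold pd
  rw [← h2, lineDeriv]
  have h3 : (fun t : ℝ => kf p (x + t • ee i) i) = fun _ => kf p x i := by
    funext t
    have h4 : crs p.2 (ee i) i = 0 := by
      fin_cases i
      · simp [crs_apply0]
      · simp [crs_apply1]
      · simp [crs_apply2]
    simp only [kf, crs_add_right, crs_smul_right, PiLp.add_apply, PiLp.smul_apply, h4, smul_zero,
      add_zero]
  rw [h3]
  exact deriv_const _ _

private theorem Rig1_kf_contDiff (p : E × E) (i : Fin 3) : ContDiff ℝ 1 (fun y : E => kf p y i) := by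
  have h2 : ContDiff ℝ ∞ (fun y : E => p.1 + crs p.2 y) := contDiff_const.add (contDiff_crs p.2)
  exact ((contDiff_piLp 2).1 h2 i).of_le (by exact_mod_cast le_top)

private theorem Rig1_cs (h : UU D k c U) : HasCompactSupport U :=
  HasCompactSupport.intro h.bdd.isCompact_closure fun x hx =>
    (h.out x fun hd => hx (subset_closure hd)).1

private theorem Rig1_ne (h : UU D k c U) : U ≠ 0 := by
  intro h0
  obtain ⟨x, hx⟩ := h.ne
  have h1 := h.helm x hx
  have h2 : ∀ i, pd U i = fun _ => 0 := by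
    intro i
    funext y
    rw [h0]
    unfold pd
    simp
  have h3 : ∀ i, pd (pd U i) i x = 0 := by
    intro i
    rw [h2 i]
    unfold pd
    simp
  rw [Finset.sum_eq_zero fun i _ => h3 i, h0] at h1
  simp only [Pi.zero_apply, zero_add] at h1
  exact mul_ne_zero (pow_ne_zero 2 h.kpos.ne') h.cne h1

/-- the identity for the first moments -/
private theorem Rig1_moment (h : UU D k c U) {p : E × E} (hp : ww U p = 0) (j : Fin 3) :
    ∫ x, U x ^ 2 * kf p x j = 0 := by
  have hcs := Rig1_cs h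
  have hG : ContDiff ℝ 1 (fun x : E => U x ^ 2 * x j) := by
    have h1 : ContDiff ℝ 1 (fun x : E => x j) := by fun_prop
    exact (h.C1.pow 2).mul h1
  have hGcs : HasCompactSupport (fun x : E => U x ^ 2 * x j) := by
    have : (fun x : E => U x ^ 2 * x j) = fun x => U x * (U x * x j) := by funext x; ring
    rw [this]
    exact HasCompactSupport.mul_right hcs
  have hF : ∀ i, ContDiff ℝ 1 (fun x : E => (U x ^ 2 * x j) * kf p x i) := fun i =>
    hG.mul (Rig1_kf_contDiff p i)
  have hFcs : ∀ i, HasCompactSupport (fun x : E => (U x ^ 2 * x j) * kf p x i) := fun i =>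
    HasCompactSupport.mul_right hGcs
  have hpt : ∀ x, ∑ i, pd (fun x : E => (U x ^ 2 * x j) * kf p x i) i x = U x ^ 2 * kf p x j := by
    intro x
    have hUd : DifferentiableAt ℝ U x := h.C1.differentiable one_ne_zero x
    have h1 : ∀ i, pd (fun x : E => (U x ^ 2 * x j) * kf p x i) i x
        = kf p x i * pd (fun x : E => U x ^ 2 * x j) i x := by
      intro i
      rw [pd_mul (hG.differentiable one_ne_zero x)
        ((Rig1_kf_contDiff p i).differentiable one_ne_zero x), Rig1_pd_kf, mul_zero, zero_add]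
    rw [Finset.sum_congr rfl fun i _ => h1 i, ← fderiv_sum]
    have h2 : HasFDerivAt (fun x : E => U x ^ 2 * x j)
        ((U x ^ 2) • (EuclideanSpace.proj j : E →L[ℝ] ℝ) + x j • ((2 * U x) • fderiv ℝ U x)) x := by
      have h3 : HasFDerivAt (fun x : E => x j) (EuclideanSpace.proj j : E →L[ℝ] ℝ) x :=
        (EuclideanSpace.proj j : E →L[ℝ] ℝ).hasFDerivAt
      have h4 := (hUd.hasFDerivAt.pow 2)
      have h5 := h4.mul h3
      refine h5.congr_fderiv ?_
      ext v
      simp
    rw [h2.fderiv]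
    have h6 : fderiv ℝ U x (kf p x) = 0 := congrFun hp x
    simp only [_root_.add_apply, _root_.smul_apply, smul_eq_mul, h6, mul_zero, add_zero]
    rfl
  have h0 : ∫ x, ∑ i, pd (fun x : E => (U x ^ 2 * x j) * kf p x i) i x = 0 := by
    rw [integral_finsetSum _ fun i _ =>
      integrable_cc (continuous_pd (hF i) i) (hasCompactSupport_pd (hFcs i) i)]
    exact Finset.sum_eq_zero fun i _ => integral_pd (hF i) (hFcs i) i
  simpa only [hpt] using h0

private theorem Rig1_lin (h : UU D k c U) (α β γ : ℝ) (m n : Fin 3) :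
    ∫ x : E, U x ^ 2 * (α + (β * x m - γ * x n))
      = α * (∫ x, U x ^ 2) + (β * (∫ x : E, U x ^ 2 * x m) - γ * ∫ x : E, U x ^ 2 * x n) := by
  have hcs := Rig1_cs h
  have hUc : Continuous U := h.C1.continuous
  have i0 : Integrable (fun x : E => U x ^ 2) := by
    refine integrable_cc (hUc.pow 2) ?_
    have : (fun x : E => U x ^ 2) = fun x => U x * U x := by funext x; ring
    rw [this]
    exact HasCompactSupport.mul_right hcs
  have i1 : ∀ m : Fin 3, Integrable (fun x : E => U x ^ 2 * x m) := by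
    intro m
    refine integrable_cc ((hUc.pow 2).mul (by fun_prop)) ?_
    have : (fun x : E => U x ^ 2 * x m) = fun x => U x * (U x * x m) := by funext x; ring
    rw [this]
    exact HasCompactSupport.mul_right hcs
  have h1 : (fun x : E => U x ^ 2 * (α + (β * x m - γ * x n)))
      = fun x : E => α * U x ^ 2 + (β * (U x ^ 2 * x m) - γ * (U x ^ 2 * x n)) := by
    funext x; ring
  have h2 : Integrable fun x : E => β * (U x ^ 2 * x m) - γ * (U x ^ 2 * x n) :=
    ((i1 m).const_mul β).sub ((i1 n).const_mul γ)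
  rw [h1, integral_add (i0.const_mul α) h2,
    integral_sub ((i1 m).const_mul β) ((i1 n).const_mul γ), integral_const_mul,
    integral_const_mul, integral_const_mul]

theorem rig1a (h : UU D k c U) : ∃ q : E, ∀ p : E × E, ww U p = 0 → p.1 = -crs p.2 q := by
  have hI : 0 < ∫ x, U x ^ 2 := int_sq_pos h.C1.continuous (Rig1_cs h) (Rig1_ne h)
  obtain ⟨q, hq⟩ : ∃ q : E, ∀ j, q j = (∫ x, U x ^ 2)⁻¹ * ∫ x : E, U x ^ 2 * x j :=
    ⟨WithLp.toLp 2 fun j => (∫ x, U x ^ 2)⁻¹ * ∫ x : E, U x ^ 2 * x j, fun j => rfl⟩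
  refine ⟨q, fun p hp => ?_⟩
  have hI' : (∫ x, U x ^ 2) ≠ 0 := hI.ne'
  ext j
  have hm := Rig1_moment h hp j
  fin_cases j
  · simp only [Fin.zero_eta, kf, PiLp.add_apply, crs_apply0] at hm
    rw [Rig1_lin h] at hm
    simp only [Fin.zero_eta, PiLp.neg_apply, crs_apply0, hq]
    field_simp
    linarith
  · simp only [Fin.mk_one, kf, PiLp.add_apply, crs_apply1] at hm
    rw [Rig1_lin h] at hm
    simp only [Fin.mk_one, PiLp.neg_apply, crs_apply1, hq]
    field_simp
    linarith
  · simp only [Fin.reduceFinMk, kf, PiLp.add_apply, crs_apply2] at hm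
    rw [Rig1_lin h] at hm
    simp only [Fin.reduceFinMk, PiLp.neg_apply, crs_apply2, hq]
    field_simp
    linarith

/-- the cross product as a continuous linear map -/
private noncomputable def Rig1L (b : E) : E →L[ℝ] E :=
  LinearMap.toContinuousLinearMap
    { toFun := crs b
      map_add' := crs_add_right b
      map_smul' := fun a x => crs_smul_right a b x }

private theorem Rig1L_apply (b x : E) : Rig1L b x = crs b x := rfl

private theorem Rig1_jacobi (b₁ b₂ z : E) :
    crs b₁ (crs b₂ z) - crs b₂ (crs b₁ z) = crs (crs b₁ b₂) z := by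
  ext i
  fin_cases i
  · simp only [Fin.zero_eta, PiLp.sub_apply, crs_apply0, crs_apply1, crs_apply2]; ring
  · simp only [Fin.mk_one, PiLp.sub_apply, crs_apply0, crs_apply1, crs_apply2]; ring
  · simp only [Fin.reduceFinMk, PiLp.sub_apply, crs_apply0, crs_apply1, crs_apply2]; ring

/-- the triple `b₁, b₂, b₁ × b₂` spans -/
private theorem Rig1_span (b₁ b₂ v : E) :
    (‖crs b₁ b₂‖ ^ 2) • v = (inner ℝ v (crs b₂ (crs b₁ b₂))) • b₁
      + (inner ℝ v (crs (crs b₁ b₂) b₁)) • b₂ + (inner ℝ v (crs b₁ b₂)) • crs b₁ b₂ := by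
  rw [norm_sq, inner_eq, inner_eq, inner_eq]
  ext i
  fin_cases i
  · simp only [Fin.zero_eta, PiLp.add_apply, PiLp.smul_apply, smul_eq_mul, crs_apply0, crs_apply1,
      crs_apply2]; ring
  · simp only [Fin.mk_one, PiLp.add_apply, PiLp.smul_apply, smul_eq_mul, crs_apply0, crs_apply1,
      crs_apply2]; ring
  · simp only [Fin.reduceFinMk, PiLp.add_apply, PiLp.smul_apply, smul_eq_mul, crs_apply0,
      crs_apply1, crs_apply2]; ring

private theorem Rig1_crs_ne {b₁ b₂ : E} (hb : LinearIndependent ℝ ![b₁, b₂]) :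
    crs b₁ b₂ ≠ 0 := by
  intro h0
  have h1 : (inner ℝ b₁ b₂) • b₁ + (-(‖b₁‖ ^ 2)) • b₂ = crs b₁ (crs b₁ b₂) := by
    rw [norm_sq, inner_eq]
    ext i
    fin_cases i
    · simp only [Fin.zero_eta, PiLp.add_apply, PiLp.smul_apply, smul_eq_mul, crs_apply0,
        crs_apply1, crs_apply2]; ring
    · simp only [Fin.mk_one, PiLp.add_apply, PiLp.smul_apply, smul_eq_mul, crs_apply0, crs_apply1,
        crs_apply2]; ring
    · simp only [Fin.reduceFinMk, PiLp.add_apply, PiLp.smul_apply, smul_eq_mul, crs_apply0,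
        crs_apply1, crs_apply2]; ring
  have h2 : crs b₁ (0 : E) = 0 := by
    have := crs_smul_right 0 b₁ (0 : E)
    simpa using this
  rw [h0, h2] at h1
  have h3 := (LinearIndependent.pair_iff.1 hb _ _ h1).2
  have h4 : b₁ = 0 := by
    have : ‖b₁‖ ^ 2 = 0 := by linarith
    exact norm_eq_zero.1 (pow_eq_zero_iff (two_ne_zero)|>.1 this)
  have h5 := LinearIndependent.pair_iff.1 hb 1 0 (by rw [h4]; simp)
  exact one_ne_zero h5.1

private theorem Rig1_perp (z v : E) (hv : inner ℝ z v = 0) :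
    crs (crs z v) z = (‖z‖ ^ 2) • v := by
  have h1 : crs (crs z v) z = (‖z‖ ^ 2) • v - (inner ℝ z v) • z := by
    rw [norm_sq, inner_eq]
    ext i
    fin_cases i
    · simp only [Fin.zero_eta, PiLp.sub_apply, PiLp.smul_apply, smul_eq_mul, crs_apply0,
        crs_apply1, crs_apply2]; ring
    · simp only [Fin.mk_one, PiLp.sub_apply, PiLp.smul_apply, smul_eq_mul, crs_apply0, crs_apply1,
        crs_apply2]; ring
    · simp only [Fin.reduceFinMk, PiLp.sub_apply, PiLp.smul_apply, smul_eq_mul, crs_apply0,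
        crs_apply1, crs_apply2]; ring
  rw [h1, hv, zero_smul, sub_zero]

theorem rig1b (h : UU D k c U) {q b₁ b₂ : E} (hb : LinearIndependent ℝ ![b₁, b₂])
    (h1 : ∀ x, fderiv ℝ U x (crs b₁ (x - q)) = 0) (h2 : ∀ x, fderiv ℝ U x (crs b₂ (x - q)) = 0) :
    ∀ x y, ‖x - q‖ = ‖y - q‖ → U x = U y := by
  -- derivative of the relations
  have hder : ∀ b : E, (∀ x, fderiv ℝ U x (crs b (x - q)) = 0) → ∀ x ∈ D, ∀ v,
      fderiv ℝ (fderiv ℝ U) x v (crs b (x - q)) + fderiv ℝ U x (crs b v) = 0 := by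
    intro b hb0 x hx v
    have hUx : DifferentiableAt ℝ (fderiv ℝ U) x := by
      have h3 : ContDiffOn ℝ 1 (fderiv ℝ U) D := h.C2.fderiv_of_isOpen h.opn (by norm_num)
      exact ((h3 x hx).contDiffAt (h.opn.mem_nhds hx)).differentiableAt one_ne_zero
    have h4 : HasFDerivAt (fun y : E => crs b (y - q)) (Rig1L b) x := by
      have h5 : HasFDerivAt (fun y : E => Rig1L b (y - q)) ((Rig1L b).comp (ContinuousLinearMap.id ℝ E)) x :=
        (Rig1L b).hasFDerivAt.comp x ((hasFDerivAt_id x).sub_const q)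
      exact h5
    have h6 := hUx.hasFDerivAt.clm_apply h4
    have h7 : (fun y : E => fderiv ℝ U y (crs b (y - q))) = fun _ => 0 := funext hb0
    rw [h7] at h6
    have h8 := h6.unique (hasFDerivAt_const (0 : ℝ) x)
    have h9 := congrArg (fun T : E →L[ℝ] ℝ => T v) h8
    simp only [_root_.add_apply, ContinuousLinearMap.comp_apply, ContinuousLinearMap.flip_apply,
      _root_.zero_apply, Rig1L_apply] at h9
    linarith
  have h3 : ∀ x, fderiv ℝ U x (crs (crs b₁ b₂) (x - q)) = 0 := by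
    intro x
    by_cases hx : x ∈ D
    · have e1 := hder b₁ h1 x hx (crs b₂ (x - q))
      have e2 := hder b₂ h2 x hx (crs b₁ (x - q))
      have hsym : IsSymmSndFDerivAt ℝ U x :=
        ((h.C2 x hx).contDiffAt (h.opn.mem_nhds hx)).isSymmSndFDerivAt (by simp)
      have e3 := hsym (crs b₂ (x - q)) (crs b₁ (x - q))
      rw [← Rig1_jacobi, map_sub]
      linarith
    · rw [(h.out x hx).2]
      rfl
  have hall : ∀ b x, fderiv ℝ U x (crs b (x - q)) = 0 := by
    intro b x
    have hn : ‖crs b₁ b₂‖ ^ 2 ≠ 0 := pow_ne_zero 2 (norm_ne_zero_iff.2 (Rig1_crs_ne hb))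
    have e1 : ‖crs b₁ b₂‖ ^ 2 * fderiv ℝ U x (crs b (x - q)) = 0 := by
      have e2 : ‖crs b₁ b₂‖ ^ 2 * fderiv ℝ U x (crs b (x - q))
          = fderiv ℝ U x (crs ((‖crs b₁ b₂‖ ^ 2) • b) (x - q)) := by
        rw [crs_smul_left, map_smul, smul_eq_mul]
      rw [e2, Rig1_span, crs_add_left, crs_add_left, crs_smul_left, crs_smul_left, crs_smul_left,
        map_add, map_add, map_smul, map_smul, map_smul, h1 x, h2 x, h3 x]
      simp
    exact (mul_eq_zero.1 e1).resolve_left hn
  have hperp : ∀ x v : E, x ≠ q → inner ℝ (x - q) v = 0 → fderiv ℝ U x v = 0 := by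
    intro x v hx hv
    have hz : ‖x - q‖ ^ 2 ≠ 0 := pow_ne_zero 2 (norm_ne_zero_iff.2 (sub_ne_zero.2 hx))
    have e1 := hall (crs (x - q) v) x
    rw [Rig1_perp _ _ hv, map_smul, smul_eq_mul] at e1
    exact (mul_eq_zero.1 e1).resolve_left hz
  intro x y hxy
  by_cases hxq : x = q
  · have : y = q := by
      rw [hxq, sub_self, norm_zero] at hxy
      exact sub_eq_zero.1 (norm_eq_zero.1 hxy.symm)
    rw [hxq, this]
  have hρ : 0 < ‖x - q‖ := norm_pos_iff.2 (sub_ne_zero.2 hxq)
  obtain ⟨ρ, hρe⟩ : ∃ ρ : ℝ, ρ = ‖x - q‖ := ⟨_, rfl⟩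
  rw [← hρe] at hρ
  -- the homogeneous extension
  have hP : ∀ z : E, z ≠ 0 → ∃ P' : E →L[ℝ] E,
      HasFDerivAt (fun w : E => (ρ * ‖w‖⁻¹) • w) P' z ∧
      ∀ v, inner ℝ ((ρ * ‖z‖⁻¹) • z) (P' v) = 0 := by
    intro z hz
    have hd : DifferentiableAt ℝ (fun w : E => (ρ * ‖w‖⁻¹) • w) z := by
      have hnd : DifferentiableAt ℝ (fun w : E => ‖w‖) z :=
        (contDiffAt_norm ℝ (n := 1) hz).differentiableAt one_ne_zero
      exact ((hnd.inv (norm_ne_zero_iff.2 hz)).const_mul ρ).smul differentiableAt_id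
    refine ⟨_, hd.hasFDerivAt, fun v => ?_⟩
    have e1 : HasFDerivAt (fun w : E => inner ℝ ((ρ * ‖w‖⁻¹) • w) ((ρ * ‖w‖⁻¹) • w)) _ z :=
      hd.hasFDerivAt.inner ℝ hd.hasFDerivAt
    have e2 : (fun w : E => inner ℝ ((ρ * ‖w‖⁻¹) • w) ((ρ * ‖w‖⁻¹) • w))
        =ᶠ[𝓝 z] fun _ => ρ ^ 2 := by
      filter_upwards [isOpen_ne.mem_nhds hz] with w hw
      have hw' : ‖w‖ ≠ 0 := norm_ne_zero_iff.2 hw
      rw [real_inner_self_eq_norm_sq, norm_smul, norm_mul, norm_inv, norm_norm,
        Real.norm_of_nonneg hρ.le]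
      field_simp
    have e3 := e1.unique ((hasFDerivAt_const (ρ ^ 2) z).congr_of_eventuallyEq e2)
    have e4 := congrArg (fun T : E →L[ℝ] ℝ => T v) e3
    simp only [ContinuousLinearMap.comp_apply, ContinuousLinearMap.prod_apply,
      fderivInnerCLM_apply, _root_.zero_apply] at e4
    rw [real_inner_comm] at e4
    rw [real_inner_comm]
    linarith
  have hconst : ∀ z w : E, z ≠ 0 → w ≠ 0 →
      U (q + (ρ * ‖z‖⁻¹) • z) = U (q + (ρ * ‖w‖⁻¹) • w) := by
    intro z w hz hw
    have hopen : IsOpen ({0}ᶜ : Set E) := isOpen_compl_singleton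
    have hconn : IsPreconnected ({0}ᶜ : Set E) := by
      refine (isConnected_compl_singleton_of_one_lt_rank ?_ (0 : E)).isPreconnected
      rw [← Module.finrank_eq_rank]
      simp
    have hfd : ∀ z : E, z ≠ 0 → HasFDerivAt (fun z : E => U (q + (ρ * ‖z‖⁻¹) • z)) (0 : E →L[ℝ] ℝ) z := by
      intro z hz
      obtain ⟨P', hP1, hP2⟩ := hP z hz
      have hU1 : HasFDerivAt U (fderiv ℝ U (q + (ρ * ‖z‖⁻¹) • z)) (q + (ρ * ‖z‖⁻¹) • z) :=
        (h.C1.differentiable one_ne_zero _).hasFDerivAt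
      have hcomp := hU1.comp z (hP1.const_add q)
      refine hcomp.congr_fderiv ?_
      ext v
      rw [ContinuousLinearMap.comp_apply, _root_.zero_apply]
      refine hperp _ _ ?_ ?_
      · intro he
        have e5 : (ρ * ‖z‖⁻¹) • z = 0 := by simpa using he
        have hz' : ‖z‖ ≠ 0 := norm_ne_zero_iff.2 hz
        rcases smul_eq_zero.1 e5 with e6 | e6
        · exact mul_ne_zero hρ.ne' (inv_ne_zero hz') e6
        · exact hz e6
      · rw [add_sub_cancel_left]
        exact hP2 v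
    exact hopen.is_const_of_fderiv_eq_zero hconn
      (fun z hz => (hfd z hz).differentiableAt.differentiableWithinAt)
      (fun z hz => (hfd z hz).fderiv) hz hw
  have hyq : y - q ≠ 0 := by
    intro h0
    rw [h0, norm_zero] at hxy
    linarith
  have hxq' : x - q ≠ 0 := sub_ne_zero.2 hxq
  have hfin := hconst (x - q) (y - q) hxq' hyq
  rw [← hxy, ← hρe, mul_inv_cancel₀ hρ.ne', one_smul, one_smul, add_sub_cancel,
    add_sub_cancel] at hfin
  exact hfin

theorem rigid1 (h : UU D k c U) (N : Submodule ℝ (E × E)) (hN : ∀ p ∈ N, ww U p = 0)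
    (h2 : 2 ≤ Module.finrank ℝ N) : ∃ q : E, ∀ x y, ‖x - q‖ = ‖y - q‖ → U x = U y := by
  obtain ⟨f, hf⟩ := exists_linearIndependent_of_le_finrank h2
  obtain ⟨q, hq⟩ := rig1a h
  refine ⟨q, rig1b h (b₁ := ((f 0 : N) : E × E).2) (b₂ := ((f 1 : N) : E × E).2) ?_ ?_ ?_⟩
  · rw [LinearIndependent.pair_iff]
    intro s t hst
    have e0 := hq _ (hN _ (f 0).2)
    have e1 := hq _ (hN _ (f 1).2)
    have hz : crs (0 : E) q = 0 := by
      have := crs_smul_left 0 (0 : E) q
      simpa using this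
    have e2 : s • (f 0 : N) + t • (f 1 : N) = 0 := by
      apply Subtype.ext
      apply Prod.ext
      · change s • ((f 0 : N) : E × E).1 + t • ((f 1 : N) : E × E).1 = 0
        rw [e0, e1, smul_neg, smul_neg, ← crs_smul_left, ← crs_smul_left, ← neg_add,
          ← crs_add_left, hst, hz, neg_zero]
      · exact hst
    have e3 : LinearIndependent ℝ ![f 0, f 1] := by
      have : ![f 0, f 1] = f := by
        funext i
        fin_cases i <;> rfl
      rw [this]
      exact hf
    exact LinearIndependent.pair_iff.1 e3 s t e2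
  · intro x
    have e0 := hq _ (hN _ (f 0).2)
    have e1 := congrFun (hN _ (f 0).2) x
    have e2 : kf ((f 0 : N) : E × E) x = crs ((f 0 : N) : E × E).2 (x - q) := by
      unfold kf
      rw [e0]
      have e3 := crs_add_right ((f 0 : N) : E × E).2 (x - q) q
      rw [sub_add_cancel] at e3
      rw [e3]
      abel
    unfold ww at e1
    rw [e2] at e1
    exact e1
  · intro x
    have e0 := hq _ (hN _ (f 1).2)
    have e1 := congrFun (hN _ (f 1).2) x
    have e2 : kf ((f 1 : N) : E × E) x = crs ((f 1 : N) : E × E).2 (x - q) := by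
      unfold kf
      rw [e0]
      have e3 := crs_add_right ((f 1 : N) : E × E).2 (x - q) q
      rw [sub_add_cancel] at e3
      rw [e3]
      abel
    unfold ww at e1
    rw [e2] at e1
    exact e1

end Pool.Agent.H68.SC
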