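import Pool.Agent.H68.SC.Ext

/-!
# Module Rig2a (about 130 lines): if `U` is radial about `q` then so is `D`

PROOF. `U = extU D c u`, `h' = ext_UU h`. `S ρ = sphere q ρ`. Call `ρ > 0` bad if `S ρ` meets `D` and
is not contained in `D`. Suppose `ρ₀` is bad (`ρ₀ = 0` is impossible: `S 0 = {q}`).
(1) If `ρ` is bad then `U = 0` on `S ρ` (it has a point outside `D`; `U` is radial).
(2) There is no `δ > 0` such that all `ρ ∈ (ρ₀, ρ₀ + δ)` are bad, and none such that all
`ρ ∈ (ρ₀ - δ, ρ₀)` are bad: `D` meets `S ρ₀` and is open, so `V = D ∩ {‖x - q‖ ∈ (ρ₀, ρ₀ + δ)}` is open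
and nonempty (move the point radially), `U = 0` on `V` by (1), so `helm` gives `k² c = 0`.
(3) For `ρ` near `ρ₀` the sphere `S ρ` meets `D` (openness). So by (2) there are `ρ_j → ρ₀` with
`S ρ_j ⊆ D`, i.e. `φ < 0` on `S ρ_j`; hence `φ ≤ 0` on `S ρ₀` (each point of `S ρ₀` is a limit of the
radially moved points).
(4) `S ρ₀` is not contained in `D`: pick `x ∈ S ρ₀` with `φ x ≥ 0`, so `φ x = 0`, a maximum of `φ` on
`S ρ₀`. So `fderiv ℝ φ x v = 0` for `v ⟂ x - q` (a curve on the sphere, e.g. a circle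
`q + cos t (x - q) + sin t v` for `‖v‖ = ρ₀`, `v ⟂ x - q`; `IsLocalMax.hasDerivAt_eq_zero`), and
`fderiv ℝ φ x (x - q) ≠ 0` by `reg`. If it is positive, `φ (x + t (x - q)) > 0` for small `t > 0`, so
`S ρ` is not contained in `D` for `ρ` slightly larger than `ρ₀`, all these `ρ` are bad by (3):
contradiction to (2). If it is negative use `t < 0` and `ρ` slightly smaller.
-/

set_option autoImplicit false

namespace Pool.Agent.H68.SC

open Filter Topology MeasureTheory Metric
open scoped ContDiff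

theorem rigid2a {D : Set E} {φ : E → ℝ} {k c : ℝ} {u : E → ℝ} (h : Sol D φ k c u) {q : E}
    (hr : ∀ x y, ‖x - q‖ = ‖y - q‖ → extU D c u x = extU D c u y) :
    ∀ x ∈ D, ∀ y, ‖y - q‖ = ‖x - q‖ → y ∈ D := by
  have hUU := ext_UU h
  set U : E → ℝ := extU D c u with hU
  have hD : IsOpen D := hUU.opn
  have hφc : Continuous φ := h.smooth.continuous
  have hmem : ∀ x, x ∈ D ↔ φ x < 0 := by
    intro x
    rw [h.eqD]
    rfl
  -- `U` does not vanish on an open subset of `D`
  have hno : ∀ V : Set E, IsOpen V → V.Nonempty → V ⊆ D → (∀ x ∈ V, U x = 0) → False := by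
    rintro V hV ⟨x, hx⟩ hVD hV0
    have h1 := hUU.helm x (hVD hx)
    have h2 : ∀ i : Fin 3, pd U i =ᶠ[𝓝 x] fun _ => 0 := by
      intro i
      filter_upwards [hV.mem_nhds hx] with y hy
      have h3 : U =ᶠ[𝓝 y] fun _ => 0 := by
        filter_upwards [hV.mem_nhds hy] with z hz
        exact hV0 z hz
      unfold pd
      rw [h3.fderiv_eq]
      simp
    have h4 : ∀ i : Fin 3, pd (pd U i) i x = 0 := by
      intro i
      show fderiv ℝ (pd U i) x (ee i) = 0
      rw [(h2 i).fderiv_eq]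
      simp
    simp only [h4, Finset.sum_const_zero, zero_add, hV0 x hx] at h1
    have h5 := hUU.kpos
    have h6 := hUU.cne
    have h7 : k ^ 2 * c ≠ 0 := mul_ne_zero (by positivity) h6
    exact h7 h1
  intro x0 hx0 y0 hy0
  by_contra hyD
  set w : E := y0 - q with hw
  set ρ : ℝ := ‖w‖ with hρ
  have hx0n : ‖x0 - q‖ = ρ := hy0.symm
  have hρ0 : 0 < ρ := by
    refine lt_of_le_of_ne (norm_nonneg _) ?_
    intro h0
    have h1 : y0 - q = 0 := by
      rw [← norm_eq_zero]
      exact h0.symm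
    have h2 : x0 - q = 0 := by
      rw [← norm_eq_zero, hx0n]
      exact h0.symm
    rw [sub_eq_zero] at h1 h2
    rw [h1, ← h2] at hyD
    exact hyD hx0
  -- moving radially
  obtain ⟨ε, hε, hεD⟩ : ∃ ε : ℝ, 0 < ε ∧ ∀ t : ℝ, |t| < ε → q + (1 + t) • (x0 - q) ∈ D := by
    have hc : Continuous fun t : ℝ => q + (1 + t) • (x0 - q) := by fun_prop
    have h1 : IsOpen ((fun t : ℝ => q + (1 + t) • (x0 - q)) ⁻¹' D) := hD.preimage hc
    have h2 : (0 : ℝ) ∈ (fun t : ℝ => q + (1 + t) • (x0 - q)) ⁻¹' D := by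
      show q + (1 + (0 : ℝ)) • (x0 - q) ∈ D
      rw [add_zero, one_smul, add_sub_cancel]
      exact hx0
    obtain ⟨ε, hε, hb⟩ := Metric.isOpen_iff.1 h1 0 h2
    refine ⟨ε, hε, fun t ht => hb ?_⟩
    rw [mem_ball, Real.dist_eq, sub_zero]
    exact ht
  have hrn : ∀ (z : E) (t : ℝ), 0 ≤ 1 + t → ‖z - q‖ = ρ → ‖q + (1 + t) • (z - q) - q‖ = (1 + t) * ρ := by
    intro z t ht hz
    rw [add_sub_cancel_left, norm_smul, Real.norm_of_nonneg ht, hz]
  have hρc : Continuous fun x : E => ‖x - q‖ := by fun_prop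
  have hplus : ∀ δ : ℝ, 0 < δ → ∃ r, ρ < r ∧ r < ρ + δ ∧ ∀ y, ‖y - q‖ = r → y ∈ D := by
    intro δ hδ
    by_contra hcon
    push Not at hcon
    refine hno (D ∩ {x | ρ < ‖x - q‖ ∧ ‖x - q‖ < ρ + δ})
      (hD.inter ((isOpen_lt continuous_const hρc).inter (isOpen_lt hρc continuous_const))) ?_
      Set.inter_subset_left ?_
    · set t := min (ε / 2) (δ / (2 * ρ)) with ht
      have ht0 : 0 < t := lt_min (by linarith) (by positivity)
      have ht1 : t ≤ ε / 2 := min_le_left _ _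
      have ht2 : t ≤ δ / (2 * ρ) := min_le_right _ _
      refine ⟨q + (1 + t) • (x0 - q), hεD t (by rw [abs_of_pos ht0]; linarith), ?_⟩
      show ρ < ‖q + (1 + t) • (x0 - q) - q‖ ∧ ‖q + (1 + t) • (x0 - q) - q‖ < ρ + δ
      rw [hrn x0 t (by linarith) hx0n]
      have h3 : t * ρ ≤ δ / 2 := by
        calc t * ρ ≤ δ / (2 * ρ) * ρ := mul_le_mul_of_nonneg_right ht2 hρ0.le
          _ = δ / 2 := by field_simp
      constructor
      · nlinarith
      · nlinarith
    · rintro x ⟨hxD, hx1, hx2⟩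
      obtain ⟨y, hy, hyD'⟩ := hcon ‖x - q‖ hx1 hx2
      rw [hr x y hy.symm]
      exact (hUU.out y hyD').1
  have hminus : ∀ δ : ℝ, 0 < δ → ∃ r, ρ - δ < r ∧ r < ρ ∧ 0 < r ∧ ∀ y, ‖y - q‖ = r → y ∈ D := by
    intro δ hδ
    by_contra hcon
    push Not at hcon
    refine hno (D ∩ {x | (ρ - δ < ‖x - q‖ ∧ ‖x - q‖ < ρ) ∧ 0 < ‖x - q‖})
      (hD.inter (((isOpen_lt continuous_const hρc).inter (isOpen_lt hρc continuous_const)).inter
        (isOpen_lt continuous_const hρc))) ?_
      Set.inter_subset_left ?_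
    · set t := min (min (ε / 2) (δ / (2 * ρ))) (1 / 2) with ht
      have ht0 : 0 < t := lt_min (lt_min (by linarith) (by positivity)) (by norm_num)
      have ht1 : t ≤ ε / 2 := (min_le_left _ _).trans (min_le_left _ _)
      have ht2 : t ≤ δ / (2 * ρ) := (min_le_left _ _).trans (min_le_right _ _)
      have ht3 : t ≤ 1 / 2 := min_le_right _ _
      refine ⟨q + (1 + -t) • (x0 - q), hεD (-t) (by rw [abs_neg, abs_of_pos ht0]; linarith), ?_⟩
      show (ρ - δ < ‖q + (1 + -t) • (x0 - q) - q‖ ∧ ‖q + (1 + -t) • (x0 - q) - q‖ < ρ) ∧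
        0 < ‖q + (1 + -t) • (x0 - q) - q‖
      rw [hrn x0 (-t) (by linarith) hx0n]
      have h3 : t * ρ ≤ δ / 2 := by
        calc t * ρ ≤ δ / (2 * ρ) * ρ := mul_le_mul_of_nonneg_right ht2 hρ0.le
          _ = δ / 2 := by field_simp
      refine ⟨⟨?_, ?_⟩, ?_⟩
      · nlinarith
      · nlinarith
      · nlinarith
    · rintro x ⟨hxD, ⟨hx1, hx2⟩, hx3⟩
      obtain ⟨y, hy, hyD'⟩ := hcon ‖x - q‖ hx1 hx2 hx3
      rw [hr x y hy.symm]
      exact (hUU.out y hyD').1
  -- `φ ≤ 0` on the sphere of radius `ρ`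
  have hle : ∀ y, ‖y - q‖ = ρ → φ y ≤ 0 := by
    intro y hy
    by_contra hpos
    rw [not_le] at hpos
    have hc : Continuous fun t : ℝ => φ (q + (1 + t) • (y - q)) := by fun_prop
    have h1 : IsOpen {t : ℝ | 0 < φ (q + (1 + t) • (y - q))} := isOpen_lt continuous_const hc
    have h2 : (0 : ℝ) ∈ {t : ℝ | 0 < φ (q + (1 + t) • (y - q))} := by
      show 0 < φ (q + (1 + (0 : ℝ)) • (y - q))
      rw [add_zero, one_smul, add_sub_cancel]
      exact hpos
    obtain ⟨δ, hδ, hb⟩ := Metric.isOpen_iff.1 h1 0 h2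
    obtain ⟨r, hr1, hr2, hr3⟩ := hplus (δ * ρ) (by positivity)
    have hr0 : 0 < r := hρ0.trans hr1
    have h3 : (r / ρ - 1) ∈ {t : ℝ | 0 < φ (q + (1 + t) • (y - q))} := by
      apply hb
      rw [mem_ball, Real.dist_eq, sub_zero]
      have h4 : 0 < r / ρ - 1 := by
        rw [sub_pos, lt_div_iff₀ hρ0]
        linarith
      rw [abs_of_pos h4, sub_lt_iff_lt_add, div_lt_iff₀ hρ0]
      nlinarith
    have h5 : 0 < φ (q + (1 + (r / ρ - 1)) • (y - q)) := h3
    have h6 : q + (1 + (r / ρ - 1)) • (y - q) ∈ D := by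
      apply hr3
      rw [hrn y (r / ρ - 1) (by rw [add_sub_cancel]; positivity) hy]
      field_simp
      ring
    rw [hmem] at h6
    linarith
  have hy00 : φ y0 = 0 := by
    refine le_antisymm (hle y0 rfl) ?_
    rw [hmem, not_lt] at hyD
    exact hyD
  have hdiff : HasFDerivAt φ (fderiv ℝ φ y0) y0 :=
    ((h.smooth.differentiable (by norm_num)) y0).hasFDerivAt
  -- tangential derivatives vanish
  have htan : ∀ v : E, inner ℝ w v = (0 : ℝ) → fderiv ℝ φ y0 v = 0 := by
    intro v hv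
    by_cases hv0 : v = 0
    · rw [hv0, map_zero]
    have hvn : 0 < ‖v‖ := norm_pos_iff.2 hv0
    set v' : E := (ρ / ‖v‖) • v with hv'
    have hv'n : ‖v'‖ = ρ := by
      rw [hv', norm_smul, Real.norm_of_nonneg (by positivity)]
      field_simp
    have hv'i : inner ℝ w v' = (0 : ℝ) := by
      rw [hv', inner_smul_right, hv, mul_zero]
    set γ : ℝ → E := fun t => q + (Real.cos t • w + Real.sin t • v') with hγ
    have hγ0 : γ 0 = y0 := by
      simp only [hγ, Real.cos_zero, Real.sin_zero, one_smul, zero_smul, add_zero, hw]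
      exact add_sub_cancel q y0
    have hγn : ∀ t, ‖γ t - q‖ = ρ := by
      intro t
      have h1 : ‖γ t - q‖ ^ 2 = ρ ^ 2 := by
        simp only [hγ]
        rw [add_sub_cancel_left, @norm_add_sq_real, norm_smul, norm_smul, inner_smul_left,
          inner_smul_right, hv'i, hv'n, ← hρ]
        simp only [Real.norm_eq_abs, mul_pow, sq_abs, mul_zero, add_zero]
        have := Real.sin_sq_add_cos_sq t
        linear_combination ρ ^ 2 * this
      exact (pow_left_inj₀ (norm_nonneg _) hρ0.le two_ne_zero).1 h1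
    have hγd : HasDerivAt γ v' 0 := by
      have h1 : HasDerivAt (fun t : ℝ => Real.cos t • w) ((-Real.sin 0) • w) 0 :=
        (Real.hasDerivAt_cos 0).smul_const w
      have h2 : HasDerivAt (fun t : ℝ => Real.sin t • v') ((Real.cos 0) • v') 0 :=
        (Real.hasDerivAt_sin 0).smul_const v'
      have h3 := (h1.add h2).const_add q
      simp only [Real.sin_zero, neg_zero, zero_smul, Real.cos_zero, one_smul, zero_add] at h3
      exact h3
    have hmax : IsLocalMax (fun t => φ (γ t)) 0 := by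
      refine Filter.Eventually.of_forall fun t => ?_
      show φ (γ t) ≤ φ (γ 0)
      rw [hγ0, hy00]
      exact hle _ (hγn t)
    have hder : HasDerivAt (fun t => φ (γ t)) (fderiv ℝ φ y0 v') 0 := by
      have h1 : HasFDerivAt φ (fderiv ℝ φ y0) (γ 0) := by
        rw [hγ0]
        exact hdiff
      exact h1.comp_hasDerivAt (0 : ℝ) hγd
    have h0 := hmax.hasDerivAt_eq_zero hder
    rw [hv', map_smul, smul_eq_mul] at h0
    have h1 : ρ / ‖v‖ ≠ 0 := by positivity
    exact (mul_eq_zero.1 h0).resolve_left h1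
  have hLne : fderiv ℝ φ y0 w ≠ 0 := by
    intro hL
    refine h.reg y0 hy00 ?_
    ext z
    have h1 : inner ℝ w (z - (inner ℝ w z / ρ ^ 2) • w) = (0 : ℝ) := by
      rw [inner_sub_right, inner_smul_right, real_inner_self_eq_norm_sq, ← hρ]
      field_simp
      ring
    have h2 := htan _ h1
    rw [map_sub, map_smul, hL, smul_zero, sub_zero] at h2
    rw [h2]
    rfl
  have hgd : HasDerivAt (fun t : ℝ => φ (y0 + t • w)) (fderiv ℝ φ y0 w) 0 := by
    have h1 : HasDerivAt (fun t : ℝ => y0 + t • w) w 0 := by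
      have h2 : HasDerivAt (fun t : ℝ => t • w) ((1 : ℝ) • w) 0 := (hasDerivAt_id (0 : ℝ)).smul_const w
      rw [one_smul] at h2
      exact h2.const_add y0
    have h3 : HasFDerivAt φ (fderiv ℝ φ y0) (y0 + (0 : ℝ) • w) := by
      rw [zero_smul, add_zero]
      exact hdiff
    exact h3.comp_hasDerivAt (0 : ℝ) h1
  have hslope := hasDerivAt_iff_tendsto_slope.1 hgd
  have hsl : ∀ t : ℝ, slope (fun t : ℝ => φ (y0 + t • w)) 0 t = t⁻¹ * φ (y0 + t • w) := by
    intro t
    rw [slope_def_field, sub_zero]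
    simp only [zero_smul, add_zero, hy00, sub_zero]
    rw [div_eq_inv_mul]
  have hyt : ∀ t : ℝ, y0 + t • w = q + (1 + t) • (y0 - q) := by
    intro t
    rw [add_smul, one_smul, ← hw, hw]
    abel
  rcases lt_or_gt_of_ne hLne with hneg | hpos
  · have h1 : ∀ᶠ t in 𝓝[≠] (0 : ℝ), slope (fun t : ℝ => φ (y0 + t • w)) 0 t < 0 :=
      hslope.eventually (gt_mem_nhds hneg)
    rw [eventually_nhdsWithin_iff, Metric.eventually_nhds_iff] at h1
    obtain ⟨δ, hδ, hb⟩ := h1
    obtain ⟨r, hr1, hr2, hr4, hr3⟩ := hminus (δ * ρ) (by positivity)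
    have h4 : r / ρ - 1 < 0 := by
      rw [sub_neg, div_lt_one hρ0]
      exact hr2
    have h5 := hb (y := r / ρ - 1) (by
      rw [Real.dist_eq, sub_zero, abs_of_neg h4, neg_sub, sub_lt_comm, lt_div_iff₀ hρ0]
      nlinarith) h4.ne
    rw [hsl] at h5
    have h6 : 0 < φ (y0 + (r / ρ - 1) • w) := by
      have h7 : (r / ρ - 1)⁻¹ < 0 := inv_lt_zero.2 h4
      by_contra hcon
      rw [not_lt] at hcon
      have := mul_nonneg_of_nonpos_of_nonpos h7.le hcon
      linarith
    have h8 : y0 + (r / ρ - 1) • w ∈ D := by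
      apply hr3
      rw [hyt, hrn y0 (r / ρ - 1) (by rw [add_sub_cancel]; positivity) rfl]
      field_simp
      ring
    rw [hmem] at h8
    linarith
  · have h1 : ∀ᶠ t in 𝓝[≠] (0 : ℝ), 0 < slope (fun t : ℝ => φ (y0 + t • w)) 0 t :=
      hslope.eventually (lt_mem_nhds hpos)
    rw [eventually_nhdsWithin_iff, Metric.eventually_nhds_iff] at h1
    obtain ⟨δ, hδ, hb⟩ := h1
    obtain ⟨r, hr1, hr2, hr3⟩ := hplus (δ * ρ) (by positivity)
    have hr0 : 0 < r := hρ0.trans hr1
    have h4 : 0 < r / ρ - 1 := by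
      rw [sub_pos, lt_div_iff₀ hρ0]
      linarith
    have h5 := hb (y := r / ρ - 1) (by
      rw [Real.dist_eq, sub_zero, abs_of_pos h4, sub_lt_iff_lt_add, div_lt_iff₀ hρ0]
      nlinarith) h4.ne'
    rw [hsl] at h5
    have h6 : 0 < φ (y0 + (r / ρ - 1) • w) := by
      have h7 : 0 < (r / ρ - 1)⁻¹ := inv_pos.2 h4
      by_contra hcon
      rw [not_lt] at hcon
      have := mul_nonpos_of_nonneg_of_nonpos h7.le hcon
      linarith
    have h8 : y0 + (r / ρ - 1) • w ∈ D := by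
      apply hr3
      rw [hyt, hrn y0 (r / ρ - 1) (by rw [add_sub_cancel]; positivity) rfl]
      field_simp
      ring
    rw [hmem] at h8
    linarith

end Pool.Agent.H68.SC
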