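import Pool.Agent.H68.SC.Defs

/-!
# Module Rig2b (about 110 lines): a radial domain with connected boundary is a ball

PROOF. `A = (fun x => ‖x - q‖) '' D` is a bounded interval (connected image) and `x ∈ D ↔ ‖x - q‖ ∈ A`.
`A ∩ (0, ∞)` is open in `ℝ`: if `ρ = ‖x - q‖ > 0`, `x ∈ D`, move `x` radially. Let `a = sInf A ≥ 0`,
`b = sSup A`; `b > 0` and `b ∉ A`; `b > a`. If `q ∈ D` then `0 ∈ A`, `A = [0, b)`, `D = ball q b`.
If `q ∉ D` then `0 ∉ A`, `A` is open, `a ∉ A`, `A = (a, b)`, `D = {a < ‖x - q‖ < b}`. Then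
`frontier D` contains a point of norm distance `a` and one of distance `b` from `q` (limits along a
ray; they are not in the open set `D`), and `frontier D ⊆ closure D \ D ⊆ {‖x - q‖ ∈ [a, b] \ (a, b)}`, so
`‖x - q‖` takes exactly the two values `a < b` on `frontier D`. But `frontier D` is connected, being
homeomorphic to the sphere (`isConnected_sphere` / `isPreconnected_sphere`, rank of `E` is `3 > 1`):
contradiction (`IsPreconnected.image`, a connected subset of `ℝ` containing `a` and `b` contains
`(a + b) / 2`).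
-/

set_option autoImplicit false

namespace Pool.Agent.H68.SC

open Filter Topology MeasureTheory Metric
open scoped ContDiff

theorem rigid2b {D : Set E} (ho : IsOpen D) (hb : Bornology.IsBounded D) (hc : IsConnected D)
    (hs : Nonempty (frontier D ≃ₜ Metric.sphere (0 : E) 1)) {q : E}
    (hq : ∀ x ∈ D, ∀ y, ‖y - q‖ = ‖x - q‖ → y ∈ D) :
    ∃ (z : E) (r : ℝ), D = ball z r := by
  set e : E := ee 0 with he
  have hen : ‖e‖ = 1 := by simp [he]
  set γ : ℝ → E := fun t => q + t • e with hγ
  have hγc : Continuous γ := by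
    rw [hγ]
    fun_prop
  have hγn : ∀ t, ‖γ t - q‖ = |t| := by
    intro t
    simp only [hγ]
    rw [add_sub_cancel_left, norm_smul, hen, mul_one, Real.norm_eq_abs]
  set A : Set ℝ := (fun x : E => ‖x - q‖) '' D with hA
  have hAD : ∀ x, ‖x - q‖ ∈ A → x ∈ D := by
    rintro x ⟨y, hy, hxy⟩
    exact hq y hy x hxy.symm
  have hDA : ∀ x, x ∈ D → ‖x - q‖ ∈ A := fun x hx => ⟨x, hx, rfl⟩
  have hA0 : ∀ t ∈ A, 0 ≤ t := by
    rintro _ ⟨x, _, rfl⟩
    exact norm_nonneg _
  have hAγ : ∀ t, 0 ≤ t → (t ∈ A ↔ γ t ∈ D) := by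
    intro t ht
    have h1 : ‖γ t - q‖ = t := by rw [hγn, abs_of_nonneg ht]
    constructor
    · intro h
      apply hAD
      rw [h1]
      exact h
    · intro h
      have := hDA _ h
      rwa [h1] at this
  have hρc : Continuous fun x : E => ‖x - q‖ := by fun_prop
  have hApre : IsPreconnected A := hc.isPreconnected.image _ hρc.continuousOn
  have hAord : A.OrdConnected := hApre.ordConnected
  have hAne : A.Nonempty := hc.nonempty.image _
  have hAbd : BddAbove A := by
    obtain ⟨R, hR⟩ := hb.subset_closedBall q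
    refine ⟨R, ?_⟩
    rintro _ ⟨x, hx, rfl⟩
    have := hR hx
    rwa [mem_closedBall, dist_eq_norm] at this
  have hAbb : BddBelow A := ⟨0, fun t ht => hA0 t ht⟩
  have hT : IsOpen (γ ⁻¹' D) := ho.preimage hγc
  set b := sSup A with hbdef
  have hb0 : 0 ≤ b := by
    obtain ⟨t, ht⟩ := hAne
    exact (hA0 t ht).trans (le_csSup hAbd ht)
  have hbA : b ∉ A := by
    intro h
    have h1 : b ∈ γ ⁻¹' D := (hAγ b hb0).1 h
    obtain ⟨ε, hε, hball⟩ := Metric.isOpen_iff.1 hT b h1
    have h2 : b + ε / 2 ∈ γ ⁻¹' D := by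
      apply hball
      rw [mem_ball, Real.dist_eq, add_sub_cancel_left, abs_of_pos (by linarith)]
      linarith
    have h3 : b + ε / 2 ∈ A := (hAγ _ (by linarith)).2 h2
    have h4 := le_csSup hAbd h3
    linarith
  by_cases hqD : q ∈ D
  · refine ⟨q, b, ?_⟩
    have h0 : (0 : ℝ) ∈ A := by
      have := hDA q hqD
      rwa [sub_self, norm_zero] at this
    ext x
    rw [mem_ball, dist_eq_norm]
    constructor
    · intro hx
      have h1 := hDA x hx
      refine lt_of_le_of_ne (le_csSup hAbd h1) ?_
      intro h2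
      rw [h2] at h1
      exact hbA h1
    · intro hx
      obtain ⟨t, ht, hxt⟩ := exists_lt_of_lt_csSup hAne hx
      exact hAD x (hAord.out h0 ht ⟨norm_nonneg _, hxt.le⟩)
  · exfalso
    have h0 : (0 : ℝ) ∉ A := by
      intro h
      apply hqD
      apply hAD
      rwa [sub_self, norm_zero]
    set a := sInf A with hadef
    have ha0 : 0 ≤ a := le_csInf hAne hA0
    have haA : a ∉ A := by
      intro h
      have hapos : 0 < a := by
        refine lt_of_le_of_ne ha0 ?_
        intro h2
        rw [← h2] at h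
        exact h0 h
      have h1 : a ∈ γ ⁻¹' D := (hAγ a ha0).1 h
      obtain ⟨ε, hε, hball⟩ := Metric.isOpen_iff.1 hT a h1
      have hδ : 0 < min (ε / 2) (a / 2) := lt_min (by linarith) (by linarith)
      have hδ1 : min (ε / 2) (a / 2) ≤ ε / 2 := min_le_left _ _
      have hδ2 : min (ε / 2) (a / 2) ≤ a / 2 := min_le_right _ _
      have h2 : a - min (ε / 2) (a / 2) ∈ γ ⁻¹' D := by
        apply hball
        rw [mem_ball, Real.dist_eq, sub_sub_cancel_left, abs_neg, abs_of_pos hδ]
        linarith
      have h3 : a - min (ε / 2) (a / 2) ∈ A := (hAγ _ (by linarith)).2 h2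
      have h4 := csInf_le hAbb h3
      linarith
    have hIoo : ∀ t, a < t → t < b → t ∈ A := by
      intro t h1 h2
      obtain ⟨t1, ht1, h3⟩ := exists_lt_of_csInf_lt hAne h1
      obtain ⟨t2, ht2, h4⟩ := exists_lt_of_lt_csSup hAne h2
      exact hAord.out ht1 ht2 ⟨h3.le, h4.le⟩
    have hab : a < b := by
      obtain ⟨t, ht⟩ := hAne
      have h1 : a < t := by
        refine lt_of_le_of_ne (csInf_le hAbb ht) ?_
        intro h2
        rw [← h2] at ht
        exact haA ht
      exact h1.trans_le (le_csSup hAbd ht)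
    -- the values of the norm on the frontier
    have hfr : ∀ x ∈ frontier D, ‖x - q‖ = a ∨ ‖x - q‖ = b := by
      intro x hx
      rw [ho.frontier_eq] at hx
      have h1 : ‖x - q‖ ∈ closure A := by
        have := hρc.continuousOn.image_closure (s := D) (f := fun x : E => ‖x - q‖)
        exact this ⟨x, hx.1, rfl⟩
      have h2 : ‖x - q‖ ∈ Set.Icc a b := by
        have h3 : closure A ⊆ Set.Icc a b := by
          refine closure_minimal ?_ isClosed_Icc
          intro t ht
          exact ⟨csInf_le hAbb ht, le_csSup hAbd ht⟩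
        exact h3 h1
      by_contra hcon
      rw [not_or] at hcon
      apply hx.2
      apply hAD
      exact hIoo _ (lt_of_le_of_ne h2.1 (Ne.symm hcon.1)) (lt_of_le_of_ne h2.2 hcon.2)
    have hcl : ∀ t ∈ Set.Icc a b, γ t ∈ closure D := by
      intro t ht
      have h1 : t ∈ closure (Set.Ioo a b) := by
        rw [closure_Ioo hab.ne]
        exact ht
      have h2 : Set.MapsTo γ (Set.Ioo a b) D := by
        intro s hs
        exact (hAγ s (ha0.trans hs.1.le)).1 (hIoo s hs.1 hs.2)
      exact h2.closure hγc h1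
    have hfa : γ a ∈ frontier D := by
      rw [ho.frontier_eq]
      exact ⟨hcl a ⟨le_rfl, hab.le⟩, fun h => haA ((hAγ a ha0).2 h)⟩
    have hfb : γ b ∈ frontier D := by
      rw [ho.frontier_eq]
      exact ⟨hcl b ⟨hab.le, le_rfl⟩, fun h => hbA ((hAγ b hb0).2 h)⟩
    have hpre : IsPreconnected (frontier D) := by
      obtain ⟨φ⟩ := hs
      have hrank : 1 < Module.rank ℝ E := by
        rw [← Module.finrank_eq_rank]
        simp
      have h1 : IsPreconnected (Metric.sphere (0 : E) 1) := isPreconnected_sphere hrank 0 1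
      have h2 : PreconnectedSpace (Metric.sphere (0 : E) 1) := isPreconnected_iff_preconnectedSpace.1 h1
      have h3 : IsPreconnected (Set.univ : Set (Metric.sphere (0 : E) 1)) := isPreconnected_univ
      have h4 := h3.image (fun y => ((φ.symm y : frontier D) : E))
        (continuous_subtype_val.comp φ.symm.continuous).continuousOn
      have h5 : (fun y => ((φ.symm y : frontier D) : E)) '' (Set.univ : Set (Metric.sphere (0 : E) 1)) =
          frontier D := by
        ext x
        constructor
        · rintro ⟨y, _, rfl⟩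
          exact (φ.symm y).2
        · intro hx
          exact ⟨φ ⟨x, hx⟩, Set.mem_univ _, by simp⟩
      rwa [h5] at h4
    have himg := (hpre.image (fun x : E => ‖x - q‖) hρc.continuousOn).ordConnected
    have hma : a ∈ (fun x : E => ‖x - q‖) '' frontier D := ⟨γ a, hfa, by
      show ‖γ a - q‖ = a
      rw [hγn, abs_of_nonneg ha0]⟩
    have hmb : b ∈ (fun x : E => ‖x - q‖) '' frontier D := ⟨γ b, hfb, by
      show ‖γ b - q‖ = b
      rw [hγn, abs_of_nonneg hb0]⟩
    obtain ⟨x, hx, hxm⟩ := himg.out hma hmb (show (a + b) / 2 ∈ Set.Icc a b from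
      ⟨by linarith, by linarith⟩)
    have hxm' : ‖x - q‖ = (a + b) / 2 := hxm
    rcases hfr x hx with h | h
    · rw [h] at hxm'
      linarith
    · rw [h] at hxm'
      linarith

end Pool.Agent.H68.SC
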