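import Pool.Agent.H68.SC.Defs

/-!
# Module SymU (about 110 lines): symmetrising and translating solutions

PROOF. `symU`: `D = -D` is open. On `D`: `v x = (u x + u (-x)) / 2` is `C²`,
`fderiv ℝ v x = (fderiv ℝ u x - fderiv ℝ u (-x)) / 2` (chain rule), and
`fderiv ℝ (fderiv ℝ v) x = (fderiv ℝ (fderiv ℝ u) x + fderiv ℝ (fderiv ℝ u) (-x)) / 2` (both formulas
hold near each point of the open set `D`); `helm` is linear. `bd`: `x ∈ frontier D → -x ∈ frontier D`
and `y ↦ -y` maps `𝓝[D] x` to `𝓝[D] (-x)`; only near the boundary within `D` is the formula for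
`fderiv ℝ v` needed (`Tendsto.congr'` with `self_mem_nhdsWithin`). `trans_sol`: everything is
translated; `(fun x => x + x₀)⁻¹' D` is homeomorphic to `D` by `Homeomorph.addRight`, also the
frontiers (`Homeomorph.preimage_frontier`); `fderiv_comp_add_right`.
-/

set_option autoImplicit false

namespace Pool.Agent.H68.SC

open Filter Topology MeasureTheory Metric
open scoped ContDiff

private theorem SymU_open {D : Set E} {φ : E → ℝ} {k c : ℝ} {u : E → ℝ} (h : Sol D φ k c u) :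
    IsOpen D := by
  rw [h.eqD]
  exact isOpen_lt h.smooth.continuous continuous_const

private theorem SymU_neg {F : Type*} [NormedAddCommGroup F] [NormedSpace ℝ F] {f : E → F} {x : E}
    (d2 : DifferentiableAt ℝ f (-x)) : fderiv ℝ (fun y => f (-y)) x = -fderiv ℝ f (-x) := by
  have h1 : HasFDerivAt (fun y : E => -y) (-(ContinuousLinearMap.id ℝ E)) x :=
    (hasFDerivAt_id x).neg
  have h2 : HasFDerivAt (fun y => f (-y)) ((fderiv ℝ f (-x)).comp
      (-(ContinuousLinearMap.id ℝ E))) x :=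
    HasFDerivAt.comp x (f := fun y : E => -y) (g := f) d2.hasFDerivAt h1
  rw [h2.fderiv]
  ext v
  simp

private theorem SymU_fderiv {D : Set E} {u : E → ℝ} (hD : IsOpen D) (h2 : ContDiffOn ℝ 2 u D)
    (hs : ∀ x ∈ D, -x ∈ D) {x : E} (hx : x ∈ D) :
    fderiv ℝ (fun x => (u x + u (-x)) / 2) x =
      (2⁻¹ : ℝ) • (fderiv ℝ u x - fderiv ℝ u (-x)) := by
  have d1 : DifferentiableAt ℝ u x :=
    (h2.contDiffAt (hD.mem_nhds hx)).differentiableAt two_ne_zero
  have d2 : DifferentiableAt ℝ u (-x) :=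
    (h2.contDiffAt (hD.mem_nhds (hs x hx))).differentiableAt two_ne_zero
  have d3 : DifferentiableAt ℝ (fun y => u (-y)) x :=
    DifferentiableAt.comp x (f := fun y : E => -y) (g := u) d2 differentiableAt_id.neg
  have e1 : (fun x => (u x + u (-x)) / 2) = fun x => (2⁻¹ : ℝ) * (u x + u (-x)) := by
    funext y; ring
  rw [e1, fderiv_const_mul (DifferentiableAt.fun_add d1 d3), fderiv_fun_add d1 d3,
    SymU_neg d2, sub_eq_add_neg]

private theorem SymU_fderiv2 {D : Set E} {u : E → ℝ} (hD : IsOpen D) (h2 : ContDiffOn ℝ 2 u D)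
    (hs : ∀ x ∈ D, -x ∈ D) {x : E} (hx : x ∈ D) :
    fderiv ℝ (fderiv ℝ (fun x => (u x + u (-x)) / 2)) x =
      (2⁻¹ : ℝ) • (fderiv ℝ (fderiv ℝ u) x + fderiv ℝ (fderiv ℝ u) (-x)) := by
  have hev : fderiv ℝ (fun x => (u x + u (-x)) / 2) =ᶠ[𝓝 x]
      fun x => (2⁻¹ : ℝ) • (fderiv ℝ u x - fderiv ℝ u (-x)) :=
    Filter.eventuallyEq_of_mem (hD.mem_nhds hx) fun y hy => SymU_fderiv hD h2 hs hy
  have d1 : DifferentiableAt ℝ (fderiv ℝ u) x :=
    ((h2.contDiffAt (hD.mem_nhds hx)).fderiv_right (m := 1) (by norm_num)).differentiableAt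
      one_ne_zero
  have d2 : DifferentiableAt ℝ (fderiv ℝ u) (-x) :=
    ((h2.contDiffAt (hD.mem_nhds (hs x hx))).fderiv_right (m := 1) (by norm_num)).differentiableAt
      one_ne_zero
  have d3 : DifferentiableAt ℝ (fun y => fderiv ℝ u (-y)) x :=
    DifferentiableAt.comp x (f := fun y : E => -y) (g := fderiv ℝ u) d2 differentiableAt_id.neg
  rw [hev.fderiv_eq, fderiv_fun_const_smul (DifferentiableAt.fun_sub d1 d3),
    fderiv_fun_sub d1 d3]
  have e : fderiv ℝ (fun y => fderiv ℝ u (-y)) x = -fderiv ℝ (fderiv ℝ u) (-x) :=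
    SymU_neg d2
  rw [e, sub_neg_eq_add]

theorem symU {D : Set E} {φ : E → ℝ} {k c : ℝ} {u : E → ℝ} (h : Sol D φ k c u)
    (hs : ∀ x ∈ D, -x ∈ D) : Sol D φ k c (fun x => (u x + u (-x)) / 2) := by
  have hD : IsOpen D := SymU_open h
  have hneg : -D = D := by
    ext x
    rw [Set.mem_neg]
    exact ⟨fun hx => by simpa using hs _ hx, fun hx => hs x hx⟩
  have hfr : ∀ x ∈ frontier D, -x ∈ frontier D := by
    intro x hx
    have h1 : (Homeomorph.neg E) ⁻¹' (frontier D) = frontier D := by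
      rw [Homeomorph.preimage_frontier]
      congr 1
    rw [← h1] at hx
    exact hx
  have htn : ∀ x : E, Tendsto (fun y => -y) (𝓝[D] x) (𝓝[D] (-x)) := by
    intro x
    refine tendsto_nhdsWithin_iff.2 ⟨?_, ?_⟩
    · exact (continuous_neg.tendsto x).mono_left nhdsWithin_le_nhds
    · exact eventually_of_mem self_mem_nhdsWithin fun y hy => hs y hy
  refine ⟨h.bdd, h.conn, h.smooth, h.eqD, h.reg, h.sph, h.kpos, h.cne, ?_, ?_, ?_⟩
  · exact (h.u2.add (h.u2.comp contDiff_neg.contDiffOn (fun x hx => hs x hx))).div_const 2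
  · intro x hx
    rw [SymU_fderiv2 hD h.u2 hs hx]
    have a1 := h.helm x hx
    have a2 := h.helm (-x) (hs x hx)
    have e : (∑ i : Fin 3, ((2⁻¹ : ℝ) • (fderiv ℝ (fderiv ℝ u) x + fderiv ℝ (fderiv ℝ u) (-x)))
        (ee i) (ee i)) = 2⁻¹ * ((∑ i : Fin 3, fderiv ℝ (fderiv ℝ u) x (ee i) (ee i)) +
          (∑ i : Fin 3, fderiv ℝ (fderiv ℝ u) (-x) (ee i) (ee i))) := by
      rw [← Finset.sum_add_distrib, Finset.mul_sum]
      rfl
    rw [e]
    linear_combination (2⁻¹ : ℝ) * a1 + (2⁻¹ : ℝ) * a2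
  · intro x hx
    obtain ⟨b1, b2⟩ := h.bd x hx
    obtain ⟨c1, c2⟩ := h.bd (-x) (hfr x hx)
    have c1' := c1.comp (htn x)
    have c2' := c2.comp (htn x)
    constructor
    · have := (b1.add c1').div_const 2
      have e : (c + c) / 2 = c := by ring
      rw [e] at this
      exact this
    · have := (b2.sub c2').const_smul (2⁻¹ : ℝ)
      rw [sub_zero, smul_zero] at this
      refine this.congr' ?_
      exact eventually_of_mem self_mem_nhdsWithin fun y hy => (SymU_fderiv hD h.u2 hs hy).symm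

theorem trans_sol {D : Set E} {φ : E → ℝ} {k c : ℝ} {u : E → ℝ} (h : Sol D φ k c u) (x₀ : E) :
    Sol ((fun x => x + x₀) ⁻¹' D) (fun x => φ (x + x₀)) k c (fun x => u (x + x₀)) := by
  have hD : IsOpen D := SymU_open h
  have hpre : (fun x => x + x₀) ⁻¹' D = (Homeomorph.addRight x₀) ⁻¹' D := rfl
  have hfr : frontier ((fun x => x + x₀) ⁻¹' D) = (fun x => x + x₀) ⁻¹' (frontier D) := by
    rw [hpre, ← Homeomorph.preimage_frontier]
    rfl
  have htn : ∀ x : E, Tendsto (fun y => y + x₀) (𝓝[(fun x => x + x₀) ⁻¹' D] x)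
      (𝓝[D] (x + x₀)) := by
    intro x
    refine tendsto_nhdsWithin_iff.2 ⟨?_, ?_⟩
    · exact ((continuous_add_const x₀).tendsto x).mono_left nhdsWithin_le_nhds
    · exact eventually_of_mem self_mem_nhdsWithin fun y hy => hy
  have hf1 : ∀ f : E → ℝ, fderiv ℝ (fun x => f (x + x₀)) = fun x => fderiv ℝ f (x + x₀) := by
    intro f
    funext x
    exact fderiv_comp_add_right x₀
  have hf2 : ∀ x, fderiv ℝ (fderiv ℝ (fun x => u (x + x₀))) x =
      fderiv ℝ (fderiv ℝ u) (x + x₀) := by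
    intro x
    rw [hf1 u]
    exact fderiv_comp_add_right x₀
  refine ⟨?_, ?_, ?_, ?_, ?_, ?_, h.kpos, h.cne, ?_, ?_, ?_⟩
  · have : (fun x => x + x₀) ⁻¹' D = (fun x => x + (-x₀)) '' D := by
      ext x
      simp only [Set.mem_preimage, Set.mem_image]
      constructor
      · intro hx
        exact ⟨x + x₀, hx, by abel⟩
      · rintro ⟨y, hy, rfl⟩
        have : y + -x₀ + x₀ = y := by abel
        rw [this]; exact hy
    rw [this]
    obtain ⟨R, hR⟩ := h.bdd.subset_closedBall 0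
    refine (Metric.isBounded_closedBall (x := (0 : E)) (r := R + ‖x₀‖)).subset ?_
    rintro x ⟨y, hy, rfl⟩
    have h1 := hR hy
    rw [mem_closedBall_zero_iff] at h1 ⊢
    calc ‖y + -x₀‖ ≤ ‖y‖ + ‖-x₀‖ := norm_add_le _ _
      _ ≤ R + ‖x₀‖ := by rw [norm_neg]; linarith
  · rw [hpre]
    exact (Homeomorph.addRight x₀).isConnected_preimage.2 h.conn
  · exact h.smooth.comp (contDiff_id.add contDiff_const)
  · ext x
    rw [Set.mem_preimage, h.eqD]
    rfl
  · intro x hx
    rw [hf1 φ]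
    exact h.reg (x + x₀) hx
  · obtain ⟨g⟩ := h.sph
    rw [hfr]
    refine ⟨Homeomorph.trans ?_ g⟩
    exact (Homeomorph.addRight x₀).subtype (fun x => Iff.rfl)
  · exact h.u2.comp (contDiff_id.add contDiff_const).contDiffOn (fun x hx => hx)
  · intro x hx
    rw [hf2 x]
    exact h.helm (x + x₀) hx
  · intro x hx
    rw [hfr] at hx
    obtain ⟨b1, b2⟩ := h.bd (x + x₀) hx
    refine ⟨b1.comp (htn x), ?_⟩
    rw [hf1 u]
    exact b2.comp (htn x)

end Pool.Agent.H68.SC
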