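import Pool.Agent.H68.SC.Core
import Pool.Agent.H68.SC.Eig
import Pool.Agent.H68.SC.Rig1
import Pool.Agent.H68.SC.Rig2a
import Pool.Agent.H68.SC.Rig2b
import Pool.Agent.H68.SC.SymU
import Pool.Agent.H68.SC.NegU

/-!
# Comparison theorems (proved from the modules)
-/

set_option autoImplicit false

namespace Pool.Agent.H68.SC

open Filter Topology MeasureTheory Metric
open scoped ContDiff

theorem AtLeast.mono {S : Submodule ℝ (E → ℝ)} {Ω Ω' : Set E} {K : ℝ} {m : ℕ}
    (h : AtLeast S Ω K m) (h1 : Ω ⊆ Ω') : AtLeast S Ω' K m := by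
  obtain ⟨F, hF, h2⟩ := h
  exact ⟨F, hF.trans (inf_le_inf_right S (C1c_mono h1)), h2⟩

theorem AtMost.mono {S : Submodule ℝ (E → ℝ)} {Ω Ω' : Set E} {K : ℝ} {M : ℕ}
    (h : AtMost S Ω K M) (h1 : Ω' ⊆ Ω) : AtMost S Ω' K M := by
  obtain ⟨ε, hε, h2⟩ := h
  exact ⟨ε, hε, fun F hF => h2 F (hF.trans (inf_le_inf_right S (C1c_mono h1)))⟩

/-- the linear map `p ↦ ww U p` -/
noncomputable def wwL (U : E → ℝ) : (E × E) →ₗ[ℝ] (E → ℝ) where
  toFun := ww U
  map_add' := ww_add U
  map_smul' := by intro a p; exact ww_smul U a p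

/-- a subspace `P` of parameters on which the Killing derivatives have a kernel of dimension at most
one gives `finrank P - 1` independent Killing derivatives -/
theorem exists_indep (U : E → ℝ) (P : Submodule ℝ (E × E)) {n : ℕ}
    (hn : n + 1 ≤ Module.finrank ℝ P)
    (hk : Module.finrank ℝ (P ⊓ LinearMap.ker (wwL U) : Submodule ℝ (E × E)) ≤ 1) :
    ∃ p : Fin n → E × E, (∀ i, p i ∈ P) ∧ LinearIndependent ℝ (fun i => ww U (p i)) := by
  set T : P →ₗ[ℝ] (E → ℝ) := (wwL U).comp P.subtype with hT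
  have h1 := LinearMap.finrank_range_add_finrank_ker T
  have h2 : Module.finrank ℝ (LinearMap.ker T) ≤ 1 := by
    refine le_trans ?_ hk
    have h3 : Submodule.map P.subtype (LinearMap.ker T) ≤ P ⊓ LinearMap.ker (wwL U) := by
      rintro _ ⟨x, hx, rfl⟩
      refine ⟨x.2, ?_⟩
      have : T x = 0 := hx
      simpa [hT] using this
    have h4 : Module.finrank ℝ (Submodule.map P.subtype (LinearMap.ker T)) =
        Module.finrank ℝ (LinearMap.ker T) :=
      Submodule.finrank_map_subtype_eq P _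
    rw [← h4]
    exact Submodule.finrank_mono h3
  have h3 : n ≤ Module.finrank ℝ (LinearMap.range T) := by omega
  obtain ⟨v, hv⟩ := exists_linearIndependent_of_le_finrank h3
  have h4 : ∀ i, ∃ p : P, T p = (v i : E → ℝ) := fun i => (v i).2
  choose p hp using h4
  refine ⟨fun i => (p i : E × E), fun i => (p i).2, ?_⟩
  have h5 : (fun i => ww U (p i : E × E)) = fun i => ((v i : LinearMap.range T) : E → ℝ) := by
    funext i
    exact hp i
  rw [h5]
  exact hv.map' (LinearMap.range T).subtype (Submodule.ker_subtype _)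

/-- `D` is a ball or the kernel is at most one-dimensional -/
theorem ball_or {D : Set E} {φ : E → ℝ} {k c : ℝ} {u : E → ℝ} (h : Sol D φ k c u)
    (hD : ¬∃ (z : E) (r : ℝ), D = ball z r) (P : Submodule ℝ (E × E)) :
    Module.finrank ℝ (P ⊓ LinearMap.ker (wwL (extU D c u)) : Submodule ℝ (E × E)) ≤ 1 := by
  by_contra hc
  have h' := ext_UU h
  obtain ⟨q, hq⟩ := rigid1 h' (P ⊓ LinearMap.ker (wwL (extU D c u)))
    (fun p hp => hp.2) (by omega)
  exact hD (rigid2b h'.opn h.bdd h.conn h.sph (rigid2a h hq))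

theorem atLeast_max {S : Submodule ℝ (E → ℝ)} {Ω : Set E} {K : ℝ} {m : ℕ}
    (h : AtLeast S Ω K m) (h1 : AtLeast S Ω K 1) : AtLeast S Ω K (max m 1) := by
  rcases le_total m 1 with hm | hm
  · rw [max_eq_right hm]; exact h1
  · rw [max_eq_left hm]; exact h

/-- multiplicity at least five -/
theorem five {D : Set E} {φ : E → ℝ} {k c : ℝ} {u : E → ℝ} (h : Sol D φ k c u)
    (hD : ¬∃ (z : E) (r : ℝ), D = ball z r) :
    ∃ w : Fin 5 → E → ℝ, LinearIndependent ℝ w ∧ ∀ i, Eigf D (k ^ 2) (w i) := by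
  obtain ⟨p, -, hp⟩ := exists_indep (extU D c u) ⊤ (n := 5)
    (by rw [finrank_top, Module.finrank_prod, finrank_euclideanSpace_fin]) (ball_or h hD ⊤)
  exact ⟨_, hp, fun i => ww_eigf (ext_UU h) (p i)⟩

theorem mainA {D : Set E} {φ : E → ℝ} {k c : ℝ} {u : E → ℝ} (h : Sol D φ k c u)
    {Ω₁ Ω₂ : Set E} (h1 : Ω₁ ⊆ D) (h2 : D ⊆ Ω₂) {m : ℕ} (hl : AtLeast (Sy 1) Ω₁ (k ^ 2) m)
    (hu : AtMost (Sy 1) Ω₂ (k ^ 2) (max m 1 + 4)) : ∃ (z : E) (r : ℝ), D = ball z r := by
  by_contra hD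
  have h' := ext_UU h
  obtain ⟨p, -, hp⟩ := exists_indep (extU D c u) ⊤ (n := 5)
    (by rw [finrank_top, Module.finrank_prod, finrank_euclideanSpace_fin]) (ball_or h hD ⊤)
  have := core h'.opn h'.bdd (K := k ^ 2) (by have := h'.kpos; positivity) (s := 1) (Or.inl rfl)
    (by intro x hx; simpa using hx) (fun i => ww (extU D c u) (p i)) (fun i => ww_eigf h' (p i))
    (fun i x => by rw [one_smul]) hp
    (atLeast_max (hl.mono h1) (neg1 h' (fun x => by rw [one_smul]))) (hu.mono h2)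
  omega

/-- the rotational parameters -/
def Prot : Submodule ℝ (E × E) := Submodule.prod ⊥ ⊤

theorem finrank_Prot : Module.finrank ℝ Prot = 3 := by
  have h : Prot = LinearMap.range (LinearMap.inr ℝ E E) := by
    ext p
    constructor
    · rintro ⟨h1, -⟩
      exact ⟨p.2, by ext1 <;> simp_all⟩
    · rintro ⟨b, rfl⟩
      exact ⟨by simp, trivial⟩
  rw [h, LinearMap.finrank_range_of_inj LinearMap.inr_injective, finrank_euclideanSpace_fin]

theorem mainS {D : Set E} {φ : E → ℝ} {k c : ℝ} {u : E → ℝ} (h : Sol D φ k c u)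
    (hs : ∀ x ∈ D, -x ∈ D)
    {Ω₁ Ω₂ : Set E} (h1 : Ω₁ ⊆ D) (h2 : D ⊆ Ω₂) {m : ℕ} (hl : AtLeast (Sy (-1)) Ω₁ (k ^ 2) m)
    (hu : AtMost (Sy (-1)) Ω₂ (k ^ 2) (max m 1 + 1)) : ∃ (z : E) (r : ℝ), D = ball z r := by
  by_contra hD
  have hv := symU h hs
  set v : E → ℝ := fun x => (u x + u (-x)) / 2 with hvdef
  have h' := ext_UU hv
  set U := extU D c v with hU
  have hDn : ∀ x, -x ∈ D ↔ x ∈ D := fun x => ⟨fun hx => by simpa using hs _ hx, hs x⟩
  have heven : ∀ x, U (-x) = U x := by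
    intro x
    simp only [hU, extU, hvdef]
    by_cases hx : x ∈ D
    · rw [if_pos hx, if_pos ((hDn x).2 hx), neg_neg]; ring
    · rw [if_neg hx, if_neg (fun hh => hx ((hDn x).1 hh))]
  have hfd : ∀ x, fderiv ℝ U (-x) = -fderiv ℝ U x := by
    intro x
    have h3 : U = fun y => U (-y) := by funext y; rw [heven]
    have h4 : fderiv ℝ U x = fderiv ℝ (fun y => U (-y)) x := by rw [← h3]
    have h5 : HasFDerivAt (fun y : E => U (-y)) ((fderiv ℝ U (-x)).comp (-ContinuousLinearMap.id ℝ E)) x :=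
      HasFDerivAt.comp x (h'.C1.differentiable one_ne_zero (-x)).hasFDerivAt (hasFDerivAt_id x).neg
    rw [h4, h5.fderiv]
    simp
  obtain ⟨p, hpP, hp⟩ := exists_indep U Prot (n := 2) (by rw [finrank_Prot]) (ball_or hv hD Prot)
  have := core h'.opn h'.bdd (K := k ^ 2) (by have := h'.kpos; positivity) (s := -1) (Or.inr rfl)
    (by intro x hx; simpa using hs x hx) (fun i => ww U (p i)) (fun i => ww_eigf h' (p i))
    (fun i x => ?_) hp
    (atLeast_max (hl.mono h1) (neg1 h' (fun x => by simpa using heven x))) (hu.mono h2)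
  · omega
  · have h5 : (p i).1 = 0 := by simpa using (hpP i).1
    have h6 : kf (p i) (-x) = -kf (p i) x := by
      unfold kf
      rw [h5, zero_add, zero_add]
      have := crs_smul_right (-1) (p i).2 x
      simpa using this
    simp only [neg_smul, one_smul]
    unfold ww
    rw [h6, hfd]
    simp

end Pool.Agent.H68.SC
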