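import Pool.Agent.H68.SC.JZero

/-!
# Module PicA (about 150 lines): Picone's identity on one nodal interval

PROOF. `J r = jl l (k r)`, `J' r = k djl l (k r)`, `q r = l (l + 1) - k² r²`; for `r > 0`
`HasDerivAt J (J' r) r` and `HasDerivAt (fun r => r² J' r) (q r * J r) r` (`jl_deriv`, `jl_ode` with
`t = k r`). On `(a, b)`, `J ≠ 0`; `W r = r² f² J' / J` is differentiable with
`W' = q f² + 2 r² f f' J' / J - r² f² (J' / J)²`, so
`r² f'² + q f² - W' = r² (f' - f J' / J)² ≥ 0`. For `a < x < y < b`: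
`∫ r in x..y, (r² f'² + q f²) ≥ W y - W x` (`intervalIntegral` FTC on `[x, y]`; or: the function
`Φ r = ∫ s in a..r, (...) - W r` has nonnegative derivative on `(a, b)`, hence is monotone there).
Limits: `W y → 0` as `y → b-`: if `J b ≠ 0` by continuity (`f b = 0`); if `J b = 0` then
`J' b ≠ 0` (`djl_ne`), `J y / (y - b) → J' b`, `f y / (y - b) → f' b`, so
`W y = y² J' y (f y / (y-b))² / (J y / (y-b)) * (y - b) → 0`. The same at `a` if `a > 0`. If `a = 0`:
`|W x| = x f² |k x djl l (k x)| / |jl l (k x)| ≤ x f² (l + 1) → 0` (`djl_bound`, `jl_pos_small`).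
-/

set_option autoImplicit false

namespace Pool.Agent.H68.SC

open Filter Topology MeasureTheory Metric
open scoped ContDiff

private theorem pa_J (l : ℕ) {k r : ℝ} (hk : 0 < k) (hr : 0 < r) :
    HasDerivAt (fun r => jl l (k * r)) (k * djl l (k * r)) r := by
  have h1 : HasDerivAt (fun r : ℝ => k * r) k r := by
    simpa using (hasDerivAt_id r).const_mul k
  have h2 := (jl_deriv l (mul_pos hk hr)).comp r h1
  rw [mul_comm] at h2
  exact h2

private theorem pa_V (l : ℕ) {k r : ℝ} (hk : 0 < k) (hr : 0 < r) :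
    HasDerivAt (fun r => r ^ 2 * (k * djl l (k * r)))
      (((l : ℝ) * (l + 1) - k ^ 2 * r ^ 2) * jl l (k * r)) r := by
  have h1 : HasDerivAt (fun r : ℝ => k * r) k r := by
    simpa using (hasDerivAt_id r).const_mul k
  have h2 := ((jl_ode l (mul_pos hk hr)).comp r h1).const_mul (k⁻¹)
  have hk0 : k ≠ 0 := hk.ne'
  have e1 : (fun r => r ^ 2 * (k * djl l (k * r))) =
      fun y => k⁻¹ * ((fun t => t ^ 2 * djl l t) ∘ fun r => k * r) y := by
    funext y
    simp only [Function.comp]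
    field_simp
  have e2 : ((l : ℝ) * (l + 1) - k ^ 2 * r ^ 2) * jl l (k * r) =
      k⁻¹ * (((l : ℝ) * (l + 1) - (k * r) ^ 2) * jl l (k * r) * k) := by
    field_simp
  rw [e1, e2]
  exact h2

/-- the function `W` -/
private noncomputable def paW (l : ℕ) (k : ℝ) (f : ℝ → ℝ) (r : ℝ) : ℝ :=
  f r ^ 2 * (r ^ 2 * (k * djl l (k * r))) / jl l (k * r)

private theorem pa_W (l : ℕ) {k r : ℝ} (hk : 0 < k) (hr : 0 < r) {f f' : ℝ → ℝ}
    (hf : HasDerivAt f (f' r) r) (h0 : jl l (k * r) ≠ 0) :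
    ∃ w, HasDerivAt (paW l k f) w r ∧
      w ≤ r ^ 2 * f' r ^ 2 + ((l : ℝ) * (l + 1) - k ^ 2 * r ^ 2) * f r ^ 2 := by
  have h1 := ((hf.pow 2).mul (pa_V l hk hr)).div (pa_J l hk hr) h0
  refine ⟨_, h1, ?_⟩
  simp only [Pi.pow_apply, Pi.mul_apply]
  set J := jl l (k * r) with hJ
  set D := k * djl l (k * r) with hD
  have h2 : r ^ 2 * f' r ^ 2 + ((l : ℝ) * (l + 1) - k ^ 2 * r ^ 2) * f r ^ 2 -
      (((((2 : ℕ) : ℝ) * f r ^ (2 - 1) * f' r) * (r ^ 2 * D) +
        f r ^ 2 * (((l : ℝ) * (l + 1) - k ^ 2 * r ^ 2) * J)) * J -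
        f r ^ 2 * (r ^ 2 * D) * D) / J ^ 2 = r ^ 2 * (f' r - f r * D / J) ^ 2 := by
    field_simp
    push_cast
    ring
  have h3 : 0 ≤ r ^ 2 * (f' r - f r * D / J) ^ 2 := by positivity
  rw [← h2] at h3
  linarith

private theorem pa_djc (l : ℕ) {k c : ℝ} (hk : 0 < k) (hc : 0 < c) :
    ContinuousAt (fun r => k * djl l (k * r)) c := by
  have h1 : ContinuousAt (djl l) (k * c) :=
    (djl_smooth l).continuousOn.continuousAt (Ioi_mem_nhds (mul_pos hk hc))
  have h2 : ContinuousAt (fun r : ℝ => k * r) c := by fun_prop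
  exact continuousAt_const.mul (ContinuousAt.comp (f := fun r : ℝ => k * r) (g := djl l) h1 h2)

private theorem pa_lim (l : ℕ) {k c : ℝ} (hk : 0 < k) (hc : 0 < c) {f f' : ℝ → ℝ}
    (hf : HasDerivAt f (f' c) c) (h0 : f c = 0) : Tendsto (paW l k f) (𝓝[≠] c) (𝓝 0) := by
  have hd := pa_djc l hk hc
  have hJ := pa_J l hk hc
  by_cases hz : jl l (k * c) = 0
  · have hne : k * djl l (k * c) ≠ 0 := mul_ne_zero hk.ne' (djl_ne l (mul_pos hk hc) hz)
    have s1 := hasDerivAt_iff_tendsto_slope.1 hf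
    have s2 := hasDerivAt_iff_tendsto_slope.1 hJ
    have s3 : Tendsto (fun r : ℝ => r - c) (𝓝[≠] c) (𝓝 0) := by
      have : Tendsto (fun r : ℝ => r - c) (𝓝 c) (𝓝 (c - c)) :=
        (continuous_id.sub continuous_const).tendsto c
      rw [sub_self] at this
      exact this.mono_left nhdsWithin_le_nhds
    have s4 : Tendsto (fun r : ℝ => r ^ 2 * (k * djl l (k * r))) (𝓝[≠] c)
        (𝓝 (c ^ 2 * (k * djl l (k * c)))) :=
      (((continuous_pow 2).continuousAt (x := c)).mul hd).tendsto.mono_left nhdsWithin_le_nhds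
    have s5 := ((s4.mul (s1.pow 2)).div s2 hne).mul s3
    rw [mul_zero] at s5
    refine s5.congr' ?_
    filter_upwards [self_mem_nhdsWithin] with r hr
    have hrc : r - c ≠ 0 := sub_ne_zero.2 hr
    have e1 : slope f c r = (r - c)⁻¹ * f r := by
      rw [slope_def_field, h0, sub_zero, div_eq_inv_mul]
    have e2 : slope (fun r => jl l (k * r)) c r = (r - c)⁻¹ * jl l (k * r) := by
      rw [slope_def_field, hz, sub_zero, div_eq_inv_mul]
    show r ^ 2 * (k * djl l (k * r)) * slope f c r ^ 2 / slope (fun r => jl l (k * r)) c r *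
      (r - c) = paW l k f r
    rw [e1, e2]
    unfold paW
    by_cases hjr : jl l (k * r) = 0
    · rw [hjr, mul_zero, div_zero, div_zero, zero_mul]
    · field_simp
  · have hW : ContinuousAt (paW l k f) c := by
      unfold paW
      exact ((hf.continuousAt.pow 2).mul (((continuous_pow 2).continuousAt (x := c)).mul hd)).div
        hJ.continuousAt hz
    have h1 : paW l k f c = 0 := by
      unfold paW
      rw [h0]
      simp
    have h2 := hW.tendsto
    rw [h1] at h2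
    exact h2.mono_left nhdsWithin_le_nhds

private theorem pa_lim0 (l : ℕ) {k : ℝ} (hk : 0 < k) {f f' : ℝ → ℝ}
    (hf : HasDerivAt f (f' 0) 0) : Tendsto (paW l k f) (𝓝[>] 0) (𝓝 0) := by
  have h1 : Tendsto (fun x : ℝ => f x ^ 2 * x * ((l : ℝ) + 1)) (𝓝[>] 0) (𝓝 0) := by
    have h2 : Tendsto (fun x : ℝ => f x ^ 2 * x * ((l : ℝ) + 1)) (𝓝 0)
        (𝓝 (f 0 ^ 2 * 0 * ((l : ℝ) + 1))) :=
      (((hf.continuousAt.tendsto.pow 2).mul tendsto_id).mul tendsto_const_nhds)
    rw [mul_zero, zero_mul] at h2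
    exact h2.mono_left nhdsWithin_le_nhds
  refine squeeze_zero_norm' ?_ h1
  have h3 : ∀ᶠ x in 𝓝[>] (0 : ℝ), x < 1 / k :=
    (eventually_lt_nhds (by positivity)).filter_mono nhdsWithin_le_nhds
  filter_upwards [h3, self_mem_nhdsWithin] with x hx1 hx0
  have hx : (0 : ℝ) < x := hx0
  have hkx : 0 < k * x := mul_pos hk hx
  have hkx1 : k * x ≤ 1 := by
    rw [lt_div_iff₀ hk] at hx1
    linarith
  have hpos := jl_pos_small l hkx hkx1
  have hb := djl_bound l hkx hkx1
  have e1 : paW l k f x = f x ^ 2 * x * (k * x * djl l (k * x)) / jl l (k * x) := by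
    unfold paW
    ring
  rw [e1, Real.norm_eq_abs, abs_div, abs_mul, abs_of_pos hpos,
    abs_of_nonneg (by positivity : 0 ≤ f x ^ 2 * x), div_le_iff₀ hpos]
  calc f x ^ 2 * x * |k * x * djl l (k * x)| ≤ f x ^ 2 * x * (((l : ℝ) + 1) * jl l (k * x)) :=
        mul_le_mul_of_nonneg_left hb (by positivity)
    _ = _ := by ring

theorem picA (l : ℕ) {k a b : ℝ} (hk : 0 < k) (ha : 0 ≤ a) (hab : a < b) {f f' : ℝ → ℝ}
    (hf : ∀ r, HasDerivAt f (f' r) r) (hf' : Continuous f')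
    (h0 : ∀ r ∈ Set.Ioo a b, jl l (k * r) ≠ 0) (h1 : a = 0 ∨ f a = 0) (h2 : f b = 0) :
    0 ≤ ∫ r in a..b, (r ^ 2 * f' r ^ 2 + ((l : ℝ) * (l + 1) - k ^ 2 * r ^ 2) * f r ^ 2) := by
  have hfc : Continuous f := continuous_iff_continuousAt.2 fun r => (hf r).continuousAt
  set G : ℝ → ℝ := fun r => r ^ 2 * f' r ^ 2 + ((l : ℝ) * (l + 1) - k ^ 2 * r ^ 2) * f r ^ 2
    with hG
  have hGc : Continuous G := by
    rw [hG]
    fun_prop
  have hP : ∀ x, HasDerivAt (fun x => ∫ r in a..x, G r) (G x) x := fun x =>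
    (hGc.integral_hasStrictDerivAt a x).hasDerivAt
  have hPc : Continuous fun x => ∫ r in a..x, G r :=
    continuous_iff_continuousAt.2 fun x => (hP x).continuousAt
  have hb : 0 < b := lt_of_le_of_lt ha hab
  -- the function `Φ`
  have hmono : MonotoneOn (fun x => (∫ r in a..x, G r) - paW l k f x) (Set.Ioo a b) := by
    have hder : ∀ x ∈ Set.Ioo a b, ∃ d, 0 ≤ d ∧
        HasDerivAt (fun x => (∫ r in a..x, G r) - paW l k f x) d x := by
      intro x hx
      have hx0 : 0 < x := lt_of_le_of_lt ha hx.1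
      obtain ⟨w, hw1, hw2⟩ := pa_W l hk hx0 (hf x) (h0 x hx)
      exact ⟨G x - w, sub_nonneg.2 hw2, (hP x).sub hw1⟩
    refine monotoneOn_of_deriv_nonneg (convex_Ioo a b) ?_ ?_ ?_
    · intro x hx
      obtain ⟨d, _, hd⟩ := hder x hx
      exact hd.continuousAt.continuousWithinAt
    · intro x hx
      rw [interior_Ioo] at hx
      obtain ⟨d, _, hd⟩ := hder x hx
      exact hd.differentiableAt.differentiableWithinAt
    · intro x hx
      rw [interior_Ioo] at hx
      obtain ⟨d, hd0, hd⟩ := hder x hx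
      rw [hd.deriv]
      exact hd0
  have hlimb : Tendsto (paW l k f) (𝓝[<] b) (𝓝 0) :=
    (pa_lim l hk hb (hf b) h2).mono_left (nhdsWithin_mono b fun x hx => ne_of_lt hx)
  have hlima : Tendsto (paW l k f) (𝓝[>] a) (𝓝 0) := by
    rcases eq_or_lt_of_le ha with ha0 | ha0
    · subst ha0
      exact pa_lim0 l hk (hf 0)
    · have hfa : f a = 0 := h1.resolve_left ha0.ne'
      exact (pa_lim l hk ha0 (hf a) hfa).mono_left (nhdsWithin_mono a fun x hx => ne_of_gt hx)
  have hLb : Tendsto (fun x => (∫ r in a..x, G r) - paW l k f x) (𝓝[<] b)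
      (𝓝 ((∫ r in a..b, G r) - 0)) :=
    ((hPc.tendsto b).mono_left nhdsWithin_le_nhds).sub hlimb
  have hLa : Tendsto (fun x => (∫ r in a..x, G r) - paW l k f x) (𝓝[>] a)
      (𝓝 ((∫ r in a..a, G r) - 0)) :=
    ((hPc.tendsto a).mono_left nhdsWithin_le_nhds).sub hlima
  rw [intervalIntegral.integral_same, sub_zero] at hLa
  rw [sub_zero] at hLb
  obtain ⟨c, hc1, hc2⟩ := exists_between hab
  have ea : ∀ᶠ x in 𝓝[>] a, x < c := (eventually_lt_nhds hc1).filter_mono nhdsWithin_le_nhds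
  have eb : ∀ᶠ x in 𝓝[<] b, c < x := (eventually_gt_nhds hc2).filter_mono nhdsWithin_le_nhds
  have k1 : (0 : ℝ) ≤ (∫ r in a..c, G r) - paW l k f c := by
    refine le_of_tendsto hLa ?_
    filter_upwards [ea, self_mem_nhdsWithin] with x hx1 hx2
    exact hmono ⟨hx2, hx1.trans hc2⟩ ⟨hc1, hc2⟩ hx1.le
  have k2 : (∫ r in a..c, G r) - paW l k f c ≤ ∫ r in a..b, G r := by
    refine ge_of_tendsto hLb ?_
    filter_upwards [eb, self_mem_nhdsWithin] with x hx1 hx2
    exact hmono ⟨hc1, hc2⟩ ⟨hc1.trans hx1, hx2⟩ hx1.le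
  exact k1.trans k2

end Pool.Agent.H68.SC
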