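import Pool.Agent.H68.SC.Basic
import Pool.Agent.H53.SH.Rot

/-!
# Module Polar (about 110 lines): polar coordinates

PROOF. `polar`: `MeasureTheory.Measure.measurePreserving_homeomorphUnitSphereProd` with
`MeasurePreserving.integral_comp` and `integral_prod` (order: first the sphere variable; use
`integral_prod_symm` or `Measure.prod_swap`), as in Mathlib's proof of `integral_fun_norm_addHaar`
(file HaarToSphere); `volumeIoiPow 2` is `withDensity` of `r ^ 2`. `homeomorphUnitSphereProd.symm
(y, r) = r • y`. `polarR`: `F` vanishes for `‖x‖ ≥ R`, so the inner integral vanishes for `r ≥ R`;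
`intervalIntegral.integral_of_le`. `F` is continuous with compact support, so integrable.
`sg_zero`: `sg` is an open-positive finite measure (`toSphere.instIsOpenPosMeasure`),
`Continuous.integral_pos_of_hasCompactSupport_nonneg_nonzero` or
`integral_eq_zero_iff_of_nonneg` with `Continuous.ae_eq_iff_eq`. `sg_neg`: `sg` is invariant under
`y ↦ -y`: by `toSphere_apply'` and the invariance of the volume under `x ↦ -x` (or by `polar` for
functions `ρ(‖x‖) f(x/‖x‖)`).
-/

set_option autoImplicit false

namespace Pool.Agent.H68.SC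

open Filter Topology MeasureTheory Metric
open scoped ContDiff

instance sg_finite : IsFiniteMeasure sg := by
  unfold sg; infer_instance

instance sg_openPos : sg.IsOpenPosMeasure := by
  unfold sg; infer_instance

private lemma pol_homeo (y : S2) (r : Set.Ioi (0 : ℝ)) :
    (((homeomorphUnitSphereProd E).symm (y, r) : ({0}ᶜ : Set E)) : E) = (r : ℝ) • (y : E) := by
  rfl

/-- the integrand in polar coordinates is integrable -/
theorem polar_int {F : E → ℝ} (hF : Integrable F) :
    Integrable (fun p : S2 × Set.Ioi (0 : ℝ) => F ((p.2 : ℝ) • (p.1 : E)))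
      (sg.prod (Measure.volumeIoiPow 2)) := by
  have hmp := (volume : Measure E).measurePreserving_homeomorphUnitSphereProd
  have hdim : Module.finrank ℝ E - 1 = 2 := by rw [finrank_euclideanSpace_fin]
  rw [hdim] at hmp
  have h1 := hmp.integrable_comp_emb (g := fun p : S2 × Set.Ioi (0 : ℝ) =>
    F ((p.2 : ℝ) • (p.1 : E))) (Homeomorph.measurableEmbedding _)
  refine h1.1 ?_
  have h2 : ((fun p : S2 × Set.Ioi (0 : ℝ) => F ((p.2 : ℝ) • (p.1 : E))) ∘
      (homeomorphUnitSphereProd E)) = fun x : ({0}ᶜ : Set E) => F x := by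
    funext x
    have h3 := pol_homeo (homeomorphUnitSphereProd E x).1 (homeomorphUnitSphereProd E x).2
    simp only [Function.comp]
    rw [← h3]
    simp
  rw [h2]
  have h4 : IntegrableOn F ({0}ᶜ : Set E) := hF.integrableOn
  exact (integrableOn_iff_comap_subtypeVal (measurableSet_singleton _).compl).1 h4

theorem polar {F : E → ℝ} (hF : Integrable F) :
    ∫ x, F x = ∫ r in Set.Ioi (0 : ℝ), r ^ 2 * ∫ y : S2, F (r • (y : E)) ∂sg := by
  have hmp := (volume : Measure E).measurePreserving_homeomorphUnitSphereProd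
  have hdim : Module.finrank ℝ E - 1 = 2 := by rw [finrank_euclideanSpace_fin]
  rw [hdim] at hmp
  have h0 : ∫ x, F x = ∫ x : ({0}ᶜ : Set E), F x ∂((volume : Measure E).comap (↑)) := by
    rw [integral_subtype_comap (measurableSet_singleton _).compl fun x => F x,
      restrict_compl_singleton]
  have h1 := hmp.integral_comp (Homeomorph.measurableEmbedding _)
    (fun p : S2 × Set.Ioi (0 : ℝ) => F ((p.2 : ℝ) • (p.1 : E)))
  have h2 : ∀ x : ({0}ᶜ : Set E), (fun p : S2 × Set.Ioi (0 : ℝ) => F ((p.2 : ℝ) • (p.1 : E)))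
      (homeomorphUnitSphereProd E x) = F x := by
    intro x
    have h3 := pol_homeo (homeomorphUnitSphereProd E x).1 (homeomorphUnitSphereProd E x).2
    simp only
    rw [← h3]
    simp
  simp only [h2] at h1
  rw [h0, h1]
  have h4 := integral_prod_symm _ (polar_int hF)
  have h5 : ∫ r : Set.Ioi (0 : ℝ), (∫ y : S2, F ((r : ℝ) • (y : E)) ∂sg)
      ∂(Measure.volumeIoiPow 2) = ∫ r in Set.Ioi (0 : ℝ), r ^ 2 * ∫ y : S2, F (r • (y : E)) ∂sg := by
    simp only [Measure.volumeIoiPow, ENNReal.ofReal]
    rw [integral_withDensity_eq_integral_smul]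
    · rw [integral_subtype_comap measurableSet_Ioi
        fun a => Real.toNNReal (a ^ 2) • ∫ y : S2, F (a • (y : E)) ∂sg]
      refine setIntegral_congr_fun measurableSet_Ioi fun x hx => ?_
      rw [NNReal.smul_def, Real.coe_toNNReal _ (pow_nonneg (le_of_lt hx) _), smul_eq_mul]
    · exact (measurable_subtype_coe.pow_const _).real_toNNReal
  rw [← h5]
  exact h4

theorem polarR {F : E → ℝ} (hF : Continuous F) {R : ℝ} (hR : 0 ≤ R)
    (h : ∀ x, R ≤ ‖x‖ → F x = 0) :
    ∫ x, F x = ∫ r in (0 : ℝ)..R, r ^ 2 * ∫ y : S2, F (r • (y : E)) ∂sg := by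
  have hcs : HasCompactSupport F := by
    refine HasCompactSupport.intro (isCompact_closedBall (0 : E) R) fun x hx => ?_
    refine h x ?_
    rw [mem_closedBall, dist_zero_right, not_le] at hx
    exact hx.le
  rw [polar (hF.integrable_of_hasCompactSupport hcs), intervalIntegral.integral_of_le hR]
  refine setIntegral_eq_of_subset_of_forall_sdiff_eq_zero measurableSet_Ioi
    Set.Ioc_subset_Ioi_self ?_
  rintro r ⟨hr, hr'⟩
  have hr1 : R < r := by
    by_contra hc
    exact hr' ⟨hr, not_lt.1 hc⟩
  have h1 : ∀ y : S2, F (r • (y : E)) = 0 := by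
    intro y
    refine h _ ?_
    rw [norm_smul, Real.norm_eq_abs, abs_of_pos (hR.trans_lt hr1)]
    simpa using hr1.le
  simp [h1]

theorem sg_zero {f : S2 → ℝ} (hf : Continuous f) (h : ∫ y, f y ^ 2 ∂sg = 0) : ∀ y, f y = 0 := by
  intro y
  by_contra hy
  have h1 : 0 < ∫ y, f y ^ 2 ∂sg := by
    refine Continuous.integral_pos_of_hasCompactSupport_nonneg_nonzero (x := y) (hf.pow 2)
      (HasCompactSupport.of_compactSpace _) (fun z => sq_nonneg _) (pow_ne_zero 2 hy)
  exact absurd h h1.ne'

theorem sg_neg (f : E → ℝ) : ∫ y : S2, f (-(y : E)) ∂sg = ∫ y : S2, f y ∂sg :=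
  Pool.H53.SH.integral_sphMap (LinearIsometryEquiv.neg ℝ) (fun y => f y)

/-- integrals over the spheres of radius `r` depend continuously on `r` -/
theorem sg_cont {F : E → ℝ} (hF : Continuous F) {g : E → ℝ} (hg : Continuous g) :
    Continuous fun r : ℝ => ∫ y : S2, F (r • (y : E)) * g y ∂sg := by
  have h1 : Continuous (Function.uncurry fun (r : ℝ) (y : S2) => F (r • (y : E)) * g y) := by
    refine Continuous.mul (hF.comp ?_) (hg.comp (continuous_subtype_val.comp continuous_snd))
    exact continuous_fst.smul (continuous_subtype_val.comp continuous_snd)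
  have h2 := continuous_parametric_integral_of_continuous (μ := sg) h1
    (isCompact_univ (X := S2))
  simpa using h2

end Pool.Agent.H68.SC
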