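import Pool.Agent.H68.SC.Basic

/-!
# Module TT1 (about 110 lines): the test functions `ζ(|x|) Y(x / |x|)`

PROOF. `ζ` vanishes on a neighbourhood of `0` (compact support inside `(0, r)`) and outside a
compact subset `[α, β] ⊂ (0, r)`. So `TT ζ Y = 0` near `0` and outside `{α ≤ ‖x‖ ≤ β}`, a compact
subset of `ball 0 r`; for `x ≠ 0` the function is `C¹` (`contDiffAt_norm`). `TT_sy`: `‖s x‖ = ‖x‖`;
for `x ≠ 0` `y = ‖x‖⁻¹ • x` has norm `1`, `H.parity`; for `x = 0` trivial (`s • 0 = 0`).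
`TT_rad`, `TT_tan` (`r' > 0`, `‖y‖ = 1`): along the ray `TT ζ Y (t • y) = ζ t * Y y` for `t > 0`, so
`fderiv (TT ζ Y) (ρ • y) y = deriv ζ ρ * Y y`. For `v = crs (ee a) (ρ • y) ⟂ y`: the derivative of the
norm along `v` is `0`, `x ↦ ‖x‖⁻¹ • x` has derivative `ρ⁻¹ • v = crs (ee a) y` along `v`, so
`LL a (TT ζ Y) (ρ • y) = ζ ρ * LL a Y y`.
-/

set_option autoImplicit false

namespace Pool.Agent.H68.SC

open Filter Topology MeasureTheory Metric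
open scoped ContDiff

private theorem tt_at {ζ : ℝ → ℝ} (h1 : ContDiff ℝ 1 ζ) {Y : E → ℝ} (hY : ContDiff ℝ ∞ Y)
    {x : E} (hx : x ≠ 0) : ContDiffAt ℝ 1 (TT ζ Y) x := by
  have hn : ContDiffAt ℝ 1 (fun z : E => ‖z‖) x := contDiffAt_norm ℝ hx
  have hi : ContDiffAt ℝ 1 (fun z : E => ‖z‖⁻¹) x := hn.inv (norm_ne_zero_iff.2 hx)
  have hN : ContDiffAt ℝ 1 (fun z : E => ‖z‖⁻¹ • z) x := hi.smul contDiffAt_id
  have hY1 : ContDiff ℝ 1 Y := hY.of_le (by exact_mod_cast le_top)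
  exact (h1.contDiffAt.comp x hn).mul (hY1.contDiffAt.comp x hN)

theorem TT_mem {ζ : ℝ → ℝ} (h1 : ContDiff ℝ 1 ζ) (h2 : HasCompactSupport ζ) {r : ℝ}
    (h3 : tsupport ζ ⊆ Set.Ioo 0 r) {Y : E → ℝ} (hY : ContDiff ℝ ∞ Y) :
    TT ζ Y ∈ C1c (ball 0 r) := by
  have hS : IsClosed {x : E | ‖x‖ ∈ tsupport ζ} := (isClosed_tsupport ζ).preimage continuous_norm
  have hsub : tsupport (TT ζ Y) ⊆ {x : E | ‖x‖ ∈ tsupport ζ} := by
    refine closure_minimal ?_ hS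
    intro x hx
    refine subset_tsupport ζ ?_
    intro h0
    exact hx (by unfold TT; rw [h0, zero_mul])
  have hball : {x : E | ‖x‖ ∈ tsupport ζ} ⊆ ball 0 r := by
    intro x hx
    rw [mem_ball, dist_zero_right]
    exact (h3 hx).2
  refine ⟨?_, ?_, hsub.trans hball⟩
  · rw [contDiff_iff_contDiffAt]
    intro x
    by_cases hx : x = 0
    · have h0 : ‖x‖ ∉ tsupport ζ := by
        intro hc
        have := (h3 hc).1
        rw [hx, norm_zero] at this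
        exact lt_irrefl _ this
      have h4 : TT ζ Y =ᶠ[𝓝 x] fun _ => 0 := by
        filter_upwards [hS.isOpen_compl.mem_nhds h0] with z hz
        unfold TT
        rw [image_eq_zero_of_notMem_tsupport hz, zero_mul]
      exact contDiffAt_const.congr_of_eventuallyEq h4
    · exact tt_at h1 hY hx
  · exact IsCompact.of_isClosed_subset (isCompact_closedBall (0 : E) r) (isClosed_tsupport _)
      (hsub.trans (hball.trans ball_subset_closedBall))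

theorem TT_sy (H : Harm) (ζ : ℝ → ℝ) {s : ℝ} (hs : s = 1 ∨ s = -1) {l : ℕ} (hl : s ^ l = 1)
    (i : Fin (H.d l)) : TT ζ (H.Y l i) ∈ Sy s := by
  intro x
  rcases hs with rfl | rfl
  · rw [one_smul]
  · by_cases hx : x = 0
    · rw [hx, smul_zero]
    · have hn : ‖x‖ ≠ 0 := norm_ne_zero_iff.2 hx
      have hy : ‖‖x‖⁻¹ • x‖ = 1 := by
        rw [norm_smul, norm_inv, norm_norm, inv_mul_cancel₀ hn]
      have h1 := H.parity l i _ hy
      rw [hl, one_mul] at h1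
      unfold TT
      rw [neg_one_smul, norm_neg, smul_neg, h1]

theorem TT_val (ζ : ℝ → ℝ) (Y : E → ℝ) {ρ : ℝ} (hρ : 0 < ρ) {y : E} (hy : ‖y‖ = 1) :
    TT ζ Y (ρ • y) = ζ ρ * Y y := by
  unfold TT
  have h1 : ‖ρ • y‖ = ρ := by rw [norm_smul, hy, mul_one, Real.norm_eq_abs, abs_of_pos hρ]
  rw [h1, smul_smul, inv_mul_cancel₀ hρ.ne', one_smul]

theorem TT_rad {ζ : ℝ → ℝ} (h1 : ContDiff ℝ 1 ζ) {Y : E → ℝ} (hY : ContDiff ℝ ∞ Y) {ρ : ℝ}
    (hρ : 0 < ρ) {y : E} (hy : ‖y‖ = 1) :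
    fderiv ℝ (TT ζ Y) (ρ • y) y = deriv ζ ρ * Y y := by
  have hy0 : y ≠ 0 := by
    intro h0
    rw [h0, norm_zero] at hy
    exact zero_ne_one hy
  have hx : ρ • y ≠ 0 := smul_ne_zero hρ.ne' hy0
  have hd : HasFDerivAt (TT ζ Y) (fderiv ℝ (TT ζ Y) (ρ • y)) (ρ • y) :=
    ((tt_at h1 hY hx).differentiableAt one_ne_zero).hasFDerivAt
  have hc : HasDerivAt (fun t : ℝ => t • y) y ρ := by
    simpa using (hasDerivAt_id ρ).smul_const y
  have e1 : HasDerivAt (fun t : ℝ => TT ζ Y (t • y)) (fderiv ℝ (TT ζ Y) (ρ • y) y) ρ :=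
    HasFDerivAt.comp_hasDerivAt (l := TT ζ Y) (f := fun t : ℝ => t • y) ρ hd hc
  have e2 : HasDerivAt (fun t : ℝ => ζ t * Y y) (deriv ζ ρ * Y y) ρ :=
    ((h1.differentiable one_ne_zero ρ).hasDerivAt).mul_const _
  have e3 : (fun t : ℝ => ζ t * Y y) =ᶠ[𝓝 ρ] fun t : ℝ => TT ζ Y (t • y) := by
    filter_upwards [lt_mem_nhds hρ] with t ht
    exact (TT_val ζ Y ht hy).symm
  exact (e1.congr_of_eventuallyEq e3).unique e2

theorem TT_tan {ζ : ℝ → ℝ} (h1 : ContDiff ℝ 1 ζ) {Y : E → ℝ} (hY : ContDiff ℝ ∞ Y) (a : Fin 3)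
    {ρ : ℝ} (hρ : 0 < ρ) {y : E} (hy : ‖y‖ = 1) :
    LL a (TT ζ Y) (ρ • y) = ζ ρ * LL a Y y := by
  have hy0 : y ≠ 0 := by
    intro h0
    rw [h0, norm_zero] at hy
    exact zero_ne_one hy
  have hx : ρ • y ≠ 0 := smul_ne_zero hρ.ne' hy0
  have hn : ‖ρ • y‖ = ρ := by rw [norm_smul, hy, mul_one, Real.norm_eq_abs, abs_of_pos hρ]
  set x : E := ρ • y with hxdef
  set v : E := crs (ee a) y with hv
  have hw : crs (ee a) x = ρ • v := by rw [hxdef, crs_smul_right]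
  have dn : DifferentiableAt ℝ (fun z : E => ‖z‖) x :=
    (contDiffAt_norm ℝ (n := 1) hx).differentiableAt one_ne_zero
  set N' := fderiv ℝ (fun z : E => ‖z‖) x with hN'
  have hNv : N' (ρ • v) = 0 := by
    have e1 : HasFDerivAt (fun z : E => ‖z‖ * ‖z‖) (‖x‖ • N' + ‖x‖ • N') x :=
      dn.hasFDerivAt.mul dn.hasFDerivAt
    have e2 : HasFDerivAt (fun z : E => ‖z‖ * ‖z‖) ((2 : ℕ) • (innerSL ℝ x)) x := by
      have e3 := (hasStrictFDerivAt_norm_sq x).hasFDerivAt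
      refine e3.congr_of_eventuallyEq (Eventually.of_forall fun z => ?_)
      simp only; ring
    have e4 := congrArg (fun T : E →L[ℝ] ℝ => T (ρ • v)) (e1.unique e2)
    have e5 : inner ℝ x (ρ • v) = 0 := by
      rw [← hw]; exact inner_crs _ _
    simp only [add_apply, smul_apply, smul_eq_mul,
      innerSL_apply_apply, e5, hn] at e4
    have e6 : ρ * N' (ρ • v) = 0 := by
      have : ρ * N' (ρ • v) + ρ * N' (ρ • v) = 0 := by simpa using e4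
      linarith
    exact (mul_eq_zero.1 e6).resolve_left hρ.ne'
  have di : HasFDerivAt (fun z : E => ‖z‖⁻¹) (-(‖x‖ ^ 2)⁻¹ • N') x :=
    (hasDerivAt_inv (norm_ne_zero_iff.2 hx)).comp_hasFDerivAt x dn.hasFDerivAt
  have dN : HasFDerivAt (fun z : E => ‖z‖⁻¹ • z)
      (‖x‖⁻¹ • ContinuousLinearMap.id ℝ E + (-(‖x‖ ^ 2)⁻¹ • N').smulRight x) x :=
    di.smul (hasFDerivAt_id x)
  have hNx : (‖x‖⁻¹ • x : E) = y := by
    rw [hn, hxdef, smul_smul, inv_mul_cancel₀ hρ.ne', one_smul]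
  have dY : HasFDerivAt Y (fderiv ℝ Y y) (‖x‖⁻¹ • x) := by
    rw [hNx]
    exact (hY.differentiable (by simp) y).hasFDerivAt
  have dYN := HasFDerivAt.comp (g := Y) (f := fun z : E => ‖z‖⁻¹ • z) x dY dN
  have dz : HasFDerivAt (fun z : E => ζ ‖z‖) (deriv ζ ‖x‖ • N') x :=
    ((h1.differentiable one_ne_zero ‖x‖).hasDerivAt).comp_hasFDerivAt x dn.hasFDerivAt
  have dT := dz.mul dYN
  have hT : TT ζ Y = (fun z : E => ζ ‖z‖) * (Y ∘ fun z : E => ‖z‖⁻¹ • z) := rfl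
  have hfd := dT.fderiv
  rw [← hT] at hfd
  have e7 : (‖x‖⁻¹ • ContinuousLinearMap.id ℝ E + (-(‖x‖ ^ 2)⁻¹ • N').smulRight x) (ρ • v) =
      v := by
    have e8 : (‖x‖⁻¹ • ContinuousLinearMap.id ℝ E + (-(‖x‖ ^ 2)⁻¹ • N').smulRight x) (ρ • v) =
        ‖x‖⁻¹ • (ρ • v) + (-(‖x‖ ^ 2)⁻¹ * N' (ρ • v)) • x := rfl
    rw [e8, hNv, mul_zero, zero_smul, add_zero, hn, smul_smul, inv_mul_cancel₀ hρ.ne', one_smul]
  have e9 : fderiv ℝ (TT ζ Y) x (ρ • v) = ζ ‖x‖ * (fderiv ℝ Y y)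
      ((‖x‖⁻¹ • ContinuousLinearMap.id ℝ E + (-(‖x‖ ^ 2)⁻¹ • N').smulRight x) (ρ • v)) +
      Y (‖x‖⁻¹ • x) * (deriv ζ ‖x‖ * N' (ρ • v)) := by
    rw [hfd]; rfl
  unfold LL
  rw [hw, e9, e7, hNv, hn]
  ring

end Pool.Agent.H68.SC
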