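import Pool.Agent.H68.SC.Kill

/-!
# Module WeakA (about 170 lines): Killing derivatives are weak Dirichlet eigenfunctions

PROOF. `X = kf p`, `X j` its components, `B i j = ∂_i X_j` (constants, `B i j = - B j i`, as
`X = a + b × x`), `w = ww U p = ∑_j X_j ∂_j U` (`fderiv_sum`). Let `ψ` be `C²` with compact support
in `D`. On `D` the integrand is the divergence `∑_j ∂_j F_j` of the `C¹` functions
`F_j = X_j ∇U·∇ψ - ∂_j U Xψ - k² (U + c) X_j ψ` with compact support, where `Xψ = ∑_l X_l ∂_l ψ`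
(product rule, symmetry of the second derivatives of `U` and `ψ`, `B` skew, `helm`), and
`integral_pd` gives the claim.
-/

set_option autoImplicit false

namespace Pool.Agent.H68.SC

open Filter Topology MeasureTheory Metric
open scoped ContDiff

/-- the linear form `y ↦ (b × y)_j` -/
private noncomputable def WLc (b : E) (j : Fin 3) : E →L[ℝ] ℝ :=
  LinearMap.toContinuousLinearMap
    { toFun := fun y => crs b y j
      map_add' := fun y z => by rw [crs_add_right]; rfl
      map_smul' := fun a y => by rw [crs_smul_right]; rfl }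

private theorem WLc_apply (b : E) (j : Fin 3) (y : E) : WLc b j y = crs b y j := rfl

private theorem kf_has (p : E × E) (j : Fin 3) (x : E) :
    HasFDerivAt (fun y => kf p y j) (WLc p.2 j) x := by
  have h : (fun y => kf p y j) = fun y => p.1 j + WLc p.2 j y := rfl
  rw [h]
  exact (WLc p.2 j).hasFDerivAt.const_add _

private theorem pd_kf (p : E × E) (i j : Fin 3) (x : E) :
    pd (fun y => kf p y j) i x = crs p.2 (ee i) j := by
  unfold pd
  rw [(kf_has p j x).fderiv, WLc_apply]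

private theorem B_skew (b : E) (i j : Fin 3) : crs b (ee i) j = -crs b (ee j) i := by
  fin_cases i <;> fin_cases j <;> simp [crs]

private theorem pd_pd {f : E → ℝ} {x : E} (h : DifferentiableAt ℝ (fderiv ℝ f) x)
    (i j : Fin 3) : pd (pd f i) j x = fderiv ℝ (fderiv ℝ f) x (ee j) (ee i) := by
  have h1 := (h.hasFDerivAt.clm_apply (hasFDerivAt_const (ee i) x)).fderiv
  unfold pd
  rw [h1]
  simp

private theorem pd_symm {f : E → ℝ} {x : E} (h : ContDiffAt ℝ 2 f x) (i j : Fin 3) :
    pd (pd f i) j x = pd (pd f j) i x := by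
  have h1 : DifferentiableAt ℝ (fderiv ℝ f) x :=
    (h.fderiv_right (m := 1) (by norm_num)).differentiableAt one_ne_zero
  rw [pd_pd h1, pd_pd h1]
  exact (h.isSymmSndFDerivAt (by simp)) (ee j) (ee i)

private theorem cd_pd {f : E → ℝ} {x : E} (h : ContDiffAt ℝ 2 f x) (i : Fin 3) :
    ContDiffAt ℝ 1 (pd f i) x :=
  (h.fderiv_right (m := 1) (by norm_num)).clm_apply contDiffAt_const

private theorem pd_sum3 {f : Fin 3 → E → ℝ} {x : E} (h : ∀ i, DifferentiableAt ℝ (f i) x)
    (j : Fin 3) : pd (fun y => ∑ i, f i y) j x = ∑ i, pd (f i) j x := by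
  unfold pd
  rw [fderiv_fun_sum fun i _ => h i]
  simp

/-- the vector field whose divergence is the integrand -/
private noncomputable def FF (k c : ℝ) (U ψ : E → ℝ) (p : E × E) (j : Fin 3) (y : E) : ℝ :=
  (kf p y j * gg U ψ y - pd U j y * ∑ l, kf p y l * pd ψ l y) -
    k ^ 2 * ((U y + c) * (kf p y j * ψ y))

private theorem FF_zero {k c : ℝ} {U ψ : E → ℝ} {p : E × E} {x : E} (hx : x ∉ tsupport ψ)
    (j : Fin 3) : FF k c U ψ p j x = 0 := by
  have h0 : ψ x = 0 := image_eq_zero_of_notMem_tsupport hx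
  have h1 : ∀ i, pd ψ i x = 0 := fun i => pd_zero_of hx i
  simp [FF, gg, h0, h1]

private theorem FF_C1 {D : Set E} {k c : ℝ} {U : E → ℝ} (h : UU D k c U) (p : E × E) {ψ : E → ℝ}
    (h1 : ContDiff ℝ 2 ψ) (h3 : tsupport ψ ⊆ D) (j : Fin 3) :
    ContDiff ℝ 1 (FF k c U ψ p j) := by
  rw [contDiff_iff_contDiffAt]
  intro x
  by_cases hx : x ∈ tsupport ψ
  · have hD := h.opn.mem_nhds (h3 hx)
    have hU : ContDiffAt ℝ 2 U x := h.C2.contDiffAt hD
    have hψ : ContDiffAt ℝ 2 ψ x := h1.contDiffAt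
    have hK : ∀ l, ContDiffAt ℝ 1 (fun y => kf p y l) x := fun l => by
      have : (fun y => kf p y l) = fun y => p.1 l + WLc p.2 l y := rfl
      rw [this]
      exact contDiffAt_const.add (WLc p.2 l).contDiff.contDiffAt
    have hg : ContDiffAt ℝ 1 (gg U ψ) x := by
      unfold gg
      exact ContDiffAt.sum fun i _ => (cd_pd hU i).mul (cd_pd hψ i)
    have hs : ContDiffAt ℝ 1 (fun y => ∑ l, kf p y l * pd ψ l y) x :=
      ContDiffAt.sum fun i _ => (hK i).mul (cd_pd hψ i)
    have hU1 : ContDiffAt ℝ 1 U x := hU.of_le (by norm_num)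
    have hψ1 : ContDiffAt ℝ 1 ψ x := hψ.of_le (by norm_num)
    exact (((hK j).mul hg).sub ((cd_pd hU j).mul hs)).sub
      (contDiffAt_const.mul ((hU1.add contDiffAt_const).mul ((hK j).mul hψ1)))
  · have h0 : FF k c U ψ p j =ᶠ[𝓝 x] fun _ => 0 := by
      filter_upwards [(isClosed_tsupport ψ).isOpen_compl.mem_nhds hx] with y hy
      exact FF_zero hy j
    exact contDiffAt_const.congr_of_eventuallyEq h0

private theorem pointwise {D : Set E} {k c : ℝ} {U : E → ℝ} (h : UU D k c U) (p : E × E)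
    {ψ : E → ℝ} (h1 : ContDiff ℝ 2 ψ) {x : E} (hx : x ∈ D) :
    gg (ww U p) ψ x - k ^ 2 * (ww U p x * ψ x) = ∑ j, pd (FF k c U ψ p j) j x := by
  have hD := h.opn.mem_nhds hx
  have hU : ContDiffAt ℝ 2 U x := h.C2.contDiffAt hD
  have hψ : ContDiffAt ℝ 2 ψ x := h1.contDiffAt
  have dU : DifferentiableAt ℝ U x := hU.differentiableAt two_ne_zero
  have dψ : DifferentiableAt ℝ ψ x := hψ.differentiableAt two_ne_zero
  have du : ∀ i, DifferentiableAt ℝ (pd U i) x := fun i => (cd_pd hU i).differentiableAt one_ne_zero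
  have dP : ∀ i, DifferentiableAt ℝ (pd ψ i) x := fun i => (cd_pd hψ i).differentiableAt one_ne_zero
  have dK : ∀ i, DifferentiableAt ℝ (fun y => kf p y i) x := fun i =>
    (kf_has p i x).differentiableAt
  have ew : ww U p = fun y => ∑ j, kf p y j * pd U j y := by
    funext y; exact fderiv_sum U y (kf p y)
  have e1 : ∀ i, pd (ww U p) i x =
      ∑ j, (kf p x j * pd (pd U j) i x + pd U j x * crs p.2 (ee i) j) := by
    intro i
    rw [ew, pd_sum3 (f := fun j y => kf p y j * pd U j y) (fun j => (dK j).mul (du j))]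
    refine Finset.sum_congr rfl fun j _ => ?_
    rw [pd_mul (dK j) (du j), pd_kf]
  have dg : DifferentiableAt ℝ (gg U ψ) x := by
    unfold gg
    exact DifferentiableAt.fun_sum fun i _ => (du i).mul (dP i)
  have eg : ∀ j, pd (gg U ψ) j x =
      ∑ i, (pd U i x * pd (pd ψ i) j x + pd ψ i x * pd (pd U i) j x) := by
    intro j
    have : gg U ψ = fun y => ∑ i, pd U i y * pd ψ i y := rfl
    rw [this, pd_sum3 (f := fun i y => pd U i y * pd ψ i y) (fun i => (du i).mul (dP i))]
    exact Finset.sum_congr rfl fun i _ => pd_mul (du i) (dP i) j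
  have ds : DifferentiableAt ℝ (fun y => ∑ l, kf p y l * pd ψ l y) x :=
    DifferentiableAt.fun_sum fun i _ => (dK i).mul (dP i)
  have es : ∀ j, pd (fun y => ∑ l, kf p y l * pd ψ l y) j x =
      ∑ l, (kf p x l * pd (pd ψ l) j x + pd ψ l x * crs p.2 (ee j) l) := by
    intro j
    rw [pd_sum3 (f := fun l y => kf p y l * pd ψ l y) (fun i => (dK i).mul (dP i))]
    refine Finset.sum_congr rfl fun l _ => ?_
    rw [pd_mul (dK l) (dP l), pd_kf]
  have eF : ∀ j, pd (FF k c U ψ p j) j x =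
      (kf p x j * (∑ i, (pd U i x * pd (pd ψ i) j x + pd ψ i x * pd (pd U i) j x)) +
        gg U ψ x * crs p.2 (ee j) j -
      (pd U j x * (∑ l, (kf p x l * pd (pd ψ l) j x + pd ψ l x * crs p.2 (ee j) l)) +
        (∑ l, kf p x l * pd ψ l x) * pd (pd U j) j x)) -
      k ^ 2 * ((U x + c) * (kf p x j * pd ψ j x + ψ x * crs p.2 (ee j) j) +
        (kf p x j * ψ x) * pd U j x) := by
    intro j
    have dUc : DifferentiableAt ℝ (fun y => U y + c) x := dU.add_const c
    have eUc : pd (fun y => U y + c) j x = pd U j x := by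
      unfold pd
      rw [fderiv_add_const]
    have d1 : DifferentiableAt ℝ (fun y => kf p y j * gg U ψ y) x := (dK j).mul dg
    have d2 : DifferentiableAt ℝ (fun y => pd U j y * ∑ l, kf p y l * pd ψ l y) x :=
      (du j).mul ds
    have d3 : DifferentiableAt ℝ (fun y => kf p y j * ψ y) x := (dK j).mul dψ
    have d4 : DifferentiableAt ℝ (fun y => (U y + c) * (kf p y j * ψ y)) x := dUc.mul d3
    have hF : FF k c U ψ p j = fun y => (kf p y j * gg U ψ y - pd U j y *
      ∑ l, kf p y l * pd ψ l y) - k ^ 2 * ((U y + c) * (kf p y j * ψ y)) := rfl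
    have d5 : DifferentiableAt ℝ (fun y => kf p y j * gg U ψ y - pd U j y *
      ∑ l, kf p y l * pd ψ l y) x := d1.sub d2
    have d6 : DifferentiableAt ℝ (fun y => k ^ 2 * ((U y + c) * (kf p y j * ψ y))) x :=
      d4.const_mul _
    rw [hF, pd_sub d5 d6, pd_sub d1 d2, pd_const_mul _ d4,
      pd_mul (dK j) dg, pd_mul (du j) ds, pd_mul dUc d3, pd_mul (dK j) dψ, eg, es, eUc, pd_kf]
  have hh := h.helm x hx
  have s00 := B_skew p.2 0 0
  have s11 := B_skew p.2 1 1
  have s22 := B_skew p.2 2 2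
  have s01 := B_skew p.2 0 1
  have s02 := B_skew p.2 0 2
  have s12 := B_skew p.2 1 2
  have z0 : crs p.2 (ee 0) 0 = 0 := by linarith
  have z1 : crs p.2 (ee 1) 1 = 0 := by linarith
  have z2 : crs p.2 (ee 2) 2 = 0 := by linarith
  have u01 := pd_symm hU 0 1
  have u02 := pd_symm hU 0 2
  have u12 := pd_symm hU 1 2
  have v01 := pd_symm hψ 0 1
  have v02 := pd_symm hψ 0 2
  have v12 := pd_symm hψ 1 2
  have egg : gg (ww U p) ψ x = ∑ i, pd (ww U p) i x * pd ψ i x := rfl
  have egU : gg U ψ x = ∑ i, pd U i x * pd ψ i x := rfl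
  have eww : ww U p x = ∑ j, kf p x j * pd U j x := fderiv_sum U x (kf p x)
  rw [egg, eww]
  simp only [e1, eF, egU]
  simp only [Fin.sum_univ_three] at hh ⊢
  rw [z0, z1, z2, s01, s02, s12, u01, u02, u12, v01, v02, v12]
  have hh2 : k ^ 2 * (U x + c) = -(pd (pd U 0) 0 x + pd (pd U 1) 1 x + pd (pd U 2) 2 x) := by
    linarith
  linear_combination (kf p x 0 * pd ψ 0 x + kf p x 1 * pd ψ 1 x + kf p x 2 * pd ψ 2 x) * hh

theorem weakA {D : Set E} {k c : ℝ} {U : E → ℝ} (h : UU D k c U) (p : E × E) {ψ : E → ℝ}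
    (h1 : ContDiff ℝ 2 ψ) (h2 : HasCompactSupport ψ) (h3 : tsupport ψ ⊆ D) :
    ∫ x, (gg (ww U p) ψ x - k ^ 2 * (ww U p x * ψ x)) = 0 := by
  have hcs : ∀ j, HasCompactSupport (FF k c U ψ p j) := fun j =>
    HasCompactSupport.intro h2 fun x hx => FF_zero hx j
  have hC1 : ∀ j, ContDiff ℝ 1 (FF k c U ψ p j) := fun j => FF_C1 h p h1 h3 j
  have e : ∀ x, gg (ww U p) ψ x - k ^ 2 * (ww U p x * ψ x) =
      ∑ j, pd (FF k c U ψ p j) j x := by
    intro x
    by_cases hx : x ∈ tsupport ψ
    · exact pointwise h p h1 (h3 hx)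
    · have h0 : ψ x = 0 := image_eq_zero_of_notMem_tsupport hx
      have hi : ∀ i, pd ψ i x = 0 := fun i => pd_zero_of hx i
      have hz : ∀ j, pd (FF k c U ψ p j) j x = 0 := fun j => by
        have hz0 : FF k c U ψ p j =ᶠ[𝓝 x] fun _ => 0 := by
          filter_upwards [(isClosed_tsupport ψ).isOpen_compl.mem_nhds hx] with y hy
          exact FF_zero hy j
        rw [pd_congr hz0]
        simp [pd]
      simp [gg, h0, hi, hz]
  simp only [e]
  rw [integral_finsetSum]
  · exact Finset.sum_eq_zero fun j _ => integral_pd (hC1 j) (hcs j) j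
  · intro j _
    exact integrable_cc (continuous_pd (hC1 j) j) (hasCompactSupport_pd (hcs j) j)

end Pool.Agent.H68.SC
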